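import Pool.Agent.Ady.Stmts
import Pool.Agent.Olsh.Line

/-!
# The axis of a lift and the axis of its image are close
-/

set_option autoImplicit false

namespace Pool.Agent.Ady

open Pool.Agent.Olsh Filter Topology

namespace AXIM

theorem two_bt {V : Type} {d : V → V → ℕ} {δ : ℕ} (hh : Hyp d δ) (hd : IsGM d) {x y p q : V}
    (hp : Bt d x p y) (hq : Bt d x q y) (h1 : d x p = d x q) : d p q ≤ 2 * δ := by
  have h := hh x p y q
  have e1 := hd.comm y q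
  have e2 := hd.comm p y
  have e3 := hd.comm q y
  unfold Bt at hp hq
  omega

/-- lower bound for the stable length from doubling -/
theorem slen_ge {G V : Type} [Group G] [MulAction G V] {d : V → V → ℕ} (hG : IsomAct G d)
    (hd : IsGM d) (h : G) (v : V) (c : ℕ)
    (hdb : ∀ j : ℕ, 2 * d v (h ^ j • v) ≤ d v (h ^ (2 * j) • v) + c) :
    (d v (h • v) : ℝ) ≤ slen d h + c := by
  have h1 : ∀ i : ℕ, (2 : ℝ) ^ i * (d v (h • v) - c) + c ≤ d v (h ^ 2 ^ i • v) := by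
    intro i
    induction i with
    | zero => simp
    | succ i ih =>
      have h2 := hdb (2 ^ i)
      have h3 : (2 : ℝ) * d v (h ^ 2 ^ i • v) ≤ d v (h ^ (2 * 2 ^ i) • v) + c := by
        exact_mod_cast h2
      have e : 2 ^ (i + 1) = 2 * 2 ^ i := by rw [pow_succ, mul_comm]
      rw [e]
      have e' : (2 : ℝ) ^ (i + 1) = 2 * 2 ^ i := by rw [pow_succ, mul_comm]
      rw [e']
      linarith
  have h2 := hG.tendsto_slen hd h v
  have h3 : Tendsto (fun i : ℕ => 2 ^ i) atTop (atTop : Filter ℕ) :=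
    tendsto_pow_atTop_atTop_of_one_lt (by norm_num)
  have h4 := h2.comp h3
  have h5 : (d v (h • v) : ℝ) - c ≤ slen d h := by
    refine ge_of_tendsto h4 (Eventually.of_forall fun i => ?_)
    simp only [Function.comp_apply]
    have h6 : (0 : ℝ) < ((2 ^ i : ℕ) : ℝ) := by positivity
    rw [le_div_iff₀ h6]
    have h7 := h1 i
    have h8 : (0 : ℝ) ≤ c := Nat.cast_nonneg c
    push_cast
    nlinarith
  linarith

section

variable {G G' X S A' : Type} [Group G] [MulAction G X] [MulAction G S] [Group G']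
  [MulAction G' A'] {d : X → X → ℕ} {u : ℕ} {Y : S → Set X} {d' : A' → A' → ℕ}
  {π : G →* G'} {q : X ⊕ S → A'}

/-- doubling along the axis -/
theorem double (hd : IsGM d) (hh : Hyp d dl) (hG : IsomAct G d) (hG' : IsomAct G' d')
    (hcd : IsGM (cd d u Y)) (hcu : ∀ v w, d v w ≤ u → cd d u Y (Sum.inl v) (Sum.inl w) ≤ 1)
    (hu : 6 * dl + 1 ≤ u)
    (A1 : ∀ va vb z, Bt d va z vb → ∀ (m : ℕ) (p : ℕ → X ⊕ S), IsGeo (cd d u Y) m p →
      p 0 = Sum.inl va → p m = Sum.inl vb → ∃ i, i ≤ m ∧ cd d u Y (Sum.inl z) (p i) ≤ kl + 2)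
    (heq : ∀ (g : G) (v : X), q (Sum.inl (g • v)) = π g • q (Sum.inl v)) {g : G}
    (hE : ∀ v w, v ∈ AX d g → w ∈ AX d g →
      d' (q (Sum.inl v)) (q (Sum.inl w)) = cd d u Y (Sum.inl v) (Sum.inl w))
    {m : ℕ} (hm : 7 * dl + 2 ≤ disp d (g ^ m)) {y : X} (hy : y ∈ AX d g)
    (hym : y ∈ Mn d (g ^ m)) (j : ℕ) :
    2 * d' (q (Sum.inl y)) ((π g ^ m) ^ j • q (Sum.inl y)) ≤
      d' (q (Sum.inl y)) ((π g ^ m) ^ (2 * j) • q (Sum.inl y)) + 2 * (kl + 3) := by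
  have hax : ∀ k : ℕ, g ^ k • y ∈ AX d g := fun k =>
    (hG.smul_mem_Ax_of_commute _ ((Commute.refl g).pow_left k) y).2 hy
  have hq : ∀ k : ℕ, q (Sum.inl (g ^ (m * k) • y)) = (π g ^ m) ^ k • q (Sum.inl y) := by
    intro k
    rw [heq, map_pow, pow_mul]
  -- the middle point
  have hgp : GpLe d (4 * dl) y (g ^ (m * j) • y) (g ^ (m * (2 * j)) • y) := by
    have h1 := hG.gp_pow_pow hh hd hym hm j
    have h2 := hG ((g ^ m) ^ j) (((g ^ m) ^ j)⁻¹ • y) y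
    have h3 := hG ((g ^ m) ^ j) y (((g ^ m) ^ j) • y)
    have h4 := hG ((g ^ m) ^ j) (((g ^ m) ^ j)⁻¹ • y) (((g ^ m) ^ j) • y)
    rw [smul_inv_smul] at h2 h4
    have e2 : (g ^ m) ^ j • (g ^ m) ^ j • y = g ^ (m * (2 * j)) • y := by
      rw [smul_smul, ← pow_add, ← two_mul, ← pow_mul]
    have e3 : (g ^ m) ^ j • y = g ^ (m * j) • y := by rw [pow_mul]
    rw [e2] at h3 h4
    rw [e3] at h2 h3
    unfold GpLe at h1 ⊢
    rw [e3] at h1 h4
    omega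
  obtain ⟨z, hz, hz'⟩ := hh.near_of_gp hd hgp
  obtain ⟨p, hp0, hpm, hp⟩ := hcd.exists_geo (Sum.inl y) (Sum.inl (g ^ (m * (2 * j)) • y))
  obtain ⟨i, hi, hi'⟩ := A1 _ _ z hz _ p hp hp0 hpm
  have h1 := hcu (g ^ (m * j) • y) z (by omega)
  have h2 := hcd.tri (Sum.inl (g ^ (m * j) • y)) (Sum.inl z) (p i)
  have h3 := hp 0 i (Nat.zero_le _) hi
  have h4 := hp i _ hi le_rfl
  rw [hp0] at h3
  rw [hpm] at h4
  have h5 := hcd.tri'' (Sum.inl y) (p i) (Sum.inl (g ^ (m * j) • y))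
  have h6 := hcd.tri (Sum.inl (g ^ (m * j) • y)) (p i) (Sum.inl (g ^ (m * (2 * j)) • y))
  have e1 := hE _ _ hy (hax (m * j))
  have e2 := hE _ _ hy (hax (m * (2 * j)))
  have e3 := hE _ _ (hax (m * j)) (hax (m * (2 * j)))
  rw [hq] at e1 e2
  rw [hq, hq] at e3
  have e4 := hG' ((π g ^ m) ^ j) (q (Sum.inl y)) ((π g ^ m) ^ j • q (Sum.inl y))
  rw [smul_smul, ← pow_add, ← two_mul] at e4
  omega

theorem first (hd : IsGM d) (hh : Hyp d dl) (hG : IsomAct G d) (hd' : IsGM d') (hh' : Hyp d' dl)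
    (hG' : IsomAct G' d')
    (hcd : IsGM (cd d u Y)) (hcu : ∀ v w, d v w ≤ u → cd d u Y (Sum.inl v) (Sum.inl w) ≤ 1)
    (hu : 6 * dl + 1 ≤ u)
    (A1 : ∀ va vb z, Bt d va z vb → ∀ (m : ℕ) (p : ℕ → X ⊕ S), IsGeo (cd d u Y) m p →
      p 0 = Sum.inl va → p m = Sum.inl vb → ∃ i, i ≤ m ∧ cd d u Y (Sum.inl z) (p i) ≤ kl + 2)
    (heq : ∀ (g : G) (v : X), q (Sum.inl (g • v)) = π g • q (Sum.inl v)) {g : G}
    (hg : 0 < slen d g) (hx : 0 < slen d' (π g))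
    (hE : ∀ v w, v ∈ AX d g → w ∈ AX d g →
      d' (q (Sum.inl v)) (q (Sum.inl w)) = cd d u Y (Sum.inl v) (Sum.inl w))
    {y : X} (hy : y ∈ AX d g) :
    ∃ p ∈ AX d' (π g), d' (q (Sum.inl y)) p ≤ 2 * (kl + 3) + 164 * dl + 16 := by
  have hneX : Nonempty X := ⟨y⟩
  have hneA : Nonempty A' := ⟨q (Sum.inl y)⟩
  obtain ⟨hm1, hm2⟩ := hG.axPow_spec hd DD hg
  have hDD : 37 * dl + 5 ≤ DD := by unfold DD; omega
  generalize hm : axPow DD d g = m at hm1 hm2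
  have hym : y ∈ Mn d (g ^ m) := by
    rw [← hm]
    exact hy
  have hdb := double hd hh hG hG' hcd hcu hu A1 heq hE (m := m) (by omega) hy hym
  have hxm : 0 < slen d' (π g ^ m) := by
    rw [hG'.slen_pow hd']
    exact mul_pos (by exact_mod_cast hm1) hx
  obtain ⟨hk1, hk2⟩ := hG'.axPow_spec hd' DD hxm
  generalize axPow DD d' (π g ^ m) = k at hk1 hk2
  have h1 : (d' (q (Sum.inl y)) ((π g ^ m) ^ k • q (Sum.inl y)) : ℝ) ≤
      slen d' ((π g ^ m) ^ k) + (2 * (kl + 3) : ℕ) := by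
    refine slen_ge hG' hd' _ _ _ fun j => ?_
    have h2 := hdb (k * j)
    have e3 : ((π g ^ m) ^ k) ^ j = (π g ^ m) ^ (k * j) := (pow_mul _ _ _).symm
    have e4 : ((π g ^ m) ^ k) ^ (2 * j) = (π g ^ m) ^ (2 * (k * j)) := by
      rw [← pow_mul, show k * (2 * j) = 2 * (k * j) by ring]
    rw [e3, e4]
    exact h2
  have h2 := IsomAct.slen_le_disp (d := d') ((π g ^ m) ^ k)
  have h3 : d' (q (Sum.inl y)) ((π g ^ m) ^ k • q (Sum.inl y)) ≤
      disp d' ((π g ^ m) ^ k) + 2 * (kl + 3) := by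
    have h4 := h1.trans (add_le_add h2 le_rfl)
    exact_mod_cast h4
  obtain ⟨p, hp, hp'⟩ := hG'.near_ax hh' hd' (D := DD) hDD hx
    (h := (π g ^ m) ^ k) (((Commute.refl (π g)).pow_left m).pow_left k) (by omega)
    (q (Sum.inl y))
  exact ⟨p, hp, by omega⟩

theorem second (hd : IsGM d) (hh : Hyp d dl) (hG : IsomAct G d) (hd' : IsGM d') (hh' : Hyp d' dl)
    (hG' : IsomAct G' d') (hneX : Nonempty X)
    (hcd : IsGM (cd d u Y)) (hcu : ∀ v w, d v w ≤ u → cd d u Y (Sum.inl v) (Sum.inl w) ≤ 1)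
    (hu : 59 * dl + 5 ≤ u)
    (A2 : ∀ va vb z', Bt (cd d u Y) (Sum.inl va) z' (Sum.inl vb) →
      ∃ z, Bt d va z vb ∧ cd d u Y z' (Sum.inl z) ≤ kl + 2)
    (heq : ∀ (g : G) (v : X), q (Sum.inl (g • v)) = π g • q (Sum.inl v))
    (hle : ∀ a b, d' (q a) (q b) ≤ cd d u Y a b) {g : G}
    (hg : 0 < slen d g) (hx : 0 < slen d' (π g))
    (hE : ∀ v w, v ∈ AX d g → w ∈ AX d g →
      d' (q (Sum.inl v)) (q (Sum.inl w)) = cd d u Y (Sum.inl v) (Sum.inl w))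
    {p : A'} (hp : p ∈ AX d' (π g)) :
    ∃ y ∈ AX d g, d' p (q (Sum.inl y)) ≤ 10 * dl + kl + 4 := by
  have hneA : Nonempty A' := ⟨p⟩
  obtain ⟨y0, hy0⟩ := IsomAct.Ax_nonempty (d := d) DD g
  have hDD : 37 * dl + 5 ≤ DD := by unfold DD; omega
  obtain ⟨hm1, hm2⟩ := hG'.axPow_spec hd' DD hx
  generalize hm : axPow DD d' (π g) = m at hm1 hm2
  have hpm : p ∈ Mn d' (π g ^ m) := by
    rw [← hm]
    exact hp
  set N := 2 * d' p (q (Sum.inl y0)) + 12 * dl + 2 with hN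
  have h1 := hG'.gp_pow_pow' hh' hd' hpm (by omega) N le_rfl
  obtain ⟨p', hp1, hp2⟩ := hh'.near_of_gp hd' h1
  have e1 : ((π g ^ m) ^ N)⁻¹ • q (Sum.inl y0) = q (Sum.inl ((g ^ (m * N))⁻¹ • y0)) := by
    rw [heq, map_inv, map_pow, pow_mul]
  have e2 : (π g ^ m) ^ N • q (Sum.inl y0) = q (Sum.inl (g ^ (m * N) • y0)) := by
    rw [heq, map_pow, pow_mul]
  have hA : (g ^ (m * N))⁻¹ • y0 ∈ AX d g :=
    (hG.smul_mem_Ax_of_commute _ ((Commute.refl g).pow_left _).inv_left y0).2 hy0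
  have hB : g ^ (m * N) • y0 ∈ AX d g :=
    (hG.smul_mem_Ax_of_commute _ ((Commute.refl g).pow_left _) y0).2 hy0
  rw [e1, e2] at hp1
  generalize (g ^ (m * N))⁻¹ • y0 = a at hA hp1
  generalize g ^ (m * N) • y0 = b at hB hp1
  have hab := hE a b hA hB
  have hp1' := hp1
  unfold Bt at hp1'
  obtain ⟨z', hz1, hz2⟩ := hcd.exists_bt (Sum.inl a) (Sum.inl b) (d' (q (Sum.inl a)) p')
    (by omega)
  have h2 := hle (Sum.inl a) z'
  have h3 := hle z' (Sum.inl b)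
  have h4 := hd'.tri (q (Sum.inl a)) (q z') (q (Sum.inl b))
  have hz1' := hz1
  unfold Bt at hz1'
  have h5 : Bt d' (q (Sum.inl a)) (q z') (q (Sum.inl b)) := by
    unfold Bt
    omega
  have h6 : d' p' (q z') ≤ 2 * dl := two_bt hh' hd' hp1 h5 (by omega)
  obtain ⟨z, hz3, hz4⟩ := A2 a b z' hz1
  obtain ⟨y, hy, hy'⟩ := (hG.ax_qconv hh hd hDD hg) a hA b hB z hz3
  refine ⟨y, hy, ?_⟩
  have h7 := hcu z y (by omega)
  have h8 := hle z' (Sum.inl z)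
  have h9 := hle (Sum.inl z) (Sum.inl y)
  have h10 := hd'.tri p p' (q (Sum.inl y))
  have h11 := hd'.tri p' (q z') (q (Sum.inl y))
  have h12 := hd'.tri (q z') (q (Sum.inl z)) (q (Sum.inl y))
  omega

end

end AXIM

theorem AXIM (h1 : Stmt_QTB) (h2 : Stmt_TBEAX) (h3 : Pool.Agent.Olsh.Stmt_CONEA)
    (h4 : Pool.Agent.Olsh.Stmt_CONEGM) (h5 : Stmt_TLL) : Stmt_AXIM := by
  intro η η1 C
  refine ⟨(2 * (kl + 3) + 164 * dl + 16) + (10 * dl + kl + 4), ?_⟩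
  intro E a0 L0 Ca
  obtain ⟨C10, h2'⟩ := h2 η η1 C E
  obtain ⟨U, hU⟩ := h2' a0 L0 Ca
  refine ⟨U + (59 * dl + 5 + η), ?_⟩
  intro G G' X S A' _ _ _ _ _ N n d u L Y d' π q H g o hx ho
  have hHu := H.hu
  have hlev := H.lev
  obtain ⟨hd', hG', hh', -⟩ := h1 G G' X S A' N n d u L Y η η1 C d' π q H.toQT
  obtain ⟨hg, hgs⟩ := (h5 G G' X S A' N n d u L Y η η1 C d' π q a0 L0 Ca H.toQT hlev).2.2 g hx
  have hE' := (hU G G' X S A' N n d u L Y d' π q (H.mono (by omega)) g o hg hgs ho).1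
  have hE : ∀ v w, v ∈ AX d g → w ∈ AX d g →
      d' (q (Sum.inl v)) (q (Sum.inl w)) = cd d u Y (Sum.inl v) (Sum.inl w) :=
    fun v w hv hw => (hE' v w hv hw).2.1
  obtain ⟨hcd, -, hcn⟩ := h4 X S d u Y hlev.gm (by omega) H.qn.ne
  have hcu : ∀ v w, d v w ≤ u → cd d u Y (Sum.inl v) (Sum.inl w) ≤ 1 :=
    fun v w hvw => hcn 1 v w (by omega)
  obtain ⟨-, hA⟩ := h3 X S d u η Y hlev.gm hlev.hyp H.qn.ne H.qn.qc (by omega) (by omega)
    (by omega)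
  have A1 : ∀ va vb z, Bt d va z vb → ∀ (m : ℕ) (p : ℕ → X ⊕ S), IsGeo (cd d u Y) m p →
      p 0 = Sum.inl va → p m = Sum.inl vb → ∃ i, i ≤ m ∧ cd d u Y (Sum.inl z) (p i) ≤ kl + 2 :=
    fun va vb z hz m p hp h0 hm => (hA (Sum.inl va) (Sum.inl vb) va vb rfl rfl).1 z hz m p hp h0 hm
  have A2 : ∀ va vb z', Bt (cd d u Y) (Sum.inl va) z' (Sum.inl vb) →
      ∃ z, Bt d va z vb ∧ cd d u Y z' (Sum.inl z) ≤ kl + 2 :=
    fun va vb z' hz => (hA (Sum.inl va) (Sum.inl vb) va vb rfl rfl).2 z' hz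
  have heq : ∀ (g : G) (v : X), q (Sum.inl (g • v)) = π g • q (Sum.inl v) := by
    intro g v
    rw [← H.quot.equiv, Sum.smul_inl]
  refine ⟨fun y hy => ?_, fun p hp => ?_⟩
  · obtain ⟨p, hp, hp'⟩ := AXIM.first hlev.gm hlev.hyp hlev.isom hd' hh' hG' hcd hcu (by omega)
      A1 heq hg hx hE hy
    exact ⟨p, hp, by omega⟩
  · obtain ⟨y, hy, hy'⟩ := AXIM.second hlev.gm hlev.hyp hlev.isom hd' hh' hG' hlev.ne hcd hcu
      (by omega) A2 heq H.quot.le hg hx hE hp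
    exact ⟨y, hy, by omega⟩

end Pool.Agent.Ady
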