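import Pool.Agent.Ady.Limit
import Pool.Agent.Olsh.MALN
import Pool.Agent.Olsh.TADD
import Pool.Agent.Olsh.Tree2

/-!
# MP_9e15c1_al (E-half): the iterates do not die in the free group
-/

set_option autoImplicit false

namespace Pool.Agent.Ady

/-- In a torsion-free CSA group the iterates at a noncommuting pair do not die. -/
theorem alive_of_csa {G : Type} [Group G] (tf : ∀ (a : G) (m : ℕ), 1 ≤ m → a ^ m = 1 → a = 1)
    (csa : ∀ a b c : G, b ≠ 1 → Commute a b → Commute b c → Commute a c)
    (maln : ∀ a b : G, a ≠ 1 → Commute a (b * a * b⁻¹) → Commute a b) {n r : ℕ} (hn : 1 ≤ n)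
    (hr : 1 ≤ r) {x y : G} (h : ¬ Commute x y) : Alive n r x y := by
  have hy : y ≠ 1 := by
    rintro rfl
    exact h (Commute.one_right x)
  have hm : 1 ≤ r * n := Nat.mul_pos hr hn
  have key : ∀ a : G, ¬ Commute a y → ¬ Commute (adyv n r a y) y := by
    intro a ha hc
    have ha1 : a ≠ 1 := by
      rintro rfl
      exact ha (Commute.one_left y)
    set A := a ^ (r * n) with hA
    set B := y ^ (r * n) with hB
    have hA1 : A ≠ 1 := fun h1 => ha1 (tf a _ hm h1)
    have hB1 : B ≠ 1 := fun h1 => hy (tf y _ hm h1)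
    have hAB : ¬ Commute A B := by
      intro h1
      have h2 : Commute a B := csa a A B hA1 ((Commute.refl a).pow_right _) h1
      exact ha (csa a B y hB1 h2 ((Commute.refl y).pow_left _))
    set c := A * B * A⁻¹ * B⁻¹ with hcdef
    have hc' : Commute (c ^ n) y := hc
    have hc1 : c ≠ 1 := by
      intro h1
      apply hAB
      have h2 : A * B * A⁻¹ * B⁻¹ = 1 := h1
      have h3 : A * B * A⁻¹ = B := mul_inv_eq_one.1 h2
      have h4 : A * B = B * A := mul_inv_eq_iff_eq_mul.1 h3
      exact h4
    have hcn : c ^ n ≠ 1 := fun h1 => hc1 (tf c _ hn h1)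
    have h5 : Commute c y := csa c (c ^ n) y hcn ((Commute.refl c).pow_right _) hc'
    have h6 : Commute B y := (Commute.refl y).pow_left _
    have h7 : Commute y (A * B * A⁻¹) := by
      have h8 : A * B * A⁻¹ = c * B := by
        rw [hcdef]
        group
      rw [h8]
      exact h5.symm.mul_right h6.symm
    have h8 : Commute B (A * B * A⁻¹) := csa B y _ hy h6 h7
    exact hAB (maln B A hB1 h8).symm
  have key2 : ∀ k, ¬ Commute (aIt n r k x y) y := by
    intro k
    induction k with
    | zero => exact h
    | succ k ih => exact key _ ih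
  intro k hk
  apply key2 k
  rw [hk]
  exact Commute.one_left y

open Pool.Agent.Olsh in
/-- The two free generators. -/
theorem alive_free {n r : ℕ} (hn : 1 ≤ n) (hr : 1 ≤ r) :
    Alive n r (FreeGroup.of true) (FreeGroup.of false) := by
  have hM : Stmt_MALN := Pool.Agent.Olsh.MALN TADD
  obtain ⟨h1, h2⟩ := hM F2 F2 td 0 2 (fun _ => 0) 0 (lev0 0 2 _ 0 (by omega))
  refine alive_of_csa (fun a m hm => h1 a m hm) (fun a b c hb h3 h4 => td_csa a b c hb h3 h4) ?_
    hn hr ?_
  · intro a b ha hab
    exact h2 a b ha hab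
  · intro hc
    have h3 : (FreeGroup.of true * FreeGroup.of false : F2) =
        FreeGroup.of false * FreeGroup.of true := hc
    have h4 := congrArg FreeGroup.toWord h3
    revert h4
    decide

end Pool.Agent.Ady
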