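import Pool.Agent.Ady.Stmts
import Pool.Agent.Olsh.Line
import Pool.Agent.Olsh.Tree2

/-!
# The free group is a stage
-/

set_option autoImplicit false

namespace Pool.Agent.Ady

open Pool.Agent.Olsh

namespace BASE

theorem slen_one : slen td (1 : F2) = 0 := by
  have : Nonempty F2 := ⟨1⟩
  have h1 := td_isom.slen_pow td_isGM (1 : F2) 0
  simpa using h1

theorem ne_one {g : F2} (h : 0 < slen td g) : g ≠ 1 := by
  rintro rfl
  rw [slen_one] at h
  exact lt_irrefl _ h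

theorem pos {g : F2} (h : g ≠ 1) : 0 < slen td g := lt_of_lt_of_le one_pos (td_slen g h)

theorem dist_pow (g v : F2) (m : ℕ) : td v (g ^ m • v) ≤ m * td v (g • v) := by
  induction m with
  | zero => simp [td_self]
  | succ m ih =>
    have h1 := td_isGM.tri v (g • v) (g ^ (m + 1) • v)
    have h2 : td (g • v) (g ^ (m + 1) • v) = td v (g ^ m • v) := by
      rw [pow_succ', mul_smul]
      exact td_isom g v (g ^ m • v)
    rw [h2] at h1
    have h3 : (m + 1) * td v (g • v) = m * td v (g • v) + td v (g • v) := by ring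
    omega

theorem near (D0 : ℕ) {g : F2} (hg : 0 < slen td g) (v : F2) (hv : td v (g • v) ≤ D0) :
    ∃ y ∈ AX td g, td v y ≤ DD * D0 + 8 := by
  have hne : Nonempty F2 := ⟨1⟩
  have h1 := td_isom.axPow_spec td_isGM DD hg
  have h2 : axPow DD td g ≤ DD := by
    apply Nat.sInf_le
    refine ⟨by unfold DD; omega, ?_⟩
    have h3 := IsomAct.slen_le_disp (d := td) (g ^ DD)
    rw [td_isom.slen_pow td_isGM] at h3
    have h4 := td_slen g (ne_one hg)
    have h5 : (DD : ℝ) ≤ disp td (g ^ DD) := by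
      refine le_trans ?_ h3
      have h6 : (0 : ℝ) ≤ DD := Nat.cast_nonneg _
      nlinarith
    exact_mod_cast h5
  have h3 : 37 * 0 + 5 ≤ disp td (g ^ axPow DD td g) := by
    have h4 := h1.2
    unfold DD at h4 ⊢
    omega
  obtain ⟨y, hy, hy'⟩ := td_isom.near_mn td_hyp0 td_isGM h3 v
  refine ⟨y, hy, ?_⟩
  have h4 := dist_pow g v (axPow DD td g)
  have h5 : axPow DD td g * td v (g • v) ≤ DD * D0 := Nat.mul_le_mul h2 hv
  omega

theorem pow_ne (h2 : Pool.Agent.Olsh.Stmt_MALN) {g : F2} (hg : g ≠ 1) {k : ℕ} (hk : 1 ≤ k) :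
    g ^ k ≠ 1 := fun h =>
  hg ((h2 F2 F2 td 0 2 (fun _ => 0) 1 (lev0 0 2 (fun _ => 0) 1 (by norm_num))).1 g k hk h)

theorem maln (h2 : Pool.Agent.Olsh.Stmt_MALN) {a b : F2} (ha : a ≠ 1)
    (h : a * (b * a * b⁻¹) = (b * a * b⁻¹) * a) : a * b = b * a :=
  (h2 F2 F2 td 0 2 (fun _ => 0) 1 (lev0 0 2 (fun _ => 0) 1 (by norm_num))).2 a b ha h

/-- the commutator of non-commuting elements does not commute with the second -/
theorem step (h2 : Pool.Agent.Olsh.Stmt_MALN) {P Z : F2} (h : P * Z ≠ Z * P) :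
    cm P Z * Z ≠ Z * cm P Z := by
  intro h3
  have hZ : Z ≠ 1 := by
    rintro rfl
    exact h (by rw [mul_one, one_mul])
  have h4 : cm P Z * Z = P * Z * P⁻¹ := by
    unfold cm
    group
  rw [h4] at h3
  have h5 : Z * (P * Z * P⁻¹) = (P * Z * P⁻¹) * Z := by
    have h6 : Z * cm P Z * Z = cm P Z * Z * Z := by rw [← h3, h4]
    rw [mul_assoc, h4] at h6
    exact h6
  exact h (maln h2 hZ h5).symm

theorem pow_nc (h2 : Pool.Agent.Olsh.Stmt_MALN) {t Z : F2} (h : t * Z ≠ Z * t) {k : ℕ}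
    (hk : 1 ≤ k) : t ^ k * Z ≠ Z * t ^ k := by
  intro h3
  have ht : t ≠ 1 := by
    rintro rfl
    exact h (by rw [mul_one, one_mul])
  exact h (td_csa t (t ^ k) Z (pow_ne h2 ht hk) (by rw [← pow_succ, ← pow_succ']) h3)

theorem nc0 (h2 : Pool.Agent.Olsh.Stmt_MALN) {k : ℕ} (hk : 1 ≤ k) :
    (FreeGroup.of false : F2) ^ k * (FreeGroup.of true : F2) ^ k ≠
      (FreeGroup.of true : F2) ^ k * (FreeGroup.of false : F2) ^ k := by
  have h : (FreeGroup.of false : F2) * FreeGroup.of true ≠ FreeGroup.of true * FreeGroup.of false := by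
    decide
  apply pow_nc h2 _ hk
  intro h3
  exact pow_nc h2 h.symm hk h3.symm

theorem chn_nc (h2 : Pool.Agent.Olsh.Stmt_MALN) {n r : ℕ} (hn : 1 ≤ n) (hr : 1 ≤ r) (j : ℕ) :
    chn n r (FreeGroup.of false : F2) (FreeGroup.of true) j * (FreeGroup.of true : F2) ^ (r * n) ≠
      (FreeGroup.of true : F2) ^ (r * n) *
        chn n r (FreeGroup.of false : F2) (FreeGroup.of true) j := by
  have h3 : 1 ≤ r * n := Nat.mul_pos hr hn
  have h4 : 1 ≤ r * n ^ 2 := Nat.mul_pos hr (pow_pos hn 2)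
  induction j with
  | zero => exact step h2 (nc0 h2 h3)
  | succ j ih => exact step h2 (pow_nc h2 ih h4)

end BASE

theorem BASE (h1 : Stmt_NAG) (h2 : Pool.Agent.Olsh.Stmt_MALN) : Stmt_BASE := by
  obtain ⟨D0, hD⟩ := h1
  obtain ⟨CB, hCB⟩ := hD (DD * D0 + 8)
  refine ⟨CB, ?_⟩
  intro a0 L0 Ca V m0 n r haL hCa hV hn hr
  have hl := lev0 a0 L0 (fun _ => 0) 1 haL
  have hne : Nonempty F2 := ⟨1⟩
  have hlox : ∀ g : F2, g = 1 ∨ 0 < slen td g := by
    intro g
    by_cases hg : g = 1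
    · exact Or.inl hg
    · exact Or.inr (BASE.pos hg)
  refine ⟨⟨hl.gm, hl.hyp, hl.isom, hne, hn, ?_, ?_, hl.wa, ?_, ?_⟩, ?_, ?_⟩
  · intro g
    rcases hlox g with rfl | h
    · exact Or.inl (one_pow n)
    · exact Or.inr h
  · intro g _ _ _ _ _
    exact hlox g
  · intro a b c hb hab hbc
    exact td_csa a b c (BASE.ne_one hb) hab hbc
  · intro g v hg
    obtain ⟨y, hy, hy'⟩ := hCB F2 F2 td hl.gm hl.hyp hl.isom hne g hg
      (fun v hv => BASE.near D0 hg v hv) v
    exact ⟨y, hy, by omega⟩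
  · intro M _ c Y _
    refine ⟨0, ?_⟩
    by_cases hc : c 0 = 1
    · left
      rw [hc, one_pow]
    · right
      have h3 := td_slen (c 0) hc
      have h4 : (1 : ℝ) ≤ V := by exact_mod_cast hV
      nlinarith
  · intro j
    apply BASE.pos
    intro h
    apply BASE.chn_nc h2 hn.pos hr j
    rw [h, one_mul, mul_one]

end Pool.Agent.Ady
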