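import Pool.Agent.Ady.Stmts
import Pool.Agent.Olsh.GWA

/-!
# MP_9e15c1_al, E-half: an element moving `v` and `w` little, and an apex with a big angle
-/

set_option autoImplicit false

namespace Pool.Agent.Ady

open Pool.Agent.Olsh

theorem BIGX (hA : Stmt_PSA) : Stmt_BIGX := by
  intro G A _ _ d ap c T0 hps hI hap hc x D v w s hs hv hw hvs hsw hang
  have hd := hps.gm
  have hI' : Isom G d := hI
  by_cases hfix : x • s = s
  · exact Or.inl hfix
  right
  -- isometries
  have hfix' : x⁻¹ • s ≠ s := by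
    intro h
    apply hfix
    have := congrArg (fun z => x • z) h
    simp only [smul_inv_smul] at this
    exact this.symm
  have iv : d v (x⁻¹ • v) = d v (x • v) := by
    have h1 := hI' x v (x⁻¹ • v)
    rw [smul_inv_smul] at h1
    rw [← h1, hd.comm]
  have iw : d w (x⁻¹ • w) = d w (x • w) := by
    have h1 := hI' x w (x⁻¹ • w)
    rw [smul_inv_smul] at h1
    rw [← h1, hd.comm]
  have is : d (x⁻¹ • s) s = d s (x • s) := by
    have h1 := hI' x (x⁻¹ • s) s
    rw [smul_inv_smul] at h1
    exact h1.symm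
  have isw : d (x⁻¹ • s) (x⁻¹ • w) = d s w := hI' _ _ _
  have hρ : d s (x • s) ≠ 0 := fun h => hfix (hd.eq_of_zero h).symm
  have csw := hd.comm w s
  have t1 := hd.tri (x⁻¹ • s) w (x⁻¹ • w)
  -- big angles
  have A1 : 28 * T0 < ang d c (x • s) v w :=
    GWA.ang_move hA hps hI' hap hc hs x (by omega) (by omega) (by omega)
  have A2 : 28 * T0 < ang d c (x⁻¹ • s) v w :=
    GWA.ang_move hA hps hI' hap hc hs x⁻¹ (by omega) (by omega) (by omega)
  have hxs := hap x s hs
  have hxs' := hap x⁻¹ s hs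
  have ord := GWA.order (v := v) (w := w) hA hps hI' hap hc hxs' hs (by omega) (by omega) x
    (by rw [smul_inv_smul]; omega) (by omega) (by omega) (by omega)
  rw [smul_inv_smul] at ord
  have l1 := GWA.lin (v := v) (w := w) hA hps hs hxs (fun h => hfix h.symm) (by omega) (by omega)
  have l2 := GWA.lin (v := v) (w := w) hA hps hxs' hs hfix' (by omega) (by omega)
  obtain ⟨-, -, -, Asym, Atri, -, -, B, -, Bet, -⟩ := hA A d ap c T0 hps s hs
  obtain ⟨-, -, -, -, -, -, -, B1, -, -, -⟩ := hA A d ap c T0 hps (x • s) hxs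
  obtain ⟨-, -, -, -, -, -, -, B2, -, -, -⟩ := hA A d ap c T0 hps (x⁻¹ • s) hxs'
  have b0 := (B v w (by omega)).1
  have b1 := (B1 v w (by omega)).1
  have b2 := (B2 v w (by omega)).1
  have c1 := hd.comm w (x • s)
  have c2 := hd.comm w (x⁻¹ • s)
  have c3 := hd.comm s (x • s)
  rcases l1 with h | h
  · have e1 : Bt d v (x⁻¹ • s) s := by
      unfold Bt
      omega
    have e2 : Bt d w (x • s) s := by
      unfold Bt
      omega
    have a1 := Bet _ _ e1 hfix'
    have a2 := Bet _ _ e2 hfix
    have a3 := Atri v (x⁻¹ • s) w hfix'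
    have a4 := Atri (x⁻¹ • s) (x • s) w hfix
    have a5 := Asym (x • s) w
    omega
  · have e1 : Bt d v (x • s) s := by
      unfold Bt
      omega
    have e2 : Bt d w (x⁻¹ • s) s := by
      unfold Bt
      omega
    have a1 := Bet _ _ e1 hfix
    have a2 := Bet _ _ e2 hfix'
    have a3 := Atri v (x • s) w hfix
    have a4 := Atri (x • s) (x⁻¹ • s) w hfix'
    have a5 := Asym (x⁻¹ • s) w
    have a6 := Asym (x • s) (x⁻¹ • s)
    omega

end Pool.Agent.Ady
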