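import Pool.Agent.Ady.Stmts
import Pool.Agent.Olsh.Line
import Mathlib.Order.Filter.Ultrafilter.Basic

/-!
# MP_9e15c1_al, E-half: the coordinate along the axis (BUS)
-/

set_option autoImplicit false

namespace Pool.Agent.Ady

open Pool.Agent.Olsh Filter

namespace BUS

variable {G X : Type} [Group G] [MulAction G X] {d : X → X → ℕ}

/-- The normalised distance to a far point of the axis. -/
def f (d : X → X → ℕ) (R : G) (w : X) (N : ℕ) (x : X) : ℤ :=
  (d x ((R ^ N)⁻¹ • w) : ℤ) - d w ((R ^ N)⁻¹ • w)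

theorem f_le (hd : IsGM d) (R : G) (w : X) (N : ℕ) (x : X) : f d R w N x ≤ d x w := by
  have h := hd.tri x w ((R ^ N)⁻¹ • w)
  unfold f
  omega

theorem le_f (hd : IsGM d) (R : G) (w : X) (N : ℕ) (x : X) : -(d x w : ℤ) ≤ f d R w N x := by
  have h := hd.tri w x ((R ^ N)⁻¹ • w)
  have h' := hd.comm w x
  unfold f
  omega

/-- The values along a non-principal ultrafilter. -/
theorem exists_lim (hd : IsGM d) (R : G) (w : X) (x : X) :
    ∃ k : ℤ, ∀ᶠ N in (hyperfilter ℕ : Filter ℕ), f d R w N x = k := by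
  have h1 : ∀ᶠ N in (hyperfilter ℕ : Filter ℕ),
      ∃ k ∈ Set.Icc (-(d x w : ℤ)) (d x w), f d R w N x = k :=
    Eventually.of_forall fun N => ⟨f d R w N x, ⟨le_f hd R w N x, f_le hd R w N x⟩, rfl⟩
  have h2 := (Ultrafilter.eventually_exists_mem_iff (f := hyperfilter ℕ)
    (P := fun k N => f d R w N x = k) (Set.finite_Icc (-(d x w : ℤ)) (d x w))).1 h1
  obtain ⟨k, -, hk⟩ := h2
  exact ⟨k, hk⟩

end BUS

/-- BUS: the coordinate along the axis of `R`. -/
theorem BUS : Stmt_BUS := by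
  intro G X _ _ d hd hh hG hne R hR
  obtain ⟨w, hw⟩ := Mn_nonempty (d := d) R
  have hslen := IsomAct.slen_le_disp (d := d) R
  have hDD : 37 * dl + 5 ≤ disp d R := by
    have h1 : ((DD : ℕ) : ℝ) ≤ (disp d R : ℕ) := hR.trans hslen
    have h2 : DD ≤ disp d R := by exact_mod_cast h1
    unfold DD at h2
    omega
  choose β hβ using BUS.exists_lim hd R w
  have hfar : ∀ N : ℕ, N ≤ d w ((R ^ N)⁻¹ • w) := by
    intro N
    have h1 := hG.dist_pow_ge hh hd hw (by omega) N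
    have h2 : d w ((R ^ N)⁻¹ • w) = d w (R ^ N • w) := by rw [hd.comm, hG.inv]
    rw [h2]
    have h3 : N * (6 * dl + 1) ≤ N * disp d R := Nat.mul_le_mul_left _ (by omega)
    have h4 : (N - 1) * (6 * dl) ≤ N * (6 * dl) := Nat.mul_le_mul_right _ (by omega)
    have h5 : N * (6 * dl + 1) = N * (6 * dl) + N := by ring
    omega
  have hat : ∀ B : ℕ, ∀ᶠ N in (hyperfilter ℕ : Filter ℕ), B ≤ N := fun B =>
    Nat.hyperfilter_le_atTop (eventually_ge_atTop B)
  have hex : ∀ (B : ℕ) (x y x' y' : X), ∃ N : ℕ, B ≤ N ∧ BUS.f d R w N x = β x ∧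
      BUS.f d R w N y = β y ∧ BUS.f d R w N x' = β x' ∧ BUS.f d R w N y' = β y' := by
    intro B x y x' y'
    exact ((hat B).and ((hβ x).and ((hβ y).and ((hβ x').and (hβ y'))))).exists
  have hcm : ∀ g : G, g * R = R * g → ∀ x y, β (g • x) + β y ≤ β (g • y) + β x + 2 * dl := by
    intro g hc x y
    obtain ⟨N, hN, h1, h2, h3, h4⟩ := hex
      (2 * dl + 1 + d x y + d w (g • w) + d x w + d y w) (g • x) y (g • y) x
    have t0 := hfar N
    have t1 := hd.tri w y ((R ^ N)⁻¹ • w)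
    have t2 := hd.tri w x ((R ^ N)⁻¹ • w)
    have t3 := hd.comm w x
    have t4 := hd.comm w y
    have t5 := hG.coord_shift hh hd (g := g) (h := R) hc x y w N (by omega) (by omega)
    rw [← h1, ← h2, ← h3, ← h4]
    unfold BUS.f
    omega
  refine ⟨β, ?_, ?_, hcm, ?_⟩
  · intro x y
    obtain ⟨N, -, h1, h2, -, -⟩ := hex 0 x y x y
    have t1 := hd.tri x y ((R ^ N)⁻¹ • w)
    rw [← h1, ← h2]
    unfold BUS.f
    omega
  · intro x hx y hy
    obtain ⟨N, hN, h1, h2, -, -⟩ := hex (2 * d x w + 2 * d y w + 12 * dl + 2) x y x y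
    have t1 := hG.coord_dist hh hd hx hy (by omega) N (w := w) (by omega) (by omega)
    rw [← h1, ← h2]
    unfold BUS.f
    rcases t1 with t1 | t1
    · have : (d x y : ℤ) ≤ -(((d x ((R ^ N)⁻¹ • w) : ℤ) - d w ((R ^ N)⁻¹ • w)) -
          ((d y ((R ^ N)⁻¹ • w) : ℤ) - d w ((R ^ N)⁻¹ • w))) + 14 * dl := by omega
      have h3 := neg_le_abs (((d x ((R ^ N)⁻¹ • w) : ℤ) - d w ((R ^ N)⁻¹ • w)) -
          ((d y ((R ^ N)⁻¹ • w) : ℤ) - d w ((R ^ N)⁻¹ • w)))
      linarith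
    · have : (d x y : ℤ) ≤ (((d x ((R ^ N)⁻¹ • w) : ℤ) - d w ((R ^ N)⁻¹ • w)) -
          ((d y ((R ^ N)⁻¹ • w) : ℤ) - d w ((R ^ N)⁻¹ • w))) + 14 * dl := by omega
      have h3 := le_abs_self (((d x ((R ^ N)⁻¹ • w) : ℤ) - d w ((R ^ N)⁻¹ • w)) -
          ((d y ((R ^ N)⁻¹ • w) : ℤ) - d w ((R ^ N)⁻¹ • w)))
      linarith
  · have hup : (disp d R : ℤ) ≤ β (R • w) - β w + 8 * dl := by
      obtain ⟨N, hN, h1, h2, -, -⟩ := hex 1 (R • w) w w w
      have c1 := (hG.isChain_orbit hh hd hw (by omega) (N + 1)).step hh hd (by omega) N hN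
        (by omega)
      unfold GpLe at c1
      simp only [pow_zero, one_smul] at c1
      have e1 : d (R ^ N • w) (R ^ (N + 1) • w) = disp d R := by
        rw [hG.dist_pow_pow, pow_one]
        exact hw
      have e2 : d w ((R ^ N)⁻¹ • w) = d w (R ^ N • w) := by rw [hd.comm, hG.inv]
      have e3 : d (R • w) ((R ^ N)⁻¹ • w) = d w (R ^ (N + 1) • w) := by
        rw [hd.comm, hG.inv, smul_smul, ← pow_succ]
      rw [← h1, ← h2]
      unfold BUS.f
      rw [e3, e2]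
      omega
    intro x
    have h3 := hcm R rfl w x
    have h4 : (disp d R : ℤ) ≤ β (R • x) - β x + 10 * dl := by omega
    have h5 : ((disp d R : ℕ) : ℝ) ≤ β (R • x) - β x + 10 * dl := by exact_mod_cast h4
    have h6 : (0 : ℝ) ≤ dl := Nat.cast_nonneg _
    linarith

end Pool.Agent.Ady
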