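import Pool.Agent.Ady.Stmts
import Pool.Agent.Olsh.Line

/-!
# MP_9e15c1_al, E-half: `R = [c^M, Y]` generates its centraliser (CENT)
-/

set_option autoImplicit false

namespace Pool.Agent.Ady

open Pool.Agent.Olsh

namespace CENT

variable {G X : Type} [Group G] [MulAction G X] {d : X → X → ℕ}

/-- Pieces are preserved by elements commuting with `R`. -/
theorem ispc_smul (hG : IsomAct G d) {R : G} {r m : ℕ} {a b : X} {e g : G}
    (h : IsPc d R r m a b e) (hg : g * R = R * g) :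
    IsPc d R r m (g • a) (g • b) (g * e * g⁻¹) := by
  have hc : Commute g R := hg
  have key : ∀ a : X, a ∈ Nd d r (Mn d R) → g • a ∈ Nd d r (Mn d R) := by
    rintro a ⟨y, hy, hay⟩
    exact ⟨g • y, (hG.smul_mem_Mn_of_commute hc y).2 hy, by rw [hG]; exact hay⟩
  refine ⟨key a h.na, key b h.nb, ?_⟩
  intro v hv h1 h2
  obtain ⟨w, rfl⟩ : ∃ w, v = g • w := ⟨g⁻¹ • v, by rw [smul_inv_smul]⟩
  rw [IsomAct.bt_smul hG] at hv
  rw [hG] at h1 h2
  rw [hG.conj]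
  exact h.mv _ hv h1 h2

theorem slen_one [Nonempty X] (hG : IsomAct G d) (hd : IsGM d) : slen d (1 : G) = 0 := by
  have h1 := hG.slen_pow hd (1 : G) 0
  simpa using h1

/-- The final contradiction. -/
theorem contra {n a0 L0 Ca : ℕ} (h4 : Stmt_TMAL) (hL : LevT G n d a0 L0 Ca) (ha0 : 16 * dl ≤ a0)
    {c Y e : G} (hc : 0 < slen d c) (hnc : c * Y ≠ Y * c) (he : c * e = e * c)
    (hb : c * (Y * e * Y) = (Y * e * Y) * c) : False := by
  have hne := hL.ne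
  obtain ⟨t1, t2, t3, -, -⟩ := h4 G X n d a0 L0 Ca hL ha0
  have hce : Commute c e := he
  have hcb : Commute c (Y * e * Y) := hb
  obtain ⟨x, hx⟩ : ∃ x, x = Y * e := ⟨_, rfl⟩
  have hxx : x ^ 2 = Y * e * Y * e := by rw [hx, pow_two, mul_assoc, mul_assoc, mul_assoc]
  have hcx : Commute c (x ^ 2) := by
    rw [hxx]
    exact hcb.mul_right hce
  -- if `x` commutes with `c`, so does `Y`
  have hfin : ¬ Commute c x := by
    intro h
    have h5 : Commute c (x * e⁻¹) := h.mul_right hce.inv_right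
    have h6 : x * e⁻¹ = Y := by rw [hx, mul_inv_cancel_right]
    rw [h6] at h5
    exact hnc h5
  rcases (IsomAct.slen_nonneg (d := d) (x ^ 2)).lt_or_eq with h | h
  · have h5 : x * x ^ 2 = x ^ 2 * x := by rw [← pow_succ, ← pow_succ']
    exact hfin (hL.csa x (x ^ 2) c h h5 hcx.symm).symm
  · have h5 : x ^ 2 = 1 := t3 c (x ^ 2) hc hcx h.symm
    have h6 := hL.isom.slen_pow hL.gm x 2
    rw [← h] at h6
    have h7 : slen d x = 0 := by
      push_cast at h6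
      linarith
    have h8 := t2 x h7
    obtain ⟨k, hk⟩ := hL.odd
    rw [hk, pow_succ, pow_mul, h5, one_pow, one_mul] at h8
    apply hfin
    rw [h8]
    exact Commute.one_right c

/-- `z` commuting with `R = [c^M, Y]` with positive shift of medium size is impossible. -/
theorem no_medium {n a0 L0 Ca C : ℕ} (h4 : Stmt_TMAL) (hL : LevT G n d a0 L0 Ca)
    (ha0 : 16 * dl ≤ a0) {c Y : G} {M : ℕ} (hM : 1000000 ≤ M)
    (hB : (2 * L0 + 3 * C + 1000 * dl + 1000 : ℝ) ≤ slen d c) (hnc : c * Y ≠ Y * c)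
    (hO : ∀ (R : G) (β : X → ℤ), (DD : ℝ) ≤ slen d R → IsBus d R β →
      ∀ (r m m' : ℕ) (a b a' b' : X) (e e' : G) (t t' : ℤ),
      IsPc d R r m a b e → IsPc d R r m' a' b' e' → t + 4 * (m + m') + 2 * L0 + C ≤ t' →
      β a + 2 * r + C ≤ t → β a' + 2 * r + C ≤ t → t' + 2 * r + C ≤ β b →
      t' + 2 * r + C ≤ β b' → e * e' = e' * e)
    (hDD : (DD : ℝ) ≤ slen d (cm (c ^ M) Y)) {β : X → ℤ} (hβ : IsBus d (cm (c ^ M) Y) β)
    {r m : ℕ} {x0 x1 : X} (hr : (r : ℝ) ≤ 10 * slen d c) (hm : (m : ℝ) ≤ 2 * slen d c)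
    (p1 : IsPc d (cm (c ^ M) Y) r m x0 x1 c)
    (p2 : IsPc d (cm (c ^ M) Y) r m x1 (cm (c ^ M) Y • x0) (c ^ M * Y * c * (c ^ M * Y)⁻¹))
    (l1 : M * slen d c ≤ β x1 - β x0 + 50 * slen d c)
    (l3 : M * slen d c ≤ β (cm (c ^ M) Y • x0) - β x1 + 50 * slen d c)
    {z : G} (hz : z * cm (c ^ M) Y = cm (c ^ M) Y * z) {σ : ℤ}
    (s1 : ∀ x, β (z • x) ≤ β x + σ + 2 * dl) (s2 : ∀ x, β x + σ ≤ β (z • x) + 2 * dl)
    (σ1 : M * slen d c ≤ 2 * σ + 300 * slen d c) (σ2 : (σ : ℝ) ≤ M * slen d c + 20 * slen d c) :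
    False := by
  have hne := hL.ne
  have hG := hL.isom
  obtain ⟨t1, t2, t3, t4, -⟩ := h4 G X n d a0 L0 Ca hL ha0
  obtain ⟨ℓ, hℓ⟩ : ∃ ℓ, ℓ = slen d c := ⟨_, rfl⟩
  rw [← hℓ] at hB hr hm l1 l3 σ1 σ2
  have hdl0 : (0 : ℝ) ≤ dl := Nat.cast_nonneg _
  have hL0 : (0 : ℝ) ≤ L0 := Nat.cast_nonneg _
  have hC0 : (0 : ℝ) ≤ C := Nat.cast_nonneg _
  have hℓ0 : 0 < ℓ := by linarith
  have hc : 0 < slen d c := by rw [← hℓ]; exact hℓ0
  have hMR : (1000000 : ℝ) ≤ M := by exact_mod_cast hM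
  have hMℓ : 1000000 * ℓ ≤ M * ℓ := mul_le_mul_of_nonneg_right hMR hℓ0.le
  obtain ⟨q, hq⟩ : ∃ q : ℝ, q = M * ℓ := ⟨_, rfl⟩
  rw [← hq] at hMℓ l1 l3 σ1 σ2
  obtain ⟨R, hR⟩ : ∃ R, R = cm (c ^ M) Y := ⟨_, rfl⟩
  rw [← hR] at hDD hβ p1 p2 l3 hz
  obtain ⟨α, hα⟩ : ∃ α, α = c ^ M * Y := ⟨_, rfl⟩
  rw [← hα] at p2
  -- overlapping pieces have commuting elements
  have ov : ∀ (a b a' b' : X) (e e' : G), IsPc d R r m a b e → IsPc d R r m a' b' e' →
      (β a : ℝ) + 57 * ℓ ≤ β b → (β a : ℝ) + 57 * ℓ ≤ β b' → (β a' : ℝ) + 57 * ℓ ≤ β b →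
      (β a' : ℝ) + 57 * ℓ ≤ β b' → e * e' = e' * e := by
    intro a b a' b' e e' q1 q2 q3 q4 q5 q6
    have hW : ((4 * (m + m) + 2 * L0 + C + 2 * (2 * r + C) : ℕ) : ℝ) ≤ 57 * ℓ := by
      push_cast
      linarith
    have cv : ∀ x y : X, (β x : ℝ) + 57 * ℓ ≤ β y →
        β x + (4 * (m + m) + 2 * L0 + C + 2 * (2 * r + C) : ℕ) ≤ β y := by
      intro x y h
      have h5 : ((β x + (4 * (m + m) + 2 * L0 + C + 2 * (2 * r + C) : ℕ) : ℤ) : ℝ) ≤ β y := by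
        push_cast
        push_cast at hW
        linarith
      exact_mod_cast h5
    have w1 := cv a b q3
    have w2 := cv a b' q4
    have w3 := cv a' b q5
    have w4 := cv a' b' q6
    push_cast at w1 w2 w3 w4
    refine hO R β hDD hβ r m m a b a' b' e e' (max (β a) (β a') + (2 * r + C))
      (min (β b) (β b') - (2 * r + C)) q1 q2 ?_ ?_ ?_ ?_ ?_ <;> omega
  -- shifts as real inequalities
  have S1 : ∀ x, (β (z • x) : ℝ) ≤ β x + σ + 2 * dl := fun x => by exact_mod_cast s1 x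
  have S2 : ∀ x, (β x : ℝ) + σ ≤ β (z • x) + 2 * dl := fun x => by exact_mod_cast s2 x
  have hRR : ∀ x y, (β (R • x) : ℝ) + β y ≤ β (R • y) + β x + 2 * dl :=
    fun x y => by exact_mod_cast hβ.cm R rfl x y
  have S11 := S1 x0
  have S12 := S1 x1
  have S21 := S2 x0
  have S22 := S2 x1
  have S13 := S1 (R • x0)
  have S23 := S2 (R • x0)
  have R1 := hRR x0 x1
  have R2 := hRR x1 x0
  -- (A)
  have hA := ov _ _ _ _ _ _ (ispc_smul hG p1 hz) p2 (by linarith) (by linarith) (by linarith)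
    (by linarith)
  have hbc : c * (α⁻¹ * z) = (α⁻¹ * z) * c := by
    apply t4 c (α⁻¹ * z) hc
    have e1 : c * (α⁻¹ * z * c * (α⁻¹ * z)⁻¹) =
        α⁻¹ * ((α * c * α⁻¹) * (z * c * z⁻¹)) * α := by group
    have e2 : α⁻¹ * z * c * (α⁻¹ * z)⁻¹ * c =
        α⁻¹ * ((z * c * z⁻¹) * (α * c * α⁻¹)) * α := by group
    rw [e1, e2, hA]
  -- (C)
  have p3 := ispc_smul hG p1 (g := R) rfl
  have hC := ov _ _ _ _ _ _ (ispc_smul hG p2 hz) p3 (by linarith) (by linarith) (by linarith)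
    (by linarith)
  have hbc' : c * (R⁻¹ * z * α) = (R⁻¹ * z * α) * c := by
    apply t4 c (R⁻¹ * z * α) hc
    have e1 : c * (R⁻¹ * z * α * c * (R⁻¹ * z * α)⁻¹) =
        R⁻¹ * ((R * c * R⁻¹) * (z * (α * c * α⁻¹) * z⁻¹)) * R := by group
    have e2 : R⁻¹ * z * α * c * (R⁻¹ * z * α)⁻¹ * c =
        R⁻¹ * ((z * (α * c * α⁻¹) * z⁻¹) * (R * c * R⁻¹)) * R := by group
    rw [e1, e2, hC]
  have he : R⁻¹ * z * α = Y * (c ^ M * (α⁻¹ * z) * c ^ M) * Y := by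
    rw [hR, hα]
    unfold cm
    group
  rw [he] at hbc'
  refine contra h4 hL ha0 hc hnc (e := c ^ M * (α⁻¹ * z) * c ^ M) ?_ hbc'
  have hcc : Commute c (c ^ M) := Commute.self_pow c M
  have hcb : Commute c (α⁻¹ * z) := hbc
  exact ((hcc.mul_right hcb).mul_right hcc).eq

end CENT

open CENT in
/-- CENT: `R = [c^M, Y]` generates its centraliser. -/
theorem CENT (h1 : Stmt_BUS) (h2 : Stmt_OVL) (h3 : Stmt_PCS) (h4 : Stmt_TMAL) (h5 : Stmt_ROOT)
    (h6 : Stmt_DIV) (h7 : Stmt_RLN) : Stmt_CENT := by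
  obtain ⟨A2, C, h2⟩ := h2
  obtain ⟨A3, h3⟩ := h3
  obtain ⟨A5, h5⟩ := h5
  obtain ⟨A7, h7⟩ := h7
  refine ⟨A2 + A3 + A5 + A7 + 16 * dl, fun a0 L0 hA => ?_⟩
  obtain ⟨B3, m3, h3⟩ := h3 a0 L0 (by omega)
  obtain ⟨B5, m5, h5⟩ := h5 a0 L0 (by omega)
  obtain ⟨B7, m7, h7⟩ := h7 a0 L0 (by omega)
  refine ⟨B3 + B5 + B7 + (2 * L0 + 3 * C + 1000 * dl + 1000), m3 + m5 + m7 + 1000000, ?_⟩
  intro G X _ _ n d Ca hL c Y M hR hM
  have hne := hL.ne
  have hG := hL.isom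
  have hd := hL.gm
  have hh := hL.hyp
  have rg : ∀ B, B ≤ B3 + B5 + B7 + (2 * L0 + 3 * C + 1000 * dl + 1000) → Rg d B c Y := by
    intro B hB
    exact ⟨hR.nc, le_trans (by exact_mod_cast hB) hR.big, hR.near⟩
  have hB : (2 * L0 + 3 * C + 1000 * dl + 1000 : ℝ) ≤ slen d c := by
    have h8 := (rg (2 * L0 + 3 * C + 1000 * dl + 1000) (by omega)).big
    push_cast at h8
    exact h8
  have hdl0 : (0 : ℝ) ≤ dl := Nat.cast_nonneg _
  have hL0 : (0 : ℝ) ≤ L0 := Nat.cast_nonneg _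
  have hC0 : (0 : ℝ) ≤ C := Nat.cast_nonneg _
  have hc : 0 < slen d c := by linarith
  have hMR : (1000000 : ℝ) ≤ M := by exact_mod_cast (by omega : 1000000 ≤ M)
  have hMℓ : 1000000 * slen d c ≤ M * slen d c := mul_le_mul_of_nonneg_right hMR hc.le
  obtain ⟨hDD, hP⟩ := h3 G X n d Ca hL c Y M (rg B3 (by omega)) (by omega)
  obtain ⟨hl1, hl2⟩ := h7 G X n d Ca hL c Y M (rg B7 (by omega)) (by omega)
  have hroot := h5 G X n d Ca hL c Y M (rg B5 (by omega)) (by omega)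
  obtain ⟨β, hβ⟩ := h1 G X d hd hh hG hne (cm (c ^ M) Y) hDD
  obtain ⟨r, m, x0, x1, hr, hm, p1, p2, l1, -, l3, -⟩ := hP β hβ
  have hRpos : 0 < slen d (cm (c ^ M) Y) := by linarith
  refine ⟨hRpos, ?_⟩
  -- an element commuting with `R` of length at most half of the length of `R` is trivial
  have main : ∀ z : G, z * cm (c ^ M) Y = cm (c ^ M) Y * z →
      2 * slen d z ≤ slen d (cm (c ^ M) Y) → z = 1 := by
    intro z hz hzl
    by_contra hz1
    have hr1 := hroot z hz hz1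
    obtain ⟨y0, hy0⟩ := Mn_nonempty (d := d) (cm (c ^ M) Y)
    have hzc : Commute z (cm (c ^ M) Y) := hz
    have hzy0 := (hG.smul_mem_Mn_of_commute hzc y0).2 hy0
    have hdR : 7 * dl + 2 ≤ disp d (cm (c ^ M) Y) := by
      have h8 := IsomAct.slen_le_disp (d := d) (cm (c ^ M) Y)
      have h9 : ((7 * dl + 2 : ℕ) : ℝ) ≤ disp d (cm (c ^ M) Y) := by
        push_cast
        linarith
      exact_mod_cast h9
    have hsz := hG.comm_dist_le_slen hh hd hzc hy0 hdR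
    have hsz' := IsomAct.slen_mul_le (d := d) z y0 1
    rw [pow_one, Nat.cast_one, one_mul] at hsz'
    obtain ⟨σ, hσ⟩ : ∃ σ : ℤ, σ = β (z • y0) - β y0 := ⟨_, rfl⟩
    have s1 : ∀ x, β (z • x) ≤ β x + σ + 2 * dl := by
      intro x
      have h8 := hβ.cm z hz x y0
      omega
    have s2 : ∀ x, β x + σ ≤ β (z • x) + 2 * dl := by
      intro x
      have h8 := hβ.cm z hz y0 x
      omega
    have hax := hβ.ax y0 hy0 (z • y0) hzy0
    have hlip1 := hβ.lip y0 (z • y0)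
    have hlip2 := hβ.lip (z • y0) y0
    rw [hd.comm (z • y0) y0] at hlip2
    have hax' : (d y0 (z • y0) : ℝ) ≤ |(σ : ℝ)| + 14 * dl := by
      have h8 : (d y0 (z • y0) : ℤ) ≤ |σ| + 14 * dl := by
        rw [hσ, abs_sub_comm]
        exact hax
      exact_mod_cast h8
    have hlip' : |(σ : ℝ)| ≤ d y0 (z • y0) := by
      have h8 : |σ| ≤ (d y0 (z • y0) : ℤ) := by
        rw [abs_le]
        omega
      exact_mod_cast h8
    have a1 : M * slen d c ≤ 2 * |(σ : ℝ)| + 300 * slen d c := by linarith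
    have a2 : |(σ : ℝ)| ≤ M * slen d c + 20 * slen d c := by linarith
    rcases le_or_gt 0 σ with hs | hs
    · have hs' : |(σ : ℝ)| = σ := abs_of_nonneg (by exact_mod_cast hs)
      rw [hs'] at a1 a2
      exact no_medium h4 hL (by omega) (by omega) hB hR.nc
        (h2 G X n d a0 L0 Ca hL (by omega)) hDD hβ hr hm p1 p2 l1 l3 hz s1 s2 a1 a2
    · have hs' : |(σ : ℝ)| = ((-σ : ℤ) : ℝ) := by
        push_cast
        exact abs_of_neg (by exact_mod_cast hs)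
      rw [hs'] at a1 a2
      have hz' : z⁻¹ * cm (c ^ M) Y = cm (c ^ M) Y * z⁻¹ := hzc.inv_left.eq
      refine no_medium h4 hL (by omega) (by omega) hB hR.nc
        (h2 G X n d a0 L0 Ca hL (by omega)) hDD hβ hr hm p1 p2 l1 l3 hz' (σ := -σ) ?_ ?_ a1 a2
      · intro x
        have h8 := s2 (z⁻¹ • x)
        rw [smul_inv_smul] at h8
        omega
      · intro x
        have h8 := s1 (z⁻¹ • x)
        rw [smul_inv_smul] at h8
        omega
  intro z hz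
  obtain ⟨i, hi⟩ := h6 G X d hd hh hG hne (cm (c ^ M) Y) z hRpos hz
  have hzc : Commute z (cm (c ^ M) Y) := hz
  have h8 := main (z * cm (c ^ M) Y ^ i)
    ((hzc.mul_left ((Commute.refl _).zpow_left i)).eq) hi
  refine ⟨-i, ?_⟩
  rw [zpow_neg]
  exact eq_inv_of_mul_eq_one_left h8

end Pool.Agent.Ady
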