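import Pool.Agent.Ady.Stmts

/-!
# MP_9e15c1_al: the growth of chains passes to the quotient
-/

set_option autoImplicit false

namespace Pool.Agent.Ady

open Pool.Agent.Olsh

namespace CLAIMT

/-- Elements of exponent `n` have stable length `0`. -/
theorem slen_tors {G X : Type} [Group G] [MulAction G X] {d : X → X → ℕ} (hG : IsomAct G d)
    (hd : IsGM d) [Nonempty X] {n : ℕ} (hn : 1 ≤ n) {g : G} (h : g ^ n = 1) : slen d g = 0 := by
  have h1 := hG.slen_pow hd g n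
  have h2 := hG.slen_pow hd (1 : G) 0
  simp only [pow_zero, Nat.cast_zero, zero_mul] at h2
  rw [h, h2] at h1
  have h3 : (0 : ℝ) < n := by exact_mod_cast hn
  rcases mul_eq_zero.mp h1.symm with h4 | h4
  · exact absurd h4 h3.ne'
  · exact h4

theorem slen_one {G X : Type} [Group G] [MulAction G X] {d : X → X → ℕ} (hG : IsomAct G d)
    (hd : IsGM d) [Nonempty X] : slen d (1 : G) = 0 := slen_tors hG hd (n := 1) le_rfl (one_pow 1)

/-- Growth by a factor `2`. -/
theorem grow {G X : Type} [Group G] [MulAction G X] {n : ℕ} {d : X → X → ℕ} {a0 L0 Ca C1 V : ℕ}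
    (hlev : LevT G n d a0 L0 Ca)
    (h5 : ∀ (c Y : G) (M : ℕ),
      0 < slen d c → c * Y ≠ Y * c → 16 * slen d c + 4 * L0 + C1 ≤ M * slen d c →
      2 * (M * slen d c) ≤ slen d (cm (c ^ M) Y) + 16 * slen d c + 4 * L0 + C1)
    {c Y : G} {M : ℕ} (hM : V * (4 * L0 + C1) + 40 ≤ M) (hV : 1 ≤ V * slen d c)
    (hpos : 0 < slen d (cm (c ^ M) Y)) : 2 * slen d c ≤ slen d (cm (c ^ M) Y) := by
  have hne := hlev.ne
  have hc0 : 0 ≤ slen d c := IsomAct.slen_nonneg c
  have hc : 0 < slen d c := by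
    rcases hc0.lt_or_eq with h | h
    · exact h
    · rw [← h, mul_zero] at hV
      linarith
  have hnc : c * Y ≠ Y * c := by
    intro h
    have h6 : cm (c ^ M) Y = 1 := by
      rw [cm_eq_one_iff]
      exact ((show Commute c Y from h).pow_left M).eq
    rw [h6, slen_one hlev.isom hlev.gm] at hpos
    exact lt_irrefl _ hpos
  have hM' : (V : ℝ) * (4 * L0 + C1) + 40 ≤ M := by exact_mod_cast hM
  have hb : (V : ℝ) * (4 * L0 + C1) * slen d c ≥ 4 * L0 + C1 := by
    have h8 : (0 : ℝ) ≤ 4 * L0 + C1 := by positivity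
    have h9 : 0 ≤ ((V : ℝ) * slen d c - 1) * (4 * L0 + C1) :=
      mul_nonneg (by linarith) h8
    nlinarith
  have hMc : (V : ℝ) * (4 * L0 + C1) * slen d c + 40 * slen d c ≤ M * slen d c := by
    have h9 : 0 ≤ ((M : ℝ) - ((V : ℝ) * (4 * L0 + C1) + 40)) * slen d c :=
      mul_nonneg (by linarith) hc0
    nlinarith
  have h10 := h5 c Y M hc hnc (by linarith)
  linarith

end CLAIMT

open CLAIMT in
/-- The growth of chains passes to the quotient. -/
theorem CLAIMT (h1 : Stmt_TNU1) (h2 : Stmt_PQ) (h3 : Stmt_GROW) (h4 : Stmt_TLL) :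
    Stmt_CLAIMT := by
  intro η η1 C
  obtain ⟨V1, hV1, h1⟩ := h1 η η1 C
  obtain ⟨A2, h2⟩ := h2 η η1 C
  obtain ⟨A3, C1, h3⟩ := h3
  refine ⟨A2 + A3, fun a0 L0 Ca hA => ?_⟩
  obtain ⟨V2, m2, U2, hV2, h2⟩ := h2 a0 L0 Ca (by omega)
  obtain ⟨U1, h1⟩ := h1 a0 L0 Ca
  refine ⟨V1 + V2, m2 + (V1 + V2) * (4 * L0 + C1) + 40, U1 + U2, by omega, ?_⟩
  intro G G' X S A' _ _ _ _ _ N n d u L Y d' π q H hlev' hclm M hM c y hrec
  by_contra hcon
  push Not at hcon
  have hlev := H.lev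
  have hne := hlev.ne
  have hne' : Nonempty A' := hlev'.ne
  have hn1 : 1 ≤ n := H.odd.pos
  have hpos' : ∀ k, 0 < slen d' (c k) := fun k => (hlev'.lox _).resolve_left (hcon k).1
  have hshort : ∀ k, ((V1 + V2 : ℕ) : ℝ) * slen d' (c k) < 1 := fun k => (hcon k).2
  have hs1 : ∀ k, (V1 : ℝ) * slen d' (c k) < 1 := by
    intro k
    have h5 := hshort k
    have h6 := hpos' k
    have h7 : (0 : ℝ) ≤ V2 := Nat.cast_nonneg _
    push_cast at h5
    nlinarith [mul_nonneg h7 h6.le]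
  have hs2 : ∀ k, (V2 : ℝ) * slen d' (c k) < 1 := by
    intro k
    have h5 := hshort k
    have h6 := hpos' k
    have h7 : (0 : ℝ) ≤ V1 := Nat.cast_nonneg _
    push_cast at h5
    nlinarith [mul_nonneg h7 h6.le]
  -- the start
  have hst : ∃ g : G, π g = c 0 ∧ ∃ o, d o (g • o) ≤ u := by
    rcases h1 G G' X S A' N n d u L Y d' π q (H.mono (by omega)) (c 0) (hpos' 0) with h5 | h5
    · exact absurd h5 (not_le.2 (hs1 0))
    · obtain ⟨g, o, hg, ho⟩ := h5
      exact ⟨g, hg, o, by omega⟩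
  -- the step
  have hstep : ∀ k, ∀ g : G, (π g = c k ∧ ∃ o, d o (g • o) ≤ u) → ∃ y1 : G, π y1 = y k ∧
      (π (cm (g ^ M) y1) = c (k + 1) ∧ ∃ o, d o (cm (g ^ M) y1 • o) ≤ u) := by
    rintro k g ⟨hg, o, ho⟩
    have h5 : cm (π g ^ M) (y k) = c (k + 1) := by rw [hg, hrec k]
    obtain ⟨y1, o1, hy1, ho1⟩ := h2 G G' X S A' N n d u L Y d' π q (H.mono (by omega)) hlev' M g o
      (y k) (by omega) ho (by rw [hg]; exact hpos' k) (by rw [h5]; exact hpos' _)
      (by rw [h5]; exact hs2 _)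
    refine ⟨y1, hy1, ?_, o1, ho1⟩
    rw [map_cm, map_pow, hy1, h5]
  choose! F hF1 hF2 using hstep
  obtain ⟨g0, hg0⟩ := hst
  -- the lifted chain
  obtain ⟨ch, hch0, hch1⟩ : ∃ ch : ℕ → G, ch 0 = g0 ∧
      ∀ k, ch (k + 1) = cm (ch k ^ M) (F k (ch k)) :=
    ⟨fun k => Nat.rec g0 (fun k g => cm (g ^ M) (F k g)) k, rfl, fun k => rfl⟩
  have hch : ∀ k, π (ch k) = c k ∧ ∃ o, d o (ch k • o) ≤ u := by
    intro k
    induction k with
    | zero =>
      rw [hch0]
      exact hg0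
    | succ k ih =>
      rw [hch1]
      exact hF2 k (ch k) ih
  have hchpos : ∀ k, 0 < slen d (ch k) := by
    intro k
    have h5 := (h4 G G' X S A' N n d u L Y η η1 C d' π q a0 L0 Ca H.toQT hlev).2.2 (ch k)
      (by rw [(hch k).1]; exact hpos' k)
    exact h5.1
  have hchle : ∀ k, slen d (ch k) ≤ u := by
    intro k
    obtain ⟨o, ho⟩ := (hch k).2
    have h5 := IsomAct.slen_mul_le (d := d) (ch k) o 1
    rw [pow_one, Nat.cast_one, one_mul] at h5
    exact h5.trans (by exact_mod_cast ho)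
  obtain ⟨k, hk⟩ := hclm M (by omega) ch (fun k => F k (ch k)) hch1
  rcases hk with hk | hk
  · have := slen_tors hlev.isom hlev.gm hn1 hk
    exact absurd (hchpos k) (by rw [this]; exact lt_irrefl 0)
  have hgr : ∀ i, (2 : ℝ) ^ i * slen d (ch k) ≤ slen d (ch (k + i)) := by
    intro i
    induction i with
    | zero => simp
    | succ i ih =>
      have h6 : slen d (ch k) ≤ slen d (ch (k + i)) := by
        have h7 : (1 : ℝ) ≤ 2 ^ i := one_le_pow₀ (by norm_num)
        nlinarith [hchpos k]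
      have h7 : 1 ≤ ((V1 + V2 : ℕ) : ℝ) * slen d (ch (k + i)) :=
        hk.trans (mul_le_mul_of_nonneg_left h6 (Nat.cast_nonneg _))
      have h8 := grow (C1 := C1) (V := V1 + V2) hlev
        (fun c Y M => h3 G X n d a0 L0 Ca hlev (by omega) c Y M)
        (c := ch (k + i)) (Y := F (k + i) (ch (k + i))) (M := M) (by omega) h7
        (by rw [← hch1]; exact hchpos _)
      rw [← hch1] at h8
      have h9 : k + (i + 1) = k + i + 1 := rfl
      rw [h9, pow_succ]
      linarith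
  have hlim : ∃ i : ℕ, (u : ℝ) / slen d (ch k) < 2 ^ i := by
    obtain ⟨i, hi⟩ := pow_unbounded_of_one_lt ((u : ℝ) / slen d (ch k)) (by norm_num : (1:ℝ) < 2)
    exact ⟨i, hi⟩
  obtain ⟨i, hi⟩ := hlim
  rw [div_lt_iff₀ (hchpos k)] at hi
  have h10 := hgr i
  have h11 := hchle (k + i)
  linarith

end Pool.Agent.Ady
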