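import Pool.Agent.Ady.Stmts
import Pool.Agent.Olsh.TADD

/-!
# MP_9e15c1_al, module DIV: division with remainder in the centraliser of a loxodromic element
-/

set_option autoImplicit false

open Filter Topology

namespace Pool.Agent.Ady

open Pool.Agent.Olsh

namespace DIV

variable {V : Type} {d : V → V → ℕ} {δ : ℕ} {G : Type} [Group G] [MulAction G V]

/-- For commuting elements one of the two products has stable length at most the difference of
the stable lengths. -/
theorem slen_diff (hd : IsGM d) (hh : Hyp d δ) (hG : IsomAct G d) [Nonempty V] {a b A : G}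
    (hab : Commute a b) (ha : Commute a A) (hb : Commute b A) (hL : 7 * δ + 2 ≤ disp d A) :
    slen d (a * b) ≤ |slen d a - slen d b| ∨ slen d (a * b⁻¹) ≤ |slen d a - slen d b| := by
  obtain ⟨z, hz⟩ := Mn_nonempty (d := d) A
  by_contra hcon
  push Not at hcon
  obtain ⟨p1, p2⟩ := hcon
  obtain ⟨E, hE⟩ : ∃ E, E = |slen d a - slen d b| := ⟨_, rfl⟩
  rw [← hE] at p1 p2
  obtain ⟨ε, hε, he1, he2⟩ : ∃ ε : ℝ, 0 < ε ∧ E + ε ≤ slen d (a * b) ∧
      E + ε ≤ slen d (a * b⁻¹) :=
    ⟨min (slen d (a * b) - E) (slen d (a * b⁻¹) - E),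
      lt_min (by linarith) (by linarith),
      by linarith [min_le_left (slen d (a * b) - E) (slen d (a * b⁻¹) - E)],
      by linarith [min_le_right (slen d (a * b) - E) (slen d (a * b⁻¹) - E)]⟩
  have l1 := hG.tendsto_slen hd a z
  have l2 := hG.tendsto_slen hd b z
  have l4 := (l1.sub l2).abs
  rw [← hE] at l4
  have ev1 := l4.eventually (gt_mem_nhds (show E < E + ε / 4 by linarith))
  obtain ⟨n, hn1, hn2, hn3⟩ := (ev1.and ((eventually_ge_atTop 1).and
    (eventually_gt_atTop ⌈(64 * δ : ℝ) / ε⌉₊))).exists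
  have hn0 : (0 : ℝ) < n := by exact_mod_cast hn2
  have hn4 : (64 * δ : ℝ) / ε < n := lt_of_le_of_lt (Nat.le_ceil _) (by exact_mod_cast hn3)
  rw [div_lt_iff₀ hε] at hn4
  rw [← sub_div, abs_div, abs_of_pos hn0, div_lt_iff₀ hn0] at hn1
  obtain ⟨D, hD⟩ : ∃ D, D = (d z (a ^ n • z) - d z (b ^ n • z)) +
      (d z (b ^ n • z) - d z (a ^ n • z)) := ⟨_, rfl⟩
  have hDr : (D : ℝ) < (E + ε / 4) * n := by
    refine lt_of_le_of_lt ?_ hn1
    rcases le_total (d z (a ^ n • z)) (d z (b ^ n • z)) with h5 | h5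
    · have h6 : D + d z (a ^ n • z) = d z (b ^ n • z) := by omega
      have h7 : (D : ℝ) + d z (a ^ n • z) = d z (b ^ n • z) := by exact_mod_cast h6
      rw [abs_sub_comm]
      refine le_trans (le_of_eq ?_) (le_abs_self _)
      linarith
    · have h6 : D + d z (b ^ n • z) = d z (a ^ n • z) := by omega
      have h7 : (D : ℝ) + d z (b ^ n • z) = d z (a ^ n • z) := by exact_mod_cast h6
      refine le_trans (le_of_eq ?_) (le_abs_self _)
      linarith
  have key := TADD.products hd hh hG (ha.pow_left n) (hb.pow_left n) hL hz D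
    (by omega) (by omega)
  rcases key with key | key
  · have h5 := IsomAct.slen_mul_le (d := d) (a * b) z n
    rw [hab.mul_pow] at h5
    have h6 : (d z ((a ^ n * b ^ n) • z) : ℝ) ≤ D + 32 * δ := by exact_mod_cast key
    nlinarith
  · have h5 := IsomAct.slen_mul_le (d := d) (a * b⁻¹) z n
    rw [hab.inv_right.mul_pow, inv_pow] at h5
    have h6 : (d z ((a ^ n * (b ^ n)⁻¹) • z) : ℝ) ≤ D + 32 * δ := by exact_mod_cast key
    nlinarith

end DIV

open DIV in
theorem DIV : Stmt_DIV := by
  intro G X _ _ d hd hh hG hne R z hR hz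
  obtain ⟨hm1, hm2⟩ := hG.axPow_spec hd (7 * dl + 2) hR
  generalize axPow (7 * dl + 2) d R = m at hm1 hm2
  have hc : Commute z R := hz
  obtain ⟨k, hk⟩ : ∃ k, k = ⌊slen d z / slen d R⌋₊ := ⟨_, rfl⟩
  have hk1 : (k : ℝ) * slen d R ≤ slen d z := by
    rw [← le_div_iff₀ hR, hk]
    exact Nat.floor_le (div_nonneg (IsomAct.slen_nonneg z) hR.le)
  have hk2 : slen d z < (k + 1) * slen d R := by
    rw [← div_lt_iff₀ hR, hk]
    exact Nat.lt_floor_add_one _
  have hRk : slen d (R ^ k) = k * slen d R := hG.slen_pow hd R k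
  obtain ⟨j, hj⟩ : ∃ j : ℤ, slen d (z * R ^ j) < slen d R := by
    have h1 := slen_diff hd hh hG (hc.pow_right k) (hc.pow_right m)
      ((Commute.refl R).pow_pow k m) hm2
    have h2 : |slen d z - slen d (R ^ k)| < slen d R := by
      rw [hRk, abs_of_nonneg (by linarith)]
      linarith
    rcases h1 with h1 | h1
    · exact ⟨k, by rw [zpow_natCast]; linarith⟩
    · exact ⟨-k, by rw [zpow_neg, zpow_natCast]; linarith⟩
  by_cases h3 : 2 * slen d (z * R ^ j) ≤ slen d R
  · exact ⟨j, h3⟩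
  · push Not at h3
    have hc1 : Commute (z * R ^ j) R := hc.mul_left ((Commute.refl R).zpow_left j)
    have h1 := slen_diff hd hh hG hc1 (hc1.pow_right m) ((Commute.refl R).pow_right m) hm2
    have h2 : |slen d (z * R ^ j) - slen d R| < slen d R / 2 := by
      rw [abs_sub_comm, abs_of_nonneg (by linarith)]
      linarith
    rcases h1 with h1 | h1
    · refine ⟨j + 1, ?_⟩
      rw [zpow_add, zpow_one, ← mul_assoc]
      linarith
    · refine ⟨j - 1, ?_⟩
      rw [zpow_sub, zpow_one, ← mul_assoc]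
      linarith

end Pool.Agent.Ady
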