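import Pool.Agent.Ady.Stmts
import Pool.Agent.Olsh.GWA

/-!
# MP_9e15c1_al: a nontrivial element fixing an apex moves far points far
-/

set_option autoImplicit false

namespace Pool.Agent.Ady

open Pool.Agent.Olsh

namespace FIX

section generic

variable {G A : Type} [Group G] [MulAction G A] {d : A → A → ℕ} {ap : Set A}
  {c : A → A → A → ℕ} {T0 : ℕ}

/-- A big apex between `s` and `v` is fixed. -/
theorem fixed_apex (hA : Stmt_PSA) (hps : IsPS d ap c T0) (hI : Isom G d)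
    (hap : ∀ (g : G), ∀ s ∈ ap, g • s ∈ ap)
    (hc : ∀ (g : G), ∀ s ∈ ap, ∀ y y', d y s = 1 → d y' s = 1 →
      c (g • s) (g • y) (g • y') = c s y y') {x : G} {s v vs y' s2 : A} {D : ℕ}
    (hxs : x • s = s) (hv : d v (x • v) ≤ D) (hvs : Bt d v vs s)
    (hD : D < d v vs) (hy : d s y' = 1) (hyv : d y' vs + 1 = d s vs)
    (hs2 : s2 ∈ ap) (hang : 40 * T0 < ang d c s2 y' vs) : x • s2 = s2 ∧ s ≠ s2 := by
  have hd := hps.gm
  obtain ⟨-, -, -, Asym, Atri, -, -, A8, -, A10, -⟩ := hA A d ap c T0 hps s2 hs2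
  obtain ⟨b1, n1, n2⟩ := A8 y' vs (by omega)
  have c1 := hd.comm s y'
  have c2 := hd.comm v vs
  have c3 := hd.comm s v
  have c4 := hd.comm s vs
  have c5 := hd.comm s2 vs
  have c6 := hd.comm s s2
  have c7 := hd.comm s2 v
  have hne : s ≠ s2 := by
    rintro rfl
    omega
  unfold Bt at hvs
  have t1 := hd.tri s y' s2
  have t2 := hd.tri s s2 vs
  have t3 := hd.tri s s2 v
  have t4 := hd.tri s2 vs v
  have e1 : d s s2 = 1 + d y' s2 := by omega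
  have e2 : d s2 v = d s2 vs + d vs v := by omega
  have a1 := A10 s y' (by unfold Bt; omega) n1
  have a2 := A10 v vs (by unfold Bt; omega) n2
  have nv : v ≠ s2 := by
    intro h
    have : d s2 v = 0 := by rw [h]; exact hd.self s2
    omega
  have k1 := Atri y' s vs hne
  have k2 := Atri s v vs nv
  have k3 := Asym y' s
  have hbig : 38 * T0 < ang d c s2 s v := by omega
  have e3 := GWA.ang_smul hI hc x hs2 s v
  rw [hxs] at e3
  obtain ⟨-, -, -, Asym', Atri', -, -, -, -, -, A11'⟩ := hA A d ap c T0 hps (x • s2) (hap x s2 hs2)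
  have e4 : d (x • v) (x • s2) = d v s2 := hI _ _ _
  have e5 := hd.comm v (x • v)
  have a3 := A11' (x • v) v (by omega)
  have nv' : v ≠ x • s2 := by
    intro h
    rw [← h] at e4
    omega
  have k4 := Atri' s v (x • v) nv'
  have k5 := Asym' v (x • v)
  have hbig' : 2 * T0 < ang d c (x • s2) s v := by omega
  refine ⟨?_, hne⟩
  by_contra hcon
  have e6 : d s (x • s2) = d s s2 := by
    have : d (x • s) (x • s2) = d s s2 := hI _ _ _
    rwa [hxs] at this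
  have hpos : d s2 (x • s2) ≠ 0 := fun h0 => hcon (hd.eq_of_zero h0).symm
  rcases GWA.lin (v := s) (w := v) hA hps hs2 (hap x s2 hs2) (fun h => hcon h.symm) (by omega)
    hbig' with h | h <;> omega

end generic

/-- Invariance of the pseudo-metrics on the neighbours of apexes. -/
theorem cdX_smul {G X S : Type} [Group G] [MulAction G X] [MulAction G S] {d : X → X → ℕ}
    (hI : IsomAct G d) (g : G) (s y y' : X ⊕ S) :
    cdX d (g • s) (g • y) (g • y') = cdX d s y y' := by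
  rcases y with y | y <;> rcases y' with y' | y'
  · exact hI g y y'
  · rfl
  · rfl
  · rfl

/-- The final estimate. -/
theorem arith {T N1u κu Cu CPu u' y1z zv1 y1v1 y1pr v1pr pry v1y CP v1y1 v1z zy zgz zz' z'gz C2
    lam dl' C2u dlu : ℕ} (h1 : T = N1u + κu + Cu + CPu + 2 * u') (h2 : y1z = T)
    (h3 : y1z + zv1 = y1v1) (h4 : y1pr ≤ Cu) (h5 : v1pr + pry ≤ v1y + CP)
    (h6 : v1y1 ≤ v1pr + y1pr) (h7 : v1y1 = y1v1) (h8 : v1y ≤ v1z + zy) (h9 : zv1 = v1z)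
    (h10 : 2 * zy ≤ zgz + (200 * dl' + 100)) (h11 : zgz ≤ zz' + z'gz) (h12 : zz' ≤ C2)
    (h13 : z'gz ≤ 2 * lam + 2 * dl') (h14 : lam ≤ N1u)
    (h15 : κu = C2u + 2 * N1u + 202 * dlu + 100 * u') (h16 : C2 ≤ C2u) (h17 : dl' ≤ dlu)
    (h18 : CP ≤ CPu) (h19 : 1 ≤ u') : False := by
  omega

end FIX

open FIX in
/-- A nontrivial element fixing an apex moves far points far. -/
theorem FIX (h1 : Stmt_PSA) (h2 : Stmt_QTB) (h3 : Stmt_DICH) (h4 : Stmt_TWO) (h5 : Stmt_ISO)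
    (h6 : Stmt_ANGX) (h7 : Stmt_LAM) (h8 : Stmt_CONEGM) (h9 : Stmt_PROJ)
    (h10 : Stmt_CONEISO) : Stmt_FIX := by
  intro η η1 C D
  obtain ⟨C1, hDICH⟩ := h3 η η1 C
  obtain ⟨CX, hANGX⟩ := h6 η η1 C
  obtain ⟨C2, hLAM⟩ := h7 η η1 C
  obtain ⟨CP, hPROJ⟩ := h9 dl η
  obtain ⟨D1, hD1⟩ : ∃ D1, D1 = D + 18 * dl := ⟨_, rfl⟩
  obtain ⟨B, hB⟩ : ∃ B, B = 40 * C + C1 := ⟨_, rfl⟩
  obtain ⟨a, ha⟩ : ∃ a, a = C + D1 := ⟨_, rfl⟩
  obtain ⟨N1, hN1⟩ : ∃ N1, N1 = (a + 1) * (B + C2 * (1 + a)) := ⟨_, rfl⟩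
  obtain ⟨κ, hκ⟩ : ∃ κ, κ = C2 + 2 * N1 + 202 * dl + 100 := ⟨_, rfl⟩
  obtain ⟨R, hR⟩ : ∃ R, R = 2 * N1 + κ + C + CP + 5 := ⟨_, rfl⟩
  refine ⟨D + 8 * dl + R + 20 + D1, fun a0 L0 Ca => ?_⟩
  obtain ⟨U4, hTWO⟩ := h4 η η1 C a0 L0 Ca
  refine ⟨U4 + C1 + C2 + CX + 100 * (B + C + CX + 1), ?_⟩
  intro G G' X S A' _ _ _ _ _ N n d u L Y d' π q H x v s hs hx hxs hv
  by_contra hcon
  push Not at hcon
  obtain ⟨hd', hI', hh', hps, hap, hc, hqap, hatt, hlift⟩ :=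
    h2 G G' X S A' N n d u L Y η η1 C d' π q H.toQT
  have hX : IsGM d := H.lev.gm
  have hh : Hyp d dl := H.lev.hyp
  have hIG : IsomAct G d := H.isom
  have hcp := H.qn.conep
  have hu1 : 1 ≤ u := hcp.one_le
  have hu := H.hu
  have hL := H.hL
  obtain ⟨hcgm, hadj, hcdn⟩ := h8 X S d u Y hX hu1 hcp.ne
  have hciso : Isom G (cd d u Y) := h10 G X S d u Y hIG H.Ysmul
  -- the vertex `vs`
  have hc0 := hd'.comm v s
  obtain ⟨vs, hvsa, hvs, hvs1, hvs2⟩ := GWA.nonapex hps (v := v) (w := s)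
    (t := D + 8 * dl + 1) (by omega)
  have hvs' : d' v vs + d' vs s = d' v s := hvs
  have hdisp : d' vs (x • vs) ≤ D1 := by
    rw [hD1]
    exact GWA.disp_mid hh' hd' hI' hv (by rw [hxs, hd'.self]; omega) hvs (by omega) (by omega)
  have hc1 := hd'.comm vs s
  obtain ⟨y', hy1, hy2⟩ := hd'.mid s vs 1 (by omega)
  have hc2 := hd'.comm s y'
  have hya : y' ∉ q '' apx X S := by
    intro h
    exact hps.nadj y' h s hs (by omega)
  have hyv : d' y' vs + 1 = d' s vs := by omega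
  have hC1L : C1 * u ≤ L := le_trans (Nat.mul_le_mul_right u (by omega)) hL
  rcases hDICH N Unit X S A' d u L Y d' 1 q H.qn (by omega) hC1L (40 * (C * u)) y' vs hya hvsa
    with ⟨s2, hs2, hbig⟩ | ⟨y1, v1, hqy, hqv, hcd, hang⟩
  · -- a big apex
    obtain ⟨e1, e2⟩ := fixed_apex h1 hps hI' hap hc hxs hv hvs (by omega) hy1 hyv hs2 hbig
    exact hx (hTWO G G' X S A' N n d u L Y d' π q (H.mono (by omega)) x s hs s2 hs2 e2 hxs e1)
  -- lifts
  obtain ⟨_, ⟨s0, rfl⟩, hs0⟩ := hs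
  obtain ⟨k, hk, hkd⟩ := H.quot.ex (Sum.inl y1) (Sum.inr s0)
  rw [hqy, hs0] at hkd
  have hqs1 : q (Sum.inr (k • s0)) = s := by
    have e1 : q (k • (Sum.inr s0 : X ⊕ S)) = π k • q (Sum.inr s0) := H.quot.equiv _ _
    rw [(H.quot.ker k).2 hk, one_smul, hs0] at e1
    exact e1
  obtain ⟨s1, hs1⟩ : ∃ s1, s1 = k • s0 := ⟨_, rfl⟩
  rw [← hs1] at hqs1
  have hys1 : cd d u Y (Sum.inl y1) (Sum.inr s1) = 1 := by
    rw [hs1]
    have : cd d u Y (Sum.inl y1) (Sum.inr (k • s0)) = d' y' s := hkd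
    omega
  have hyY : y1 ∈ Y s1 := (hadj _ _).1 hys1
  obtain ⟨g0, hg0, hg0s⟩ := hlift x (Sum.inr s1) (by rw [hqs1, hxs])
  have hg0s' : g0 • s1 = s1 := Sum.inr.inj hg0s
  have hys2 : cd d u Y (Sum.inl (g0 • y1)) (Sum.inr s1) = 1 := by
    have e1 : cd d u Y (g0 • Sum.inl y1) (g0 • Sum.inr s1) = _ := hciso g0 _ _
    rw [hg0s, hys1] at e1
    exact e1
  obtain ⟨-, r, hrN, hrs, hcq⟩ := hatt (Sum.inr s1) ⟨s1, rfl⟩ (Sum.inl y1) (Sum.inl (g0 • y1))
    hys1 hys2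
  -- the bound of `cq`
  have hqg0 : q (Sum.inl (g0 • y1)) = x • y' := by
    have e1 : q (g0 • (Sum.inl y1 : X ⊕ S)) = π g0 • q (Sum.inl y1) := H.quot.equiv _ _
    rw [hg0, hqy] at e1
    exact e1
  rw [hqs1, hqy, hqg0] at hcq
  obtain ⟨-, A2, -, -, -, -, -, -, -, -, A11⟩ := h1 A' d' _ _ _ hps s ⟨_, ⟨s0, rfl⟩, hs0⟩
  have m1 : y' ∈ Nb d' s vs := ⟨by omega, by rw [hd'.comm vs y']; omega⟩
  have m2 : x • y' ∈ Nb d' s (x • vs) := by
    have e1 : d' (x • y') (x • s) = d' y' s := hI' _ _ _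
    have e2 : d' (x • vs) (x • y') = d' vs y' := hI' _ _ _
    have e3 : d' (x • vs) (x • s) = d' vs s := hI' _ _ _
    rw [hxs] at e1 e3
    exact ⟨by omega, by rw [e2, e3, hd'.comm vs y']; omega⟩
  have m3 := A2 vs (x • vs) y' (x • y') m1 m2
  have m4 := A11 vs (x • vs) (by omega)
  obtain ⟨g, hg⟩ : ∃ g, g = r * g0 := ⟨_, rfl⟩
  have hrπ : π r = 1 := (H.quot.ker r).2 hrN
  have hgπ : π g = x := by rw [hg, map_mul, hrπ, one_mul, hg0]
  have hrs' : r • s1 = s1 := Sum.inr.inj hrs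
  have hgs : g • s1 = s1 := by rw [hg, mul_smul, hg0s', hrs']
  have hg1 : g ≠ 1 := by
    rintro rfl
    exact hx (by rw [← hgπ, map_one])
  have hdy : d y1 (g • y1) ≤ C * u := by
    have e1 : cdX d (Sum.inr s1) (Sum.inl y1) (r • Sum.inl (g0 • y1)) = d y1 (r • g0 • y1) := rfl
    rw [hg, mul_smul, ← e1, ← hcq]
    exact m3.trans m4
  -- angles
  have hang' : ∀ t : S, ang (cd d u Y) (cdX d) (Sum.inr t) (Sum.inl y1) (Sum.inl v1) ≤ B * u := by
    intro t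
    have e1 := hang t
    have e2 : B * u = 40 * (C * u) + C1 * u := by rw [hB]; ring
    omega
  have hangg : ∀ t : S, ang (cd d u Y) (cdX d) (Sum.inr t) (Sum.inl (g • y1))
      (Sum.inl (g • v1)) ≤ B * u := by
    intro t
    have e1 := GWA.ang_smul (ap := apx X S) hciso
      (fun g s _ y y' _ _ => cdX_smul hIG g s y y') g (s := (Sum.inr (g⁻¹ • t) : X ⊕ S))
      ⟨_, rfl⟩ (Sum.inl y1) (Sum.inl v1)
    have e2 : g • (Sum.inr (g⁻¹ • t) : X ⊕ S) = Sum.inr t := by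
      show (Sum.inr (g • (g⁻¹ • t)) : X ⊕ S) = Sum.inr t
      rw [smul_inv_smul]
    rw [e2] at e1
    have e3 := hang' (g⁻¹ • t)
    rw [← e1] at e3
    exact e3
  have hangv : ∀ t : S, ang (cd d u Y) (cdX d) (Sum.inr t) (Sum.inl v1) (Sum.inl (g • v1)) ≤
      2 * (B * u) + (C * u + CX * u) := by
    intro t
    obtain ⟨-, -, -, Bsym, Btri, -⟩ := h1 _ _ _ _ _ hcp.ps (Sum.inr t) ⟨t, rfl⟩
    have t1 := Btri (Sum.inl v1) (Sum.inl y1) (Sum.inl (g • v1)) Sum.inl_ne_inr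
    have t2 := Btri (Sum.inl y1) (Sum.inl (g • y1)) (Sum.inl (g • v1)) Sum.inl_ne_inr
    have t3 := Bsym (Sum.inl v1) (Sum.inl y1)
    have t4 := (hANGX X S d u Y hcp (by omega) t y1 (g • y1)).1
    have t5 := hang' t
    have t6 := hangg t
    omega
  -- the distance of `v1` and `g v1`
  have hna : ∀ z : X, (Sum.inl z : X ⊕ S) ∉ apx X S := by
    rintro z ⟨t, ht⟩
    cases ht
  have hqgv : q (Sum.inl (g • v1)) = x • vs := by
    have e1 : q (g • (Sum.inl v1 : X ⊕ S)) = π g • q (Sum.inl v1) := H.quot.equiv _ _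
    rw [hgπ, hqv] at e1
    exact e1
  have hcdv : cd d u Y (Sum.inl v1) (Sum.inl (g • v1)) ≤ D1 := by
    have e1 := h5 N (X ⊕ S) Unit A' (cd d u Y) (apx X S) (cdX d) (C * u) L d' 1 q H.qn.rotc
      H.qn.quot (Sum.inl v1) (Sum.inl (g • v1)) (hna _) (by
        rintro _ ⟨t, rfl⟩ -
        have e2 := hangv t
        have e3 : (100 * (B + C + CX + 1)) * u ≤ L :=
          le_trans (Nat.mul_le_mul_right u (by omega)) hL
        have e4 : (100 * (B + C + CX + 1)) * u =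
          100 * (B * u) + 100 * (C * u) + 100 * (CX * u) + 100 * u := by ring
        omega)
    rw [hqv, hqgv] at e1
    omega
  have hcdy : cd d u Y (Sum.inl y1) (Sum.inl (g • y1)) ≤ C := hcdn C _ _ hdy
  obtain ⟨lam, hlam⟩ : ∃ lam, lam = (a + 1) * (B * u + C2 * (u + a)) := ⟨_, rfl⟩
  have hlamle : lam ≤ N1 * u := by
    have e1 : C2 * (u + a) ≤ C2 * ((1 + a) * u) := by
      apply Nat.mul_le_mul_left
      have : a ≤ a * u := Nat.le_mul_of_pos_right a hu1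
      nlinarith
    calc lam = (a + 1) * (B * u + C2 * (u + a)) := hlam
      _ ≤ (a + 1) * (B * u + C2 * ((1 + a) * u)) := by
          apply Nat.mul_le_mul_left
          omega
      _ = N1 * u := by
          rw [hN1]
          ring
  -- the length of the geodesic of `X`
  have hlong : R * u < d y1 v1 := by
    by_contra hcon'
    have := hcdn R y1 v1 (by omega)
    omega
  have hRu : R * u = 2 * (N1 * u) + κ * u + C * u + CP * u + 5 * u := by rw [hR]; ring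
  have hCPu : CP ≤ CP * u := Nat.le_mul_of_pos_right _ hu1
  obtain ⟨T, hT⟩ : ∃ T, T = N1 * u + κ * u + C * u + CP * u + 2 * u := ⟨_, rfl⟩
  obtain ⟨z, hz, hzT⟩ := hX.exists_bt y1 v1 T (by omega)
  have hz' : d y1 z + d z v1 = d y1 v1 := hz
  obtain ⟨z', hz1, hz2, hz3, hz4⟩ := hLAM X S d u Y hcp (by omega) a (B * u) lam y1 v1 (g • y1)
    (g • v1) hlam hang' hangg (by omega) (by omega) z hz (by omega) (by omega)
  have hgz : Bt d (g • y1) (g • z) (g • v1) := by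
    unfold Bt
    rw [hIG, hIG, hIG]
    exact hz
  have hgz' : d (g • y1) (g • z) = d y1 z := hIG _ _ _
  have k4 := GWA.two_bt (k := 2 * lam) hh hX hz1 hgz (by omega) (by omega)
  have k5 := hX.tri z z' (g • z)
  obtain ⟨y, hy, hyz⟩ := H.stabY s1 g z hgs hg1
  -- projections
  obtain ⟨pr, hpr⟩ := exists_proj (d := d) (hcp.ne s1) v1
  have hnb : Sum.inl y1 ∈ Nb (cd d u Y) (Sum.inr s1) (Sum.inl v1) := by
    refine ⟨hys1, ?_⟩
    have e1 := H.quot.le (Sum.inl v1) (Sum.inr s1)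
    rw [hqv, hqs1] at e1
    have e2 := hcgm.tri (Sum.inl v1) (Sum.inl y1) (Sum.inr s1)
    have e3 := hcgm.comm (Sum.inl v1) (Sum.inl y1)
    omega
  have p1 := hcp.near s1 (Sum.inl v1) v1 y1 pr rfl hpr hnb
  have p2 := (hPROJ X d (Y s1) hX hh (hcp.qc s1) v1 v1 pr pr hpr hpr).1 y hy
  have p3 := hX.tri v1 pr y1
  have p4 := hX.comm pr y1
  have p5 := hX.comm v1 y1
  have p6 := hX.tri v1 z y
  have p7 := hX.comm z v1
  have hκu : κ * u = C2 * u + 2 * (N1 * u) + 202 * (dl * u) + 100 * u := by rw [hκ]; ring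
  have hC2u : C2 ≤ C2 * u := Nat.le_mul_of_pos_right _ hu1
  have hdlu : dl ≤ dl * u := Nat.le_mul_of_pos_right _ hu1
  rw [p4] at p3
  exact arith hT hzT hz' p1 p2 p3 p5 p6 p7 hyz k5 hz2 k4 hlamle hκu hC2u hdlu hCPu hu1

end Pool.Agent.Ady
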