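import Pool.Agent.Ady.Stmts

/-!
# MP_9e15c1_al, E-half, module E4 (LIM): the limit of the stages
-/

set_option autoImplicit false

namespace Pool.Agent.Ady

open Pool.Agent.Olsh

namespace LIM

/-- A state of the construction: a marked stage. -/
structure St (n a0 L0 Ca V m0 r : ℕ) where
  G : Type
  X : Type
  [grp : Group G]
  [act : MulAction G X]
  d : X → X → ℕ
  f : F2 →* G
  surj : Function.Surjective f
  stg : Stg G n d a0 L0 Ca V m0 r (f (FreeGroup.of false)) (f (FreeGroup.of true))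

attribute [instance] St.grp St.act

variable {n a0 L0 Ca V m0 r : ℕ}

/-- The kernel of the marking. -/
def St.K (S : St n a0 L0 Ca V m0 r) : Subgroup F2 := S.f.ker

theorem St.K_normal (S : St n a0 L0 Ca V m0 r) : S.K.Normal := MonoidHom.normal_ker S.f

/-- In a level an element of positive stable length is no torsion element. -/
theorem pow_ne {G X : Type} [Group G] [MulAction G X] {d : X → X → ℕ}
    (h : LevT G n d a0 L0 Ca) {g : G} (hg : 0 < slen d g) : g ^ n ≠ 1 := by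
  have := h.ne
  intro h1
  have h2 := h.isom.slen_pow h.gm g n
  have h3 := h.isom.slen_pow h.gm (1 : G) 0
  simp only [pow_zero, Nat.cast_zero, zero_mul] at h3
  rw [h1, h3] at h2
  have h4 : (0 : ℝ) < n := by exact_mod_cast h.odd.pos
  exact absurd h2.symm (mul_pos h4 hg).ne'

theorem St.notMem_K (S : St n a0 L0 Ca V m0 r) (j : ℕ) :
    chn n r (FreeGroup.of false) (FreeGroup.of true) j ^ n ∉ S.K := by
  intro h
  have h1 : S.f (chn n r (FreeGroup.of false) (FreeGroup.of true) j ^ n) = 1 := h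
  rw [map_pow, map_chn] at h1
  exact pow_ne S.stg.lev (S.stg.surv j) h1

theorem exists_next
    (hs : ∀ (G X : Type) [Group G] [MulAction G X]
      (d : X → X → ℕ) (x y : G), Stg G n d a0 L0 Ca V m0 r x y → ∀ (g h : G) (s : ℕ), 1 ≤ s →
      s ≠ r → ∃ (G' X' : Type) (_ : Group G') (_ : MulAction G' X') (d' : X' → X' → ℕ)
        (φ : G →* G'), Function.Surjective φ ∧ Stg G' n d' a0 L0 Ca V m0 r (φ x) (φ y) ∧
        ∃ j, φ (chn n s g h j) ^ n = 1)
    (S : St n a0 L0 Ca V m0 r) (g h : F2) (s : ℕ) :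
    ∃ T : St n a0 L0 Ca V m0 r, S.K ≤ T.K ∧
      (1 ≤ s → s ≠ r → ∃ j, chn n s g h j ^ n ∈ T.K) := by
  by_cases h1 : 1 ≤ s ∧ s ≠ r
  · obtain ⟨G', X', i', a', d', φ, h2, h3, j, h4⟩ :=
      hs S.G S.X S.d _ _ S.stg (S.f g) (S.f h) s h1.1 h1.2
    refine ⟨⟨G', X', d', φ.comp S.f, h2.comp S.surj, h3⟩, ?_, fun _ _ => ⟨j, ?_⟩⟩
    · intro a ha
      have ha' : S.f a = 1 := ha
      show φ (S.f a) = 1
      rw [ha', map_one]
    · show φ (S.f _) = 1
      rw [map_pow, map_pow, map_chn]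
      exact h4
  · exact ⟨S, le_rfl, fun a b => absurd ⟨a, b⟩ h1⟩

theorem limit
    (h0 : Stg F2 n td a0 L0 Ca V m0 r (FreeGroup.of false) (FreeGroup.of true))
    (hs : ∀ (G X : Type) [Group G] [MulAction G X]
      (d : X → X → ℕ) (x y : G), Stg G n d a0 L0 Ca V m0 r x y → ∀ (g h : G) (s : ℕ), 1 ≤ s →
      s ≠ r → ∃ (G' X' : Type) (_ : Group G') (_ : MulAction G' X') (d' : X' → X' → ℕ)
        (φ : G →* G'), Function.Surjective φ ∧ Stg G' n d' a0 L0 Ca V m0 r (φ x) (φ y) ∧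
        ∃ j, φ (chn n s g h j) ^ n = 1) :
    ∃ (G : Type) (_ : Group G) (x y : G), (∀ (g h : G) (s : ℕ), 1 ≤ s → s ≠ r →
      ∃ j, chn n s g h j ^ n = 1) ∧ ∀ j, chn n r x y j ^ n ≠ 1 := by
  classical
  obtain ⟨e, he⟩ := exists_surjective_nat (F2 × F2 × ℕ)
  choose nx hn1 hn2 using exists_next hs
  let S0 : St n a0 L0 Ca V m0 r := ⟨F2, F2, td, MonoidHom.id _, fun a => ⟨a, rfl⟩, h0⟩
  let S : ℕ → St n a0 L0 Ca V m0 r := fun i =>
    Nat.rec S0 (fun i T => nx T (e i).1 (e i).2.1 (e i).2.2) i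
  have hS : ∀ i, S (i + 1) = nx (S i) (e i).1 (e i).2.1 (e i).2.2 := fun i => rfl
  let K : ℕ → Subgroup F2 := fun i => (S i).K
  have hmono : Monotone K := by
    refine monotone_nat_of_le_succ fun i => ?_
    show (S i).K ≤ (S (i + 1)).K
    rw [hS]
    exact hn1 _ _ _ _
  let N : Subgroup F2 := ⨆ i, K i
  have hmem : ∀ a, a ∈ N ↔ ∃ i, a ∈ (S i).K := by
    intro a
    exact Subgroup.mem_iSup_of_directed hmono.directed_le
  have hN : N.Normal := by
    refine ⟨fun a ha g => ?_⟩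
    rw [hmem] at ha ⊢
    obtain ⟨i, hi⟩ := ha
    exact ⟨i, (S i).K_normal.conj_mem a hi g⟩
  refine ⟨F2 ⧸ N, inferInstance, QuotientGroup.mk' N (FreeGroup.of false),
    QuotientGroup.mk' N (FreeGroup.of true), ?_, ?_⟩
  · intro g' h' s h1 h2
    obtain ⟨g, rfl⟩ := QuotientGroup.mk'_surjective N g'
    obtain ⟨h, rfl⟩ := QuotientGroup.mk'_surjective N h'
    obtain ⟨i, hi⟩ := he (g, h, s)
    obtain ⟨j, hj⟩ := hn2 (S i) (e i).1 (e i).2.1 (e i).2.2 (by rw [hi]; exact h1)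
      (by rw [hi]; exact h2)
    rw [← hS, hi] at hj
    refine ⟨j, ?_⟩
    rw [← map_chn, ← map_pow]
    exact (QuotientGroup.eq_one_iff _).2 ((hmem _).2 ⟨i + 1, hj⟩)
  · intro j hj
    rw [← map_chn, ← map_pow] at hj
    obtain ⟨i, hi⟩ := (hmem _).1 ((QuotientGroup.eq_one_iff _).1 hj)
    exact (S i).notMem_K j hi

end LIM

/-- E4: the limit. -/
theorem LIM (h : Stmt_STEP) : Stmt_LIM := by
  obtain ⟨a0, L0, Ca, V, m0, n0, h1, h2⟩ := h
  refine ⟨n0, fun n r hn hn0 hr => ?_⟩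
  exact LIM.limit (h1 n r hn hn0 hr) fun G X _ _ d x y hst g h s hs hsr =>
    h2 n r hn hn0 hr G X d x y hst g h s hs hsr

end Pool.Agent.Ady
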