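import Pool.Agent.Ady.Limit
import Pool.Agent.Ady.Lim

/-!
# MP_9e15c1_al (E-half): from the groups of the construction to the statement of the problem
-/

set_option autoImplicit false

universe u

namespace Pool.Agent.Ady

/-- The value of the word `w`, an element of the free group on `x₁`, `x₂`, at `(g, h)`. -/
def val {G : Type u} [Group G] (w : FreeGroup (Fin 2)) (g h : G) : G :=
  FreeGroup.lift ![g, h] w

/-- Adyan's word `w_{n,r} = (x₁^{rn} x₂^{rn} x₁^{-rn} x₂^{-rn})^n`. -/
def adyan (n r : ℕ) : FreeGroup (Fin 2) :=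
  ((FreeGroup.of 0) ^ (r * n) * (FreeGroup.of 1) ^ (r * n) * ((FreeGroup.of 0) ^ (r * n))⁻¹ *
    ((FreeGroup.of 1) ^ (r * n))⁻¹) ^ n

/-- The iterates of Engel type: `eIter w k g h` is `w_{∘k}(g, h)` for `k ≥ 1`. -/
def eIter {G : Type u} [Group G] (w : FreeGroup (Fin 2)) : ℕ → G → G → G
  | 0, g, _ => g
  | k + 1, g, h => val w (eIter w k g h) h

/-- `G` satisfies `w` as an E-type iterated identity. -/
def SatE (w : FreeGroup (Fin 2)) (G : Type u) [Group G] : Prop :=
  ∀ g h : G, ∃ N : ℕ, 1 ≤ N ∧ eIter w N g h = 1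

/-- The family `w_{n,r}`, `r` an odd prime, is independent as E-type iterated identities. -/
def IndependentE (n : ℕ) : Prop :=
  ∀ r : ℕ, r.Prime → Odd r → ∃ (G : Type u) (_ : Group G),
    (∀ s : ℕ, s.Prime → Odd s → s ≠ r → SatE (adyan n s) G) ∧ ¬ SatE (adyan n r) G

theorem eIter_adyan {G : Type u} [Group G] (n r k : ℕ) (g h : G) :
    eIter (adyan n r) k g h = aIt n r k g h := by
  induction k with
  | zero => rfl
  | succ k ih =>
    show val (adyan n r) (eIter (adyan n r) k g h) h = adyv n r (aIt n r k g h) h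
    rw [ih]
    simp [val, adyan, adyv]

/-- The groups of the construction give the independence (every universe). -/
theorem independentE_of {n : ℕ} (h : ∀ r : ℕ, r.Prime → Odd r → ∃ (G : Type) (_ : Group G),
    (∀ s : ℕ, s.Prime → Odd s → s ≠ r → ∀ g h : G, ∃ k, aIt n s k g h = 1) ∧
      ∃ x y : G, Alive n r x y) : IndependentE.{u} n := by
  intro r h1 h2
  obtain ⟨G, iG, h3, x, y, h4⟩ := h r h1 h2
  refine ⟨ULift.{u} G, inferInstance, ?_, ?_⟩
  · intro s h5 h6 h7 g h'
    obtain ⟨k, hk⟩ := h3 s h5 h6 h7 g.down h'.down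
    refine ⟨k + 1, by omega, ?_⟩
    rw [eIter_adyan]
    refine aIt_succ_eq_one ?_
    have h8 := map_aIt (MulEquiv.ulift (α := G)).symm.toMonoidHom n s k g.down h'.down
    have h9 : (MulEquiv.ulift (α := G)).symm.toMonoidHom (1 : G) = 1 := map_one _
    rw [hk, h9] at h8
    exact h8.symm
  · intro h5
    obtain ⟨N, -, hN⟩ := h5 (ULift.up x) (ULift.up y)
    rw [eIter_adyan] at hN
    have h8 := map_aIt (MulEquiv.ulift (α := G)).toMonoidHom n r N (ULift.up x) (ULift.up y)
    rw [hN] at h8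
    have h9 : (MulEquiv.ulift (α := G)).toMonoidHom (1 : ULift.{u} G) = 1 := map_one _
    rw [h9] at h8
    exact h4 N h8.symm

/-- The iterates in terms of the chain. -/
theorem aIt_succ_eq {G : Type} [Group G] (n s : ℕ) (g h : G) (k : ℕ) :
    aIt n s (k + 1) g h = chn n s g h k ^ n := by
  induction k with
  | zero => rfl
  | succ k ih =>
    show adyv n s (aIt n s (k + 1) g h) h = _
    rw [ih]
    have e : (chn n s g h k ^ n) ^ (s * n) = chn n s g h k ^ (s * n ^ 2) := by
      rw [← pow_mul]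
      congr 1
      ring
    simp only [adyv, chn, cm]
    rw [e]

/-- From the limit group to the statement of the problem, for all exponents `r ≥ 1`. -/
theorem final_of (h : Stmt_LIM) : ∃ n₀ : ℕ, ∀ n : ℕ, n₀ ≤ n → Odd n → ∀ r : ℕ, 1 ≤ r →
    ∃ (G : Type u) (_ : Group G), (∀ s : ℕ, 1 ≤ s → s ≠ r → SatE (adyan n s) G) ∧
      ¬ SatE (adyan n r) G := by
  obtain ⟨n0, h⟩ := h
  refine ⟨n0, fun n hn hodd r hr => ?_⟩
  obtain ⟨G, iG, x, y, h1, h2⟩ := h n r hodd hn hr
  refine ⟨ULift.{u} G, inferInstance, ?_, ?_⟩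
  · intro s hs hsr g h'
    obtain ⟨j, hj⟩ := h1 g.down h'.down s hs hsr
    refine ⟨j + 1, by omega, ?_⟩
    rw [eIter_adyan]
    have h8 := map_aIt (MulEquiv.ulift (α := G)).symm.toMonoidHom n s (j + 1) g.down h'.down
    have h9 : (MulEquiv.ulift (α := G)).symm.toMonoidHom (1 : G) = 1 := map_one _
    rw [aIt_succ_eq, hj, h9] at h8
    exact h8.symm
  · intro h5
    obtain ⟨N, hN1, hN⟩ := h5 (ULift.up x) (ULift.up y)
    obtain ⟨j, rfl⟩ : ∃ j, N = j + 1 := ⟨N - 1, by omega⟩
    rw [eIter_adyan] at hN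
    have h8 := map_aIt (MulEquiv.ulift (α := G)).toMonoidHom n r (j + 1) (ULift.up x)
      (ULift.up y)
    rw [hN] at h8
    have h9 : (MulEquiv.ulift (α := G)).toMonoidHom (1 : ULift.{u} G) = 1 := map_one _
    have h10 : aIt n r (j + 1) x y = 1 := by rw [h9] at h8; exact h8.symm
    rw [aIt_succ_eq] at h10
    exact h2 j h10

end Pool.Agent.Ady
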