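import Pool.Agent.Ady.Stmts
import Pool.Agent.Olsh.Line

/-!
# MP_9e15c1_al, D2: length of the commutator of a long power
-/

set_option autoImplicit false

namespace Pool.Agent.Ady

open Pool.Agent.Olsh

theorem GROW (h1 : Stmt_TOVAX) (h2 : Stmt_TMAL) (h3 : Stmt_PROD) : Stmt_GROW := by
  obtain ⟨r, Cp, hP⟩ := h3 dl
  obtain ⟨A, hA⟩ := h1
  obtain ⟨C, hC⟩ := hA (45 * dl + 4 + r)
  refine ⟨A + 16 * dl, 2 * C + Cp + (100 * dl + 100), ?_⟩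
  intro G X _ _ n d a0 L0 Ca hL ha0 c Y M hc hcY hM
  have hne := hL.ne
  have hmal := (h2 G X n d a0 L0 Ca hL (by omega)).2.2.2.1
  have hDD : 37 * dl + 5 ≤ DD := by
    unfold DD
    omega
  have hb : 0 < slen d (Y * c * Y⁻¹) := by rwa [hL.isom.slen_conj]
  have hab : c * (Y * c * Y⁻¹) ≠ (Y * c * Y⁻¹) * c := fun h => hcY (hmal c Y hc h)
  have hsg : slen d (c ^ M) = M * slen d c := hL.isom.slen_pow hL.gm c M
  have hsh : slen d (Y * (c ^ M)⁻¹ * Y⁻¹) = M * slen d c := by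
    rw [hL.isom.slen_conj, hL.isom.slen_inv hL.gm, hsg]
  push_cast at hM
  have hL0 : (0 : ℝ) ≤ L0 := Nat.cast_nonneg _
  have hC0 : (0 : ℝ) ≤ C := Nat.cast_nonneg _
  have hCp0 : (0 : ℝ) ≤ Cp := Nat.cast_nonneg _
  have hdl0 : (0 : ℝ) ≤ dl := Nat.cast_nonneg _
  have hdg : 7 * dl + 2 ≤ disp d (c ^ M) := by
    have h4 := IsomAct.slen_le_disp (d := d) (c ^ M)
    rw [hsg] at h4
    have h5 : ((7 * dl + 2 : ℕ) : ℝ) ≤ disp d (c ^ M) := by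
      push_cast
      linarith
    exact_mod_cast h5
  have hdh : 7 * dl + 2 ≤ disp d (Y * (c ^ M)⁻¹ * Y⁻¹) := by
    rw [hL.isom.disp_conj, hL.isom.disp_inv hL.gm]
    exact hdg
  have hcg : Commute c (c ^ M) := Commute.self_pow c M
  have hch : Commute (Y * (c ^ M)⁻¹ * Y⁻¹) (Y * c * Y⁻¹) := by
    have h4 : Commute (c ^ M)⁻¹ c := hcg.symm.inv_left
    have h5 := h4.eq
    show Y * (c ^ M)⁻¹ * Y⁻¹ * (Y * c * Y⁻¹) = Y * c * Y⁻¹ * (Y * (c ^ M)⁻¹ * Y⁻¹)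
    calc Y * (c ^ M)⁻¹ * Y⁻¹ * (Y * c * Y⁻¹) = Y * ((c ^ M)⁻¹ * c) * Y⁻¹ := by group
      _ = Y * (c * (c ^ M)⁻¹) * Y⁻¹ := by rw [h5]
      _ = Y * c * Y⁻¹ * (Y * (c ^ M)⁻¹ * Y⁻¹) := by group
  have near1 : ∀ p, p ∈ Nd d r (Mn d (c ^ M)) → p ∈ Nd d (45 * dl + 4 + r) (AX d c) := by
    rintro p ⟨y, hy, hpy⟩
    obtain ⟨z, hz, hyz⟩ := hL.isom.mn_near_ax hL.hyp hL.gm hDD hc hcg.symm hdg hy
    refine ⟨z, hz, ?_⟩
    have h4 := hL.gm.tri p y z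
    have h5 := hL.gm.tri z y p
    have h6 := hL.gm.comm p z
    have h7 := hL.gm.comm y z
    have h8 := hL.gm.comm p y
    omega
  have near2 : ∀ p, p ∈ Nd d r (Mn d (Y * (c ^ M)⁻¹ * Y⁻¹)) →
      p ∈ Nd d (45 * dl + 4 + r) (AX d (Y * c * Y⁻¹)) := by
    rintro p ⟨y, hy, hpy⟩
    obtain ⟨z, hz, hyz⟩ := hL.isom.mn_near_ax hL.hyp hL.gm hDD hb hch hdh hy
    refine ⟨z, hz, ?_⟩
    have h4 := hL.gm.tri p y z
    have h5 := hL.gm.tri z y p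
    have h6 := hL.gm.comm p z
    have h7 := hL.gm.comm y z
    have h8 := hL.gm.comm p y
    omega
  have hfl : ((⌊8 * slen d c + 2 * L0 + C⌋₊ : ℕ) : ℝ) ≤ 8 * slen d c + 2 * L0 + C :=
    Nat.floor_le (by positivity)
  have key := hP G X d hL.gm hL.hyp hL.isom hL.ne (c ^ M) (Y * (c ^ M)⁻¹ * Y⁻¹)
    ⌊8 * slen d c + 2 * L0 + C⌋₊ 0 ?_ ?_ ?_ ?_
  · rw [cm_eq]
    rw [hsg, hsh] at key
    push_cast at key ⊢
    linarith
  · intro p q hp hq hp' hq'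
    have h4 := hC G X n d a0 L0 Ca hL (by omega) c (Y * c * Y⁻¹) p q hc hb hab (near1 p hp)
      (near1 q hq) (near2 p hp') (near2 q hq')
    rw [hL.isom.slen_conj] at h4
    apply Nat.le_floor
    linarith
  · rw [hsg]
    linarith
  · rw [hsh]
    linarith
  · intro p _ q _
    exact Nat.zero_le _

end Pool.Agent.Ady
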