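import Pool.Agent.Ady.Stmts
import Pool.Agent.Olsh.Line

/-!
# MP_9e15c1_al, E-half, module E1 (KILL): killing the `n`-th power of a long element which
generates its centraliser
-/

set_option autoImplicit false

namespace Pool.Agent.Ady

open Pool.Agent.Olsh

namespace KILL

/-- The conjugates of `z0`. -/
def CS {G : Type} [Group G] (z0 : G) : Type := {R : G // ∃ g : G, R = g * z0 * g⁻¹}

instance instCS {G : Type} [Group G] (z0 : G) : MulAction G (CS z0) where
  smul g s := ⟨g * s.1 * g⁻¹, by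
    obtain ⟨g', h⟩ := s.2
    exact ⟨g * g', by rw [h]; group⟩⟩
  one_smul s := Subtype.ext (by
    show 1 * s.1 * (1 : G)⁻¹ = s.1
    group)
  mul_smul a b s := Subtype.ext (by
    show a * b * s.1 * (a * b)⁻¹ = a * (b * s.1 * b⁻¹) * a⁻¹
    group)

theorem smul_val {G : Type} [Group G] {z0 : G} (g : G) (s : CS z0) :
    (g • s).1 = g * s.1 * g⁻¹ := rfl

theorem smul_eq_iff {G : Type} [Group G] {z0 : G} (g : G) (s : CS z0) :
    g • s = s ↔ g * s.1 = s.1 * g := by
  constructor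
  · intro h
    have h1 := congrArg Subtype.val h
    rw [smul_val] at h1
    rwa [mul_inv_eq_iff_eq_mul] at h1
  · intro h
    apply Subtype.ext
    rw [smul_val, mul_inv_eq_iff_eq_mul]
    exact h

theorem cen {G : Type} [Group G] {z0 : G} (hz : ∀ z : G, z * z0 = z0 * z → ∃ i : ℤ, z = z0 ^ i)
    (s : CS z0) (z : G) (h : z * s.1 = s.1 * z) : ∃ i : ℤ, z = s.1 ^ i := by
  obtain ⟨g, hg⟩ := s.2
  rw [hg] at h ⊢
  have h1 : (g⁻¹ * z * g) * z0 = z0 * (g⁻¹ * z * g) := by
    have h2 : g⁻¹ * (z * (g * z0 * g⁻¹)) * g = g⁻¹ * (g * z0 * g⁻¹ * z) * g := by rw [h]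
    calc (g⁻¹ * z * g) * z0 = g⁻¹ * (z * (g * z0 * g⁻¹)) * g := by group
      _ = g⁻¹ * (g * z0 * g⁻¹ * z) * g := h2
      _ = z0 * (g⁻¹ * z * g) := by group
  obtain ⟨i, hi⟩ := hz _ h1
  refine ⟨i, ?_⟩
  rw [conj_zpow, ← hi]
  group

/-- Arithmetic: far from multiples of `n`. -/
theorem far (n t : ℕ) (h1 : n ≤ 3 * t) (h2 : 3 * t ≤ 2 * n) (K : ℤ) :
    (n : ℤ) ≤ 3 * |(t : ℤ) + n * K| := by
  rcases le_or_gt 0 K with h | h
  · have h3 : 0 ≤ (n : ℤ) * K := by positivity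
    rw [abs_of_nonneg (by positivity)]
    omega
  · have h3 : (n : ℤ) * K ≤ -n := by nlinarith
    rw [abs_of_nonpos (by omega)]
    omega

theorem ceil (n r : ℕ) (h1 : 1 ≤ r) (h2 : 3 * r < n) : ∃ i : ℕ, n ≤ 3 * (i * r) ∧ 3 * (i * r) ≤ 2 * n := by
  refine ⟨(n + 3 * r - 1) / (3 * r), ?_, ?_⟩
  · have := Nat.lt_div_mul_add (a := n + 3 * r - 1) (b := 3 * r) (by omega)
    have e : 3 * ((n + 3 * r - 1) / (3 * r) * r) = (n + 3 * r - 1) / (3 * r) * (3 * r) := by ring
    omega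
  · have := Nat.div_mul_le_self (n + 3 * r - 1) (3 * r)
    have e : 3 * ((n + 3 * r - 1) / (3 * r) * r) = (n + 3 * r - 1) / (3 * r) * (3 * r) := by ring
    omega

/-- A multiple of `j` which is far from the multiples of `n`. -/
theorem arith (n : ℕ) (hn : 1 ≤ n) (j : ℤ) (hj : ¬ (n : ℤ) ∣ j) :
    ∃ i : ℕ, ∀ k : ℤ, (n : ℤ) ≤ 3 * |n * k + j * i| := by
  have hn' : (0 : ℤ) < n := by exact_mod_cast hn
  have e1 := Int.emod_add_mul_ediv j n
  have e2 := Int.emod_nonneg j hn'.ne'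
  have e3 := Int.emod_lt_of_pos j hn'
  have e4 : j % n ≠ 0 := fun h => hj (Int.dvd_of_emod_eq_zero h)
  obtain ⟨r, hr⟩ : ∃ r : ℕ, j % n = r := ⟨(j % n).toNat, by omega⟩
  rw [hr] at e1 e2 e3 e4
  generalize j / (n : ℤ) = q at e1
  have e5 : 1 ≤ r := by omega
  have e6 : r < n := by omega
  by_cases c1 : 3 * r < n
  · obtain ⟨i, h1, h2⟩ := ceil n r e5 c1
    refine ⟨i, fun k => ?_⟩
    have := far n (i * r) h1 h2 (k + q * i)
    have e : (n : ℤ) * k + j * i = ((i * r : ℕ) : ℤ) + n * (k + q * i) := by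
      rw [← e1]
      push_cast
      ring
    rw [e]
    exact this
  · by_cases c2 : 2 * n < 3 * r
    · obtain ⟨i, h1, h2⟩ := ceil n (n - r) (by omega) (by omega)
      refine ⟨i, fun k => ?_⟩
      have := far n (i * (n - r)) h1 h2 (-(k + q * i + i))
      have e : (n : ℤ) * k + j * i = -(((i * (n - r) : ℕ) : ℤ) + n * (-(k + q * i + i))) := by
        rw [← e1]
        push_cast [Nat.cast_sub e6.le]
        ring
      rw [e, abs_neg]
      exact this
    · refine ⟨1, fun k => ?_⟩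
      have := far n r (by omega) (by omega) (k + q)
      have e : (n : ℤ) * k + j * (1 : ℕ) = (r : ℤ) + n * (k + q) := by
        rw [← e1]
        push_cast
        ring
      rw [e]
      exact this

section

variable {G X : Type} [Group G] [MulAction G X] {d : X → X → ℕ}

/-- The displacement of a power. -/
theorem zpow_ge (hG : IsomAct G d) (hd : IsGM d) (g : G) (m : ℤ) (v : X) :
    (|m| : ℝ) * slen d g ≤ d v (g ^ m • v) := by
  obtain ⟨k, rfl | rfl⟩ := Int.eq_nat_or_neg m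
  · rw [zpow_natCast]
    have := IsomAct.slen_mul_le (d := d) g v k
    simpa using this
  · rw [zpow_neg, zpow_natCast, hd.comm, hG.inv]
    have := IsomAct.slen_mul_le (d := d) g v k
    simpa using this

theorem slen_zpow (hG : IsomAct G d) (hd : IsGM d) [Nonempty X] (g : G) (m : ℤ) :
    slen d (g ^ m) = (|m| : ℝ) * slen d g := by
  obtain ⟨k, rfl | rfl⟩ := Int.eq_nat_or_neg m
  · rw [zpow_natCast, hG.slen_pow hd]
    simp
  · rw [zpow_neg, zpow_natCast, hG.slen_inv hd, hG.slen_pow hd]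
    simp

theorem ax_eq (g : G) (h : DD ≤ disp d g) : AX d g = Mn d g := by
  have h1 : axPow DD d g = 1 := by
    unfold axPow
    have hmem : (1 : ℕ) ∈ {m | 1 ≤ m ∧ DD ≤ disp d (g ^ m)} := ⟨le_rfl, by rwa [pow_one]⟩
    have h2 := Nat.sInf_le hmem
    have h3 := (Nat.sInf_mem ⟨1, hmem⟩).1
    omega
  unfold AX Ax
  rw [h1, pow_one]

theorem DD37 : 37 * dl + 5 ≤ DD := by
  unfold DD
  omega

theorem hle {a b c : ℕ} (h : a + b ≤ c + (164 * dl + 16)) : a ≤ c + (200 * dl + 100) := by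
  omega

variable {n : ℕ} {a0 L0 Ca : ℕ}

/-- Conjugates of `z0` which commute are equal. -/
theorem noncomm (h3 : Stmt_TMAL) (hl : LevT G n d a0 L0 Ca) (ha : 16 * dl ≤ a0) {z0 : G}
    (hz : ∀ z : G, z * z0 = z0 * z → ∃ i : ℤ, z = z0 ^ i) (hp : 0 < slen d z0) (s t : CS z0)
    (hst : s ≠ t) : s.1 * t.1 ≠ t.1 * s.1 := by
  intro hc
  have := hl.ne
  obtain ⟨i, hi⟩ := cen hz s t.1 hc.symm
  obtain ⟨g, hg⟩ := s.2
  obtain ⟨g', hg'⟩ := t.2
  have e1 : slen d s.1 = slen d z0 := by rw [hg, hl.isom.slen_conj]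
  have e2 : slen d t.1 = slen d z0 := by rw [hg', hl.isom.slen_conj]
  have e3 : slen d t.1 = (|i| : ℝ) * slen d s.1 := by rw [hi, slen_zpow hl.isom hl.gm]
  rw [e1, e2] at e3
  have e4 : (|i| : ℝ) = 1 := by
    have : ((|i| : ℝ) - 1) * slen d z0 = 0 := by linarith
    rcases mul_eq_zero.1 this with h | h
    · linarith
    · exact absurd h hp.ne'
  have e5 : |i| = 1 := by exact_mod_cast e4
  rcases (abs_eq (by norm_num)).1 e5 with h | h
  · apply hst
    apply Subtype.ext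
    rw [hi, h, zpow_one]
  · rw [h, zpow_neg, zpow_one] at hi
    obtain ⟨_, _, _, _, h5⟩ := h3 G X n d a0 L0 Ca hl ha
    refine h5 s.1 (g' * g⁻¹) (by rw [e1]; exact hp) ?_
    rw [← hi, hg, hg']
    group

end

end KILL

open KILL in
theorem KILL (h1 : Stmt_MKQ) (h2 : Stmt_TOVAX) (h3 : Stmt_TMAL) : Stmt_KILL := by
  obtain ⟨η1, C, hC, heta, hM⟩ := h1 (59 * dl + 5)
  obtain ⟨A, hA⟩ := h2
  obtain ⟨C', hA⟩ := hA η1
  refine ⟨η1, C, A + 16 * dl, fun a0 L0 U ha => ⟨U + C + 2 * L0 + C' + 10000 * dl + 10000,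
    10000000 * (C + U + 1), ?_⟩⟩
  intro G X _ _ n d Ca hl hn z0 hB hz
  have ha1 : A ≤ a0 := le_trans (Nat.le_add_right _ _) ha
  have ha2 : 16 * dl ≤ a0 := le_trans (Nat.le_add_left _ _) ha
  have hne := hl.ne
  have hd := hl.gm
  have hG := hl.isom
  have hh := hl.hyp
  push_cast at hB
  have hdl : (0 : ℝ) ≤ dl := Nat.cast_nonneg _
  have hU0 : (0 : ℝ) ≤ U := Nat.cast_nonneg _
  have hC0 : (0 : ℝ) ≤ C := Nat.cast_nonneg _
  have hL00 : (0 : ℝ) ≤ L0 := Nat.cast_nonneg _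
  have hC'0 : (0 : ℝ) ≤ C' := Nat.cast_nonneg _
  have hp : 0 < slen d z0 := by linarith
  have hD1 : slen d z0 ≤ disp d z0 := IsomAct.slen_le_disp (d := d) z0
  have hD2 : (disp d z0 : ℝ) ≤ slen d z0 + (6 * dl + 2) := hG.disp_le_slen hh hd z0
  have hfl1 : (⌊slen d z0⌋₊ : ℝ) ≤ slen d z0 := Nat.floor_le hp.le
  have hfl2 : slen d z0 < ⌊slen d z0⌋₊ + 1 := Nat.lt_floor_add_one _
  -- the conjugates
  have hsl : ∀ s : CS z0, slen d s.1 = slen d z0 := by
    intro s
    obtain ⟨g, hg⟩ := s.2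
    rw [hg, hG.slen_conj]
  have hdi : ∀ s : CS z0, disp d s.1 = disp d z0 := by
    intro s
    obtain ⟨g, hg⟩ := s.2
    rw [hg, hG.disp_conj]
  have hDD : DD ≤ disp d z0 := by
    have : (DD : ℝ) ≤ disp d z0 := by
      unfold DD
      push_cast
      linarith
    exact_mod_cast this
  have h37 : 37 * dl + 5 ≤ disp d z0 := by
    have : ((37 * dl + 5 : ℕ) : ℝ) ≤ disp d z0 := by
      push_cast
      linarith
    exact_mod_cast this
  have hax : ∀ s : CS z0, AX d s.1 = Mn d s.1 := fun s => ax_eq s.1 (by rw [hdi]; exact hDD)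
  have hn1 : 1 ≤ n := by omega
  have hfloorB : 10000000 * (C + U + 1) * ⌊slen d z0⌋₊ ≤ n * ⌊slen d z0⌋₊ :=
    Nat.mul_le_mul_right _ hn
  have hD3 : disp d z0 ≤ 2 * ⌊slen d z0⌋₊ := by
    have : (disp d z0 : ℝ) ≤ ((2 * ⌊slen d z0⌋₊ : ℕ) : ℝ) := by
      push_cast
      linarith
    exact_mod_cast this
  have hfpos : 1 ≤ ⌊slen d z0⌋₊ := by
    have : ((0 : ℕ) : ℝ) < (⌊slen d z0⌋₊ : ℝ) := by
      push_cast
      linarith
    exact_mod_cast this
  have hCu : C ≤ 900 * disp d z0 := by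
    have : (C : ℝ) ≤ ((900 * disp d z0 : ℕ) : ℝ) := by
      push_cast
      linarith
    exact_mod_cast this
  have hUu : U ≤ 900 * disp d z0 := by
    have : (U : ℝ) ≤ ((900 * disp d z0 : ℕ) : ℝ) := by
      push_cast
      linarith
    exact_mod_cast this
  have hCL : 2000 * C * (900 * disp d z0) < n * ⌊slen d z0⌋₊ := by
    have e1 : 2000 * C * (900 * disp d z0) ≤ 2000 * C * (900 * (2 * ⌊slen d z0⌋₊)) :=
      Nat.mul_le_mul_left _ (Nat.mul_le_mul_left _ hD3)
    have e2 : 2000 * C * (900 * (2 * ⌊slen d z0⌋₊)) = 3600000 * C * ⌊slen d z0⌋₊ := by ring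
    have e3 : 3600000 * C * ⌊slen d z0⌋₊ < 10000000 * (C + U + 1) * ⌊slen d z0⌋₊ :=
      Nat.mul_lt_mul_of_pos_right (by omega) hfpos
    omega
  have hUL : U * (900 * disp d z0) ≤ n * ⌊slen d z0⌋₊ := by
    have e1 : U * (900 * disp d z0) ≤ U * (900 * (2 * ⌊slen d z0⌋₊)) :=
      Nat.mul_le_mul_left _ (Nat.mul_le_mul_left _ hD3)
    have e2 : U * (900 * (2 * ⌊slen d z0⌋₊)) = 1800 * U * ⌊slen d z0⌋₊ := by ring
    have e3 : 1800 * U * ⌊slen d z0⌋₊ ≤ 10000000 * (C + U + 1) * ⌊slen d z0⌋₊ :=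
      Nat.mul_le_mul_right _ (by omega)
    omega
  -- displacement of powers
  have hpow : ∀ (s : CS z0) (m : ℤ) (y : X), (|m| : ℝ) * slen d z0 ≤ d y (s.1 ^ m • y) := by
    intro s m y
    have := zpow_ge hG hd s.1 m y
    rwa [hsl] at this
  have hrot : ∀ (s : CS z0) (r : G), r ∈ Subgroup.zpowers (s.1 ^ n) → ∃ k : ℤ,
      r = s.1 ^ ((n : ℤ) * k) := by
    intro s r hr
    obtain ⟨k, hk⟩ := Subgroup.mem_zpowers_iff.1 hr
    refine ⟨k, ?_⟩
    rw [← hk, zpow_mul, zpow_natCast]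
  have cone : ConeF G n d (900 * disp d z0) (n * ⌊slen d z0⌋₊) (fun s : CS z0 => Mn d s.1)
      (fun s => Subgroup.zpowers (s.1 ^ n)) (59 * dl + 5) η1 :=
    { gm := hd
      hyp := hh
      ne := fun s => Mn_nonempty _
      qc := fun s => hG.mn_qconv hh hd (by rw [hdi]; exact h37)
      ov := by
        intro s t hst v w hv hv' hw hw'
        have hnc := noncomm h3 hl ha2 hz hp s t hst
        have := hA G X n d a0 L0 Ca hl ha1 s.1 t.1 v w (by rw [hsl]; exact hp)
          (by rw [hsl]; exact hp) hnc (by rw [hax]; exact hv) (by rw [hax]; exact hw)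
          (by rw [hax]; exact hv') (by rw [hax]; exact hw')
        rw [hsl, hsl] at this
        have h6 : ((100 * d v w : ℕ) : ℝ) ≤ ((900 * disp d z0 : ℕ) : ℝ) := by
          push_cast
          linarith
        exact_mod_cast h6
      odd := hl.odd
      isom := hG
      Ysmul := fun g s v hv => (hG.smul_mem_Mn s.1 g v).2 hv
      fix := by
        intro s r hr
        obtain ⟨k, rfl⟩ := hrot s r hr
        rw [smul_eq_iff]
        exact ((Commute.refl s.1).zpow_left _).eq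
      conj := by
        intro g s r hr
        obtain ⟨k, hk⟩ := Subgroup.mem_zpowers_iff.1 hr
        rw [← hk]
        show g * (s.1 ^ n) ^ k * g⁻¹ ∈ Subgroup.zpowers ((g * s.1 * g⁻¹) ^ n)
        refine Subgroup.mem_zpowers_iff.2 ⟨k, ?_⟩
        rw [conj_pow, conj_zpow]
      rotF := by
        intro s r hr hr1 y hy
        obtain ⟨k, rfl⟩ := hrot s r hr
        have hk : k ≠ 0 := by
          rintro rfl
          apply hr1
          rw [mul_zero, zpow_zero]
        have h5 := hpow s ((n : ℤ) * k) y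
        have h6 : (1 : ℤ) ≤ |k| := Int.one_le_abs hk
        have h7 : (1 : ℝ) ≤ (|k| : ℝ) := by exact_mod_cast h6
        have h8 : ((n * ⌊slen d z0⌋₊ : ℕ) : ℝ) ≤ (d y (s.1 ^ ((n : ℤ) * k) • y) : ℝ) := by
          refine le_trans ?_ h5
          push_cast
          rw [abs_mul, Nat.abs_cast]
          have e1 : (n : ℝ) * ⌊slen d z0⌋₊ ≤ n * slen d z0 :=
            mul_le_mul_of_nonneg_left hfl1 (Nat.cast_nonneg _)
          have e2 : (n : ℝ) * 1 * slen d z0 ≤ n * |(k : ℝ)| * slen d z0 :=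
            mul_le_mul_of_nonneg_right (mul_le_mul_of_nonneg_left h7 (Nat.cast_nonneg _)) hp.le
          linarith
        exact_mod_cast h8
      stabn := by
        intro s g hg
        obtain ⟨i, hi⟩ := cen hz s g ((smul_eq_iff g s).1 hg)
        refine Subgroup.mem_zpowers_iff.2 ⟨i, ?_⟩
        rw [hi, ← zpow_natCast, ← zpow_natCast, ← zpow_mul, ← zpow_mul, mul_comm]
      rot3 := by
        intro s g hg hgF
        obtain ⟨j, hj⟩ := cen hz s g ((smul_eq_iff g s).1 hg)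
        have hnj : ¬ (n : ℤ) ∣ j := by
          rintro ⟨k, hk⟩
          apply hgF
          refine Subgroup.mem_zpowers_iff.2 ⟨k, ?_⟩
          rw [hj, hk, zpow_mul, zpow_natCast]
        obtain ⟨i, hi⟩ := arith n hn1 j hnj
        refine ⟨i, fun k hk y hy => ?_⟩
        obtain ⟨m, rfl⟩ := hrot s k hk
        have e1 : s.1 ^ ((n : ℤ) * m) * g ^ i = s.1 ^ ((n : ℤ) * m + j * i) := by
          rw [hj, ← zpow_natCast, ← zpow_mul, ← zpow_add]
        rw [e1]
        have h5 := hpow s ((n : ℤ) * m + j * i) y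
        have h6 := hi m
        have h7 : (n : ℝ) ≤ 3 * |(((n : ℤ) * m + j * i : ℤ) : ℝ)| := by exact_mod_cast h6
        have h8 : ((n * ⌊slen d z0⌋₊ : ℕ) : ℝ) ≤
            ((4 * d y (s.1 ^ ((n : ℤ) * m + j * i) • y) : ℕ) : ℝ) := by
          push_cast at h5 h7 ⊢
          have e1 : (n : ℝ) * ⌊slen d z0⌋₊ ≤ n * slen d z0 :=
            mul_le_mul_of_nonneg_left hfl1 (Nat.cast_nonneg _)
          have e2 := mul_le_mul_of_nonneg_right h7 hp.le
          have e3 : (0 : ℝ) ≤ (d y (s.1 ^ ((n : ℤ) * m + j * i) • y) : ℝ) := Nat.cast_nonneg _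
          nlinarith
        exact_mod_cast h8
      stabY := by
        intro s g z hg hg1
        obtain ⟨i, hi⟩ := cen hz s g ((smul_eq_iff g s).1 hg)
        have hi0 : i ≠ 0 := by
          rintro rfl
          exact hg1 (by rw [hi, zpow_zero])
        have h6 : (1 : ℤ) ≤ |i| := Int.one_le_abs hi0
        have h7 : (1 : ℝ) ≤ (|i| : ℝ) := by exact_mod_cast h6
        have e1 : slen d z0 ≤ slen d g := by
          rw [hi, slen_zpow hG hd, hsl]
          nlinarith
        have e2 := IsomAct.slen_le_disp (d := d) g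
        have e3 : 37 * dl + 5 ≤ disp d g := by
          have : ((37 * dl + 5 : ℕ) : ℝ) ≤ disp d g := by
            push_cast
            linarith
          exact_mod_cast this
        have hcom : Commute g s.1 := (smul_eq_iff g s).1 hg
        obtain ⟨y, hy, hy'⟩ := hG.near_ax hh hd (D := DD) DD37 (g := s.1)
          (h := g) (by rw [hsl]; exact hp) hcom e3 z
        refine ⟨y, ?_, hle hy'⟩
        have := hax s
        unfold AX at this
        rw [this] at hy
        exact hy }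
  obtain ⟨N, G', A', i1, i2, d', π, q, hq, hF⟩ := hM G X (CS z0) n d _ _ _ _ cone hCu hCL
  refine ⟨CS z0, inferInstance, N, G', A', i1, i2, _, _, _, d', π, q,
    { toQT := hq, lev := hl, hu := hUu, hL := hUL, heta := heta }, ?_, ?_, ?_⟩
  · rw [hq.quot.ker]
    exact hF ⟨z0, 1, by group⟩ (Subgroup.mem_zpowers _)
  · intro s g hg
    obtain ⟨i, hi⟩ := cen hz s g ((smul_eq_iff g s).1 hg)
    obtain ⟨w, hw⟩ := s.2
    refine ⟨w, i, ?_⟩
    rw [hi, hw, conj_zpow]
  · push_cast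
    linarith

end Pool.Agent.Ady
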