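import Pool.Agent.Ady.Stmts
import Pool.Agent.Olsh.GWA
import Pool.Agent.Olsh.CONEISO
import Pool.Agent.Olsh.CONEROT

/-!
# MP_9e15c1_al, E-half, module C15 (LIFT2): two far points of the quotient
-/

set_option autoImplicit false

namespace Pool.Agent.Ady

open Pool.Agent.Olsh

namespace LIFT2

/-- The pseudo-metrics of the cone-off are invariant. -/
theorem c_smul {G X S : Type} [Group G] [MulAction G X] [MulAction G S] {d : X → X → ℕ}
    {u : ℕ} {Y : S → Set X} (hadj : ∀ a b, cd d u Y a b = 1 ↔ coneAdj d u Y a b)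
    (hG : Isom G d) : ∀ (g : G), ∀ s ∈ apx X S, ∀ y y', cd d u Y y s = 1 → cd d u Y y' s = 1 →
    cdX d (g • s) (g • y) (g • y') = cdX d s y y' := by
  rintro g _ ⟨s, rfl⟩ y y' hy hy'
  obtain ⟨v, rfl, -⟩ := CONEROT.nb hadj hy
  obtain ⟨v', rfl, -⟩ := CONEROT.nb hadj hy'
  exact hG g v v'

end LIFT2

theorem LIFT2 (h1 : Stmt_PSA) (h2 : Stmt_QTB) (h5 : Stmt_DICH) (h6 : Stmt_TRT) (h7 : Stmt_LAM)
    (h8 : Stmt_CONEISO) (h9 : Stmt_CONEGM) : Stmt_LIFT2 := by
  intro η η1 C
  obtain ⟨C1, hDICH⟩ := h5 η η1 C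
  obtain ⟨C2, hLAM⟩ := h7 η η1 C
  -- constants
  let N0 : ℕ → ℕ := fun D => (D + 18 * dl + 1) * (40 * C + C1 + C2 * (1 + (D + 18 * dl)))
  refine ⟨40 * C + C1, N0, fun D => C2 + 2 * N0 D + 2 * dl,
    fun D K R => 2 * (K + 3 * D + 8 * dl + 3) + 4 + R + 2, fun a0 L0 Ca =>
    ⟨C1 + C2 + 10 * (40 * C + C1) + 1, ?_⟩⟩
  intro G G' X S A' _ _ _ _ _ N n d u L Y d' π q hLQ D K R v w hF
  have hu := hLQ.hu
  have hL := hLQ.hL
  have hlev := hLQ.lev
  have hcp := hLQ.qn.conep
  have hX : IsGM d := hlev.gm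
  have hIG : IsomAct G d := hlev.isom
  have hu1 : 1 ≤ u := hcp.one_le
  obtain ⟨hd', hI', hh', hps, hap, hc, -, -, -⟩ := h2 G G' X S A' N n d u L Y η η1 C d' π q
    hLQ.toQT
  obtain ⟨-, hadj, hcdn⟩ := h9 X S d u Y hX hu1 hcp.ne
  have hIc : Isom G (cd d u Y) := h8 G X S d u Y hIG hLQ.Ysmul
  have hcs := LIFT2.c_smul (G := G) hadj hIG
  -- the two points
  set K' : ℕ := K + 3 * D + 8 * dl + 1 with hK
  have hFD : 2 * (K + 3 * D + 8 * dl + 3) + 4 + R + 2 ≤ d' v w := hF
  obtain ⟨p1, hp1a, hp1, hp1t, hp1t'⟩ := GWA.nonapex hps (v := v) (w := w) (t := K') (by omega)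
  have hp1w : d' p1 w = d' v w - d' v p1 := by
    unfold Bt at hp1
    omega
  obtain ⟨q1, hq1a, hq1, hq1t, hq1t'⟩ := GWA.nonapex hps (v := p1) (w := w)
    (t := d' p1 w - (K' + 1)) (by omega)
  have hvq1 : Bt d' v q1 w := by
    have e1 := hd'.tri v p1 q1
    have e2 := hd'.tri v q1 w
    unfold Bt at *
    omega
  have hvq1' : d' v q1 = d' v p1 + d' p1 q1 := by
    have e1 := hd'.tri v p1 q1
    have e2 := hd'.tri v q1 w
    unfold Bt at *
    omega
  have hq1w : K' ≤ d' q1 w ∧ d' q1 w ≤ K' + 1 := by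
    unfold Bt at *
    omega
  have hR : d' p1 q1 + 2 * (K' + 1) ≥ d' v w := by
    unfold Bt at *
    omega
  by_cases hbig : ∃ s ∈ q '' apx X S, 40 * C * u < ang d' (cq (cd d u Y) (cdX d) q) s p1 q1
  · left
    obtain ⟨s, hs, hang⟩ := hbig
    obtain ⟨-, -, -, Asym, Atri, -, -, B1, -, Bet, -⟩ := h1 A' d' _ _ _ hps s hs
    have hT : 40 * C * u = 40 * (C * u) := by ring
    rw [hT] at hang
    have b1 := B1 p1 q1 (by omega)
    obtain ⟨b1, n1, n2⟩ := b1
    have e1 := hd'.tri v s w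
    have e2 := hd'.tri v p1 s
    have e3 := hd'.tri s q1 w
    have hvs : d' v s = d' v p1 + d' p1 s := by
      unfold Bt at *
      omega
    have hsw : d' s w = d' s q1 + d' q1 w := by
      unfold Bt at *
      omega
    have hbt1 : Bt d' v p1 s := by
      unfold Bt
      omega
    have hbt2 : Bt d' w q1 s := by
      have f1 := hd'.comm w q1
      have f2 := hd'.comm q1 s
      have f3 := hd'.comm w s
      unfold Bt
      omega
    have a1 := Bet v p1 hbt1 n1
    have a2 := Bet w q1 hbt2 n2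
    have a3 := Asym v p1
    have nv : v ≠ s := by
      intro h0
      have h00 : d' v s = 0 := by
        rw [h0]
        exact hd'.self s
      omega
    have nw : w ≠ s := by
      intro h0
      have h00 : d' s w = 0 := by
        rw [h0]
        exact hd'.self s
      omega
    have t1 := Atri p1 v q1 nv
    have t2 := Atri v w q1 nw
    refine ⟨s, hs, ?_, by omega, by omega, ?_⟩
    · unfold Bt at *
      omega
    · unfold angQ
      omega
  · right
    -- lifts with small angles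
    have hC1L : C1 * u ≤ L := by
      refine le_trans (Nat.mul_le_mul_right u ?_) hL
      omega
    have hB : 10 * (40 * C * u + C1 * u) ≤ L := by
      have e1 : 10 * (40 * C * u + C1 * u) = (10 * (40 * C + C1)) * u := by ring
      rw [e1]
      refine le_trans (Nat.mul_le_mul_right u ?_) hL
      omega
    rcases hDICH N Unit X S A' d u L Y d' 1 q hLQ.qn (by omega) hC1L (40 * C * u) p1 q1 hp1a hq1a
      with hb | ⟨p2, q2, hp2, hq2, hcd2, hsm⟩
    · exact absurd hb hbig
    have hL10 : ∀ s ∈ apx X S, 10 * ang (cd d u Y) (cdX d) s (Sum.inl p2) (Sum.inl q2) ≤ L ∧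
        10 * ang (cd d u Y) (cdX d) s (Sum.inl p2) (Sum.inl q2) ≤ L := by
      rintro s ⟨s0, rfl⟩
      have := hsm s0
      omega
    have hna : ∀ x : X, (Sum.inl x : X ⊕ S) ∉ apx X S := by
      rintro x ⟨s, hs⟩
      cases hs
    have hTR := h6 G G' X S A' N n d u L Y η η1 C d' π q hLQ.toQT
      (Sum.inl p2) (Sum.inl q2) (Sum.inl p2) (Sum.inl q2) (hna _) (hna _) (hna _) (hna _) hL10
    -- displacement of p1 and q1
    have hmid : ∀ e : G', d' v (e • v) ≤ D → d' w (e • w) ≤ D →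
        d' p1 (e • p1) ≤ D + 18 * dl ∧ d' q1 (e • q1) ≤ D + 18 * dl := by
      intro e he1 he2
      refine ⟨GWA.disp_mid hh' hd' hI' he1 he2 hp1 (by omega) (by omega),
        GWA.disp_mid hh' hd' hI' he1 he2 hvq1 (by omega) (by omega)⟩
    refine ⟨p1, q1, p2, q2, hp1, hq1, by omega, by omega, hp2, hq2, hcd2, ?_, ?_, ?_⟩
    · intro s
      have := hsm s
      unfold angC
      have e1 : (40 * C + C1) * u = 40 * C * u + C1 * u := by ring
      omega
    · by_contra hcon
      have := hcdn R p2 q2 (by omega)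
      omega
    set a : ℕ := D + 18 * dl with ha
    set B : ℕ := 40 * C * u + C1 * u with hBdef
    set lam : ℕ := (a + 1) * (B + C2 * (u + a)) with hlam
    have hlamle : lam ≤ N0 D * u := by
      have e1 : C2 * (u + a) ≤ C2 * ((1 + a) * u) := by
        apply Nat.mul_le_mul_left
        have : a ≤ a * u := Nat.le_mul_of_pos_right a hu1
        nlinarith
      calc lam = (a + 1) * (B + C2 * (u + a)) := hlam
        _ ≤ (a + 1) * (B + C2 * ((1 + a) * u)) := by
            apply Nat.mul_le_mul_left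
            omega
        _ = N0 D * u := by
            simp only [N0, hBdef, ha]
            ring
    -- displacement of points in the middle of the geodesic of `X`
    intro e he1 he2
    obtain ⟨m1, m2⟩ := hmid e he1 he2
    obtain ⟨e1, hpe, hd1, hd2⟩ := hTR e
    refine ⟨e1, hpe, ?_⟩
    intro z hz hz1 hz2
    rw [hp2] at hd1
    rw [hq2] at hd2
    have hsm' : ∀ s : S, ang (cd d u Y) (cdX d) (Sum.inr s) (Sum.inl (e1 • p2))
        (Sum.inl (e1 • q2)) ≤ B := by
      intro s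
      have h10 := GWA.ang_smul hIc hcs e1 (s := (Sum.inr (e1⁻¹ • s) : X ⊕ S))
        ⟨_, rfl⟩ (Sum.inl p2) (Sum.inl q2)
      have h11 := hsm (e1⁻¹ • s)
      rw [← h10] at h11
      have h12 : e1 • (Sum.inr (e1⁻¹ • s) : X ⊕ S) = Sum.inr s := by
        show (Sum.inr (e1 • (e1⁻¹ • s)) : X ⊕ S) = Sum.inr s
        rw [smul_inv_smul]
      rw [h12] at h11
      exact h11
    have hcd1 : cd d u Y (Sum.inl p2) (Sum.inl (e1 • p2)) ≤ a := by
      have : cd d u Y (Sum.inl p2) (Sum.inl (e1 • p2)) = d' p1 (e • p1) := hd1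
      omega
    have hcd3 : cd d u Y (Sum.inl q2) (Sum.inl (e1 • q2)) ≤ a := by
      have : cd d u Y (Sum.inl q2) (Sum.inl (e1 • q2)) = d' q1 (e • q1) := hd2
      omega
    obtain ⟨z', hz', k1, k2, k3⟩ := hLAM X S d u Y hcp (by omega) a B lam p2 q2 (e1 • p2)
      (e1 • q2) hlam hsm hsm' hcd1 hcd3 z hz (by omega) (by omega)
    have hz3 : Bt d (e1 • p2) (e1 • z) (e1 • q2) := by
      unfold Bt
      rw [hIG, hIG, hIG]
      exact hz
    have hz4 : d (e1 • p2) (e1 • z) = d p2 z := hIG _ _ _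
    have k4 := GWA.two_bt (k := 2 * lam) hlev.hyp hX hz' hz3 (by omega) (by omega)
    have k5 := hX.tri z z' (e1 • z)
    have k6 : (C2 + 2 * N0 D + 2 * dl) * u = C2 * u + 2 * (N0 D * u) + 2 * (dl * u) := by ring
    have hC2u : C2 ≤ C2 * u := Nat.le_mul_of_pos_right _ hu1
    have hdlu : dl ≤ dl * u := Nat.le_mul_of_pos_right _ hu1
    show d z (e1 • z) ≤ (C2 + 2 * N0 D + 2 * dl) * u
    omega

end Pool.Agent.Ady
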