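import Pool.Agent.Ady.Stmts

/-!
# MP_9e15c1_al, E-half, module MKQ: existence of the quotient
-/

set_option autoImplicit false

namespace Pool.Agent.Ady

open Pool.Agent.Olsh

namespace MKQ

/-- Neighbours of an apex. -/
theorem nb {X S : Type} {d : X → X → ℕ} {u : ℕ} {Y : S → Set X}
    (h : ∀ a b, cd d u Y a b = 1 ↔ coneAdj d u Y a b) {s : S} {a : X ⊕ S}
    (ha : cd d u Y a (Sum.inr s) = 1) : ∃ v, a = Sum.inl v ∧ v ∈ Y s := by
  have h1 := (h _ _).mp ha
  rcases a with v | t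
  · exact ⟨v, rfl, h1⟩
  · exact h1.elim

/-- The cone-off is a rotating family of subgroups. -/
theorem isRotF (h3 : Stmt_CONEGM) (h5 : Stmt_CONEISO) {η η1 C : ℕ} {G X S : Type} [Group G]
    [MulAction G X] [MulAction G S] {n : ℕ} {d : X → X → ℕ} {u L : ℕ} {Y : S → Set X}
    {F : S → Subgroup G} (hY : ConeF G n d u L Y F η η1) (hP : ConeP d u Y η η1 C) (hC : 1 ≤ C)
    (hL : 2000 * C * u < L) : IsRotF G (cd d u Y) (apx X S) (cdX d) (FF F) (C * u) L := by
  obtain ⟨-, hadj, -⟩ := h3 X S d u Y hP.gm hP.one_le hP.ne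
  refine { hP.ps with
    isom := h5 G X S d u Y hY.isom hY.Ysmul
    ap_smul := ?_
    c_smul := ?_
    fix := ?_
    conj := ?_
    nbr := ?_
    rot := ?_
    one_le := ?_
    big := ?_ }
  · rintro g _ ⟨s, rfl⟩
    exact ⟨g • s, rfl⟩
  · rintro g _ ⟨s, rfl⟩ y y' hy hy'
    obtain ⟨v, rfl, -⟩ := nb hadj hy
    obtain ⟨v', rfl, -⟩ := nb hadj hy'
    exact hY.isom g v v'
  · rintro _ ⟨s, rfl⟩ r hr
    exact congrArg Sum.inr (hY.fix s r hr)
  · rintro g _ ⟨s, rfl⟩ r hr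
    exact hY.conj g s r hr
  · rintro _ ⟨s, rfl⟩
    obtain ⟨y, hy⟩ := hP.ne s
    exact ⟨Sum.inl y, (hadj _ _).mpr hy⟩
  · rintro _ ⟨s, rfl⟩ r hr hr1 y hy
    obtain ⟨v, rfl, hv⟩ := nb hadj hy
    exact hY.rotF s r hr hr1 v hv
  · exact Nat.mul_pos hC hP.one_le
  · rw [← Nat.mul_assoc]
    exact hL

end MKQ

theorem MKQ (_h1 : Stmt_CONEA) (_h2 : Stmt_PROJ) (h3 : Stmt_CONEGM) (h4 : Stmt_CONEPS)
    (h5 : Stmt_CONEISO) (h6 : Stmt_NSTAB) (h7 : Stmt_QEX) (_h8 : Stmt_QGM) : Stmt_MKQ := by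
  intro η
  obtain ⟨η0, C, hC, h⟩ := h4 η
  refine ⟨max η0 (1000 * dl + 100 * η + 1000), C, hC, le_max_right _ _, ?_⟩
  intro G X S _ _ _ n d u L Y F hY hu hL
  have hP0 : ConeP d u Y η η0 C := by
    apply h X S d u Y _ hu
    refine ⟨hY.gm, hY.hyp, hY.ne, hY.qc, ?_⟩
    have mono : ∀ s : S, Nd d η0 (Y s) ⊆ Nd d (max η0 (1000 * dl + 100 * η + 1000)) (Y s) := by
      rintro s v ⟨a, ha, hv⟩
      exact ⟨a, ha, hv.trans (le_max_left _ _)⟩
    intro s t hst v w h1 h2 h3 h4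
    exact hY.ov s t hst v w (mono _ h1) (mono _ h2) (mono _ h3) (mono _ h4)
  have hP : ConeP d u Y η (max η0 (1000 * dl + 100 * η + 1000)) C :=
    { toConeH := hY.toConeH
      hypc := hP0.hypc
      ps := hP0.ps
      near := hP0.near
      one_le := hP0.one_le
      le_u := hP0.le_u
      eta_le := hP0.eta_le
      dl_le := hP0.dl_le }
  have hR := MKQ.isRotF h3 h5 hY hP hC hL
  obtain ⟨hN, hfree, hstab, hrot, hkk⟩ := h6 G (X ⊕ S) _ _ _ _ _ _ hR
  obtain ⟨G', A', i1, i2, d', π, q, hq⟩ := h7 G (X ⊕ S) (cd d u Y) (NF G (apx X S) (FF F))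
    hR.gm hR.isom
  have hFN : ∀ s, F s ≤ NF G (apx X S) (FF F) := fun s r hr =>
    Subgroup.subset_closure ⟨Sum.inr s, ⟨s, rfl⟩, hr⟩
  have hstab' : ∀ (s : S) (g : G), g ∈ NF G (apx X S) (FF F) → g • s = s → g ∈ F s :=
    fun s g hg hgs => hstab (Sum.inr s) ⟨s, rfl⟩ g hg (congrArg Sum.inr hgs)
  have hcone : ConeG (NF G (apx X S) (FF F)) d u L Y η
      (max η0 (1000 * dl + 100 * η + 1000)) :=
    { toConeH := hY.toConeH
      isom := fun g v w => hY.isom g v w
      free := by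
        intro g v hgv
        have h1 := hfree (Sum.inl v) (by rintro ⟨s, hs⟩; cases hs) g g.2
          (congrArg Sum.inl hgv)
        exact Subtype.ext h1
      Ysmul := fun g s v hv => hY.Ysmul g s v hv
      rot := by
        intro s r hrs hr1 y hy
        exact hY.rotF s r (hstab' s r r.2 hrs) (fun h1 => hr1 (Subtype.ext h1)) y hy }
  have hquot : IsQuot (KK (NF G (apx X S) (FF F)) (apx X S)) (cd d u Y) d'
      (1 : NF G (apx X S) (FF F) →* Unit) q :=
    { surjG := fun x => ⟨1, rfl⟩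
      ker := fun g => ⟨fun _ => by rw [hkk]; trivial, fun _ => rfl⟩
      surj := hq.surj
      equiv := by
        intro g a
        have h1 := hq.equiv g a
        rw [(hq.ker g).mpr g.2, one_smul] at h1
        exact h1
      fib := by
        intro a b
        rw [hq.fib]
        constructor
        · rintro ⟨k, hk, hkab⟩
          exact ⟨⟨k, hk⟩, by rw [hkk]; trivial, hkab⟩
        · rintro ⟨k, -, hkab⟩
          exact ⟨k, k.2, hkab⟩
      le := hq.le
      ex := by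
        intro a b
        obtain ⟨k, hk, hkab⟩ := hq.ex a b
        exact ⟨⟨k, hk⟩, by rw [hkk]; trivial, hkab⟩ }
  refine ⟨NF G (apx X S) (FF F), G', A', i1, i2, d', π, q, ?_, hFN⟩
  exact
    { odd := hY.odd
      isom := hY.isom
      Ysmul := hY.Ysmul
      nrm := hN
      qn := { toConeG := hcone, conep := hP, rotc := hrot, quot := hquot }
      kk := hkk
      quot := hq
      stabn := fun s g hg => hFN s (hY.stabn s g hg)
      rot3 := by
        intro s g hg hgN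
        obtain ⟨i, hi⟩ := hY.rot3 s g hg (fun h1 => hgN (hFN s h1))
        exact ⟨i, fun k hk hks y hy => hi k (hstab' s k hk hks) y hy⟩
      stabY := hY.stabY }

end Pool.Agent.Ady
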