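import Pool.Agent.Ady.Stmts
import Pool.Agent.Olsh.Line

/-!
# Points moved little are near the axis: from a fixed to the linear form
-/

set_option autoImplicit false

namespace Pool.Agent.Ady

open Pool.Agent.Olsh

theorem NAG : Stmt_NAG := by
  refine ⟨2 * (4 * dl + (59 * dl + 5) + 1) + dl + 6 * dl, fun F3 =>
    ⟨4 * (4 * dl + (59 * dl + 5) + 1) + 2 * dl +
      (2 * F3 + 2 + (2 * (4 * dl + (59 * dl + 5) + 1) + dl)), ?_⟩⟩
  intro G X _ _ d hd hh hG hne g hg hF v
  have hq : QConv d (59 * dl + 5) (AX d g) :=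
    hG.ax_qconv hh hd (by unfold DD; omega) hg
  have hY : ∀ z, g • z ∈ AX d g ↔ z ∈ AX d g := fun z =>
    hG.smul_mem_Ax_of_commute _ (Commute.refl g) z
  obtain ⟨y, hy⟩ := exists_proj (d := d) (IsomAct.Ax_nonempty (d := d) DD g) v
  have hy' : IsProj d (AX d g) v y := hy
  have hgy : IsProj d (AX d g) (g • v) (g • y) := hG.isProj_smul hY hy'
  refine ⟨y, hy'.1, ?_⟩
  have e1 := hG g y v
  have e2 := hd.comm v y
  by_cases hc : 2 * (4 * dl + (59 * dl + 5) + 1) + dl < d y (g • y)
  · have h1 := hy'.dist_ge hh hd hq hgy hc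
    omega
  · -- the Gromov product at `y`
    have t1 := hd.tri y (g • y) (g • v)
    have t2 := hd.tri' (g • y) y (g • v)
    have t3 := hd.tri v y (g • v)
    have t4 := hd.tri y v (g • v)
    have t5 := hd.tri'' y (g • v) v
    have c1 := hd.comm (g • v) v
    have c2 := hd.comm (g • y) y
    by_cases hP : 2 * (F3 + 1) ≤ d y v + d y (g • v) - d v (g • v)
    · exfalso
      obtain ⟨z, hz, hz'⟩ := hd.exists_bt y v (F3 + 1) (by omega)
      obtain ⟨z', hz1, hz2⟩ := hd.exists_bt y (g • v) (F3 + 1) (by omega)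
      have h1 : d z z' ≤ 4 * dl := hh.fellow hd hz hz1 (by omega) (by omega)
      have hgz : Bt d (g • v) (g • z) (g • y) := by
        have h2 := hd.bt_symm hz
        unfold Bt at h2 ⊢
        rw [hG, hG, hG]
        exact h2
      have h3 := hh.dist_bt (w := z') hgz hd
      have e3 := hG g v z
      have e4 := hG g z y
      have c3 := hd.comm z' (g • v)
      have c4 := hd.comm z' y
      have c5 := hd.comm z y
      have c6 := hd.comm v z
      have t6 := hd.tri z' y (g • y)
      have t7 := hd.tri z z' (g • z)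
      unfold Bt at hz hz1
      have h5 : d z (g • z) ≤ 2 * (4 * dl + (59 * dl + 5) + 1) + dl + 6 * dl := by omega
      obtain ⟨y2, hy2, h6⟩ := hF z h5
      have h7 := hy'.2 y2 hy2
      have t8 := hd.tri v z y2
      omega
    · omega

end Pool.Agent.Ady
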