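import Pool.Agent.Ady.Stmts

/-!
# MP_9e15c1_al: chains for different exponents do not meet
-/

set_option autoImplicit false

namespace Pool.Agent.Ady

open Pool.Agent.Olsh

namespace NOC

variable {G X : Type} [Group G] [MulAction G X] {d : X → X → ℕ}

theorem conj_cm (z a b : G) : z * cm a b * z⁻¹ = cm (z * a * z⁻¹) (z * b * z⁻¹) := by
  unfold cm
  group

theorem rg_mono {B B' : ℕ} {c Y : G} (h : Rg d B c Y) (hB : B' ≤ B) : Rg d B' c Y :=
  ⟨h.nc, le_trans (by exact_mod_cast hB) h.big, h.near⟩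

/-- Regularity is invariant under conjugation. -/
theorem rg_conj (hG : IsomAct G d) {B : ℕ} {c Y : G} (h : Rg d B c Y) (z : G) :
    Rg d B (z * c * z⁻¹) (z * Y * z⁻¹) := by
  refine ⟨?_, ?_, ?_⟩
  · intro e
    apply h.nc
    have e1 : (z * c * z⁻¹) * (z * Y * z⁻¹) = z * (c * Y) * z⁻¹ := by group
    have e2 : (z * Y * z⁻¹) * (z * c * z⁻¹) = z * (Y * c) * z⁻¹ := by group
    rw [e1, e2] at e
    exact mul_left_cancel (mul_right_cancel e)
  · rw [hG.slen_conj]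
    exact h.big
  · obtain ⟨p, hp, hp'⟩ := h.near
    refine ⟨z • p, (hG.smul_mem_Mn c z p).2 hp, ?_⟩
    rw [hG.conj Y z p, hG.slen_conj]
    exact hp'

theorem slen_zpow (hG : IsomAct G d) (hd : IsGM d) [Nonempty X] (g : G) (i : ℤ) :
    slen d (g ^ i) = (i.natAbs : ℝ) * slen d g := by
  rcases Int.natAbs_eq i with h4 | h4
  · rw [h4, zpow_natCast, hG.slen_pow hd, Int.natAbs_natCast]
  · rw [h4, zpow_neg, zpow_natCast, hG.slen_inv hd, hG.slen_pow hd]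
    simp

/-- Two commuting elements which generate their centralisers have the same length. -/
theorem same_len (hG : IsomAct G d) (hd : IsGM d) [Nonempty X] {R T : G} (hR : 0 < slen d R)
    (h1 : ∀ z : G, z * R = R * z → ∃ i : ℤ, z = R ^ i)
    (h2 : ∀ z : G, z * T = T * z → ∃ i : ℤ, z = T ^ i) (hc : R * T = T * R) :
    slen d R = slen d T ∧ 0 < slen d T := by
  obtain ⟨i, hi⟩ := h1 T hc.symm
  obtain ⟨j, hj⟩ := h2 R hc
  have e1 : slen d T = (i.natAbs : ℝ) * slen d R := by rw [← slen_zpow hG hd, ← hi]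
  have e2 : slen d R = (j.natAbs : ℝ) * slen d T := by rw [← slen_zpow hG hd, ← hj]
  have hT0 : 0 ≤ slen d T := IsomAct.slen_nonneg T
  have hi1 : 1 ≤ i.natAbs := by
    rcases Nat.eq_zero_or_pos i.natAbs with h0 | h0
    · rw [h0] at e1
      rw [Nat.cast_zero, zero_mul] at e1
      rw [e1, mul_zero] at e2
      exact absurd hR (by rw [e2]; exact lt_irrefl 0)
    · exact h0
  have hj1 : 1 ≤ j.natAbs := by
    rcases Nat.eq_zero_or_pos j.natAbs with h0 | h0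
    · rw [h0] at e2
      rw [Nat.cast_zero, zero_mul] at e2
      exact absurd hR (by rw [e2]; exact lt_irrefl 0)
    · exact h0
  have hi2 : (1 : ℝ) ≤ (i.natAbs : ℝ) := by exact_mod_cast hi1
  have hj2 : (1 : ℝ) ≤ (j.natAbs : ℝ) := by exact_mod_cast hj1
  have f1 : slen d R ≤ slen d T := by nlinarith
  have f2 : slen d T ≤ slen d R := by nlinarith
  exact ⟨le_antisymm f1 f2, lt_of_lt_of_le hR f1⟩

end NOC

open NOC in
/-- Chains for different exponents do not meet. -/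
theorem NOC (h1 : Stmt_CENT) (h2 : Stmt_RIG) (h3 : Stmt_RLN) : Stmt_NOC := by
  obtain ⟨A1, h1⟩ := h1
  obtain ⟨A2, h2⟩ := h2
  obtain ⟨A3, h3⟩ := h3
  refine ⟨A1 + A2 + A3, fun a0 L0 hA => ?_⟩
  obtain ⟨B1, m1, h1⟩ := h1 a0 L0 (by omega)
  obtain ⟨B2, m2, h2⟩ := h2 a0 L0 (by omega)
  obtain ⟨B3, m3, h3⟩ := h3 a0 L0 (by omega)
  refine ⟨B1 + B2 + B3 + 1, m1 + m2 + m3 + 10, ?_⟩
  intro G X _ _ n d Ca hlev hn s r hs hr hsr c' c Y b' b Z hc hb rc' rc rb' rb z hcomm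
  have hG := hlev.isom
  have hd := hlev.gm
  have hne := hlev.ne
  have hMs : n ≤ s * n ^ 2 := by nlinarith
  have hMr : n ≤ r * n ^ 2 := by nlinarith
  rw [conj_cm, ← conj_pow] at hcomm
  have rz := rg_conj hG rc z
  have c1 := h1 G X n d Ca hlev (z * c * z⁻¹) (z * Y * z⁻¹) (s * n ^ 2)
    (rg_mono rz (by omega)) (by omega)
  have c2 := h1 G X n d Ca hlev b Z (r * n ^ 2) (rg_mono rb (by omega)) (by omega)
  have l1 := same_len hG hd c1.1 c1.2 c2.2 hcomm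
  obtain ⟨w, hw⟩ := h2 G X n d Ca hlev (z * c * z⁻¹) (z * Y * z⁻¹) b Z (s * n ^ 2) (r * n ^ 2)
    (rg_mono rz (by omega)) (rg_mono rb (by omega)) (by omega) (by omega) hcomm
  -- one level down
  have ec : w * (z * c * z⁻¹) * w⁻¹ = cm ((w * (z * c' * z⁻¹) * w⁻¹) ^ (s * n ^ 2))
      (w * (z * Y * z⁻¹) * w⁻¹) := by
    conv_lhs => rw [hc]
    rw [conj_cm, conj_cm, conj_pow, conj_pow]
  have rz' := rg_conj hG (rg_conj hG rc' z) w
  have c3 := h1 G X n d Ca hlev _ _ (s * n ^ 2) (rg_mono rz' (by omega)) (by omega)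
  have c4 := h1 G X n d Ca hlev b' Z (r * n ^ 2) (rg_mono rb' (by omega)) (by omega)
  rw [← ec] at c3
  rw [← hb] at c4
  have l2 := same_len hG hd c3.1 c3.2 c4.2 hw
  rw [hG.slen_conj, hG.slen_conj] at l2
  have k1 := h3 G X n d Ca hlev (z * c * z⁻¹) (z * Y * z⁻¹) (s * n ^ 2)
    (rg_mono rz (by omega)) (by omega)
  have k2 := h3 G X n d Ca hlev b Z (r * n ^ 2) (rg_mono rb (by omega)) (by omega)
  rw [hG.slen_conj] at k1
  rw [l1.1, l2.1] at k1
  obtain ⟨k11, k12⟩ := k1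
  obtain ⟨k21, k22⟩ := k2
  have hl : 0 < slen d b := l2.2
  -- `2 n ^ 2 |s - r| ≤ 34`
  have hn10 : (10 : ℝ) ≤ n := by exact_mod_cast (by omega : 10 ≤ n)
  have hn2 : (100 : ℝ) ≤ (n : ℝ) ^ 2 := by nlinarith
  push_cast at k11 k12 k21 k22
  rcases Nat.lt_or_gt_of_ne hsr with hlt | hlt
  · have h5 : (s : ℝ) + 1 ≤ r := by exact_mod_cast hlt
    have h6 : 2 * ((r : ℝ) * (n : ℝ) ^ 2 * slen d b) ≤
        2 * ((s : ℝ) * (n : ℝ) ^ 2 * slen d b) + 34 * slen d b := by linarith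
    have h7 : 0 ≤ ((r : ℝ) - s - 1) * ((n : ℝ) ^ 2 * slen d b) :=
      mul_nonneg (by linarith) (by positivity)
    nlinarith [mul_pos (show (0 : ℝ) < (n : ℝ) ^ 2 - 17 by linarith) hl]
  · have h5 : (r : ℝ) + 1 ≤ s := by exact_mod_cast hlt
    have h6 : 2 * ((s : ℝ) * (n : ℝ) ^ 2 * slen d b) ≤
        2 * ((r : ℝ) * (n : ℝ) ^ 2 * slen d b) + 34 * slen d b := by linarith
    have h7 : 0 ≤ ((s : ℝ) - r - 1) * ((n : ℝ) ^ 2 * slen d b) :=
      mul_nonneg (by linarith) (by positivity)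
    nlinarith [mul_pos (show (0 : ℝ) < (n : ℝ) ^ 2 - 17 by linarith) hl]

end Pool.Agent.Ady
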