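import Pool.Agent.Ady.Stmts
import Pool.Agent.Olsh.Line

/-!
# Overlap of two pieces
-/

set_option autoImplicit false

namespace Pool.Agent.Ady

open Pool.Agent.Olsh

namespace OVL

variable {G X : Type} [Group G] [MulAction G X] {d : X → X → ℕ}

theorem pt (hd : IsGM d) (hh : Hyp d dl) (hG : IsomAct G d) (hne : Nonempty X) {R : G} {β : X → ℤ}
    (hR : (DD : ℝ) ≤ slen d R) (hb : IsBus d R β) {r m : ℕ} {a b : X} {e : G}
    (hp : IsPc d R r m a b e) {t : ℤ} (h1 : β a + 2 * r + (8 * dl + 1 : ℕ) ≤ t)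
    (h2 : t + 2 * r + (8 * dl + 1 : ℕ) ≤ β b) :
    ∃ v, β v = t ∧ d v (e • v) ≤ m ∧ ∃ v1 ∈ Mn d R, d v v1 ≤ 67 * dl + 5 := by
  obtain ⟨p, hp0, hpn, hgeo⟩ := hd.exists_geo a b
  obtain ⟨i, hi, h3, h4⟩ := exists_switch (d a b) (fun i => β (p i) < t)
    (by simp only [hp0]; omega) (by simp only [hpn]; omega)
  have h5 : β (p (i + 1)) = t := by
    have h6 := hb.lip (p (i + 1)) (p i)
    have h7 := hgeo i (i + 1) (by omega) (by omega)
    have h8 := hd.comm (p (i + 1)) (p i)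
    omega
  have hbt : Bt d a (p (i + 1)) b := by
    have := hgeo.bt (Nat.zero_le (i + 1)) (show i + 1 ≤ d a b by omega) le_rfl
    rwa [hp0, hpn] at this
  have h9 := hb.lip (p (i + 1)) a
  have h10 := hb.lip b (p (i + 1))
  have h11 := hd.comm (p (i + 1)) a
  have h12 := hd.comm b (p (i + 1))
  have hL : 37 * dl + 5 ≤ disp d R := by
    have h13 := IsomAct.slen_le_disp (d := d) R
    have h14 : (DD : ℝ) ≤ disp d R := hR.trans h13
    have h15 : DD ≤ disp d R := by exact_mod_cast h14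
    unfold DD at h15
    omega
  have hq := hG.mn_qconv hh hd hL
  obtain ⟨y, hy, hya⟩ := hp.na
  obtain ⟨y', hy', hyb⟩ := hp.nb
  obtain ⟨v1, hv1, hv2⟩ := hq.middle hh hd hy hy' hya hyb hbt (by omega) (by omega)
  exact ⟨p (i + 1), h5, hp.mv _ hbt (by omega) (by omega), v1, hv1, by omega⟩

theorem close (hd : IsGM d) {R : G} {β : X → ℤ} (hb : IsBus d R β) {v v' v1 v1' : X}
    (hv : v1 ∈ Mn d R) (hv' : v1' ∈ Mn d R) (h1 : d v v1 ≤ 67 * dl + 5)
    (h1' : d v' v1' ≤ 67 * dl + 5) (h : β v = β v') :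
    d v v' ≤ 4 * (67 * dl + 5) + 14 * dl := by
  have h2 := hb.ax v1 hv v1' hv'
  have h3 := hb.lip v v1
  have h4 := hb.lip v1 v
  have h5 := hb.lip v' v1'
  have h6 := hb.lip v1' v'
  have h7 := hd.comm v v1
  have h8 := hd.comm v' v1'
  have h9 := hd.tri v v1 v'
  have h10 := hd.tri v1 v1' v'
  rcases abs_cases (β v1 - β v1') with ⟨h11, -⟩ | ⟨h11, -⟩ <;> omega

theorem shift (hd : IsGM d) (hG : IsomAct G d) {e : G} {v v' : X} {s m : ℕ} (h : d v v' ≤ s)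
    (h' : d v' (e • v') ≤ m) : d v (e • v) ≤ m + 2 * s := by
  have t1 := hd.tri v v' (e • v)
  have t2 := hd.tri v' (e • v') (e • v)
  have t3 := hG e v' v
  have t4 := hd.comm v' v
  omega

end OVL

theorem OVL (h1 : Stmt_TOV) : Stmt_OVL := by
  obtain ⟨A, C0, hT⟩ := h1
  refine ⟨A, 8 * (4 * (67 * dl + 5) + 14 * dl) + C0 + (8 * dl + 1), ?_⟩
  intro G X _ _ n d a0 L0 Ca hlev hA R β hR hb r m m' a b a' b' e e' t t' hp hp' htt h2 h3 h4 h5
  have hd := hlev.gm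
  have hG := hlev.isom
  push_cast at htt h2 h3 h4 h5
  obtain ⟨v, hv1, hv2, v1, hv3, hv4⟩ := OVL.pt hd hlev.hyp hG hlev.ne hR hb hp (t := t)
    (by push_cast; omega) (by push_cast; omega)
  obtain ⟨w, hw1, hw2, w1, hw3, hw4⟩ := OVL.pt hd hlev.hyp hG hlev.ne hR hb hp (t := t')
    (by push_cast; omega) (by push_cast; omega)
  obtain ⟨v', hv1', hv2', v1', hv3', hv4'⟩ := OVL.pt hd hlev.hyp hG hlev.ne hR hb hp' (t := t)
    (by push_cast; omega) (by push_cast; omega)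
  obtain ⟨w', hw1', hw2', w1', hw3', hw4'⟩ := OVL.pt hd hlev.hyp hG hlev.ne hR hb hp' (t := t')
    (by push_cast; omega) (by push_cast; omega)
  have e1 := OVL.close hd hb hv3 hv3' hv4 hv4' (hv1.trans hv1'.symm)
  have e2 := OVL.close hd hb hw3 hw3' hw4 hw4' (hw1.trans hw1'.symm)
  refine (hT G X n d a0 L0 Ca hlev hA).1 e e' v w m
    (m' + 2 * (4 * (67 * dl + 5) + 14 * dl)) hv2 hw2 ?_ ?_ ?_
  · exact OVL.shift hd hG e1 hv2'
  · exact OVL.shift hd hG e2 hw2'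
  · have t1 := hb.lip w v
    have t2 := hd.comm w v
    rw [t2, hw1, hv1] at t1
    have t5 : (0 : ℤ) ≤ dl := Int.natCast_nonneg dl
    zify
    linarith

end Pool.Agent.Ady
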