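import Pool.Agent.Ady.Stmts
import Pool.Agent.Olsh.OV
import Pool.Agent.Olsh.Iso

/-!
# OVT1: an element which moves two far points by a bounded amount is trivial or loxodromic
-/

set_option autoImplicit false

namespace Pool.Agent.Ady

open Pool.Agent.Olsh Filter Topology

namespace OVT1

variable {G X : Type} [Group G] [MulAction G X] {d : X → X → ℕ} {δ : ℕ}

/-- The orbit of a point `z` with a small Gromov product at `g z` is a chain. -/
theorem chain_orbit (hG : IsomAct G d) {g : G} {z : X} {a : ℕ}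
    (h : GpLe d a z (g • z) (g ^ 2 • z)) (n : ℕ) :
    IsChain d n a (d z (g • z)) (fun i => g ^ i • z) := by
  constructor
  · intro i h1 _
    obtain ⟨j, rfl⟩ : ∃ j, i = j + 1 := ⟨i - 1, by omega⟩
    have e1 := hG (g ^ j) z (g • z)
    have e2 := hG (g ^ j) (g • z) (g ^ 2 • z)
    have e3 := hG (g ^ j) z (g ^ 2 • z)
    have k1 : g ^ j • g • z = g ^ (j + 1) • z := by rw [pow_succ, mul_smul]
    have k2 : g ^ j • g ^ 2 • z = g ^ (j + 1 + 1) • z := by
      rw [smul_smul, ← pow_add]
    rw [k1] at e1 e2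
    rw [k2] at e2 e3
    unfold GpLe at *
    show d (g ^ (j + 1 - 1) • z) (g ^ (j + 1) • z) + d (g ^ (j + 1) • z) (g ^ (j + 1 + 1) • z) ≤
      d (g ^ (j + 1 - 1) • z) (g ^ (j + 1 + 1) • z) + 2 * a
    have k3 : j + 1 - 1 = j := by omega
    rw [k3]
    omega
  · intro i _ _
    show d z (g • z) ≤ d (g ^ i • z) (g ^ (i + 1) • z)
    have := hG.dist_pow_pow g z i 1
    rw [pow_one] at this
    rw [this]

/-- Such an element is loxodromic. -/
theorem slen_pos (hG : IsomAct G d) (hh : Hyp d δ) (hd : IsGM d) {g : G} {z : X} {a : ℕ}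
    (h : GpLe d a z (g • z) (g ^ 2 • z)) (hb : 2 * a + 2 * δ + 1 ≤ d z (g • z)) :
    0 < slen d g := by
  have h1 := hG.tendsto_slen hd g z
  have h2 : (1 : ℝ) ≤ slen d g := by
    apply le_of_tendsto_of_tendsto tendsto_const_nhds h1
    filter_upwards [eventually_ge_atTop 1] with n hn
    have h3 := (chain_orbit hG h n).dist_ge hh hd hb hn
    have h4 : ∀ i, d (g ^ i • z) (g ^ (i + 1) • z) = d z (g • z) := by
      intro i
      have := hG.dist_pow_pow g z i 1
      rwa [pow_one] at this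
    simp only [h4, Finset.sum_const, Finset.card_range, smul_eq_mul, pow_zero, one_smul] at h3
    have h5 : n ≤ d z (g ^ n • z) := by
      have h6 : n * (2 * (a + δ) + 1) ≤ n * d z (g • z) := Nat.mul_le_mul_left _ (by omega)
      have h7 : (n - 1) * (2 * (a + δ)) ≤ n * (2 * (a + δ)) :=
        Nat.mul_le_mul_right _ (Nat.sub_le _ _)
      have h8 : n * (2 * (a + δ) + 1) = n * (2 * (a + δ)) + n := by ring
      omega
    have h9 : (0 : ℝ) < n := by exact_mod_cast hn
    rw [le_div_iff₀ h9, one_mul]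
    exact_mod_cast h5
  linarith

/-- The dichotomy: two far points are moved little, or the element is loxodromic. -/
theorem dich (hG : IsomAct G d) (hh : Hyp d δ) (hd : IsGM d) {g : G} {p q : X} {al L0 : ℕ}
    (hp : d p (g • p) ≤ al) (hq : d q (g • q) ≤ al)
    (hn : 4 * al + 2 * L0 + (200 * δ + 200) ≤ d p q) :
    (∃ P Q : X, L0 ≤ d P Q ∧ d P (g • P) ≤ 48 * δ + 40 ∧ d Q (g • Q) ≤ 48 * δ + 40) ∨
      0 < slen d g := by
  obtain ⟨s, s1, s2, hs⟩ := OV.exists_good hG hh hd le_rfl hp hq (by omega)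
  obtain ⟨r, r0, rn, hr⟩ := hd.exists_geo p q
  have pos : ∀ x : ℕ, x ≤ d p q → d p (r x) = x ∧ GpLe d 0 p (r x) q := by
    intro x hx
    have e1 : d p (r x) = x := by
      have := hr 0 x (Nat.zero_le _) (by omega)
      rw [r0] at this
      omega
    have e2 : d (r x) q = d p q - x := by
      have := hr x (d p q) (by omega) le_rfl
      rw [rn] at this
      omega
    refine ⟨e1, ?_⟩
    unfold GpLe
    omega
  by_cases hsm : -(40 * (δ : ℤ) + 40) ≤ s ∧ s ≤ 40 * (δ : ℤ) + 40
  · left
    obtain ⟨m1, m2⟩ := hsm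
    have key : ∀ x : ℕ, al + 12 * δ < x → x + al + 12 * δ < d p q →
        d (r x) (g • r x) ≤ 48 * δ + 40 := by
      intro x h1 h2
      obtain ⟨e1, e2⟩ := pos x (by omega)
      obtain ⟨a1, a2, a3⟩ := hs 0 (Nat.zero_le _) (r x) e2 (by omega) (by omega)
      rcases OV.dist_close hh hd e2 a1 with k | k
      · omega
      · omega
    refine ⟨r (al + 12 * δ + 1), r (al + 12 * δ + 1 + L0), ?_, key _ (by omega) (by omega),
      key _ (by omega) (by omega)⟩
    rw [hr _ _ (Nat.le_add_right _ L0) (by omega)]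
    omega
  · right
    obtain ⟨e1, e2⟩ := pos (d p q / 2) (by omega)
    set z : X := r (d p q / 2) with hz
    obtain ⟨a1, a2, a3⟩ := hs 0 (Nat.zero_le _) z e2 (by omega) (by omega)
    obtain ⟨b1, b2, b3⟩ := hs (0 + 2 * δ) (by omega) (g • z) a1 (by omega) (by omega)
    have e3 : g • g • z = g ^ 2 • z := by rw [pow_two, mul_smul]
    rw [e3] at b1 b2 b3
    have t1 : d (g • z) (g ^ 2 • z) = d z (g • z) := by rw [← e3, hG]
    have t2 := hd.tri p z (g • z)
    have t3 := hd.tri p (g • z) z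
    have t4 := hd.comm z (g • z)
    have t5 := hd.tri p z (g ^ 2 • z)
    have t6 := hd.tri p (g ^ 2 • z) z
    have t7 := hd.comm z (g ^ 2 • z)
    have k := OV.dist_close hh hd e2 a1
    refine slen_pos hG hh hd (a := 10 * δ) (z := z) ?_ ?_
    · unfold GpLe
      rw [t1]
      rcases k with k | k
      · omega
      · omega
    · omega

end OVT1

/-- C4: an element which moves two far points by a bounded amount is trivial or loxodromic. -/
theorem OVT1 : Stmt_OVT1 := by
  refine ⟨48 * dl + 40, 200 * dl + 200, ?_⟩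
  intro G X _ _ d hd hh hG a0 L0 hA hyp g p q al hp hq hn
  rcases OVT1.dich hG hh hd hp hq hn with ⟨P, Q, h1, h2, h3⟩ | h
  · exact hyp g P Q (h2.trans hA) (h3.trans hA) h1
  · exact Or.inr h

end Pool.Agent.Ady
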