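import Pool.Agent.Ady.Stmts
import Pool.Agent.Olsh.Line

/-!
# MP_9e15c1_al, E-half: the pieces of `R = [c^M, Y]` (PCS)
-/

set_option autoImplicit false

namespace Pool.Agent.Ady

open Pool.Agent.Olsh

/-- PCS: the pieces of `R = [c^M, Y]`. -/
theorem PCS (h1 : Stmt_RLN) : Stmt_PCS := by
  obtain ⟨A, h1⟩ := h1
  refine ⟨A, ?_⟩
  intro a0 L0 hA
  obtain ⟨B1, m1, h1⟩ := h1 a0 L0 hA
  refine ⟨B1 + 10000 * dl + 10000, m1 + 1000, ?_⟩
  intro G X _ _ n d Ca hL c Y M hR hM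
  have hd := hL.gm
  have hh := hL.hyp
  have hG := hL.isom
  have hne := hL.ne
  have hbig : ((B1 + 10000 * dl + 10000 : ℕ) : ℝ) ≤ slen d c := hR.big
  push_cast at hbig
  have hM' : (1000 : ℝ) ≤ M := by
    have : 1000 ≤ M := by omega
    exact_mod_cast this
  have hB1 : (0 : ℝ) ≤ B1 := Nat.cast_nonneg _
  have hdl : (0 : ℝ) ≤ dl := Nat.cast_nonneg _
  have hpos : 0 < slen d c := by linarith
  have hMl : 1000 * slen d c ≤ M * slen d c := mul_le_mul_of_nonneg_right hM' hpos.le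
  have hR1 : Rg d B1 c Y := ⟨hR.nc, by linarith, hR.near⟩
  obtain ⟨hlow, -⟩ := h1 G X n d Ca hL c Y M hR1 (by omega)
  have hDDv : ((DD : ℕ) : ℝ) = 100 * dl + 100 := by
    unfold DD
    push_cast
    ring
  have hDD : ((DD : ℕ) : ℝ) ≤ slen d (cm (c ^ M) Y) := by
    rw [hDDv]
    linarith
  refine ⟨hDD, ?_⟩
  intro β hβ
  obtain ⟨p0, hp0, hpY⟩ := hR.near
  -- notation
  set ℓ : ℝ := slen d c with hℓ
  set R : G := cm (c ^ M) Y with hRdef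
  set α : G := c ^ M * Y with hα
  have hRa : R = α * (c ^ M)⁻¹ * Y⁻¹ := by
    rw [hRdef, hα]
    rfl
  -- displacement of `c`
  have hdisp1 : (disp d c : ℝ) ≤ ℓ + (6 * dl + 2) := hG.disp_le_slen hh hd c
  have hdisp2 : ℓ ≤ (disp d c : ℝ) := IsomAct.slen_le_disp (d := d) c
  have hdisp3 : 37 * dl + 5 ≤ disp d c := by
    have h4 : ((37 * dl + 5 : ℕ) : ℝ) ≤ (disp d c : ℕ) := by
      push_cast
      linarith
    exact_mod_cast h4
  -- displacement of `R`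
  have hdispR : 2 * (M * ℓ) - 17 * ℓ ≤ (disp d R : ℝ) := by
    have := IsomAct.slen_le_disp (d := d) R
    linarith
  have hdispR' : 37 * dl + 5 ≤ disp d R := by
    have h4 : ((37 * dl + 5 : ℕ) : ℝ) ≤ (disp d R : ℕ) := by
      push_cast
      linarith
    exact_mod_cast h4
  -- the power of `c`
  have hcM : (d p0 (c ^ M • p0) : ℝ) ≤ M * ℓ + 16 * dl := by
    have h5 := hG.comm_dist_le_slen hh hd (g := c ^ M) (h := c) (Commute.pow_self c M) hp0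
      (by omega)
    rw [hG.slen_pow hd] at h5
    exact h5
  have hcM' : M * ℓ ≤ (d p0 (c ^ M • p0) : ℝ) := IsomAct.slen_mul_le (d := d) c p0 M
  set x1 : X := c ^ M • p0 with hx1
  have hcMi : d p0 ((c ^ M)⁻¹ • p0) = d p0 x1 := by rw [hd.comm, hG.inv]
  have hYi : d p0 (Y⁻¹ • p0) = d p0 (Y • p0) := by rw [hd.comm, hG.inv]
  -- the path
  have k1 : d x1 (α • p0) = d p0 (Y • p0) := by
    rw [hα, mul_smul, hx1, hG]
  have k2 : d (α • p0) ((α * (c ^ M)⁻¹) • p0) = d p0 x1 := by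
    rw [mul_smul α (c ^ M)⁻¹ p0, hG α p0 ((c ^ M)⁻¹ • p0), hcMi]
  have k3 : d ((α * (c ^ M)⁻¹) • p0) (R • p0) = d p0 (Y • p0) := by
    rw [hRa, mul_smul (α * (c ^ M)⁻¹) Y⁻¹ p0, hG, hYi]
  have k4 : d (R • p0) (R • x1) = d p0 x1 := hG R p0 x1
  have t1 := hd.tri p0 x1 (R • p0)
  have t2 := hd.tri x1 (α • p0) (R • p0)
  have t3 := hd.tri (α • p0) ((α * (c ^ M)⁻¹) • p0) (R • p0)
  have t4 := hd.tri x1 (R • p0) (R • x1)
  have hx1R : d x1 (R • p0) ≤ 2 * d p0 (Y • p0) + d p0 x1 := by omega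
  have hp0R : d p0 (R • p0) ≤ 2 * d p0 (Y • p0) + 2 * d p0 x1 := by omega
  have hx1R' : d x1 (R • x1) ≤ 2 * d p0 (Y • p0) + 2 * d p0 x1 := by omega
  have hx1Rr : (d x1 (R • p0) : ℝ) ≤ 2 * d p0 (Y • p0) + d p0 x1 := by exact_mod_cast hx1R
  have hp0Rr : (d p0 (R • p0) : ℝ) ≤ 2 * d p0 (Y • p0) + 2 * d p0 x1 := by
    exact_mod_cast hp0R
  have hx1Rr' : (d x1 (R • x1) : ℝ) ≤ 2 * d p0 (Y • p0) + 2 * d p0 x1 := by
    exact_mod_cast hx1R'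
  -- near the axis of `R`
  have hnear : ∀ z : X, (d z (R • z) : ℝ) ≤ 2 * d p0 (Y • p0) + 2 * d p0 x1 →
      ∃ y ∈ Mn d R, (d z y : ℝ) ≤ 9 * ℓ := by
    intro z hz
    obtain ⟨y, hy, hy'⟩ := hG.near_mn hh hd hdispR' z
    refine ⟨y, hy, ?_⟩
    have h6 : (2 : ℝ) * d z y + disp d R ≤ d z (R • z) + (74 * dl + 8) := by exact_mod_cast hy'
    linarith
  obtain ⟨y0, hy0, hy0'⟩ := hnear p0 hp0Rr
  obtain ⟨y1, hy1, hy1'⟩ := hnear x1 hx1Rr'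
  have hRy0 : R • y0 ∈ Mn d R := by
    have := hG.pow_mem_Mn hy0 1
    simpa using this
  have hfl1 : (10 * ℓ - 1 : ℝ) < ⌊10 * ℓ⌋₊ := Nat.sub_one_lt_floor _
  have hfl2 : ((⌊10 * ℓ⌋₊ : ℕ) : ℝ) ≤ 10 * ℓ := Nat.floor_le (by linarith)
  have hfl3 : ((⌊2 * ℓ⌋₊ : ℕ) : ℝ) ≤ 2 * ℓ := Nat.floor_le (by linarith)
  have hn0 : p0 ∈ Nd d ⌊10 * ℓ⌋₊ (Mn d R) := ⟨y0, hy0, Nat.le_floor (by linarith)⟩
  have hn1 : x1 ∈ Nd d ⌊10 * ℓ⌋₊ (Mn d R) := ⟨y1, hy1, Nat.le_floor (by linarith)⟩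
  have hn2 : R • p0 ∈ Nd d ⌊10 * ℓ⌋₊ (Mn d R) := by
    refine ⟨R • y0, hRy0, ?_⟩
    rw [hG]
    exact Nat.le_floor (by linarith)
  have hx1m : x1 ∈ Mn d c := by
    have := hG.pow_mem_Mn hp0 (M : ℤ)
    rwa [zpow_natCast] at this
  -- coordinates
  have f1 : (β x1 : ℝ) ≤ β p0 + d p0 x1 := by
    have := hβ.lip x1 p0
    rw [hd.comm x1 p0] at this
    exact_mod_cast this
  have f2 : (β (R • p0) : ℝ) ≤ β x1 + d x1 (R • p0) := by
    have := hβ.lip (R • p0) x1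
    rw [hd.comm (R • p0) x1] at this
    exact_mod_cast this
  have f3 := hβ.up p0
  have f4 : (d y0 y1 : ℝ) ≤ |(β y0 : ℝ) - β y1| + 14 * dl := by
    have := hβ.ax y0 hy0 y1 hy1
    exact_mod_cast this
  have f5 : (β p0 : ℝ) ≤ β y0 + d p0 y0 := by exact_mod_cast hβ.lip p0 y0
  have f6 : (β y0 : ℝ) ≤ β p0 + d p0 y0 := by
    have := hβ.lip y0 p0
    rw [hd.comm y0 p0] at this
    exact_mod_cast this
  have f7 : (β x1 : ℝ) ≤ β y1 + d x1 y1 := by exact_mod_cast hβ.lip x1 y1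
  have f8 : (β y1 : ℝ) ≤ β x1 + d x1 y1 := by
    have := hβ.lip y1 x1
    rw [hd.comm y1 x1] at this
    exact_mod_cast this
  have f9 : (d p0 x1 : ℝ) ≤ d p0 y0 + d y0 y1 + d x1 y1 := by
    have e1 := hd.tri p0 y0 x1
    have e2 := hd.tri y0 y1 x1
    have e3 := hd.comm y1 x1
    have e4 : d p0 x1 ≤ d p0 y0 + d y0 y1 + d x1 y1 := by omega
    exact_mod_cast e4
  have f10 : (M * ℓ - 37 * ℓ : ℝ) ≤ β x1 - β p0 := by
    rcases abs_cases ((β y0 : ℝ) - β y1) with ⟨ha, -⟩ | ⟨ha, -⟩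
    · rw [ha] at f4
      exfalso
      linarith
    · rw [ha] at f4
      linarith
  refine ⟨⌊10 * ℓ⌋₊, ⌊2 * ℓ⌋₊, p0, x1, hfl2, hfl3, ⟨hn0, hn1, ?_⟩, ⟨hn1, hn2, ?_⟩, ?_, ?_, ?_,
    ?_⟩
  · intro v hv _ _
    obtain ⟨w, hw, hw'⟩ := hG.mn_qconv hh hd hdisp3 p0 hp0 x1 hx1m v hv
    have e1 := hG.dist_base hd c v w
    have e2 : d w (c • w) = disp d c := hw
    apply Nat.le_floor
    have e3 : (d v (c • v) : ℝ) ≤ disp d c + 2 * (59 * dl + 5) := by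
      have : d v (c • v) ≤ disp d c + 2 * (59 * dl + 5) := by omega
      exact_mod_cast this
    linarith
  · intro v hv hv1 hv2
    have m1 : α • p0 ∈ Mn d (α * c * α⁻¹) := (hG.smul_mem_Mn c α p0).2 hp0
    have m2 : (α * (c ^ M)⁻¹) • p0 ∈ Mn d (α * c * α⁻¹) := by
      rw [mul_smul α (c ^ M)⁻¹ p0]
      refine (hG.smul_mem_Mn c α _).2 ?_
      have := hG.pow_mem_Mn hp0 (-(M : ℤ))
      rwa [zpow_neg, zpow_natCast] at this
    have hq : QConv d (59 * dl + 5) (Mn d (α * c * α⁻¹)) := by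
      refine hG.mn_qconv hh hd ?_
      rw [hG.disp_conj]
      exact hdisp3
    have hk : d p0 (Y • p0) + 8 * dl < ⌊10 * ℓ⌋₊ := by
      have : ((d p0 (Y • p0) + 8 * dl : ℕ) : ℝ) < ((⌊10 * ℓ⌋₊ : ℕ) : ℝ) := by
        push_cast
        linarith
      exact_mod_cast this
    obtain ⟨w, hw, hw'⟩ := hq.middle hh hd (a := d p0 (Y • p0)) m1 m2 k1.le
      (by rw [hd.comm]; exact k3.le) hv (by omega) (by omega)
    have e1 := hG.dist_base hd (α * c * α⁻¹) v w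
    have e2 : d w ((α * c * α⁻¹) • w) = disp d (α * c * α⁻¹) := hw
    rw [hG.disp_conj] at e2
    apply Nat.le_floor
    have e3 : (d v ((α * c * α⁻¹) • v) : ℝ) ≤ disp d c + 2 * (67 * dl + 5) := by
      have : d v ((α * c * α⁻¹) • v) ≤ disp d c + 2 * (67 * dl + 5) := by omega
      exact_mod_cast this
    linarith
  · linarith
  · linarith
  · linarith
  · linarith

end Pool.Agent.Ady
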