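import Pool.Agent.Ady.PQB
import Pool.Agent.Olsh.Line

/-!
# MP_9e15c1_al, E-half: lifting one step of a chain of short elements (PQ)
-/

set_option autoImplicit false

namespace Pool.Agent.Ady

open Pool.Agent.Olsh

namespace PQ

/-- If `[x ^ M, y]` is short, then the axes of `x` and `y x y⁻¹` are close. -/
theorem close {G X : Type} [Group G] [MulAction G X] {n : ℕ} {d : X → X → ℕ} {a0 L0 Ca : ℕ}
    (hL : LevT G n d a0 L0 Ca) {x y : G} (hx : 0 < slen d x) {M : ℕ} (hM : 1 ≤ M) {E ρ0 : ℕ}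
    (hE : M * slen d x + 16 * dl ≤ E)
    (hPR : ∀ (P Q : G) (p r : X), d p (P • p) ≤ E → d r (Q • r) ≤ E →
      2 * d p r ≤ d r (P • r) + (Ca + 100 * dl + 20) →
      2 * d p r ≤ d p (Q • p) + (Ca + 100 * dl + 20) → ρ0 ≤ d p r → 1 ≤ slen d (P * Q))
    (hR : slen d (cm (x ^ M) y) < 1) : ∃ p ∈ AX d x, ∃ r ∈ AX d x, d p (y • r) < ρ0 := by
  have hne := hL.ne
  have hd := hL.gm
  have hh := hL.hyp
  have hG := hL.isom
  have hDD : 37 * dl + 5 ≤ DD := by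
    unfold DD
    omega
  have hMR : (1 : ℝ) ≤ M := by exact_mod_cast hM
  have hsP : slen d (x ^ M) = M * slen d x := hG.slen_pow hd x M
  have hP : 0 < slen d (x ^ M) := by
    rw [hsP]
    exact mul_pos (by linarith) hx
  have hQ : 0 < slen d (y * (x ^ M)⁻¹ * y⁻¹) := by
    rw [hG.slen_conj, hG.slen_inv hd]
    exact hP
  -- the axis of `x ^ M` is close to the axis of `x`
  have near : ∀ w ∈ AX d (x ^ M), ∃ z ∈ AX d x, d w z ≤ 45 * dl + 4 := by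
    intro w hw
    obtain ⟨h1, h2⟩ := hG.axPow_spec hd DD hP
    exact hG.mn_near_ax hh hd (D := DD) hDD hx (((Commute.refl x).pow_left M).pow_left _)
      (by omega) hw
  -- displacements
  have mvP : ∀ z ∈ AX d x, d z (x ^ M • z) ≤ E := by
    intro z hz
    have h1 := hG.ax_dist_le hh hd (D := DD) (by omega) hx ((Commute.refl x).pow_left M) hz
    rw [hsP] at h1
    have h2 : (d z (x ^ M • z) : ℝ) ≤ E := by linarith
    exact_mod_cast h2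
  have mvQ : ∀ z ∈ AX d x, d (y • z) ((y * (x ^ M)⁻¹ * y⁻¹) • (y • z)) ≤ E := by
    intro z hz
    rw [hG.conj, hd.comm, hG.inv]
    exact mvP z hz
  -- a closest pair
  obtain ⟨z, hz⟩ := IsomAct.Ax_nonempty (d := d) DD x
  have hset : {k : ℕ | ∃ p ∈ AX d x, ∃ r ∈ AX d x, k = d p (y • r)}.Nonempty :=
    ⟨d z (y • z), z, hz, z, hz, rfl⟩
  obtain ⟨p, hp, r, hr, hpr⟩ := Nat.sInf_mem hset
  have hmin : ∀ p' ∈ AX d x, ∀ r' ∈ AX d x, d p (y • r) ≤ d p' (y • r') := by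
    intro p' hp' r' hr'
    rw [← hpr]
    exact Nat.sInf_le ⟨p', hp', r', hr', rfl⟩
  refine ⟨p, hp, r, hr, ?_⟩
  by_contra hcon
  push Not at hcon
  have c1 : 2 * d p (y • r) ≤ d (y • r) (x ^ M • (y • r)) + (Ca + 100 * dl + 20) := by
    obtain ⟨y2, hy2, hy2'⟩ := hL.na (x ^ M) (y • r) hP
    obtain ⟨z, hz, hz'⟩ := near y2 hy2
    have e1 := hmin z hz r hr
    have e2 := hd.tri z y2 (y • r)
    have e3 := hd.comm z y2
    have e4 := hd.comm y2 (y • r)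
    omega
  have c2 : 2 * d p (y • r) ≤ d p ((y * (x ^ M)⁻¹ * y⁻¹) • p) + (Ca + 100 * dl + 20) := by
    obtain ⟨y2, hy2, hy2'⟩ := hL.na (y * (x ^ M)⁻¹ * y⁻¹) p hQ
    obtain ⟨y3, rfl⟩ : ∃ y3, y2 = y • y3 := ⟨y⁻¹ • y2, by rw [smul_inv_smul]⟩
    have h1 : y3 ∈ AX d (x ^ M) :=
      (hG.mem_Ax_inv hd DD (x ^ M) y3).1 ((hG.smul_mem_Ax DD (x ^ M)⁻¹ y y3).1 hy2)
    obtain ⟨z, hz, hz'⟩ := near y3 h1
    have e1 := hmin p hp z hz
    have e2 := hd.tri p (y • y3) (y • z)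
    have e3 : d (y • y3) (y • z) = d y3 z := hG _ _ _
    omega
  have key := hPR (x ^ M) (y * (x ^ M)⁻¹ * y⁻¹) p (y • r) (mvP p hp) (mvQ r hr) c1 c2 hcon
  rw [← cm_eq] at key
  linarith

end PQ

open PQ in
/-- PQ: lifting one step of a chain of short elements. -/
theorem PQ (h1 : Stmt_QTB) (h2 : Stmt_TLL) (h3 : Stmt_TBEAX) (h4 : Stmt_AXIM) (h5 : Stmt_GROW)
    (h6 : Stmt_PRODS) (h7 : Stmt_DICH) (h8 : Stmt_LEN) (h9 : Stmt_CHAIN) (h10 : Stmt_ALC)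
    (h11 : Stmt_PSA) : Stmt_PQ := by
  intro η η1 C
  obtain ⟨A5, C1, h5⟩ := h5
  obtain ⟨C3, h3a⟩ := h3 η η1 C 1
  obtain ⟨KA, h4⟩ := h4 η η1 C
  obtain ⟨C7, h7⟩ := h7 η η1 C
  refine ⟨A5, fun a0 L0 Ca hA => ?_⟩
  obtain ⟨K1, hK1⟩ : ∃ K1 : ℕ, K1 = 2 * (4 * L0 + C1 + 1) := ⟨_, rfl⟩
  obtain ⟨ρ0, h6⟩ := h6 (K1 + 16 * dl) (Ca + 100 * dl + 20)
  obtain ⟨ρ1, hρ1⟩ : ∃ ρ1 : ℕ, ρ1 = ρ0 + 2 * KA := ⟨_, rfl⟩
  obtain ⟨MA, hMA⟩ : ∃ MA : ℕ, MA = 2 * C3 + 30 * C := ⟨_, rfl⟩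
  obtain ⟨E3, hE3⟩ : ∃ E3 : ℕ, E3 = ρ1 * (MA + C7 + 1) := ⟨_, rfl⟩
  obtain ⟨E4, hE4⟩ : ∃ E4 : ℕ, E4 = 2 * E3 + 2 * (C3 * K1 + 1) := ⟨_, rfl⟩
  obtain ⟨C4, h3b⟩ := h3 η η1 C E4
  obtain ⟨U3a, h3a⟩ := h3a a0 L0 Ca
  obtain ⟨U3b, h3b⟩ := h3b a0 L0 Ca
  obtain ⟨U4, h4⟩ := h4 1 a0 L0 Ca
  refine ⟨2 * C4 + 1, 32, U3a + U3b + U4 + C7 + 16 * dl + 4, by omega, ?_⟩
  intro G G' X S A' _ _ _ _ _ N n d u L Y d' π q H hlev' M g o y hM ho hx hRpos hRV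
  obtain ⟨hd', hI', hh', hps, hap, hc, hqap, -, -⟩ :=
    h1 G G' X S A' N n d u L Y η η1 C d' π q H.toQT
  have hlev := H.lev
  have hne := hlev.ne
  have hne' := hlev'.ne
  have hd := hlev.gm
  have hh := hlev.hyp
  have hG := hlev.isom
  have hu : U3a + U3b + U4 + C7 + 16 * dl + 4 ≤ u := H.hu
  have hu1 : 16 * dl + 4 ≤ u := by omega
  have hu1R : 16 * (dl : ℝ) + 4 ≤ u := by exact_mod_cast hu1
  have hdl0 : (0 : ℝ) ≤ dl := Nat.cast_nonneg _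
  have hu0 : (0 : ℝ) < u := by linarith
  have hDD : 37 * dl + 5 ≤ DD := by
    unfold DD
    omega
  have hMR : (32 : ℝ) ≤ M := by exact_mod_cast hM
  have hK1R : (K1 : ℝ) = 2 * (4 * L0 + C1 + 1) := by rw [hK1]; push_cast; ring
  have hC40 : (0 : ℝ) ≤ C4 := Nat.cast_nonneg _
  have hR0 : 0 ≤ slen d' (cm (π g ^ M) y) := hRpos.le
  have hR1 : slen d' (cm (π g ^ M) y) < 1 := by
    push_cast at hRV
    nlinarith [mul_nonneg hC40 hR0]
  -- (1)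
  have hnc : π g * y ≠ y * π g := by
    intro h
    have e1 : cm (π g ^ M) y = 1 := by
      rw [cm_eq_one_iff]
      exact ((show Commute (π g) y from h).pow_left M).eq
    rw [e1] at hRpos
    have e2 := hI'.slen_pow hd' (1 : G') 0
    simp only [pow_zero, Nat.cast_zero, zero_mul] at e2
    rw [e2] at hRpos
    exact lt_irrefl _ hRpos
  have hMx : M * slen d' (π g) ≤ K1 := by
    have e0 : 16 * slen d' (π g) + 4 * L0 + C1 + 1 > M * slen d' (π g) := by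
      by_contra hcon
      push Not at hcon
      have e1 := h5 G' A' n d' a0 L0 Ca hlev' hA (π g) y M hx hnc (by linarith)
      have : (0 : ℝ) ≤ L0 := Nat.cast_nonneg _
      have : (0 : ℝ) ≤ C1 := Nat.cast_nonneg _
      linarith
    have e1 : 0 ≤ ((M : ℝ) - 32) * slen d' (π g) := mul_nonneg (by linarith) hx.le
    rw [hK1R]
    linarith
  -- (2)
  obtain ⟨hgpos, hgfix, -⟩ : 0 < slen d g ∧ (∀ s : S, g • s ≠ s) ∧ True := by
    have e1 := (h2 G G' X S A' N n d u L Y η η1 C d' π q a0 L0 Ca H.toQT hlev).2.2 g hx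
    exact ⟨e1.1, e1.2, trivial⟩
  obtain ⟨hax, hgl⟩ := h3a G G' X S A' N n d u L Y d' π q (H.mono (by omega)) g o hgpos hgfix
    (by omega)
  have hgM : slen d (g ^ M) ≤ C3 * K1 * u := by
    rw [hG.slen_pow hd]
    calc M * slen d g ≤ M * (C3 * u * slen d' (π g)) :=
          mul_le_mul_of_nonneg_left hgl (Nat.cast_nonneg _)
      _ = C3 * u * (M * slen d' (π g)) := by ring
      _ ≤ C3 * u * K1 := mul_le_mul_of_nonneg_left hMx (by positivity)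
      _ = C3 * K1 * u := by ring
  have mvg : ∀ v ∈ AX d g, d v (g ^ M • v) ≤ (C3 * K1 + 1) * u := by
    intro v hv
    have e1 := hG.ax_dist_le hh hd (D := DD) (by omega) hgpos ((Commute.refl g).pow_left M) hv
    have e2 : (d v (g ^ M • v) : ℝ) ≤ (((C3 * K1 + 1) * u : ℕ) : ℝ) := by
      push_cast
      linarith
    exact_mod_cast e2
  -- (3)
  obtain ⟨p, hp, r, hr, hpr⟩ := close hlev' hx (M := M) (by omega) (E := K1 + 16 * dl) (ρ0 := ρ0)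
    (y := y) (by push_cast; linarith)
    (fun P Q p r => h6 G' A' d' hd' hh' hI' P Q p r) hR1
  -- (4)
  have haxim := (h4 G G' X S A' N n d u L Y d' π q (H.mono (by omega)) g o hx (by omega)).2
  obtain ⟨v, hv, hvp⟩ := haxim p hp
  obtain ⟨v2, hv2, hvr⟩ := haxim r hr
  have hna : ∀ w : X, q (Sum.inl w) ∉ q '' apx X S := by
    intro w hw
    obtain ⟨s, hs⟩ := hqap _ hw
    cases hs
  have hna' : ∀ w : X, y • q (Sum.inl w) ∉ q '' apx X S := by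
    intro w hw
    have e1 := hap y⁻¹ _ hw
    rw [inv_smul_smul] at e1
    exact hna w e1
  have hvw : d' (q (Sum.inl v)) (y • q (Sum.inl v2)) ≤ ρ1 := by
    have e1 := hd'.tri (q (Sum.inl v)) p (y • q (Sum.inl v2))
    have e2 := hd'.tri p (y • r) (y • q (Sum.inl v2))
    have e3 : d' (y • r) (y • q (Sum.inl v2)) = d' r (q (Sum.inl v2)) := hI' _ _ _
    have e4 := hd'.comm (q (Sum.inl v)) p
    omega
  have hL1 : C7 * u ≤ L := le_trans (Nat.mul_le_mul_right _ (by omega)) H.hL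
  rcases h7 N Unit X S A' d u L Y d' 1 q H.qn (by omega) hL1 (MA * u) (q (Sum.inl v))
    (y • q (Sum.inl v2)) (hna v) (hna' v2) with hbig | hlift
  · -- (5)
    exfalso
    obtain ⟨s, hs, hang⟩ := hbig
    have inv1 : ∀ (i : ℤ), ∀ w ∈ AX d g, g ^ i • w ∈ AX d g := by
      intro i w hw
      exact (hG.smul_mem_Ax_of_commute DD ((Commute.refl g).zpow_left i) w).2 hw
    have eqv : ∀ (i : ℤ) (w : X), (π g) ^ i • q (Sum.inl w) = q (Sum.inl (g ^ i • w)) := by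
      intro i w
      rw [← map_zpow, ← H.quot.equiv, Sum.smul_inl]
    have eP : π g ^ M = π g ^ (M : ℤ) := (zpow_natCast _ _).symm
    have eP' : (π g ^ M)⁻¹ = π g ^ (-(M : ℤ)) := by rw [zpow_neg, zpow_natCast]
    have fixP : ∀ s : A', π g ^ M • s ≠ s := by
      intro s hs
      have e1 := IsomAct.slen_mul_le (d := d') (π g ^ M) s 1
      rw [pow_one, hs, hd'.self, Nat.cast_one, one_mul, Nat.cast_zero, hI'.slen_pow hd'] at e1
      have e2 : 0 < M * slen d' (π g) := mul_pos (by linarith) hx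
      linarith
    have hQ : ∀ s : A', (y * (π g ^ M)⁻¹ * y⁻¹) • s ≠ s := by
      intro s hs
      apply fixP (y⁻¹ • s)
      rw [mul_smul, mul_smul] at hs
      have e1 : (π g ^ M)⁻¹ • y⁻¹ • s = y⁻¹ • s := by
        rw [← inv_smul_smul y ((π g ^ M)⁻¹ • y⁻¹ • s), hs]
      conv_lhs => rw [← e1]
      rw [smul_inv_smul]
    have key := PQB.big (P := π g ^ M) (Q := y * (π g ^ M)⁻¹ * y⁻¹) (K := C3 * u)
      (Z1 := {z | ∃ w ∈ AX d g, z = q (Sum.inl w)}) (Z2 := {z | ∃ w ∈ AX d g, z = y • q (Sum.inl w)})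
      h11 h9 h10 hps hI' hap hc ?_ ?_ ?_ ?_ ?_ ?_ hs ?_ ?_ (fixP s) (hQ s)
      (z := q (Sum.inl v)) (z' := y • q (Sum.inl v2)) ⟨v, hv, rfl⟩ ⟨v2, hv2, rfl⟩ ?_
    · rw [← cm_eq] at key
      linarith
    · rintro z ⟨w, hw, rfl⟩
      exact ⟨g ^ (M : ℤ) • w, inv1 _ w hw, by rw [eP, eqv]⟩
    · rintro z ⟨w, hw, rfl⟩
      exact ⟨g ^ (-(M : ℤ)) • w, inv1 _ w hw, by rw [eP', eqv]⟩
    · rintro z ⟨w, hw, rfl⟩
      refine ⟨g ^ (-(M : ℤ)) • w, inv1 _ w hw, ?_⟩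
      rw [mul_smul, mul_smul, inv_smul_smul, eP', eqv]
    · rintro z ⟨w, hw, rfl⟩
      refine ⟨g ^ (M : ℤ) • w, inv1 _ w hw, ?_⟩
      rw [mul_inv_rev, mul_inv_rev, inv_inv, inv_inv, mul_smul, mul_smul, inv_smul_smul, eP, eqv]
    · rintro z ⟨w, hw, rfl⟩
      exact hna w
    · rintro z ⟨w, hw, rfl⟩
      exact hna' w
    · rintro z ⟨w, hw, rfl⟩ z' ⟨w', hw', rfl⟩
      exact (hax w w' hw hw').2.2 s hs
    · rintro z ⟨w, hw, rfl⟩ z' ⟨w', hw', rfl⟩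
      have e1 := GWA.ang_smul hI' hc y (hap y⁻¹ s hs) (q (Sum.inl w)) (q (Sum.inl w'))
      rw [smul_inv_smul] at e1
      rw [e1]
      exact (hax w w' hw hw').2.2 _ (hap y⁻¹ s hs)
    · have e1 : MA * u = 2 * (C3 * u) + 30 * (C * u) := by rw [hMA]; ring
      omega
  · -- (6)
    obtain ⟨v1, w1, hv1, hw1, hcd, hang⟩ := hlift
    have hlen : d v1 w1 ≤ E3 * u := by
      have e1 := h8 η η1 C X S d u Y H.qn.conep (MA * u + C7 * u) v1 w1 hang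
      rw [hcd] at e1
      refine e1.trans ?_
      have e2 : E3 * u = ρ1 * (MA * u + C7 * u + u) := by rw [hE3]; ring
      rw [e2]
      exact Nat.mul_le_mul_right _ hvw
    obtain ⟨k, hk, hk'⟩ := (H.quot.fib (Sum.inl v1) (Sum.inl v)).1 hv1
    have hkv : k • v1 = v := by
      rw [Sum.smul_inl] at hk'
      exact Sum.inl_injective hk'
    obtain ⟨y0, hy0⟩ := H.quot.surjG y
    have hq1 : q (Sum.inl (y0 • v2)) = q (Sum.inl (k • w1)) := by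
      rw [← Sum.smul_inl, ← Sum.smul_inl, H.quot.equiv, H.quot.equiv, hy0, hw1,
        (H.quot.ker k).2 hk, one_smul]
    obtain ⟨k', hk1, hk1'⟩ := (H.quot.fib _ _).1 hq1
    have hkw : k' • y0 • v2 = k • w1 := by
      rw [Sum.smul_inl] at hk1'
      exact Sum.inl_injective hk1'
    obtain ⟨y1, hy1⟩ : ∃ y1, y1 = k' * y0 := ⟨_, rfl⟩
    have hπy1 : π y1 = y := by rw [hy1, map_mul, (H.quot.ker k').2 hk1, one_mul, hy0]
    have hd1 : d v (y1 • v2) ≤ E3 * u := by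
      rw [hy1, mul_smul, hkw, ← hkv, hG]
      exact hlen
    have hπT : π (cm (g ^ M) y1) = cm (π g ^ M) y := by rw [map_cm, map_pow, hπy1]
    -- the displacement of `T`
    have hdT : d v (cm (g ^ M) y1 • v) ≤ E4 * u := by
      have e0 : cm (g ^ M) y1 • v = g ^ M • y1 • (g ^ M)⁻¹ • y1⁻¹ • v := by
        unfold cm
        simp only [mul_smul]
      have e1 := hd.tri v (g ^ M • v) (g ^ M • y1 • (g ^ M)⁻¹ • y1⁻¹ • v)
      have e2 : d (g ^ M • v) (g ^ M • y1 • (g ^ M)⁻¹ • y1⁻¹ • v) =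
        d v (y1 • (g ^ M)⁻¹ • y1⁻¹ • v) := hG _ _ _
      have e3 := hd.tri v (y1 • v2) (y1 • (g ^ M)⁻¹ • y1⁻¹ • v)
      have e4 : d (y1 • v2) (y1 • (g ^ M)⁻¹ • y1⁻¹ • v) = d v2 ((g ^ M)⁻¹ • y1⁻¹ • v) := hG _ _ _
      have e5 := hd.tri v2 ((g ^ M)⁻¹ • v2) ((g ^ M)⁻¹ • y1⁻¹ • v)
      have e6 : d ((g ^ M)⁻¹ • v2) ((g ^ M)⁻¹ • y1⁻¹ • v) = d v2 (y1⁻¹ • v) := hG _ _ _
      have e7 : d v2 (y1⁻¹ • v) = d v (y1 • v2) := by rw [hd.comm, hG.inv]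
      have e8 : d v2 ((g ^ M)⁻¹ • v2) = d v2 (g ^ M • v2) := by rw [hd.comm, hG.inv]
      have e9 := mvg v hv
      have e10 := mvg v2 hv2
      have e11 : E4 * u = 2 * (E3 * u) + 2 * ((C3 * K1 + 1) * u) := by rw [hE4]; ring
      rw [e0]
      omega
    have hT := (h2 G G' X S A' N n d u L Y η η1 C d' π q a0 L0 Ca H.toQT hlev).2.2
      (cm (g ^ M) y1) (by rw [hπT]; exact hRpos)
    have hTl := (h3b G G' X S A' N n d u L Y d' π q (H.mono (by omega)) (cm (g ^ M) y1) v hT.1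
      hT.2 hdT).2
    rw [hπT] at hTl
    obtain ⟨o1, ho1⟩ := Mn_nonempty (d := d) (cm (g ^ M) y1)
    refine ⟨y1, o1, hπy1, ?_⟩
    have e1 := hG.disp_le_slen hh hd (cm (g ^ M) y1)
    have e2 : d o1 (cm (g ^ M) y1 • o1) = disp d (cm (g ^ M) y1) := ho1
    rw [e2]
    have e3 : 2 * slen d (cm (g ^ M) y1) ≤ u := by
      push_cast at hRV
      have e4 : 2 * C4 * slen d' (cm (π g ^ M) y) ≤ 1 := by linarith
      calc 2 * slen d (cm (g ^ M) y1) ≤ 2 * (C4 * u * slen d' (cm (π g ^ M) y)) := by linarith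
        _ = u * (2 * C4 * slen d' (cm (π g ^ M) y)) := by ring
        _ ≤ u * 1 := mul_le_mul_of_nonneg_left e4 hu0.le
        _ = u := mul_one _
    have e4 : (disp d (cm (g ^ M) y1) : ℝ) ≤ u := by linarith
    exact_mod_cast e4

end Pool.Agent.Ady
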