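import Pool.Agent.Ady.Stmts
import Pool.Agent.Olsh.Iso
import Pool.Agent.Olsh.Chain

/-!
# MP_9e15c1_al, E-half: product of two isometries of small displacement with far axes (PRODS)
-/

set_option autoImplicit false

namespace Pool.Agent.Ady

open Pool.Agent.Olsh Filter Topology

namespace PRODS

/-- The chain `x^i p, x^i P r`. -/
def w {G X : Type} [Group G] [MulAction G X] (x : G) (p r' : X) (i : ℕ) : X :=
  if i % 2 = 0 then x ^ (i / 2) • p else x ^ (i / 2) • r'

theorem w_even {G X : Type} [Group G] [MulAction G X] (x : G) (p r' : X) (i : ℕ) :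
    w x p r' (2 * i) = x ^ i • p := by
  have h1 : (2 * i) % 2 = 0 := by omega
  have h2 : (2 * i) / 2 = i := by omega
  rw [w, if_pos h1, h2]

theorem w_odd {G X : Type} [Group G] [MulAction G X] (x : G) (p r' : X) (i : ℕ) :
    w x p r' (2 * i + 1) = x ^ i • r' := by
  have h1 : ¬ (2 * i + 1) % 2 = 0 := by omega
  have h2 : (2 * i + 1) / 2 = i := by omega
  rw [w, if_neg h1, h2]

end PRODS

/-- PRODS: product of two isometries of small displacement with far axes. -/
theorem PRODS : Stmt_PRODS := by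
  intro E Ca
  refine ⟨E + 2 * (2 * E + Ca) + 2 * dl + 1, ?_⟩
  intro G X _ _ d hd hh hG P Q p r hP hQ hPr hQp hρ
  have c1 := hd.comm
  -- basic distances
  have e1 : d (P • p) (P • r) = d p r := hG P p r
  have e2 : d (Q • r) (Q • p) = d r p := hG Q r p
  have e3 : d (P • r) ((P * Q) • p) = d r (Q • p) := by rw [mul_smul]; exact hG P r (Q • p)
  have e4 : d (P • p) ((P * Q) • p) = d p (Q • p) := by rw [mul_smul]; exact hG P p (Q • p)
  have e5 : d (P • r) ((P * Q) • P • r) = d r (Q • P • r) := by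
    rw [mul_smul]; exact hG P r (Q • P • r)
  have e6 : d (Q • r) (Q • P • r) = d r (P • r) := hG Q r (P • r)
  have e7 : d ((P * Q) • p) ((P * Q) • P • r) = d p (P • r) := hG (P * Q) p (P • r)
  have t1 := hd.tri (P • p) p (P • r)
  have t2 := hd.tri p (P • p) (P • r)
  have t3 := hd.tri (Q • r) r (Q • p)
  have t4 := hd.tri r (Q • r) (Q • p)
  have t5 := hd.tri (P • p) p ((P * Q) • p)
  have t6 := hd.tri (Q • r) r (Q • P • r)
  have k1 := c1 (P • p) p
  have k2 := c1 (Q • r) r
  have k3 := c1 p r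
  have l1 : d p r ≤ d p (P • r) + E := by omega
  have l1' : d p (P • r) ≤ d p r + E := by omega
  have l2 : d p r ≤ d r (Q • p) + E := by omega
  have l2' : d r (Q • p) ≤ d p r + E := by omega
  have g1 : d p (P • r) + d (P • r) ((P * Q) • p) ≤ d p ((P * Q) • p) + 2 * (2 * E + Ca) := by
    omega
  have g2 : d (P • r) ((P * Q) • p) + d ((P * Q) • p) ((P * Q) • P • r) ≤
      d (P • r) ((P * Q) • P • r) + 2 * (2 * E + Ca) := by
    omega
  set x := P * Q with hx
  set r' := P • r with hr'
  have hs : ∀ (i : ℕ) (v : X), x ^ (i + 1) • v = x ^ i • x • v := by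
    intro i v
    rw [pow_succ, mul_smul]
  have hchain : ∀ n, IsChain d n (2 * E + Ca) (d p r - E) (PRODS.w x p r') := by
    intro n
    constructor
    · intro i h1 _
      rcases Nat.even_or_odd' i with ⟨k, hk | hk⟩
      · obtain ⟨j, rfl⟩ : ∃ j, k = j + 1 := ⟨k - 1, by omega⟩
        have f1 : i - 1 = 2 * j + 1 := by omega
        have f2 : i + 1 = 2 * (j + 1) + 1 := by omega
        rw [f1, f2, hk, PRODS.w_odd, PRODS.w_even, PRODS.w_odd, hs, hs]
        unfold GpLe
        rw [hG (x ^ j) r' (x • p), hG (x ^ j) (x • p) (x • r'), hG (x ^ j) r' (x • r')]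
        exact g2
      · have f1 : i - 1 = 2 * k := by omega
        have f2 : i + 1 = 2 * (k + 1) := by omega
        rw [f1, f2, hk, PRODS.w_even, PRODS.w_odd, PRODS.w_even, hs]
        unfold GpLe
        rw [hG (x ^ k) p r', hG (x ^ k) r' (x • p), hG (x ^ k) p (x • p)]
        exact g1
    · intro i _ _
      rcases Nat.even_or_odd' i with ⟨k, hk | hk⟩
      · rw [hk, PRODS.w_even, PRODS.w_odd, hG]
        omega
      · have f2 : i + 1 = 2 * (k + 1) := by omega
        rw [f2, hk, PRODS.w_odd, PRODS.w_even, hs, hG]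
        omega
  have hlen : ∀ i, d p r - E ≤ d (PRODS.w x p r' i) (PRODS.w x p r' (i + 1)) := by
    intro i
    rcases Nat.even_or_odd' i with ⟨k, hk | hk⟩
    · rw [hk, PRODS.w_even, PRODS.w_odd, hG]
      omega
    · have f2 : i + 1 = 2 * (k + 1) := by omega
      rw [f2, hk, PRODS.w_odd, PRODS.w_even, hs, hG]
      omega
  have hmain : ∀ k : ℕ, 1 ≤ k → k ≤ d p (x ^ k • p) := by
    intro k hk
    have h1 := (hchain (2 * k)).dist_ge hh hd (by omega) (by omega)
    have h2 : (2 * k) * (d p r - E) ≤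
        ∑ i ∈ Finset.range (2 * k), d (PRODS.w x p r' i) (PRODS.w x p r' (i + 1)) := by
      have := Finset.card_nsmul_le_sum (Finset.range (2 * k))
        (fun i => d (PRODS.w x p r' i) (PRODS.w x p r' (i + 1))) (d p r - E)
        (fun i _ => hlen i)
      simpa using this
    have h3 : PRODS.w x p r' 0 = p := by
      have := PRODS.w_even x p r' 0
      simpa using this
    rw [h3, PRODS.w_even] at h1
    have h4 : 2 * (2 * E + Ca + dl) + 1 ≤ d p r - E := by omega
    have h5 : (2 * k) * (2 * (2 * E + Ca + dl) + 1) ≤ (2 * k) * (d p r - E) :=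
      Nat.mul_le_mul_left _ h4
    have h6 : (2 * k - 1) * (2 * (2 * E + Ca + dl)) ≤ (2 * k) * (2 * (2 * E + Ca + dl)) :=
      Nat.mul_le_mul_right _ (by omega)
    have h7 : (2 * k) * (2 * (2 * E + Ca + dl) + 1) =
        (2 * k) * (2 * (2 * E + Ca + dl)) + 2 * k := by ring
    omega
  have ht := hG.tendsto_slen hd x p
  apply le_of_tendsto_of_tendsto tendsto_const_nhds ht
  filter_upwards [eventually_ge_atTop 1] with n hn
  have h4 : (0 : ℝ) < n := by exact_mod_cast hn
  rw [le_div_iff₀ h4, one_mul]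
  exact_mod_cast hmain n hn

end Pool.Agent.Ady
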