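import Pool.Agent.Ady.Stmts

/-!
# MP_9e15c1_al, E-half, module QTB: basic facts about the quotient
-/

set_option autoImplicit false

namespace Pool.Agent.Ady

open Pool.Agent.Olsh

namespace QTB

/-- The metric on the neighbours of the apexes is invariant. -/
theorem cdX_smul {G X S : Type} [Group G] [MulAction G X] [MulAction G S] {d : X → X → ℕ}
    (hd : IsomAct G d) (g : G) (s y z : X ⊕ S) :
    cdX d (g • s) (g • y) (g • z) = cdX d s y z := by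
  rcases y with y | y
  · rcases z with z | z
    · exact hd g y z
    · rfl
  · rcases z with z | z
    · rfl
    · rfl

/-- Lifts of a translated triple. -/
theorem sub {G G' X S A' : Type} [Group G] [MulAction G X] [MulAction G S] [Group G']
    [MulAction G' A'] {d : X → X → ℕ} {u : ℕ} {Y : S → Set X} {π : G →* G'} {q : X ⊕ S → A'}
    (hd : IsomAct G d) (hc : IsomAct G (cd d u Y)) (heq : ∀ (g : G) (a : X ⊕ S),
      q (g • a) = π g • q a) (g : G) (s' y' z' : A') :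
    {n | ∃ s y z, q s = s' ∧ q y = y' ∧ q z = z' ∧ cd d u Y y s = 1 ∧ cd d u Y z s = 1 ∧
      n = cdX d s y z} ⊆
    {n | ∃ s y z, q s = π g • s' ∧ q y = π g • y' ∧ q z = π g • z' ∧ cd d u Y y s = 1 ∧
      cd d u Y z s = 1 ∧ n = cdX d s y z} := by
  rintro n ⟨s, y, z, hs, hy, hz, h1, h2, rfl⟩
  refine ⟨g • s, g • y, g • z, ?_, ?_, ?_, ?_, ?_, ?_⟩
  · rw [heq, hs]
  · rw [heq, hy]
  · rw [heq, hz]
  · rw [hc, h1]
  · rw [hc, h2]
  · exact (cdX_smul hd g s y z).symm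

/-- Invariance of `cq`. -/
theorem cq_smul {G G' X S A' : Type} [Group G] [MulAction G X] [MulAction G S] [Group G']
    [MulAction G' A'] {d : X → X → ℕ} {u : ℕ} {Y : S → Set X} {π : G →* G'} {q : X ⊕ S → A'}
    (hd : IsomAct G d) (hc : IsomAct G (cd d u Y)) (heq : ∀ (g : G) (a : X ⊕ S),
      q (g • a) = π g • q a) (g : G) (s' y' z' : A') :
    cq (cd d u Y) (cdX d) q (π g • s') (π g • y') (π g • z') =
      cq (cd d u Y) (cdX d) q s' y' z' := by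
  have e : {n | ∃ s y z, q s = π g • s' ∧ q y = π g • y' ∧ q z = π g • z' ∧
      cd d u Y y s = 1 ∧ cd d u Y z s = 1 ∧ n = cdX d s y z} =
      {n | ∃ s y z, q s = s' ∧ q y = y' ∧ q z = z' ∧ cd d u Y y s = 1 ∧ cd d u Y z s = 1 ∧
      n = cdX d s y z} := by
    refine Set.Subset.antisymm ?_ (sub hd hc heq g s' y' z')
    have h := sub hd hc heq g⁻¹ (π g • s') (π g • y') (π g • z')
    rw [map_inv, inv_smul_smul, inv_smul_smul, inv_smul_smul] at h
    exact h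
  exact congrArg sInf e

end QTB

theorem QTB (h1 : Stmt_QPS) (h2 : Stmt_QGM) (h3 : Stmt_QHYP) (h4 : Stmt_CONEISO) : Stmt_QTB := by
  intro G G' X S A' _ _ _ _ _ N n d u L Y η η1 C d' π q hQ
  have hc : IsomAct G (cd d u Y) := h4 G X S d u Y hQ.isom hQ.Ysmul
  obtain ⟨hgm', hiso'⟩ := h2 G (X ⊕ S) G' A' (cd d u Y) N d' π q hQ.qn.conep.ps.gm hc hQ.quot
  have hhyp' := h3 N (X ⊕ S) Unit A' (cd d u Y) (apx X S) (cdX d) (C * u) L dl d' 1 q
    hQ.qn.rotc hQ.qn.quot hQ.qn.conep.hypc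
  obtain ⟨hps, -, -, -, hap, hatt, -, -⟩ := h1 N (X ⊕ S) Unit A' (cd d u Y) (apx X S) (cdX d)
    (C * u) L d' 1 q hQ.qn.rotc hQ.qn.quot
  refine ⟨hgm', hiso', hhyp', hps, ?_, ?_, hap, ?_, ?_⟩
  · rintro g' _ ⟨_, ⟨s, rfl⟩, rfl⟩
    obtain ⟨g, rfl⟩ := hQ.quot.surjG g'
    exact ⟨g • Sum.inr s, ⟨g • s, rfl⟩, hQ.quot.equiv g _⟩
  · intro g' s' _ y' z' _ _
    obtain ⟨g, rfl⟩ := hQ.quot.surjG g'
    exact QTB.cq_smul hQ.isom hc hQ.quot.equiv g s' y' z'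
  · intro s hs y y' hy hy'
    obtain ⟨e1, r, hr, e2⟩ := hatt s hs y y' hy hy'
    exact ⟨e1, r, r.2, hr, e2⟩
  · intro x a hx
    obtain ⟨g, rfl⟩ := hQ.quot.surjG x
    rw [← hQ.quot.equiv] at hx
    obtain ⟨k, hk, e⟩ := (hQ.quot.fib (g • a) a).1 hx
    refine ⟨k * g, ?_, ?_⟩
    · rw [map_mul, (hQ.quot.ker k).2 hk, one_mul]
    · rw [mul_smul, e]

end Pool.Agent.Ady
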