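import Pool.Agent.Ady.Stmts
import Pool.Agent.Olsh.Line

/-!
# MP_9e15c1_al, E-half, module D13 (RIG): if `[c^M, Y]` and `[b^M', Z]` commute then conjugates of
`c` and `b` commute
-/

set_option autoImplicit false

namespace Pool.Agent.Ady

open Pool.Agent.Olsh

namespace RIG

theorem rg_mono {G X : Type} [Group G] [MulAction G X] {d : X → X → ℕ} {B B' : ℕ} {c Y : G}
    (h : Rg d B c Y) (hB : B' ≤ B) : Rg d B' c Y :=
  ⟨h.nc, le_trans (by exact_mod_cast hB) h.big, h.near⟩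

section pieces

variable {G X : Type} [Group G] [MulAction G X] {d : X → X → ℕ} {R : G}

theorem pc_mono {r r' m : ℕ} {a b : X} {e : G} (h : IsPc d R r m a b e) (hr : r ≤ r') :
    IsPc d R r' m a b e := by
  obtain ⟨⟨y, hy, hy'⟩, ⟨z, hz, hz'⟩, h3⟩ := h
  exact ⟨⟨y, hy, hy'.trans hr⟩, ⟨z, hz, hz'.trans hr⟩,
    fun v hv h4 h5 => h3 v hv (hr.trans h4) (hr.trans h5)⟩

theorem pc_smul (hG : IsomAct G d) {r m : ℕ} {a b : X} {e : G} (h : IsPc d R r m a b e) (g : G)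
    (hg : Commute g R) : IsPc d R r m (g • a) (g • b) (g * e * g⁻¹) := by
  obtain ⟨⟨y, hy, hy'⟩, ⟨z, hz, hz'⟩, h3⟩ := h
  refine ⟨⟨g • y, (hG.smul_mem_Mn_of_commute hg y).2 hy, ?_⟩,
    ⟨g • z, (hG.smul_mem_Mn_of_commute hg z).2 hz, ?_⟩, fun v hv h4 h5 => ?_⟩
  · rw [hG]
    exact hy'
  · rw [hG]
    exact hz'
  · have e1 : g • g⁻¹ • v = v := smul_inv_smul g v
    have e2 : Bt d a (g⁻¹ • v) b := by
      rw [← hG.bt_smul g, e1]
      exact hv
    have e3 : d a (g⁻¹ • v) = d (g • a) v := by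
      rw [← hG g a, e1]
    have e4 : d (g⁻¹ • v) b = d v (g • b) := by
      rw [← hG g (g⁻¹ • v) b, e1]
    have e5 := h3 (g⁻¹ • v) e2 (by omega) (by omega)
    have e6 : d v ((g * e * g⁻¹) • v) = d (g⁻¹ • v) (e • g⁻¹ • v) := by
      rw [← hG g (g⁻¹ • v), e1, mul_smul, mul_smul]
    rw [e6]
    exact e5

theorem mn_inv (hG : IsomAct G d) (hd : IsGM d) : Mn d R⁻¹ = Mn d R := by
  ext z
  show d z (R⁻¹ • z) = disp d R⁻¹ ↔ d z (R • z) = disp d R
  rw [hG.disp_inv hd, hd.comm, hG.inv]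

/-- Reversing a piece. -/
theorem pc_inv (hG : IsomAct G d) (hd : IsGM d) {r m : ℕ} {a b : X} {e : G}
    (h : IsPc d R⁻¹ r m a b e) : IsPc d R r m b a e := by
  obtain ⟨h1, h2, h3⟩ := h
  rw [mn_inv hG hd] at h1 h2
  refine ⟨h2, h1, fun v hv h4 h5 => h3 v (hd.bt_symm hv) ?_ ?_⟩
  · rw [hd.comm]
    exact h5
  · rw [hd.comm]
    exact h4

/-- The reversed coordinate. -/
theorem bus_inv (hG : IsomAct G d) (hd : IsGM d) [Nonempty X] {β : X → ℤ} (h : IsBus d R β) :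
    IsBus d R⁻¹ (fun x => -β x) where
  lip x y := by
    have := h.lip y x
    rw [hd.comm] at this
    show -β x ≤ -β y + d x y
    linarith
  ax x hx y hy := by
    rw [mn_inv hG hd] at hx hy
    have := h.ax x hx y hy
    show (d x y : ℤ) ≤ |(-β x) - (-β y)| + 14 * dl
    have e : (-β x) - (-β y) = -(β x - β y) := by ring
    rw [e, abs_neg]
    exact this
  cm g hg x y := by
    have hg' : g * R = R * g := ((Commute.inv_right_iff (a := g) (b := R)).1 hg).eq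
    have := h.cm g hg' y x
    show -β (g • x) + -β y ≤ -β (g • y) + -β x + 2 * dl
    linarith
  up x := by
    have := h.up (R⁻¹ • x)
    rw [smul_inv_smul] at this
    rw [hG.slen_inv hd]
    push_cast
    linarith

/-- Shift of the coordinate by `R`, upper bound. -/
theorem bus_shift (hG : IsomAct G d) (hd : IsGM d) (hh : Hyp d dl) [Nonempty X] {β : X → ℤ}
    (h : IsBus d R β) (x : X) : (β (R • x) : ℝ) ≤ β x + slen d R + 8 * dl + 2 := by
  obtain ⟨y, hy⟩ := Mn_nonempty (d := d) R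
  have h1 := h.cm R rfl x y
  have h2 := h.lip (R • y) y
  have h3 : d (R • y) y = disp d R := by
    rw [hd.comm]
    exact hy
  rw [h3] at h2
  have h4 := hG.disp_le_slen hh hd R
  have h1' : (β (R • x) : ℝ) + β y ≤ β (R • y) + β x + 2 * dl := by exact_mod_cast h1
  have h2' : (β (R • y) : ℝ) ≤ β y + disp d R := by exact_mod_cast h2
  linarith

end pieces

/-- Strictly increasing functions on the integers. -/
theorem mono_int {f : ℤ → ℤ} (h : ∀ k, f k + 1 ≤ f (k + 1)) (i j : ℤ) (hij : i ≤ j) :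
    f i + (j - i) ≤ f j := by
  induction j, hij using Int.le_induction with
  | base => simp
  | succ j hj ih =>
    have := h j
    omega

/-- First time above a level. -/
theorem first {f : ℤ → ℤ} (h : ∀ k, f k + 1 ≤ f (k + 1)) (t : ℤ) :
    ∃ k, t ≤ f k ∧ f (k - 1) < t := by
  obtain ⟨k, hk1, hk2⟩ := Int.exists_least_of_bdd (P := fun k => t ≤ f k)
    ⟨t - |f 0| - |t| - 1, fun z hz => by
      by_contra hc
      have hz0 : z ≤ 0 := by
        have := abs_nonneg (f 0)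
        have := le_abs_self t
        omega
      have := mono_int h z 0 hz0
      have := le_abs_self (f 0)
      have := abs_nonneg t
      omega⟩
    ⟨|t| + |f 0|, by
      have h0 : (0 : ℤ) ≤ |t| + |f 0| := by positivity
      have := mono_int h 0 _ h0
      have := le_abs_self t
      have := neg_abs_le (f 0)
      omega⟩
  refine ⟨k, hk1, ?_⟩
  by_contra hc
  have := hk2 (k - 1) (by omega)
  omega

/-- The combinatorics of the positions. -/
theorem pos (a b P0 P1 P2 P3 W : ℤ) (hW : 0 < W) (h0 : P0 ≤ a) (h1 : a ≤ P2 + W)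
    (h2 : 2 * W ≤ b - a) (h3 : 2 * W ≤ P2 - P1) (h4 : 2 * W ≤ P3 - P2) (_h5 : P0 ≤ P1) :
    ∃ t, a ≤ t ∧ t + W ≤ b ∧ ((P0 ≤ t ∧ t + W ≤ P1) ∨ (P1 ≤ t ∧ t + W ≤ P2) ∨
      (P2 ≤ t ∧ t + W ≤ P3)) := by
  by_cases c1 : a + W ≤ P1
  · exact ⟨a, le_rfl, by omega, Or.inl ⟨h0, c1⟩⟩
  · by_cases c2 : max a P1 + W ≤ P2
    · refine ⟨max a P1, le_max_left _ _, by omega, Or.inr (Or.inl ⟨le_max_right _ _, c2⟩)⟩
    · refine ⟨max a P2, le_max_left _ _, by omega, Or.inr (Or.inr ⟨le_max_right _ _, by omega⟩)⟩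

end RIG

open RIG in
theorem RIG (h1 : Stmt_BUS) (h2 : Stmt_OVL) (h3 : Stmt_PCS) (h4 : Stmt_CENT) (h7 : Stmt_RLN) :
    Stmt_RIG := by
  obtain ⟨A2, C, hOVL⟩ := h2
  obtain ⟨A3, hPCS⟩ := h3
  obtain ⟨A4, hCENT⟩ := h4
  obtain ⟨A7, hRLN⟩ := h7
  refine ⟨A2 + A3 + A4 + A7, fun a0 L0 hA => ?_⟩
  obtain ⟨B3, m3, hPCS⟩ := hPCS a0 L0 (by omega)
  obtain ⟨B4, m4, hCENT⟩ := hCENT a0 L0 (by omega)
  obtain ⟨B7, m7, hRLN⟩ := hRLN a0 L0 (by omega)
  refine ⟨B3 + B4 + B7 + L0 + 2 * C + 100 * dl + 100, m3 + m4 + m7 + 10000, ?_⟩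
  intro G X _ _ n d Ca hl c Y b Z M M' hcY hbZ hM hM' hRT
  have := hl.ne
  have hd := hl.gm
  have hG := hl.isom
  have hh := hl.hyp
  have hA2 : A2 ≤ a0 := by omega
  set R := cm (c ^ M) Y with hR
  set T := cm (b ^ M') Z with hT
  obtain ⟨hRpos, hRc⟩ := hCENT G X n d Ca hl c Y M (rg_mono hcY (by omega)) (by omega)
  obtain ⟨hTpos, hTc⟩ := hCENT G X n d Ca hl b Z M' (rg_mono hbZ (by omega)) (by omega)
  rw [← hR] at hRpos hRc
  rw [← hT] at hTpos hTc
  obtain ⟨i, hi⟩ := hRc T hRT.symm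
  obtain ⟨j, hj⟩ := hTc R hRT
  have slz : ∀ (g : G) (m : ℤ), slen d (g ^ m) = (|m| : ℝ) * slen d g := by
    intro g m
    obtain ⟨k, rfl | rfl⟩ := Int.eq_nat_or_neg m
    · rw [zpow_natCast, hG.slen_pow hd]
      simp
    · rw [zpow_neg, zpow_natCast, hG.slen_inv hd, hG.slen_pow hd]
      simp
  have hTR : T = R ∨ T = R⁻¹ := by
    have e1 : slen d T = (|i| : ℝ) * slen d R := by
      conv_lhs => rw [hi]
      exact slz _ _
    have e2 : slen d R = (|j| : ℝ) * slen d T := by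
      conv_lhs => rw [hj]
      exact slz _ _
    have e3 : (|(j : ℝ)| * |(i : ℝ)| - 1) * slen d R = 0 := by
      rw [e1] at e2
      linarith
    have e4 : |(j : ℝ)| * |(i : ℝ)| = 1 := by
      rcases mul_eq_zero.1 e3 with h | h
      · linarith
      · exact absurd h hRpos.ne'
    have e5 : |j| * |i| = 1 := by exact_mod_cast e4
    have e6 : |i| = 1 := Int.eq_one_of_mul_eq_one_left (abs_nonneg _) e5
    rcases (abs_eq (by norm_num)).1 e6 with h | h
    · left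
      rw [hi, h, zpow_one]
    · right
      rw [hi, h, zpow_neg, zpow_one]
  have hlTR : slen d T = slen d R := by
    rcases hTR with h | h
    · rw [h]
    · rw [h, hG.slen_inv hd]
  obtain ⟨r1, r2⟩ := hRLN G X n d Ca hl c Y M (rg_mono hcY (by omega)) (by omega)
  obtain ⟨r3, r4⟩ := hRLN G X n d Ca hl b Z M' (rg_mono hbZ (by omega)) (by omega)
  rw [← hR] at r1 r2
  rw [← hT, hlTR] at r3 r4
  obtain ⟨hDD, hpc⟩ := hPCS G X n d Ca hl c Y M (rg_mono hcY (by omega)) (by omega)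
  obtain ⟨hDD', hpb⟩ := hPCS G X n d Ca hl b Z M' (rg_mono hbZ (by omega)) (by omega)
  rw [← hR] at hDD hpc
  rw [← hT] at hDD' hpb
  obtain ⟨β, hβ⟩ := h1 G X d hd hh hG this R hDD
  obtain ⟨r, m, x0, x1, hr, hm, pc0, pc1, f1, f2, f3, f4⟩ := hpc β hβ
  -- the piece of the other element
  obtain ⟨r', m', y0, y1, hr', hm', pb, g1, g2⟩ : ∃ (r' m' : ℕ) (y0 y1 : X),
      (r' : ℝ) ≤ 10 * slen d b ∧ (m' : ℝ) ≤ 2 * slen d b ∧ IsPc d R r' m' y0 y1 b ∧
      M' * slen d b ≤ (β y1 : ℝ) - β y0 + 50 * slen d b ∧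
      (β y1 : ℝ) - β y0 ≤ M' * slen d b + 50 * slen d b := by
    rcases hTR with h | h
    · obtain ⟨r', m', y0, y1, hr', hm', pb, -, g1, g2, -, -⟩ := hpb β (by rw [h]; exact hβ)
      rw [h] at pb
      exact ⟨r', m', y0, y1, hr', hm', pb, g1, g2⟩
    · obtain ⟨r', m', y0, y1, hr', hm', pb, -, g1, g2, -, -⟩ := hpb (fun x => -β x)
        (by rw [h]; exact bus_inv hG hd hβ)
      rw [h] at pb
      refine ⟨r', m', y1, y0, hr', hm', pc_inv hG hd pb, ?_, ?_⟩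
      · push_cast at g1
        linarith
      · push_cast at g2
        linarith
  -- size of the numbers
  have hBc := hcY.big
  have hBb := hbZ.big
  push_cast at hBc hBb
  have z1 : (0 : ℝ) ≤ B3 := Nat.cast_nonneg _
  have z2 : (0 : ℝ) ≤ B4 := Nat.cast_nonneg _
  have z3 : (0 : ℝ) ≤ B7 := Nat.cast_nonneg _
  have z4 : (0 : ℝ) ≤ L0 := Nat.cast_nonneg _
  have z5 : (0 : ℝ) ≤ C := Nat.cast_nonneg _
  have z6 : (0 : ℝ) ≤ dl := Nat.cast_nonneg _
  have hM1 : (10000 : ℝ) ≤ M := by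
    have : 10000 ≤ M := by omega
    exact_mod_cast this
  have hM1' : (10000 : ℝ) ≤ M' := by
    have : 10000 ≤ M' := by omega
    exact_mod_cast this
  have hx : 10000 * slen d c ≤ M * slen d c := mul_le_mul_of_nonneg_right hM1 (by linarith)
  have hx' : 10000 * slen d b ≤ M' * slen d b := mul_le_mul_of_nonneg_right hM1' (by linarith)
  generalize hX1 : (M : ℝ) * slen d c = x at *
  generalize hX2 : (M' : ℝ) * slen d b = x' at *
  -- shift of the coordinate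
  have hup : ∀ v : X, slen d R ≤ (β (R • v) : ℝ) - β v + 20 * dl := by
    intro v
    exact_mod_cast hβ.up v
  have hdn := bus_shift hG hd hh hβ
  obtain ⟨k, hk1, hk2⟩ := first (f := fun k : ℤ => β (R ^ k • y0)) (by
    intro k
    show β (R ^ k • y0) + 1 ≤ β (R ^ (k + 1) • y0)
    have e1 : R ^ (k + 1) • y0 = R • R ^ k • y0 := by
      rw [← mul_smul, add_comm, zpow_one_add]
    rw [e1]
    have e2 := hup (R ^ k • y0)
    have e3 : ((β (R ^ k • y0) + 1 : ℤ) : ℝ) ≤ (β (R • R ^ k • y0) : ℝ) := by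
      push_cast
      linarith
    exact_mod_cast e3) (β x0)
  have hk3 : (β (R ^ k • y0) : ℝ) ≤ β x0 + slen d R + 8 * dl + 2 := by
    have e1 : R ^ k • y0 = R • R ^ (k - 1) • y0 := by
      rw [← mul_smul, ← zpow_one_add]
      congr 2
      ring
    have e2 := hdn (R ^ (k - 1) • y0)
    have e3 : (β (R ^ (k - 1) • y0) : ℝ) ≤ β x0 := by
      have : β (R ^ (k - 1) • y0) ≤ β x0 := le_of_lt hk2
      exact_mod_cast this
    rw [e1]
    linarith
  have hkc : Commute (R ^ k) R := (Commute.refl R).zpow_left k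
  have pb' := pc_smul hG pb (R ^ k) hkc
  have pc2 := pc_smul hG pc0 R (Commute.refl R)
  have s1 : (β (R ^ k • y0) : ℝ) + β y1 ≤ β (R ^ k • y1) + β y0 + 2 * dl := by
    exact_mod_cast hβ.cm (R ^ k) hkc.eq y0 y1
  have s2 : (β (R • x0) : ℝ) + β x1 ≤ β (R • x1) + β x0 + 2 * dl := by
    exact_mod_cast hβ.cm R rfl x0 x1
  have s3 := hup x0
  set W : ℕ := 4 * (m + m') + 2 * L0 + C + 2 * (2 * (r + r') + C) + 28 * dl + 2 with hW
  have hWr : (W : ℝ) ≤ 50 * slen d c + 50 * slen d b := by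
    rw [hW]
    push_cast
    linarith
  have hk1' : β x0 ≤ β (R ^ k • y0) := hk1
  obtain ⟨t, t1, t2, t3⟩ := pos (β (R ^ k • y0)) (β (R ^ k • y1)) (β x0) (β x1) (β (R • x0))
    (β (R • x1)) W (by omega) hk1' (by
      have : (β (R ^ k • y0) : ℝ) ≤ β (R • x0) + W := by
        rw [hW]
        push_cast
        have p1 : (0 : ℝ) ≤ m := Nat.cast_nonneg _
        have p2 : (0 : ℝ) ≤ m' := Nat.cast_nonneg _
        have p3 : (0 : ℝ) ≤ r := Nat.cast_nonneg _
        have p4 : (0 : ℝ) ≤ r' := Nat.cast_nonneg _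
        linarith
      exact_mod_cast this) (by
      have : (2 : ℝ) * W ≤ β (R ^ k • y1) - β (R ^ k • y0) := by linarith
      exact_mod_cast this) (by
      have : (2 : ℝ) * W ≤ β (R • x0) - β x1 := by linarith
      exact_mod_cast this) (by
      have : (2 : ℝ) * W ≤ β (R • x1) - β (R • x0) := by linarith
      exact_mod_cast this) (by
      have : (β x0 : ℝ) ≤ β x1 := by linarith
      exact_mod_cast this)
  -- overlap
  have key : ∀ (a' b' : X) (e : G), IsPc d R r m a' b' e → β a' ≤ t → t + W ≤ β b' →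
      e * (R ^ k * b * (R ^ k)⁻¹) = (R ^ k * b * (R ^ k)⁻¹) * e := by
    intro a' b' e hpe ha' hb'
    refine hOVL G X n d a0 L0 Ca hl hA2 R β hDD hβ (r + r') m m' a' b' (R ^ k • y0) (R ^ k • y1)
      e _ (t + 2 * (r + r' : ℕ) + C) (t + W - 2 * (r + r' : ℕ) - C) (pc_mono hpe (by omega))
      (pc_mono pb' (by omega)) ?_ (by omega) (by omega) (by omega) (by omega)
    rw [hW]
    push_cast
    omega
  have fin : ∀ u : G, (u * c * u⁻¹) * (R ^ k * b * (R ^ k)⁻¹) =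
      (R ^ k * b * (R ^ k)⁻¹) * (u * c * u⁻¹) → ∃ w : G, (w * c * w⁻¹) * b = b * (w * c * w⁻¹) := by
    intro u hu
    refine ⟨(R ^ k)⁻¹ * u, ?_⟩
    have e1 : (R ^ k)⁻¹ * ((u * c * u⁻¹) * (R ^ k * b * (R ^ k)⁻¹)) * R ^ k =
        (R ^ k)⁻¹ * ((R ^ k * b * (R ^ k)⁻¹) * (u * c * u⁻¹)) * R ^ k := by rw [hu]
    calc ((R ^ k)⁻¹ * u * c * ((R ^ k)⁻¹ * u)⁻¹) * b
        = (R ^ k)⁻¹ * ((u * c * u⁻¹) * (R ^ k * b * (R ^ k)⁻¹)) * R ^ k := by group
      _ = (R ^ k)⁻¹ * ((R ^ k * b * (R ^ k)⁻¹) * (u * c * u⁻¹)) * R ^ k := e1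
      _ = b * ((R ^ k)⁻¹ * u * c * ((R ^ k)⁻¹ * u)⁻¹) := by group
  rcases t3 with ⟨u1, u2⟩ | ⟨u1, u2⟩ | ⟨u1, u2⟩
  · have := key x0 x1 c pc0 u1 u2
    refine fin 1 ?_
    simpa using this
  · have := key x1 (R • x0) _ pc1 u1 u2
    exact fin (c ^ M * Y) this
  · have := key (R • x0) (R • x1) _ pc2 u1 u2
    exact fin R this

end Pool.Agent.Ady
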