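import Pool.Agent.Ady.Stmts
import Pool.Agent.Olsh.Line

/-!
# MP_9e15c1_al, E-half: lengths for a regular pair (RLN)
-/

set_option autoImplicit false

namespace Pool.Agent.Ady

open Pool.Agent.Olsh

namespace RLN

/-- Displacement of a commutator. -/
theorem cm_disp {G X : Type} [Group G] [MulAction G X] {d : X → X → ℕ} (hd : IsGM d)
    (hG : IsomAct G d) (a b : G) (p : X) :
    d p (cm a b • p) ≤ 2 * d p (a • p) + 2 * d p (b • p) := by
  have e0 : cm a b • p = a • b • a⁻¹ • b⁻¹ • p := by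
    unfold cm
    simp only [mul_smul]
  rw [e0]
  have h1 := hd.tri p (a • p) (a • b • a⁻¹ • b⁻¹ • p)
  have h2 := hd.tri (a • p) (a • b • p) (a • b • a⁻¹ • b⁻¹ • p)
  have h3 := hd.tri (a • b • p) (a • b • a⁻¹ • p) (a • b • a⁻¹ • b⁻¹ • p)
  have e1 : d (a • p) (a • b • p) = d p (b • p) := hG a p (b • p)
  have e2 : d (a • b • p) (a • b • a⁻¹ • p) = d p (a⁻¹ • p) := by rw [hG, hG]
  have e3 : d (a • b • a⁻¹ • p) (a • b • a⁻¹ • b⁻¹ • p) = d p (b⁻¹ • p) := by rw [hG, hG, hG]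
  have e4 : d p (a⁻¹ • p) = d p (a • p) := by rw [hd.comm, hG.inv]
  have e5 : d p (b⁻¹ • p) = d p (b • p) := by rw [hd.comm, hG.inv]
  omega

end RLN

/-- RLN: lengths for a regular pair. -/
theorem RLN (h1 : Stmt_GROW) : Stmt_RLN := by
  obtain ⟨A, C1, h1⟩ := h1
  refine ⟨A, ?_⟩
  intro a0 L0 hA
  refine ⟨4 * L0 + C1 + 1000 * dl + 1000, 1000, ?_⟩
  intro G X _ _ n d Ca hL c Y M hR hM
  have hd := hL.gm
  have hh := hL.hyp
  have hG := hL.isom
  have hne := hL.ne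
  have hbig : ((4 * L0 + C1 + 1000 * dl + 1000 : ℕ) : ℝ) ≤ slen d c := hR.big
  push_cast at hbig
  have hM' : (1000 : ℝ) ≤ M := by exact_mod_cast hM
  have hL0 : (0 : ℝ) ≤ L0 := Nat.cast_nonneg _
  have hC1 : (0 : ℝ) ≤ C1 := Nat.cast_nonneg _
  have hdl : (0 : ℝ) ≤ dl := Nat.cast_nonneg _
  have hpos : 0 < slen d c := by linarith
  have hMl : 1000 * slen d c ≤ M * slen d c := mul_le_mul_of_nonneg_right hM' hpos.le
  constructor
  · have h2 := h1 G X n d a0 L0 Ca hL hA c Y M hpos hR.nc (by linarith)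
    linarith
  · obtain ⟨p, hp, hpY⟩ := hR.near
    have hdisp : 7 * dl + 2 ≤ disp d c := by
      have h3 := IsomAct.slen_le_disp (d := d) c
      have h4 : ((7 * dl + 2 : ℕ) : ℝ) ≤ (disp d c : ℕ) := by
        push_cast
        linarith
      exact_mod_cast h4
    have h5 : (d p (c ^ M • p) : ℝ) ≤ slen d (c ^ M) + 16 * dl :=
      hG.comm_dist_le_slen hh hd (g := c ^ M) (h := c) (Commute.pow_self c M) hp hdisp
    rw [hG.slen_pow hd] at h5
    have h6 := RLN.cm_disp hd hG (c ^ M) Y p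
    have h7 : (d p (cm (c ^ M) Y • p) : ℝ) ≤ 2 * d p (c ^ M • p) + 2 * d p (Y • p) := by
      exact_mod_cast h6
    have h8 := IsomAct.slen_mul_le (d := d) (cm (c ^ M) Y) p 1
    rw [pow_one, Nat.cast_one, one_mul] at h8
    linarith

end Pool.Agent.Ady
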