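import Pool.Agent.Ady.Stmts
import Pool.Agent.Olsh.Line

/-!
# MP_9e15c1_al, D10: elements commuting with `[c^M, Y]` are long
-/

set_option autoImplicit false

namespace Pool.Agent.Ady

open Pool.Agent.Olsh

namespace ROOT

variable {G X : Type} [Group G] [MulAction G X] {d : X → X → ℕ}

/-- Elements commuting with `R` shift the coordinate by at most their stable length. -/
theorem shift (hd : IsGM d) (hh : Hyp d dl) (hG : IsomAct G d) [Nonempty X] {R : G} {β : X → ℤ}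
    (hR : (DD : ℝ) ≤ slen d R) (hβ : IsBus d R β) {z : G} (hz : z * R = R * z) (x : X) :
    |((β (z • x) : ℤ) : ℝ) - β x| ≤ slen d z + 18 * dl := by
  obtain ⟨w, hw⟩ := Mn_nonempty (d := d) R
  have hdR : 7 * dl + 2 ≤ disp d R := by
    have h4 := IsomAct.slen_le_disp (d := d) R
    have h5 : ((DD : ℕ) : ℝ) ≤ disp d R := hR.trans h4
    have h6 : DD ≤ disp d R := by exact_mod_cast h5
    unfold DD at h6
    omega
  have h1 := hG.comm_dist_le_slen hh hd (g := z) (h := R) hz hw hdR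
  have h2 := hβ.lip w (z • w)
  have h3 := hβ.lip (z • w) w
  rw [hd.comm (z • w) w] at h3
  have h4 := hβ.cm z hz x w
  have h5 := hβ.cm z hz w x
  have h2' : ((β w : ℤ) : ℝ) ≤ β (z • w) + d w (z • w) := by exact_mod_cast h2
  have h3' : ((β (z • w) : ℤ) : ℝ) ≤ β w + d w (z • w) := by exact_mod_cast h3
  have h4' : ((β (z • x) : ℤ) : ℝ) + β w ≤ β (z • w) + β x + 2 * dl := by exact_mod_cast h4
  have h5' : ((β (z • w) : ℤ) : ℝ) + β x ≤ β (z • x) + β w + 2 * dl := by exact_mod_cast h5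
  rw [abs_le]
  constructor <;> linarith

/-- Pieces are preserved by elements commuting with `R`. -/
theorem pc_smul (hG : IsomAct G d) {R : G} {r m : ℕ} {a b : X} {e z : G} (hz : z * R = R * z)
    (h : IsPc d R r m a b e) : IsPc d R r m (z • a) (z • b) (z * e * z⁻¹) := by
  have hnd : ∀ x, x ∈ Nd d r (Mn d R) → z • x ∈ Nd d r (Mn d R) := by
    rintro x ⟨y, hy, hxy⟩
    refine ⟨z • y, (hG.smul_mem_Mn_of_commute (show Commute z R from hz) y).2 hy, ?_⟩
    rwa [hG]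
  have hb : ∀ x y v : X, Bt d (z • x) v (z • y) → Bt d x (z⁻¹ • v) y := by
    intro x y v hv
    have h1 := (hG.bt_smul z (x := x) (y := z⁻¹ • v) (z := y)).1 (by rwa [smul_inv_smul])
    exact h1
  refine ⟨hnd a h.na, hnd b h.nb, ?_⟩
  intro v hv h1 h2
  have e1 : d a (z⁻¹ • v) = d (z • a) v := by rw [← hG z a (z⁻¹ • v), smul_inv_smul]
  have e2 : d (z⁻¹ • v) b = d v (z • b) := by rw [← hG z (z⁻¹ • v) b, smul_inv_smul]
  have h3 := h.mv (z⁻¹ • v) (hb a b v hv) (by rw [e1]; exact h1) (by rw [e2]; exact h2)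
  have e3 : d v ((z * e * z⁻¹) • v) = d (z⁻¹ • v) (e • z⁻¹ • v) := by
    rw [← hG z (z⁻¹ • v) (e • z⁻¹ • v), smul_inv_smul, mul_smul, mul_smul]
  rw [e3]
  exact h3

end ROOT

open ROOT in
theorem ROOT (h1 : Stmt_BUS) (h2 : Stmt_OVL) (h3 : Stmt_PCS) (h4 : Stmt_TMAL) : Stmt_ROOT := by
  obtain ⟨A1, C, hO⟩ := h2
  obtain ⟨A2, hP⟩ := h3
  refine ⟨A1 + A2 + 16 * dl, fun a0 L0 ha0 => ?_⟩
  obtain ⟨B1, m1, hP⟩ := hP a0 L0 (by omega)
  refine ⟨B1 + (100 * dl + 10 * L0 + 10 * C + 10), m1 + 1000, ?_⟩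
  intro G X _ _ n d Ca hL c Y M hRg hM z hz hz1
  have hne := hL.ne
  have hRg1 : Rg d B1 c Y := by
    refine ⟨hRg.nc, ?_, hRg.near⟩
    have h5 := hRg.big
    push_cast at h5
    have h6 : (0 : ℝ) ≤ dl := Nat.cast_nonneg _
    have h7 : (0 : ℝ) ≤ L0 := Nat.cast_nonneg _
    have h8 : (0 : ℝ) ≤ C := Nat.cast_nonneg _
    linarith
  obtain ⟨hDR, hpc⟩ := hP G X n d Ca hL c Y M hRg1 (by omega)
  obtain ⟨β, hβ⟩ := h1 G X d hL.gm hL.hyp hL.isom hL.ne (cm (c ^ M) Y) hDR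
  obtain ⟨r, m, x0, x1, hr, hm, pc1, pc2, hb1, -, hb2, -⟩ := hpc β hβ
  obtain ⟨-, -, tm3, tm4, -⟩ := h4 G X n d a0 L0 Ca hL (by omega)
  have hbig := hRg.big
  push_cast at hbig
  have hdl0 : (0 : ℝ) ≤ dl := Nat.cast_nonneg _
  have hL0 : (0 : ℝ) ≤ L0 := Nat.cast_nonneg _
  have hC0 : (0 : ℝ) ≤ C := Nat.cast_nonneg _
  have hB1 : (0 : ℝ) ≤ B1 := Nat.cast_nonneg _
  have hc : 0 < slen d c := by linarith
  have hMr : (1000 : ℝ) ≤ M := by
    have h5 : 1000 ≤ M := by omega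
    exact_mod_cast h5
  by_contra hcon
  push Not at hcon
  have hMl : 1000 * slen d c ≤ M * slen d c := mul_le_mul_of_nonneg_right hMr hc.le
  -- the overlap
  have key : ∀ (a b : X) (e : G), IsPc d (cm (c ^ M) Y) r m a b e →
      M * slen d c ≤ β b - β a + 50 * slen d c → e * (z * e * z⁻¹) = (z * e * z⁻¹) * e := by
    intro a b e hp hab
    have s1 := shift hL.gm hL.hyp hL.isom hDR hβ hz a
    have s2 := shift hL.gm hL.hyp hL.isom hDR hβ hz b
    have s3 := hβ.cm z hz a b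
    have s4 := hβ.cm z hz b a
    have s3' : ((β (z • a) : ℤ) : ℝ) + β b ≤ β (z • b) + β a + 2 * dl := by exact_mod_cast s3
    have s4' : ((β (z • b) : ℤ) : ℝ) + β a ≤ β (z • a) + β b + 2 * dl := by exact_mod_cast s4
    rw [abs_le] at s1 s2
    refine hO G X n d a0 L0 Ca hL (by omega) (cm (c ^ M) Y) β hDR hβ r m m a b (z • a) (z • b) e
      (z * e * z⁻¹) (max (β a) (β (z • a)) + 2 * r + C) (min (β b) (β (z • b)) - 2 * r - C) hp
      (pc_smul hL.isom hz hp) ?_ ?_ ?_ ?_ ?_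
    · have h5 : ((max (β a) (β (z • a)) + 2 * r + C + 4 * (m + m) + 2 * L0 + C : ℤ) : ℝ) ≤
          ((min (β b) (β (z • b)) - 2 * r - C : ℤ) : ℝ) := by
        push_cast
        rcases le_total ((β a : ℤ) : ℝ) (β (z • a)) with h6 | h6 <;>
        rcases le_total ((β b : ℤ) : ℝ) (β (z • b)) with h7 | h7
        · rw [max_eq_right h6, min_eq_left h7]
          linarith [s1.1, s1.2, s2.1, s2.2]
        · rw [max_eq_right h6, min_eq_right h7]
          linarith [s1.1, s1.2, s2.1, s2.2]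
        · rw [max_eq_left h6, min_eq_left h7]
          linarith [s1.1, s1.2, s2.1, s2.2]
        · rw [max_eq_left h6, min_eq_right h7]
          linarith [s1.1, s1.2, s2.1, s2.2]
      exact_mod_cast h5
    · have := le_max_left (β a) (β (z • a))
      omega
    · have := le_max_right (β a) (β (z • a))
      omega
    · have := min_le_left (β b) (β (z • b))
      omega
    · have := min_le_right (β b) (β (z • b))
      omega
  have k1 := key x0 x1 c pc1 hb1
  have k2 := key x1 _ _ pc2 hb2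
  have hc1 : 0 < slen d (c ^ M * Y * c * (c ^ M * Y)⁻¹) := by rwa [hL.isom.slen_conj]
  have c1 : c * z = z * c := tm4 c z hc k1
  have c2 := tm4 _ z hc1 k2
  have hz0 : 0 < slen d z := by
    rcases (IsomAct.slen_nonneg (d := d) z).lt_or_eq with h5 | h5
    · exact h5
    · exact absurd (tm3 c z hc c1 h5.symm) hz1
  have c3 := hL.csa c z (c ^ M * Y * c * (c ^ M * Y)⁻¹) hz0 c1 c2.symm
  have c4 := tm4 c (c ^ M * Y) hc c3
  apply hRg.nc
  have c5 : c ^ M * (c * Y) = c ^ M * (Y * c) := by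
    calc c ^ M * (c * Y) = c * (c ^ M * Y) := by
          rw [← mul_assoc, ← mul_assoc, (Commute.self_pow c M).eq]
      _ = c ^ M * Y * c := c4
      _ = c ^ M * (Y * c) := mul_assoc _ _ _
  exact mul_left_cancel c5

end Pool.Agent.Ady
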