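import Pool.Agent.Ady.Stmts
import Pool.Agent.Ady.CLAIMT

/-!
# MP_9e15c1_al: the chain becomes regular
-/

set_option autoImplicit false

namespace Pool.Agent.Ady

open Pool.Agent.Olsh

namespace SEQ

/-- Displacement of the commutator `[a, Y]` at a point. -/
theorem cm_disp {G X : Type} [Group G] [MulAction G X] {d : X → X → ℕ} (hG : IsomAct G d)
    (hd : IsGM d) (a Y : G) (p : X) :
    d p (cm a Y • p) ≤ 2 * d p (a • p) + 2 * d p (Y • p) := by
  have e0 : cm a Y • p = a • Y • a⁻¹ • Y⁻¹ • p := by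
    unfold cm
    rw [mul_smul, mul_smul, mul_smul]
  rw [e0]
  have t1 := hd.tri p (a • p) (a • Y • a⁻¹ • Y⁻¹ • p)
  have e1 : d (a • p) (a • Y • a⁻¹ • Y⁻¹ • p) = d p (Y • a⁻¹ • Y⁻¹ • p) := hG _ _ _
  have t2 := hd.tri p (Y • p) (Y • a⁻¹ • Y⁻¹ • p)
  have e2 : d (Y • p) (Y • a⁻¹ • Y⁻¹ • p) = d p (a⁻¹ • Y⁻¹ • p) := hG _ _ _
  have t3 := hd.tri p (a⁻¹ • p) (a⁻¹ • Y⁻¹ • p)
  have e3 : d (a⁻¹ • p) (a⁻¹ • Y⁻¹ • p) = d p (Y⁻¹ • p) := hG _ _ _
  have e4 : d (a⁻¹ • p) p = d p (a • p) := hG.inv a p p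
  have e5 : d (Y⁻¹ • p) p = d p (Y • p) := hG.inv Y p p
  have c1 := hd.comm p (a⁻¹ • p)
  have c2 := hd.comm p (Y⁻¹ • p)
  omega

end SEQ

open SEQ CLAIMT in
/-- The chain becomes regular. -/
theorem SEQ (h1 : Stmt_GROW) : Stmt_SEQ := by
  obtain ⟨A, C1, h1⟩ := h1
  refine ⟨A, fun a0 L0 V hA => ⟨V * (4 * L0 + C1) + 1000, ?_⟩⟩
  intro G X _ _ n d Ca hlev M c Y hM hrec hpos ⟨k, hk⟩ B
  have hG := hlev.isom
  have hd := hlev.gm
  have hh := hlev.hyp
  have hne := hlev.ne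
  have hnc : ∀ j, c j * Y ≠ Y * c j := by
    intro j h
    have h6 : cm (c j ^ M) Y = 1 := by
      rw [cm_eq_one_iff]
      exact ((show Commute (c j) Y from h).pow_left M).eq
    have h7 := hpos (j + 1)
    rw [hrec, h6, slen_one hG hd] at h7
    exact lt_irrefl _ h7
  have hM' : (V : ℝ) * (4 * L0 + C1) + 1000 ≤ M := by exact_mod_cast hM
  have hM1 : (1000 : ℝ) ≤ M := by
    have : (0 : ℝ) ≤ (V : ℝ) * (4 * L0 + C1) := by positivity
    linarith
  -- growth by a factor `M` as soon as `1 ≤ V slen`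
  have hgr : ∀ j, 1 ≤ V * slen d (c j) →
      (2 * (M * slen d (c j)) ≤ slen d (c (j + 1)) + 16 * slen d (c j) + 4 * L0 + C1 ∧
      M * slen d (c j) ≤ slen d (c (j + 1))) := by
    intro j hj
    have hc := hpos j
    have hb : (V : ℝ) * (4 * L0 + C1) * slen d (c j) ≥ 4 * L0 + C1 := by
      have h8 : (0 : ℝ) ≤ 4 * L0 + C1 := by positivity
      have h9 : 0 ≤ ((V : ℝ) * slen d (c j) - 1) * (4 * L0 + C1) :=
        mul_nonneg (by linarith) h8
      nlinarith
    have hMc : (V : ℝ) * (4 * L0 + C1) * slen d (c j) + 1000 * slen d (c j) ≤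
        M * slen d (c j) := by
      have h9 : 0 ≤ ((M : ℝ) - ((V : ℝ) * (4 * L0 + C1) + 1000)) * slen d (c j) :=
        mul_nonneg (by linarith) hc.le
      nlinarith
    have h10 := h1 G X n d a0 L0 Ca hlev hA (c j) Y M hc (hnc j) (by linarith)
    rw [← hrec] at h10
    exact ⟨h10, by linarith⟩
  have hV : ∀ i, 1 ≤ V * slen d (c (k + i)) ∧ (1000 : ℝ) ^ i * slen d (c k) ≤
      slen d (c (k + i)) := by
    intro i
    induction i with
    | zero => simpa using hk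
    | succ i ih =>
      obtain ⟨ih1, ih2⟩ := ih
      have h2 := (hgr _ ih1).2
      have h3 := hpos (k + i)
      have h4 : 1000 * slen d (c (k + i)) ≤ slen d (c (k + i + 1)) := by nlinarith
      have e : k + (i + 1) = k + i + 1 := rfl
      rw [e]
      refine ⟨?_, ?_⟩
      · have h5 : (0 : ℝ) ≤ V := Nat.cast_nonneg _
        have h6 : (V : ℝ) * slen d (c (k + i)) ≤ V * slen d (c (k + i + 1)) :=
          mul_le_mul_of_nonneg_left (by linarith) h5
        linarith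
      · rw [pow_succ]
        nlinarith
  -- large length
  obtain ⟨T, hT⟩ : ∃ T : ℕ, T = B + 4 * L0 + C1 + 1000 * dl + 1000 := ⟨_, rfl⟩
  obtain ⟨i0, hi0⟩ : ∃ i0 : ℕ, ∀ i, i0 ≤ i → (T : ℝ) ≤ slen d (c (k + i)) := by
    obtain ⟨i0, hi⟩ := pow_unbounded_of_one_lt ((T : ℝ) / slen d (c k))
      (by norm_num : (1:ℝ) < 1000)
    refine ⟨i0, fun i hi' => ?_⟩
    rw [div_lt_iff₀ (hpos k)] at hi
    have h2 : (1000 : ℝ) ^ i0 ≤ 1000 ^ i := pow_le_pow_right₀ (by norm_num) hi'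
    have h3 := (hV i).2
    nlinarith [hpos k]
  -- the distances
  choose p hp using fun j => Mn_nonempty (d := d) (c j)
  have hstep : ∀ j, k + i0 ≤ j → ∀ p ∈ Mn d (c j), ∃ y ∈ Mn d (c (j + 1)),
      (d y (Y • y) : ℝ) ≤ 3 * d p (Y • p) + 18 * slen d (c j) := by
    intro j hj p hp
    obtain ⟨i, rfl⟩ : ∃ i, j = k + i := ⟨j - k, by omega⟩
    have hlen := hi0 i (by omega)
    have hVi := (hV i).1
    obtain ⟨g1, g2⟩ := hgr _ hVi
    have hTr : (T : ℝ) = B + 4 * L0 + C1 + 1000 * dl + 1000 := by rw [hT]; push_cast; ring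
    have hdl : (0 : ℝ) ≤ dl := Nat.cast_nonneg _
    have hL0 : (0 : ℝ) ≤ L0 := Nat.cast_nonneg _
    have hC1 : (0 : ℝ) ≤ C1 := Nat.cast_nonneg _
    have hB : (0 : ℝ) ≤ B := Nat.cast_nonneg _
    -- `c^M` moves `p`
    have hdisp : (slen d (c (k + i)) : ℝ) ≤ disp d (c (k + i)) := IsomAct.slen_le_disp _
    have hdispN : 7 * dl + 2 ≤ disp d (c (k + i)) := by
      have : ((7 * dl + 2 : ℕ) : ℝ) ≤ disp d (c (k + i)) := by push_cast; linarith
      exact_mod_cast this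
    have m1 := IsomAct.comm_dist_le_slen hG hh hd (g := c (k + i) ^ M) (h := c (k + i))
      ((Commute.refl _).pow_left M) hp hdispN
    rw [hG.slen_pow hd] at m1
    have m2 : (d p (c (k + i + 1) • p) : ℝ) ≤ 2 * d p (c (k + i) ^ M • p) + 2 * d p (Y • p) := by
      rw [hrec]
      exact_mod_cast cm_disp hG hd (c (k + i) ^ M) Y p
    have hdisp' : (slen d (c (k + i + 1)) : ℝ) ≤ disp d (c (k + i + 1)) := IsomAct.slen_le_disp _
    have hgrow : slen d (c (k + i)) ≤ slen d (c (k + i + 1)) := by nlinarith [hpos (k + i)]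
    have hdispN' : 37 * dl + 5 ≤ disp d (c (k + i + 1)) := by
      have : ((37 * dl + 5 : ℕ) : ℝ) ≤ disp d (c (k + i + 1)) := by push_cast; linarith
      exact_mod_cast this
    obtain ⟨y, hy, hy'⟩ := IsomAct.near_mn hG hh hd hdispN' p
    refine ⟨y, hy, ?_⟩
    have hy'' : 2 * (d p y : ℝ) + disp d (c (k + i + 1)) ≤
        d p (c (k + i + 1) • p) + (74 * dl + 8) := by exact_mod_cast hy'
    have b1 : (d y (Y • y) : ℝ) ≤ d p (Y • p) + 2 * d y p := by
      exact_mod_cast hG.dist_base hd Y y p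
    have b2 : (d y p : ℝ) = d p y := by rw [hd.comm]
    linarith
  have hex : ∀ i, ∃ y ∈ Mn d (c (k + i0 + i)),
      (d y (Y • y) : ℝ) ≤ (d (p (k + i0)) (Y • p (k + i0)) / 100 ^ i + 1 / 20) *
        slen d (c (k + i0 + i)) := by
    intro i
    induction i with
    | zero =>
      refine ⟨p (k + i0), hp _, ?_⟩
      have h2 := hi0 i0 le_rfl
      have h3 : (1 : ℝ) ≤ slen d (c (k + i0)) := by
        have : (1 : ℝ) ≤ T := by
          have : 1 ≤ T := by omega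
          exact_mod_cast this
        linarith
      have h4 : (0 : ℝ) ≤ d (p (k + i0)) (Y • p (k + i0)) := Nat.cast_nonneg _
      simp only [pow_zero, div_one, add_zero]
      nlinarith
    | succ i ih =>
      obtain ⟨y, hy, hy'⟩ := ih
      obtain ⟨y', hy1, hy1'⟩ := hstep (k + i0 + i) (by omega) y hy
      refine ⟨y', hy1, ?_⟩
      have hVi := (hV (i0 + i)).1
      have e : k + (i0 + i) = k + i0 + i := by omega
      rw [e] at hVi
      have g2 := (hgr _ hVi).2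
      have g3 : 1000 * slen d (c (k + i0 + i)) ≤ slen d (c (k + i0 + i + 1)) := by
        nlinarith [hpos (k + i0 + i)]
      have e' : k + i0 + (i + 1) = k + i0 + i + 1 := rfl
      rw [e']
      have h4 : (0 : ℝ) ≤ d (p (k + i0)) (Y • p (k + i0)) / 100 ^ i := by positivity
      have h5 : (d (p (k + i0)) (Y • p (k + i0)) : ℝ) / 100 ^ (i + 1) =
          (d (p (k + i0)) (Y • p (k + i0)) / 100 ^ i) / 100 := by
        rw [pow_succ]
        field_simp
      rw [h5]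
      obtain ⟨x, hx⟩ : ∃ x : ℝ, x = (d (p (k + i0)) (Y • p (k + i0)) : ℝ) / 100 ^ i := ⟨_, rfl⟩
      rw [← hx] at hy' h4 ⊢
      have h6 : (x / 100 + 1 / 20) * (1000 * slen d (c (k + i0 + i))) ≤
          (x / 100 + 1 / 20) * slen d (c (k + i0 + i + 1)) :=
        mul_le_mul_of_nonneg_left g3 (by positivity)
      have h7 : 0 ≤ x * slen d (c (k + i0 + i)) := mul_nonneg h4 (hpos _).le
      nlinarith [hpos (k + i0 + i)]
  obtain ⟨i1, hi1⟩ := pow_unbounded_of_one_lt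
    ((d (p (k + i0)) (Y • p (k + i0)) : ℝ) * 20) (by norm_num : (1:ℝ) < 100)
  refine ⟨k + i0 + i1, fun j hj => ?_⟩
  obtain ⟨i, rfl⟩ : ∃ i, j = k + i0 + i := ⟨j - (k + i0), by omega⟩
  refine ⟨hnc _, ?_, ?_⟩
  · have h2 := hi0 (i0 + i) (by omega)
    have e : k + (i0 + i) = k + i0 + i := by omega
    rw [e] at h2
    have h3 : (B : ℝ) ≤ T := by
      have : B ≤ T := by omega
      exact_mod_cast this
    linarith
  · obtain ⟨y, hy, hy'⟩ := hex i
    refine ⟨y, hy, ?_⟩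
    have h2 : (100 : ℝ) ^ i1 ≤ 100 ^ i := pow_le_pow_right₀ (by norm_num) (by omega)
    have h3 : (d (p (k + i0)) (Y • p (k + i0)) : ℝ) / 100 ^ i ≤ 1 / 20 := by
      rw [div_le_iff₀ (by positivity)]
      linarith
    have h4 := hpos (k + i0 + i)
    nlinarith
end Pool.Agent.Ady
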