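import Pool.Agent.Ady.Stmts

/-!
# MP_9e15c1_al: the step (assembly)
-/

set_option autoImplicit false

namespace Pool.Agent.Ady

open Pool.Agent.Olsh

namespace STEP

theorem rg_mono {G X : Type} [Group G] [MulAction G X] {d : X → X → ℕ} {B B' : ℕ} {c Y : G}
    (h : Rg d B c Y) (hB : B' ≤ B) : Rg d B' c Y :=
  ⟨h.nc, le_trans (by exact_mod_cast hB) h.big, h.near⟩

/-- All elements of the chain are loxodromic, or one of them has exponent `n`. -/
theorem chain_reg {G X : Type} [Group G] [MulAction G X] {n : ℕ} {d : X → X → ℕ}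
    {a0 L0 Ca V m0 m3 s : ℕ} {g h : G} (hn : 1 ≤ n) (hclm : Clm G n d V m0)
    (hlev : LevT G n d a0 L0 Ca)
    (hQ : ∀ (G X : Type) [Group G]
      [MulAction G X] (n : ℕ) (d : X → X → ℕ) (Ca : ℕ), LevT G n d a0 L0 Ca →
      ∀ (M : ℕ) (c : ℕ → G) (Y : G), m3 ≤ M → (∀ j, c (j + 1) = cm (c j ^ M) Y) →
      (∀ j, 0 < slen d (c j)) → (∃ k, 1 ≤ V * slen d (c k)) → ∀ B : ℕ, ∃ k0, ∀ j, k0 ≤ j →
      Rg d B (c j) Y)
    (hs : 1 ≤ s) (hm0 : m0 ≤ n) (hm3 : m3 ≤ n) (hpos : ∀ j, 0 < slen d (chn n s g h j)) (B : ℕ) :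
    ∃ k0, ∀ j, k0 ≤ j → Rg d B (chn n s g h j) (h ^ (s * n)) := by
  have hne := hlev.ne
  have hM : n ≤ s * n ^ 2 := by nlinarith
  have hrec : ∀ j, chn n s g h (j + 1) = cm (chn n s g h j ^ (s * n ^ 2)) (h ^ (s * n)) :=
    fun j => rfl
  refine hQ G X n d Ca hlev (s * n ^ 2) (chn n s g h) (h ^ (s * n)) (by omega) hrec hpos ?_ B
  obtain ⟨k, hk⟩ := hclm (s * n ^ 2) (by omega) (chn n s g h) (fun _ => h ^ (s * n)) hrec
  rcases hk with hk | hk
  · exfalso
    have h1 := hlev.isom.slen_pow hlev.gm (chn n s g h k) n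
    rw [hk] at h1
    have h2 := hlev.isom.slen_pow hlev.gm (1 : G) 0
    simp only [pow_zero, Nat.cast_zero, zero_mul] at h2
    rw [h2] at h1
    have h3 := hpos k
    have h4 : (0 : ℝ) < n := by exact_mod_cast hn
    nlinarith [mul_pos h4 h3]
  · exact ⟨k, hk⟩

/-- The lengths of a regular chain tend to infinity. -/
theorem chain_long {G X : Type} [Group G] [MulAction G X] {d : X → X → ℕ} {c : ℕ → G} {Y : G}
    (h : ∀ B : ℕ, ∃ k0, ∀ j, k0 ≤ j → Rg d B (c j) Y) (x : ℝ) (k : ℕ) :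
    ∃ m, k ≤ m ∧ x < slen d (c m) := by
  obtain ⟨B, hB⟩ := exists_nat_gt x
  obtain ⟨k0, hk⟩ := h B
  refine ⟨max k k0, le_max_left _ _, lt_of_lt_of_le hB (hk _ (le_max_right _ _)).big⟩

end STEP

open STEP in
/-- The step. -/
theorem STEP (hB : Stmt_BASE) (hK : Stmt_KILL) (hT : Stmt_TTRANSFER) (hC : Stmt_CLAIMT)
    (hS : Stmt_SURV) (hQ : Stmt_SEQ) (hCt : Stmt_CENT) (hN : Stmt_NOC) :
    Stmt_STEP := by
  obtain ⟨CB, hB⟩ := hB
  obtain ⟨η1, C, A1, hK⟩ := hK
  obtain ⟨A2, F2', CA, hT⟩ := hT (59 * dl + 5) η1 C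
  obtain ⟨A3, hC⟩ := hC (59 * dl + 5) η1 C
  obtain ⟨A4, hS⟩ := hS (59 * dl + 5) η1 C
  obtain ⟨A5, hQ⟩ := hQ
  obtain ⟨A6, hCt⟩ := hCt
  obtain ⟨A7, hN⟩ := hN
  obtain ⟨a0, ha0⟩ : ∃ a0, a0 = A1 + A2 + A3 + A4 + A5 + A6 + A7 + 16 * dl := ⟨_, rfl⟩
  obtain ⟨L0, hL0⟩ : ∃ L0, L0 = 4 * a0 + 2 + F2' a0 := ⟨_, rfl⟩
  obtain ⟨Ca, hCa⟩ : ∃ Ca, Ca = CA + CB := ⟨_, rfl⟩
  obtain ⟨V, m0, U1, hV, hC⟩ := hC a0 L0 Ca (by omega)
  obtain ⟨U2, hT⟩ := hT a0 L0 Ca (by omega) (by omega) (by omega)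
  obtain ⟨m2, B2, U3, hS⟩ := hS a0 L0 Ca (by omega)
  obtain ⟨m3, hQ⟩ := hQ a0 L0 V (by omega)
  obtain ⟨B3, m4, hCt⟩ := hCt a0 L0 (by omega)
  obtain ⟨B4, m5, hN⟩ := hN a0 L0 (by omega)
  obtain ⟨B, n1, hK⟩ := hK a0 L0 (U1 + U2 + U3) (by omega)
  refine ⟨a0, L0, Ca, V, m0, n1 + m0 + m2 + m3 + m4 + m5 + 1, ?_, ?_⟩
  · intro n r hn _ hr
    exact hB a0 L0 Ca V m0 n r (by omega) (by omega) hV hn hr
  intro n r hn hn0 hr G X _ _ d x y hst g h s hs hsr
  have hlev := hst.lev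
  have hne := hlev.ne
  have hM : ∀ t : ℕ, 1 ≤ t → n ≤ t * n ^ 2 := by
    intro t ht
    nlinarith
  by_cases htor : ∃ j, chn n s g h j ^ n = 1
  · exact ⟨G, X, inferInstance, inferInstance, d, MonoidHom.id G, Function.surjective_id, hst,
      htor⟩
  push Not at htor
  have hpos : ∀ j, 0 < slen d (chn n s g h j) := fun j => (hlev.lox _).resolve_left (htor j)
  have hregc := fun B => chain_reg (by omega) hst.clm hlev hQ hs (by omega) (by omega) hpos B
  have hregT := fun B => chain_reg (by omega) hst.clm hlev hQ hr (by omega) (by omega) hst.surv B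
  obtain ⟨kc, hkc⟩ := hregc (B3 + B4)
  obtain ⟨kT, hkT⟩ := hregT (B2 + B3 + B4)
  -- a bound for the lengths of the first elements of the other chain
  obtain ⟨x0, hx0⟩ : ∃ x0 : ℝ, ∀ j, j ≤ kT + 2 → 2 * slen d (chn n r x y j) ≤ x0 := by
    refine ⟨∑ j ∈ Finset.range (kT + 3), 2 * slen d (chn n r x y j), fun j hj => ?_⟩
    refine Finset.single_le_sum (f := fun j => 2 * slen d (chn n r x y j)) (fun i _ => ?_)
      (Finset.mem_range.2 (by omega))
    have := IsomAct.slen_nonneg (d := d) (chn n r x y i)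
    positivity
  obtain ⟨m, hm, hmB⟩ := chain_long hregc (max B x0) (kc + 2)
  obtain ⟨m', rfl⟩ : ∃ m', m = m' + 2 := ⟨m - 2, by omega⟩
  have hz : ∀ z : G, z * chn n s g h (m' + 2) = chn n s g h (m' + 2) * z →
      ∃ i : ℤ, z = chn n s g h (m' + 2) ^ i :=
    (hCt G X n d Ca hlev (chn n s g h (m' + 1)) (h ^ (s * n)) (s * n ^ 2)
      (rg_mono (hkc _ (by omega)) (by omega)) (by have := hM s hs; omega)).2
  obtain ⟨S, iS, N, G', A', iG', iA', u, L, Y, d', π, q, hlq, hz1, hstab, hzu⟩ :=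
    hK G X n d Ca hlev (by omega) (chn n s g h (m' + 2))
      ((le_max_left _ _).trans hmB.le) hz
  have hlev' := hT G G' X S A' N n d u L Y d' π q (hlq.mono (by omega))
  refine ⟨G', A', iG', iA', d', π, hlq.quot.surjG, ⟨hlev', ?_, ?_⟩, m' + 2, ?_⟩
  · exact hC G G' X S A' N n d u L Y d' π q (hlq.mono (by omega)) hlev' hst.clm
  · -- survival
    intro j
    have hmap : chn n r (π x) (π y) j = π (chn n r x y j) := (map_chn π n r x y j).symm
    rw [hmap]
    refine hS G G' X S A' N n d u L Y d' π q (hlq.mono (by omega)) hlev' (chn n r x y)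
      (x ^ (r * n)) (y ^ (r * n)) (r * n ^ 2) (by have := hM r hr; omega) rfl (fun j => rfl)
      hst.surv ?_ ?_ ⟨kT, ?_, ?_⟩ j
    · -- no element fixes an apex
      intro j σ hfix
      obtain ⟨w, i, hw⟩ := hstab σ _ hfix
      have hTj := hst.surv j
      have hcw : chn n r x y j = (w * chn n s g h (m' + 2) * w⁻¹) ^ i := by
        rw [conj_zpow, hw]
      by_cases hj : j ≤ kT + 2
      · have hi : i ≠ 0 := by
          rintro rfl
          rw [zpow_zero] at hcw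
          have h2 := hlev.isom.slen_pow hlev.gm (1 : G) 0
          simp only [pow_zero, Nat.cast_zero, zero_mul] at h2
          rw [hcw, h2] at hTj
          exact lt_irrefl _ hTj
        have h3 : slen d (chn n r x y j) = (i.natAbs : ℝ) * slen d (chn n s g h (m' + 2)) := by
          rw [hcw]
          rcases Int.natAbs_eq i with h4 | h4
          · rw [h4, zpow_natCast, hlev.isom.slen_pow hlev.gm, hlev.isom.slen_conj, Int.natAbs_natCast]
          · rw [h4, zpow_neg, zpow_natCast, hlev.isom.slen_inv hlev.gm,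
              hlev.isom.slen_pow hlev.gm, hlev.isom.slen_conj]
            simp
        have h5 : (1 : ℝ) ≤ i.natAbs := by
          exact_mod_cast Int.natAbs_pos.2 hi
        have h6 := hx0 j hj
        have h7 : x0 < slen d (chn n s g h (m' + 2)) := (le_max_right _ _).trans_lt hmB
        nlinarith [hpos (m' + 2)]
      · obtain ⟨j', rfl⟩ : ∃ j', j = j' + 2 := ⟨j - 2, by omega⟩
        refine hN G X n d Ca hlev (by omega) s r hs hr hsr (chn n s g h m')
          (chn n s g h (m' + 1)) (h ^ (s * n)) (chn n r x y j') (chn n r x y (j' + 1))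
          (y ^ (r * n)) rfl rfl (rg_mono (hkc _ (by omega)) (by omega))
          (rg_mono (hkc _ (by omega)) (by omega)) (rg_mono (hkT _ (by omega)) (by omega))
          (rg_mono (hkT _ (by omega)) (by omega)) w ?_
        show (w * chn n s g h (m' + 2) * w⁻¹) * chn n r x y (j' + 2) =
          chn n r x y (j' + 2) * (w * chn n s g h (m' + 2) * w⁻¹)
        rw [hcw]
        exact ((Commute.refl _).zpow_right i).eq
    · rcases hlev'.lox (π y) with h1 | h1
      · left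
        rw [map_pow, mul_comm, pow_mul, h1, one_pow]
      · right
        have : Nonempty A' := hlev'.ne
        rw [map_pow, hlev'.isom.slen_pow hlev'.gm]
        have h2 : (0 : ℝ) < (r * n : ℕ) := by
          have : 0 < r * n := Nat.mul_pos (by omega) (by omega)
          exact_mod_cast this
        exact mul_pos h2 h1
    · intro j hj
      have h6 := hx0 j (by omega)
      have h7 : x0 < slen d (chn n s g h (m' + 2)) := (le_max_right _ _).trans_lt hmB
      linarith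
    · intro j hj
      exact rg_mono (hkT _ hj) (by omega)
  · rw [← map_pow]
    exact hz1

end Pool.Agent.Ady
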