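import Pool.Agent.Ady.Stmts

/-!
# MP_9e15c1_al, E-half: survival of a chain in the quotient (SURV)

`T 0 = [a, Z]`, `T (j + 1) = [T j ^ M, Z]`.  As long as `T j` is short, its image is loxodromic by
`TBEAX`; from the last short one on the image chain grows by `GROW`.  The images of `T j` and `Z` do
not commute, by malnormality of centralisers.
-/

set_option autoImplicit false

namespace Pool.Agent.Ady

open Pool.Agent.Olsh

namespace SURV

variable {G X : Type} [Group G] [MulAction G X] {n : ℕ} {d : X → X → ℕ} {a0 L0 Ca : ℕ}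

theorem slen_one (h : LevT G n d a0 L0 Ca) : slen d (1 : G) = 0 := by
  have := h.ne
  have h1 := h.isom.slen_pow h.gm (1 : G) 0
  simpa using h1

/-- A loxodromic commutator `[P, Z]` does not commute with `Z`. -/
theorem noncomm (h4 : Stmt_TMAL) (h : LevT G n d a0 L0 Ca) (ha0 : 16 * dl ≤ a0) (P Z : G)
    (hZ : Z = 1 ∨ 0 < slen d Z) (hpos : 0 < slen d (cm P Z)) : cm P Z * Z ≠ Z * cm P Z := by
  intro hc
  rcases hZ with hZ | hZ
  · rw [hZ] at hpos
    have e : cm P (1 : G) = 1 := by rw [cm_eq_one_iff, mul_one, one_mul]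
    rw [e, slen_one h] at hpos
    exact lt_irrefl _ hpos
  · have e1 : cm P Z * Z = P * Z * P⁻¹ := by
      unfold cm
      rw [inv_mul_cancel_right]
    have e2 : Z * (P * Z * P⁻¹) = (P * Z * P⁻¹) * Z := by
      rw [← e1, ← mul_assoc, ← hc]
    have e3 := (h4 G X n d a0 L0 Ca h ha0).2.2.2.1 Z P hZ e2
    have e4 : cm P Z = 1 := by
      rw [cm_eq_one_iff]
      exact e3.symm
    rw [e4, slen_one h] at hpos
    exact lt_irrefl _ hpos

end SURV

open SURV in
/-- SURV: survival of a chain. -/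
theorem SURV (h1 : Stmt_TBEAX) (h2 : Stmt_GROW) (h3 : Stmt_RLN) (h4 : Stmt_TMAL) :
    Stmt_SURV := by
  intro η η1 C
  obtain ⟨A2, C1, h2⟩ := h2
  obtain ⟨A3, h3⟩ := h3
  obtain ⟨C10, h11⟩ := h1 η η1 C 1
  refine ⟨A2 + A3 + 16 * dl, fun a0 L0 Ca hA => ?_⟩
  obtain ⟨B3, m3, h3⟩ := h3 a0 L0 (by omega)
  obtain ⟨K1, hK1⟩ : ∃ K1 : ℕ, K1 = 4 * L0 + C1 := ⟨_, rfl⟩
  obtain ⟨E3, hE3⟩ : ∃ E3 : ℕ, E3 = 6 * C10 * K1 + 1 := ⟨_, rfl⟩
  obtain ⟨C12, h12⟩ := h1 η η1 C E3
  obtain ⟨U1, h11⟩ := h11 a0 L0 Ca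
  obtain ⟨U2, h12⟩ := h12 a0 L0 Ca
  refine ⟨m3 + 1000 + 2 * C12 * K1, B3 + 1, U1 + U2 + (12 * dl + 4), ?_⟩
  intro G G' X S A' _ _ _ _ _ N n d u L Y d' π q H hlev' T a Z M hM hT0 hT hpos hfix hZ hk
  obtain ⟨k0, hk1, hk2⟩ := hk
  have hlev := H.lev
  have hne := hlev.ne
  have hd := hlev.gm
  have hh := hlev.hyp
  have hG := hlev.isom
  have hu : 12 * dl + 4 ≤ u := le_trans (by omega) H.hu
  have huR : 12 * (dl : ℝ) + 4 ≤ u := by exact_mod_cast hu
  have hu0 : (0 : ℝ) < u := by
    have : (0 : ℝ) ≤ dl := Nat.cast_nonneg _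
    linarith
  have hMR : (m3 : ℝ) + 1000 + 2 * C12 * K1 ≤ M := by exact_mod_cast hM
  have hK1R : (K1 : ℝ) = 4 * L0 + C1 := by rw [hK1]; push_cast; ring
  have hK0 : (0 : ℝ) ≤ K1 := Nat.cast_nonneg _
  have hC12 : (0 : ℝ) ≤ C12 := Nat.cast_nonneg _
  have hC10 : (0 : ℝ) ≤ C10 := Nat.cast_nonneg _
  have hm3 : (0 : ℝ) ≤ m3 := Nat.cast_nonneg _
  have hM1000 : (1000 : ℝ) ≤ M := by nlinarith [mul_nonneg hC12 hK0]
  -- elements moving a point by at most `E u`
  have lift : ∀ (E : ℕ) (g : G), slen d g + (6 * dl + 2) ≤ E * u → ∃ o, d o (g • o) ≤ E * u := by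
    intro E g hg
    obtain ⟨o, ho⟩ := Mn_nonempty (d := d) g
    refine ⟨o, ?_⟩
    have e1 := hG.disp_le_slen hh hd g
    have e2 : d o (g • o) = disp d g := ho
    rw [e2]
    have e3 : (disp d g : ℝ) ≤ ((E * u : ℕ) : ℝ) := by
      push_cast
      linarith
    exact_mod_cast e3
  -- short elements
  have short : ∀ j, 2 * slen d (T j) ≤ u → slen d (T j) ≤ C10 * u * slen d' (π (T j)) := by
    intro j hj
    obtain ⟨o, ho⟩ := lift 1 (T j) (by push_cast; linarith)
    exact (h11 G G' X S A' N n d u L Y d' π q (H.mono (by omega)) (T j) o (hpos j) (hfix j) ho).2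
  have shortpos : ∀ j, 2 * slen d (T j) ≤ u → 0 < slen d' (π (T j)) := by
    intro j hj
    have e1 := short j hj
    have e2 := hpos j
    by_contra hcon
    have e3 : slen d' (π (T j)) = 0 := le_antisymm (not_lt.1 hcon) (IsomAct.slen_nonneg _)
    rw [e3, mul_zero] at e1
    linarith
  -- the images do not commute
  have nc : ∀ j, 0 < slen d' (π (T j)) → π (T j) * π Z ≠ π Z * π (T j) := by
    intro j hj
    have e : ∃ P, π (T j) = cm P (π Z) := by
      rcases Nat.eq_zero_or_pos j with h0 | h0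
      · refine ⟨π a, ?_⟩
        rw [h0, hT0, map_cm]
      · obtain ⟨i, rfl⟩ : ∃ i, j = i + 1 := ⟨j - 1, by omega⟩
        refine ⟨π (T i) ^ M, ?_⟩
        rw [hT i, map_cm, map_pow]
    obtain ⟨P, hP⟩ := e
    rw [hP] at hj ⊢
    exact noncomm h4 hlev' (by omega) P (π Z) hZ hj
  -- growth of the images
  have gr : ∀ j, 0 < slen d' (π (T j)) → 16 * slen d' (π (T j)) + K1 ≤ M * slen d' (π (T j)) →
      0 < slen d' (π (T (j + 1))) ∧
        16 * slen d' (π (T (j + 1))) + K1 ≤ M * slen d' (π (T (j + 1))) := by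
    intro j hj hQ
    have e1 := h2 G' A' n d' a0 L0 Ca hlev' (by omega) (π (T j)) (π Z) M hj (nc j hj)
      (by rw [hK1R] at hQ; linarith)
    rw [← map_pow, ← map_cm, ← hT j] at e1
    have e2 : M * slen d' (π (T j)) ≤ slen d' (π (T (j + 1))) := by
      rw [hK1R] at hQ
      linarith
    have e3 : 0 < M * slen d' (π (T j)) := mul_pos (by linarith) hj
    have e4 : (K1 : ℝ) ≤ slen d' (π (T (j + 1))) := by linarith
    refine ⟨by linarith, ?_⟩
    have e5 : 0 ≤ ((M : ℝ) - 17) * slen d' (π (T (j + 1))) :=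
      mul_nonneg (by linarith) (by linarith)
    linarith
  have key : ∀ j, 2 * slen d (T j) ≤ u ∨ (0 < slen d' (π (T j)) ∧
      16 * slen d' (π (T j)) + K1 ≤ M * slen d' (π (T j))) := by
    intro j
    induction j with
    | zero => exact Or.inl (hk1 0 (Nat.zero_le _))
    | succ j ih =>
      by_cases hj : j + 1 ≤ k0
      · exact Or.inl (hk1 _ hj)
      rcases ih with ih | ih
      swap
      · exact Or.inr (gr j ih.1 ih.2)
      have hp := shortpos j ih
      by_cases hQ : 16 * slen d' (π (T j)) + K1 ≤ M * slen d' (π (T j))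
      · exact Or.inr (gr j hp hQ)
      -- `T (j + 1)` is not too long
      push Not at hQ
      by_cases hP : 2 * slen d (T (j + 1)) ≤ u
      · exact Or.inl hP
      right
      push Not at hP
      have e1 : M * slen d' (π (T j)) ≤ 2 * K1 := by
        have e5 : 0 ≤ ((M : ℝ) - 32) * slen d' (π (T j)) := mul_nonneg (by linarith) hp.le
        linarith
      have e2 : M * slen d (T j) ≤ 2 * C10 * K1 * u := by
        have e3 := short j ih
        calc M * slen d (T j) ≤ M * (C10 * u * slen d' (π (T j))) :=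
              mul_le_mul_of_nonneg_left e3 (Nat.cast_nonneg _)
          _ = C10 * u * (M * slen d' (π (T j))) := by ring
          _ ≤ C10 * u * (2 * K1) := mul_le_mul_of_nonneg_left e1 (by positivity)
          _ = 2 * C10 * K1 * u := by ring
      have hrg : Rg d B3 (T j) Z := by
        have h5 := hk2 j (by omega)
        exact ⟨h5.nc, le_trans (by push_cast; linarith) h5.big, h5.near⟩
      have e3 := (h3 G X n d Ca hlev (T j) Z M hrg (by omega)).2
      rw [← hT j] at e3
      have e4 : slen d (T (j + 1)) ≤ 6 * C10 * K1 * u := by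
        have e5 : 0 ≤ ((M : ℝ) - 17) * slen d (T j) := mul_nonneg (by linarith) (hpos j).le
        linarith
      have e5 : (E3 : ℝ) = 6 * C10 * K1 + 1 := by rw [hE3]; push_cast; ring
      obtain ⟨o, ho⟩ := lift E3 (T (j + 1)) (by
        rw [e5]
        have e6 : (6 * C10 * K1 + 1) * (u : ℝ) = 6 * C10 * K1 * u + u := by ring
        rw [e6]
        have : (0 : ℝ) ≤ dl := Nat.cast_nonneg _
        linarith)
      have e6 := (h12 G G' X S A' N n d u L Y d' π q (H.mono (by omega)) (T (j + 1)) o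
        (hpos _) (hfix _) ho).2
      -- `u < 2 C12 u slen'`
      have e7 : 1 ≤ 2 * C12 * slen d' (π (T (j + 1))) := by
        have e8 : (u : ℝ) * 1 ≤ u * (2 * C12 * slen d' (π (T (j + 1)))) := by
          have : (u : ℝ) * (2 * C12 * slen d' (π (T (j + 1)))) =
            2 * (C12 * u * slen d' (π (T (j + 1)))) := by ring
          rw [this]
          linarith
        exact le_of_mul_le_mul_left e8 hu0
      have e9 : 0 ≤ slen d' (π (T (j + 1))) := IsomAct.slen_nonneg _
      have e10 : 0 < slen d' (π (T (j + 1))) := by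
        rcases e9.lt_or_eq with h | h
        · exact h
        · rw [← h, mul_zero] at e7
          linarith
      refine ⟨e10, ?_⟩
      have e11 : (16 + 2 * C12 * K1) * slen d' (π (T (j + 1))) ≤
          M * slen d' (π (T (j + 1))) := mul_le_mul_of_nonneg_right (by linarith) e9
      have e12 : (K1 : ℝ) * 1 ≤ K1 * (2 * C12 * slen d' (π (T (j + 1)))) :=
        mul_le_mul_of_nonneg_left e7 hK0
      have e13 : (16 + 2 * C12 * K1) * slen d' (π (T (j + 1))) =
        16 * slen d' (π (T (j + 1))) + K1 * (2 * C12 * slen d' (π (T (j + 1)))) := by ring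
      linarith
  intro j
  rcases key j with h | h
  · exact shortpos j h
  · exact h.1

end Pool.Agent.Ady
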