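import Pool.Agent.Ady.Stmts
import Pool.Agent.Olsh.StmtsP
import Pool.Agent.Olsh.Proj

/-!
# MP_9e15c1_al, E-half: lower bound for angles from an overlap with `Y s` (TANGL)
-/

set_option autoImplicit false

namespace Pool.Agent.Ady

open Pool.Agent.Olsh

namespace TANGL

/-- Neighbours of an apex in the cone-off are vertices of `X`. -/
theorem nb_inl {X S : Type} {d : X → X → ℕ} {u : ℕ} {Y : S → Set X} {T : ℕ}
    (hp : IsPS (cd d u Y) (apx X S) (cdX d) T) {s : S} {a y : X ⊕ S}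
    (hy : y ∈ Nb (cd d u Y) (Sum.inr s) a) : ∃ y0 : X, y = Sum.inl y0 := by
  rcases y with y0 | t
  · exact ⟨y0, rfl⟩
  · exact absurd hy.1 (hp.nadj _ ⟨t, rfl⟩ _ ⟨s, rfl⟩)

end TANGL

/-- TANGL: lower bound for angles from an overlap with `Y s`. -/
theorem TANGL (h1 : Stmt_PROJ) (h2 : Stmt_PSA) : Stmt_TANGL := by
  intro η η1 C
  obtain ⟨CP, hCP⟩ := h1 dl η
  refine ⟨2 * C + CP, ?_⟩
  intro X S d u Y hP s p q z1 z2 y1 y2 r hz2 hz1 hy1 hy2 hr1 hr2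
  have hd : IsGM d := hP.gm
  have hone : 1 ≤ u := hP.one_le
  obtain ⟨-, -, hang, -⟩ := h2 _ _ _ _ _ hP.ps (Sum.inr s) ⟨s, rfl⟩
  obtain ⟨y, hy, y', hy', hyy⟩ := hang (Sum.inl p) (Sum.inl q) Sum.inl_ne_inr Sum.inl_ne_inr
  obtain ⟨y0, rfl⟩ := TANGL.nb_inl hP.ps hy
  obtain ⟨y0', rfl⟩ := TANGL.nb_inl hP.ps hy'
  have hea : angC d u Y s p q = d y0 y0' := hyy.symm
  rw [hea]
  obtain ⟨pr, hpr⟩ := exists_proj (d := d) (hP.ne s) p
  obtain ⟨pr', hpr'⟩ := exists_proj (d := d) (hP.ne s) q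
  have hn1 : d y0 pr ≤ C * u := hP.near s (Sum.inl p) p y0 pr rfl hpr hy
  have hn2 : d y0' pr' ≤ C * u := hP.near s (Sum.inl q) q y0' pr' rfl hpr' hy'
  have hz1' : Bt d p z1 q := hd.bt_trans hz2 hz1
  obtain ⟨-, -, -, -, hov⟩ := hCP X d (Y s) hd hP.hyp (hP.qc s) p q pr pr' hpr hpr'
  have h5 := hov z1 y1 z2 y2 hz1' hz2 hy1 hy2
  have h6 := hd.tri pr y0 pr'
  have h7 := hd.tri y0 y0' pr'
  have h8 := hd.comm pr y0
  have h9 : CP * 1 ≤ CP * u := Nat.mul_le_mul_left _ hone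
  have h10 : (2 * C + CP) * u = 2 * (C * u) + CP * u := by ring
  rw [h10]
  omega

end Pool.Agent.Ady
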