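import Pool.Agent.Ady.Stmts
import Pool.Agent.Olsh.BEAX

/-!
# TBEAX: elements of type (be), the axis of the lift embeds with small angles
-/

set_option autoImplicit false

namespace Pool.Agent.Ady

open Pool.Agent.Olsh

open Filter Topology in
theorem TBEAX (h1 : Stmt_PSA) (h2 : Stmt_QPS) (h3 : Stmt_ISO) (h4 : Stmt_POLY)
    (h6 : Stmt_LEN) (h8 : Stmt_QTB) : Stmt_TBEAX := by
  intro η η1 C E
  refine ⟨6 * C + 4 * E + 2, fun a0 L0 Ca => ⟨700 * dl + 20 * η + 100 + 30 * C + 4 * E + 10, ?_⟩⟩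
  intro G G' X S A' _ _ _ _ _ N n d u L Y d' π q H g o hpos hfix ho
  have hI : IsomAct G d := H.lev.isom
  have hne : Nonempty X := H.lev.ne
  have hE : slen d g ≤ E * u := by
    have e1 := IsomAct.slen_mul_le (d := d) g o 1
    rw [Nat.cast_one, one_mul, pow_one] at e1
    have e2 : (d o (g • o) : ℝ) ≤ ((E * u : ℕ) : ℝ) := by exact_mod_cast ho
    rw [Nat.cast_mul] at e2
    exact e1.trans e2
  have hu := H.hu
  have hL := H.hL
  have hUL : (24 * C + 4 * E + 2) * u + 6 * (C * u) ≤ L := by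
    refine le_trans ?_ hL
    have : (24 * C + 4 * E + 2) * u + 6 * (C * u) = (30 * C + 4 * E + 2) * u := by ring
    rw [this]
    exact Nat.mul_le_mul_right _ (by omega)
  have hang : ∀ v w, v ∈ AX d g → w ∈ AX d g → ∀ s : S,
      angC d u Y s v w ≤ (4 * C + 4 * E + 1) * u := fun v w hv hw s =>
    BEAX.ang_small h1 H.qn.conep hI H.Ysmul hpos hE hne (by omega) (hfix s) hv hw
  have hiso : ∀ v w, v ∈ AX d g → w ∈ AX d g →
      d' (q (Sum.inl v)) (q (Sum.inl w)) = cd d u Y (Sum.inl v) (Sum.inl w) := by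
    intro v w hv hw
    refine h3 N (X ⊕ S) Unit A' (cd d u Y) (apx X S) (cdX d) (C * u) L d' 1 q H.qn.rotc H.qn.quot
      (Sum.inl v) (Sum.inl w) (by rintro ⟨t, ht⟩; exact Sum.inr_ne_inl ht) ?_
    rintro _ ⟨s, rfl⟩ -
    have e1 := hang v w hv hw s
    unfold angC at e1
    have e2 : (24 * C + 4 * E + 2) * u = 24 * (C * u) + 4 * (E * u) + 2 * u := by ring
    have e3 : (4 * C + 4 * E + 1) * u = 4 * (C * u) + 4 * (E * u) + u := by ring
    omega
  obtain ⟨hPS', -, -, -, hq5, -, -, hq8⟩ := h2 N (X ⊕ S) Unit A' (cd d u Y) (apx X S) (cdX d)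
    (C * u) L d' 1 q H.qn.rotc H.qn.quot
  refine ⟨fun v w hv hw => ⟨fun s => ?_, hiso v w hv hw, ?_⟩, ?_⟩
  · refine (hang v w hv hw s).trans (Nat.mul_le_mul_right _ (by omega))
  · rintro s' ⟨_, ⟨t0, rfl⟩, ht0⟩
    have hpoly := (h4 N (X ⊕ S) Unit A' (cd d u Y) (apx X S) (cdX d) (C * u) L d' 1 q H.qn.rotc
      H.qn.quot).2 3 ((4 * C + 4 * E + 1) * u)
      (fun i => if i = 1 then q (Sum.inl w) else if i = 2 then s' else q (Sum.inl v))
      (Sum.inl v) (Sum.inl w) (by rintro ⟨t, ht⟩; exact Sum.inr_ne_inl ht)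
      (by rintro ⟨t, ht⟩; exact Sum.inr_ne_inl ht)
      (by rintro _ ⟨s, rfl⟩; exact hang v w hv hw s) (by simp) (by simp) (by omega) (by simp)
      (by
        have e2 : (24 * C + 4 * E + 2) * u = 24 * (C * u) + 4 * (E * u) + 2 * u := by ring
        have e3 : (4 * C + 4 * E + 1) * u = 4 * (C * u) + 4 * (E * u) + u := by ring
        omega)
    obtain ⟨a, ha0, ha1, hqa, hda, ha3⟩ := hpoly
    have d1 := hda 1 le_rfl (by omega)
    have d2 := hda 2 (by omega) (by omega)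
    simp only [Nat.reduceAdd, ha1, if_true] at d1
    norm_num at d1 d2
    have q2 : q (a 2) = s' := by
      have := hqa 2 (by omega)
      simpa using this
    rw [ha3] at d2
    have hap : a 2 ∈ apx X S := hq5 _ (by rw [q2]; exact ⟨_, ⟨t0, rfl⟩, ht0⟩)
    have hgmc := H.qn.conep.ps.gm
    have hgm' := hPS'.gm
    have e1 := hq8 (a 2) hap (Sum.inl v) (Sum.inl w)
      (by rw [q2, hgmc.comm, d2, hgm'.comm]) (by rw [q2, d1])
    obtain ⟨t, ht⟩ := hap
    have e2 := hang v w hv hw t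
    unfold angC at e2
    rw [ht] at e2
    rw [q2] at e1
    unfold angQ
    have e3 : (6 * C + 4 * E + 2) * u = 6 * (C * u) + 4 * (E * u) + 2 * u := by ring
    have e4 : (4 * C + 4 * E + 1) * u = 4 * (C * u) + 4 * (E * u) + u := by ring
    omega
  · -- the stable length
    obtain ⟨v, hv⟩ := IsomAct.Ax_nonempty (d := d) DD g
    have hvn : ∀ k : ℕ, g ^ k • v ∈ AX d g := fun k =>
      (IsomAct.smul_mem_Ax_of_commute hI DD ((Commute.refl g).pow_left k) v).mpr hv
    obtain ⟨hgm', hI', -⟩ := h8 G G' X S A' N n d u L Y η η1 C d' π q H.toQT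
    have hlim := (IsomAct.tendsto_slen (d := d') hI' hgm' (π g) (q (Sum.inl v))).const_mul
      (((6 * C + 4 * E + 2 : ℕ) : ℝ) * u)
    refine ge_of_tendsto hlim (eventually_atTop.mpr ⟨1, fun k hk => ?_⟩)
    have hn0 : (0 : ℝ) < k := by exact_mod_cast hk
    rw [← mul_div_assoc, le_div_iff₀ hn0, mul_comm]
    refine (IsomAct.slen_mul_le (d := d) g v k).trans ?_
    have e1 := h6 η η1 C X S d u Y H.qn.conep ((4 * C + 4 * E + 1) * u) v (g ^ k • v)
      (fun s => hang v _ hv (hvn k) s)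
    rw [← hiso v _ hv (hvn k)] at e1
    have e2 : q (Sum.inl (g ^ k • v)) = (π g) ^ k • q (Sum.inl v) := by
      rw [← map_pow, ← H.quot.equiv, Sum.smul_inl]
    rw [e2] at e1
    have e3 : (4 * C + 4 * E + 1) * u + u ≤ (6 * C + 4 * E + 2) * u := by
      have e4 : (4 * C + 4 * E + 1) * u + u = (4 * C + 4 * E + 2) * u := by ring
      rw [e4]
      exact Nat.mul_le_mul_right _ (by omega)
    have e5 : d v (g ^ k • v) ≤ (6 * C + 4 * E + 2) * u *
        d' (q (Sum.inl v)) ((π g) ^ k • q (Sum.inl v)) := by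
      rw [mul_comm]
      exact e1.trans (Nat.mul_le_mul_left _ e3)
    exact_mod_cast e5

end Pool.Agent.Ady
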