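import Pool.Agent.Ady.Stmts
import Pool.Agent.Olsh.StmtsP

/-!
# MP_9e15c1_al: commutation is transitive in the quotient (block TCSA)
-/

set_option autoImplicit false

namespace Pool.Agent.Ady

open Pool.Agent.Olsh

theorem TCSA (h1 : Stmt_TGWA) (h2 : Stmt_QTB) : Stmt_TCSA := by
  intro η η1 C
  obtain ⟨A, F, hA⟩ := h1 η η1 C
  refine ⟨A, fun a0 L0 Ca ha => ?_⟩
  obtain ⟨U1, hU1⟩ := hA a0 L0 Ca ha
  refine ⟨U1, ?_⟩
  intro G G' X S A' _ _ _ _ _ N n d u L Y d' π q hLQ a b c hb hab hbc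
  have hB := h2 G G' X S A' N n d u L Y η η1 C d' π q hLQ.toQT
  have hd' : IsGM d' := hB.1
  have hG : IsomAct G' d' := hB.2.1
  obtain ⟨x₀⟩ := hLQ.lev.ne
  have v : A' := q (Sum.inl x₀)
  set D := max (d' v (a • v)) (d' v (c • v)) with hD
  obtain ⟨j, hj⟩ := exists_nat_ge ((F D : ℝ) / slen d' b)
  have hj' : (F D : ℝ) ≤ j * slen d' b := by
    rwa [div_le_iff₀ hb] at hj
  have hfar : F D ≤ d' v (b ^ j • v) := by
    have h5 := IsomAct.slen_mul_le (d := d') b v j
    have h6 : (F D : ℝ) ≤ d' v (b ^ j • v) := hj'.trans h5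
    exact_mod_cast h6
  have hmove : ∀ x : G', Commute x b → d' (b ^ j • v) (x • b ^ j • v) = d' v (x • v) := by
    intro x hx
    have h6 : x • b ^ j • v = b ^ j • x • v := by
      rw [smul_smul, smul_smul, (hx.pow_right j).eq]
    rw [h6, hG (b ^ j)]
  exact hU1 G G' X S A' N n d u L Y d' π q hLQ D a c v (b ^ j • v) (le_max_left _ _)
    (by rw [hmove a hab]; exact le_max_left _ _) (le_max_right _ _)
    (by rw [hmove c hbc.symm]; exact le_max_right _ _) hfar

end Pool.Agent.Ady
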