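import Pool.Agent.Ady.Stmts
import Pool.Agent.Olsh.Iso

/-!
# C7 (TLL): elements fixing a vertex of the quotient, lifts of loxodromic elements (MP_9e15c1_al)
-/

set_option autoImplicit false

namespace Pool.Agent.Ady

open Pool.Agent.Olsh

theorem TLL (h1 : Stmt_QTB) : Stmt_TLL := by
  intro G G' X S A' _ _ _ _ _ N n d u L Y η η1 C d' π q a0 L0 Ca hQ hL
  obtain ⟨gm', iso', -, -, -, -, -, -, hfix⟩ := h1 G G' X S A' N n d u L Y η η1 C d' π q hQ
  have hn : 0 < n := hL.odd.pos
  have hne : Nonempty X := hL.ne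
  have hne' : Nonempty A' := ⟨q (Sum.inl hne.some)⟩
  -- (1) elements fixing a vertex
  have c1 : ∀ (x : G') (v : A'), x • v = v → x ^ n = 1 := by
    intro x v hx
    obtain ⟨a, rfl⟩ := hQ.quot.surj v
    obtain ⟨g, rfl, hg⟩ := hfix x a hx
    rcases a with w | s
    · rw [Sum.smul_inl] at hg
      have hw : g • w = w := Sum.inl_injective hg
      have hs : slen d g ≤ 0 := by
        have h := IsomAct.slen_le (d := d) g w 1 le_rfl
        rw [pow_one, hw, hL.gm.self] at h
        simpa using h
      rcases hL.lox g with h | h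
      · rw [← map_pow, h, map_one]
      · exact absurd h (not_lt.2 hs)
    · rw [Sum.smul_inr] at hg
      have hs : g • s = s := Sum.inr_injective hg
      rw [← map_pow]
      exact (hQ.quot.ker _).2 (hQ.stabn s g hs)
  -- (2) torsion has stable length zero
  have c2 : ∀ x : G', x ^ n = 1 → slen d' x = 0 := by
    intro x hx
    have h2 := IsomAct.slen_pow iso' gm' x n
    have h3 := IsomAct.slen_le (d := d') (x ^ n) hne'.some 1 le_rfl
    rw [pow_one, hx, one_smul, gm'.self] at h3
    have h4 : slen d' (1 : G') ≤ 0 := by simpa using h3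
    have h5 : slen d' (1 : G') = 0 := le_antisymm h4 (IsomAct.slen_nonneg _)
    rw [hx, h5] at h2
    rcases mul_eq_zero.1 h2.symm with h | h
    · exact absurd h (by exact_mod_cast hn.ne')
    · exact h
  refine ⟨c1, c2, fun g hg => ⟨?_, ?_⟩⟩
  · rcases hL.lox g with h | h
    · exfalso
      have h2 := c2 (π g) (by rw [← map_pow, h, map_one])
      rw [h2] at hg
      exact lt_irrefl _ hg
    · exact h
  · intro s hs
    have h2 : π g • q (Sum.inr s) = q (Sum.inr s) := by
      rw [← hQ.quot.equiv, Sum.smul_inr, hs]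
    have h3 := c2 (π g) (c1 _ _ h2)
    rw [h3] at hg
    exact lt_irrefl _ hg

end Pool.Agent.Ady
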