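import Pool.Agent.Ady.Stmts
import Pool.Agent.Olsh.StmtsP

/-!
# MP_9e15c1_al, E-half: every element of the quotient has exponent `n` or is loxodromic (TLOX)
-/

set_option autoImplicit false

namespace Pool.Agent.Ady

open Pool.Agent.Olsh

/-- TLOX: every element of the quotient has exponent `n` or positive stable length. -/
theorem TLOX (h1 : Stmt_TTYPES) (h2 : Stmt_ALC) (h3 : Stmt_TBEAX) (h4 : Stmt_QTB)
    (h5 : Stmt_TLL) : Stmt_TLOX := by
  intro η η1 C a0 L0 Ca
  obtain ⟨E, -, hE⟩ := h1 η η1 C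
  obtain ⟨C10, hC10⟩ := h3 η η1 C E
  obtain ⟨U1, hU1⟩ := hE a0 L0 Ca
  obtain ⟨U2, hU2⟩ := hC10 a0 L0 Ca
  refine ⟨max U1 U2, ?_⟩
  intro G G' X S A' _ _ _ _ _ N n d u L Y d' π q hLQ x
  obtain ⟨hgm, hiso, hhyp, hps, hap, hcs, -⟩ := h4 G G' X S A' N n d u L Y η η1 C d' π q
    hLQ.toQT
  obtain ⟨h51, -, -⟩ := h5 G G' X S A' N n d u L Y η η1 C d' π q a0 L0 Ca hLQ.toQT hLQ.lev
  rcases hU1 G G' X S A' N n d u L Y d' π q (hLQ.mono (le_max_left _ _)) x with
    ⟨v, hv⟩ | ⟨t, ht, hang⟩ | ⟨g, o, hg, ho⟩ | hD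
  · exact Or.inl (h51 x v hv)
  · obtain ⟨-, hs, h2', -⟩ := h2 G' A' d' (q '' apx X S) (cq (cd d u Y) (cdX d) q) (C * u) hps
      hiso hap hcs x t ht hang
    right
    rw [hs]
    have : 0 < d' t (x • t) := by omega
    exact_mod_cast this
  · rcases hLQ.lev.lox g with hgn | hpos
    · left
      rw [← hg, ← map_pow, hgn, map_one]
    · by_cases hfix : ∃ s : S, g • s = s
      · obtain ⟨s, hs⟩ := hfix
        left
        refine h51 x (q (Sum.inr s)) ?_
        rw [← hg, ← hLQ.quot.equiv, Sum.smul_inr, hs]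
      · push Not at hfix
        right
        have hb := (hU2 G G' X S A' N n d u L Y d' π q (hLQ.mono (le_max_right _ _)) g o hpos
          hfix ho).2
        rw [hg] at hb
        by_contra hcon
        have h0 : slen d' x = 0 := le_antisymm (not_lt.mp hcon) (IsomAct.slen_nonneg x)
        rw [h0, mul_zero] at hb
        exact absurd hpos (not_lt.mpr hb)
  · right
    obtain ⟨v⟩ := hLQ.lev.ne
    have : Nonempty A' := ⟨q (Sum.inl v)⟩
    have h7 := IsomAct.disp_le_slen (G := G') hiso hhyp hgm x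
    have h8 : ((DD : ℕ) : ℝ) < (disp d' x : ℕ) := by exact_mod_cast hD
    have h9 : ((DD : ℕ) : ℝ) = 100 * dl + 100 := by
      unfold DD
      push_cast
      ring
    have h10 : (0 : ℝ) ≤ dl := Nat.cast_nonneg _
    rw [h9] at h8
    linarith

end Pool.Agent.Ady
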