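import Pool.Agent.Ady.Stmts
import Pool.Agent.Olsh.Line

/-!
# MP_9e15c1_al, E-half, module TMAL: torsion, malnormality of centralisers, no inversions

`TMAL`: from the invariants `LevT` of a level (torsion of odd exponent `n`): torsion elements are
exactly the elements of stable length zero, an element of stable length zero commuting with a
loxodromic element is trivial, centralisers of loxodromic elements are malnormal, and no
loxodromic element is conjugate to its inverse.
-/

set_option autoImplicit false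

namespace Pool.Agent.Ady

open Pool.Agent.Olsh

namespace TMAL

variable {G X : Type} [Group G] [MulAction G X] {n : ℕ} {d : X → X → ℕ} {a0 L0 Ca : ℕ}

theorem slen_one (h : LevT G n d a0 L0 Ca) : slen d (1 : G) = 0 := by
  have := h.ne
  have h1 := h.isom.slen_pow h.gm (1 : G) 0
  simpa using h1

/-- (1) torsion elements have stable length zero. -/
theorem slen_of_torsion (h : LevT G n d a0 L0 Ca) (g : G) (hg : g ^ n = 1) : slen d g = 0 := by
  have := h.ne
  have h1 := h.isom.slen_pow h.gm g n
  rw [hg, slen_one h] at h1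
  have h2 : (n : ℝ) ≠ 0 := by
    have : n ≠ 0 := by
      intro h0
      have := h.odd
      rw [h0] at this
      exact absurd this (by decide)
    exact_mod_cast this
  rcases mul_eq_zero.mp h1.symm with h3 | h3
  · exact absurd h3 h2
  · exact h3

/-- (2) elements of stable length zero are torsion. -/
theorem torsion_of_slen (h : LevT G n d a0 L0 Ca) (g : G) (hg : slen d g = 0) : g ^ n = 1 := by
  rcases h.lox g with h1 | h1
  · exact h1
  · rw [hg] at h1
    exact absurd h1 (lt_irrefl 0)

/-- (3) an element of stable length zero commuting with a loxodromic element is trivial. -/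
theorem eq_one (h : LevT G n d a0 L0 Ca) (ha0 : 16 * dl ≤ a0) (a t : G) (ha : 0 < slen d a)
    (hc : a * t = t * a) (ht : slen d t = 0) : t = 1 := by
  have := h.ne
  obtain ⟨z, hz⟩ := IsomAct.Ax_nonempty (d := d) DD a
  have hDD : 7 * dl + 2 ≤ DD := by
    unfold DD
    omega
  have hmv : ∀ y ∈ Ax DD d a, d y (t • y) ≤ a0 := by
    intro y hy
    have h1 := h.isom.ax_dist_le h.hyp h.gm hDD ha (h := t) hc.symm hy
    rw [ht, zero_add] at h1
    have h2 : d y (t • y) ≤ 16 * dl := by exact_mod_cast h1
    omega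
  have hinv : ∀ m : ℕ, (a ^ m) • z ∈ Ax DD d a := by
    intro m
    exact (h.isom.smul_mem_Ax_of_commute DD (Commute.pow_self a m) z).2 hz
  obtain ⟨m, hm⟩ := exists_nat_gt ((L0 : ℝ) / slen d a)
  have hfar : L0 ≤ d z ((a ^ m) • z) := by
    have h1 := IsomAct.slen_mul_le (d := d) a z m
    rw [div_lt_iff₀ ha] at hm
    have h2 : (L0 : ℝ) ≤ (d z ((a ^ m) • z) : ℝ) := by linarith
    exact_mod_cast h2
  rcases h.wt t z ((a ^ m) • z) (hmv z hz) (hmv _ (hinv m)) hfar with h1 | h1
  · exact h1
  · rw [ht] at h1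
    exact absurd h1 (lt_irrefl 0)

/-- (4) malnormality of centralisers. -/
theorem malnormal (h1 : Stmt_TADD) (h : LevT G n d a0 L0 Ca) (ha0 : 16 * dl ≤ a0) (a b : G)
    (ha : 0 < slen d a) (hab : a * (b * a * b⁻¹) = (b * a * b⁻¹) * a) : a * b = b * a := by
  have := h.ne
  have hs : slen d a = slen d (b * a * b⁻¹) := (h.isom.slen_conj a b).symm
  rcases h1 dl G X d h.gm h.hyp h.isom h.ne a (b * a * b⁻¹) hab hs with h2 | h2
  · -- `b a b⁻¹ = a⁻¹`
    have h3 : a * (b * a * b⁻¹) = 1 := by
      refine eq_one h ha0 a _ ha ?_ h2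
      have hc : Commute a (b * a * b⁻¹) := hab
      exact ((Commute.refl a).mul_right hc).eq
    have h4 : b * a * b⁻¹ = a⁻¹ := (inv_eq_of_mul_eq_one_right h3).symm
    have h5 : b * a = a⁻¹ * b := by
      rw [← h4]
      group
    have h6 : b ^ 2 * a = a * b ^ 2 := by
      have h7 : b * a⁻¹ = a * b := by
        have h8 : a * (b * a) = b := by
          rw [h5]
          group
        calc b * a⁻¹ = (a * (b * a)) * a⁻¹ := by rw [h8]
          _ = a * b := by group
      calc b ^ 2 * a = b * (b * a) := by rw [pow_two, mul_assoc]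
        _ = (b * a⁻¹) * b := by rw [h5, mul_assoc]
        _ = a * b ^ 2 := by rw [h7, pow_two, mul_assoc]
    rcases eq_or_ne (slen d b) 0 with hb | hb
    · -- `b` has odd order: it is a power of `b²`
      have hbn := torsion_of_slen h b hb
      obtain ⟨k, hk⟩ := h.odd
      have h7 : b = (b ^ 2) ^ (k + 1) := by
        rw [← pow_mul, show 2 * (k + 1) = n + 1 by omega, pow_succ, hbn, one_mul]
      have h8 : Commute (b ^ 2) a := h6
      have h9 : Commute ((b ^ 2) ^ (k + 1)) a := h8.pow_left _
      rw [← h7] at h9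
      exact h9.eq.symm
    · have hb' : 0 < slen d b := lt_of_le_of_ne (IsomAct.slen_nonneg b) (Ne.symm hb)
      have h7 : 0 < slen d (b ^ 2) := by
        rw [h.isom.slen_pow h.gm]
        positivity
      have h8 : b * b ^ 2 = b ^ 2 * b := by
        rw [← pow_succ, ← pow_succ']
      exact (h.csa b (b ^ 2) a h7 h8 h6).symm
  · -- `b a b⁻¹ = a`
    have h3 : a * (b * a * b⁻¹)⁻¹ = 1 := by
      refine eq_one h ha0 a _ ha ?_ h2
      have hc : Commute a (b * a * b⁻¹) := hab
      exact ((Commute.refl a).mul_right hc.inv_right).eq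
    have h4 : a = b * a * b⁻¹ := mul_inv_eq_one.mp h3
    calc a * b = (b * a * b⁻¹) * b := by rw [← h4]
      _ = b * a := by group

/-- (5) no inversions. -/
theorem no_inv (h1 : Stmt_TADD) (h : LevT G n d a0 L0 Ca) (ha0 : 16 * dl ≤ a0) (a b : G)
    (ha : 0 < slen d a) : b * a * b⁻¹ ≠ a⁻¹ := by
  intro hb
  have := h.ne
  have h2 : a * b = b * a := by
    refine malnormal h1 h ha0 a b ha ?_
    rw [hb, mul_inv_cancel, inv_mul_cancel]
  have h3 : b * a * b⁻¹ = a := by
    rw [← h2, mul_inv_cancel_right]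
  have h4 : a ^ 2 = 1 := by
    rw [pow_two]
    nth_rewrite 1 [← h3]
    rw [hb, inv_mul_cancel]
  have h5 := h.isom.slen_pow h.gm a 2
  rw [h4, slen_one h] at h5
  push_cast at h5
  linarith

end TMAL

theorem TMAL (h1 : Stmt_TADD) : Stmt_TMAL := by
  intro G X _ _ n d a0 L0 Ca h ha0
  exact ⟨TMAL.slen_of_torsion h, TMAL.torsion_of_slen h, TMAL.eq_one h ha0,
    TMAL.malnormal h1 h ha0, TMAL.no_inv h1 h ha0⟩

end Pool.Agent.Ady
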