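import Pool.Agent.Ady.Stmts
import Pool.Agent.Olsh.StmtsP
import Pool.Agent.Olsh.Line

/-!
# MP_9e15c1_al, E-half: `na` for the quotient (TNA)
-/

set_option autoImplicit false

namespace Pool.Agent.Ady

open Pool.Agent.Olsh

namespace TNA

variable {G X : Type} [Group G] [MulAction G X] {d : X → X → ℕ}

/-- The axis is invariant. -/
theorem smul_mem_AX (hG : IsomAct G d) (g : G) (z : X) : g • z ∈ AX d g ↔ z ∈ AX d g :=
  hG.smul_mem_Ax_of_commute DD (Commute.refl g) z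

/-- The nearest point of the axis to `g v`. -/
theorem pr_smul (hG : IsomAct G d) {g : G} {v w : X} (h : IsPr d (AX d g) v w) :
    IsPr d (AX d g) (g • v) (g • w) := by
  refine ⟨(smul_mem_AX hG g w).2 h.1, ?_⟩
  intro z hz
  have h1 : g⁻¹ • z ∈ AX d g := by
    rw [← smul_mem_AX hG, smul_inv_smul]
    exact hz
  have h2 := h.2 _ h1
  rw [hG]
  have h3 : d (g • v) z = d v (g⁻¹ • z) := by
    rw [← hG g v (g⁻¹ • z), smul_inv_smul]
  omega

/-- Points with an exact orbit are on the axis. -/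
theorem mem_AX_of_exact (hG : IsomAct G d) (hd : IsGM d) {x : G} {s : X}
    (h1 : ∀ n : ℕ, d s (x ^ n • s) = n * d s (x • s)) (h2 : slen d x = d s (x • s)) :
    s ∈ AX d x := by
  have hne : Nonempty X := ⟨s⟩
  show d s (x ^ axPow DD d x • s) = disp d (x ^ axPow DD d x)
  set m := axPow DD d x
  have h3 := disp_le (d := d) (x ^ m) s
  have h4 : slen d (x ^ m) ≤ (disp d (x ^ m) : ℝ) := IsomAct.slen_le_disp (d := d) (x ^ m)
  rw [hG.slen_pow hd, h2] at h4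
  have h5 : (m : ℝ) * (d s (x • s) : ℕ) = ((d s (x ^ m • s) : ℕ) : ℝ) := by
    rw [h1 m]
    push_cast
    ring
  rw [h5] at h4
  have h6 : d s (x ^ m • s) ≤ disp d (x ^ m) := by exact_mod_cast h4
  omega

end TNA

/-- TNA: displacement grows with the distance from the axis. -/
theorem TNA (h1 : Stmt_QTB) (h2 : Stmt_LIFT2) (h3 : Stmt_BIGX) (h4 : Stmt_ALC) (h5 : Stmt_TLL)
    (h6 : Stmt_AXIM) (h7 : Stmt_NAG) (h8 : Stmt_CONEA) (h9 : Stmt_CONEGM) (h10 : Stmt_PROJ) :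
    Stmt_TNA := by
  intro η η1 C
  obtain ⟨D0, h7⟩ := h7
  obtain ⟨CP, h10⟩ := h10 dl (59 * dl + 5)
  obtain ⟨B, N0, κ, F, h2⟩ := h2 η η1 C
  obtain ⟨KA, h6⟩ := h6 η η1 C
  set D := D0 + CP with hD
  set K := 3 * D + κ D + KA + kl + 20 with hK
  set R := 2 * N0 D + 10 with hR
  obtain ⟨CA, h7⟩ := h7 (F D K R)
  refine ⟨CA, ?_⟩
  intro a0 L0 Ca
  obtain ⟨U1, h2⟩ := h2 a0 L0 Ca
  obtain ⟨U2, h6⟩ := h6 (κ D) a0 L0 Ca
  refine ⟨U1 + U2 + Ca, ?_⟩
  intro G G' X S A' _ _ _ _ _ N n d u L Y d' π q hLQ x v0 hx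
  obtain ⟨hgm, hiso, hhyp, hps, hap, hcs, -⟩ := h1 G G' X S A' N n d u L Y η η1 C d' π q
    hLQ.toQT
  obtain ⟨htl1, htl2, htl3⟩ := h5 G G' X S A' N n d u L Y η η1 C d' π q a0 L0 Ca hLQ.toQT
    hLQ.lev
  have hP := hLQ.qn.conep
  have hd := hP.gm
  have hu1 := hP.one_le
  have hU := hLQ.hu
  obtain ⟨hcgm, -, hcle⟩ := h9 X S d u Y hP.gm hP.one_le hP.ne
  have hneX := hLQ.lev.ne
  have hne : Nonempty A' := ⟨q (Sum.inl hneX.some)⟩
  refine h7 G' A' d' hgm hhyp hiso hne x hx ?_ v0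
  intro v hv
  -- the nearest point
  have hAXne : (AX d' x).Nonempty := IsomAct.Ax_nonempty DD x
  obtain ⟨w0, hw0⟩ := exists_proj (d := d') hAXne v
  refine ⟨w0, hw0.1, ?_⟩
  by_contra hcon
  push Not at hcon
  have hqc : QC d' (59 * dl + 5) (AX d' x) := hiso.ax_qconv hhyp hgm (by unfold DD; omega) hx
  have hpr : IsPr d' (AX d' x) v w0 := hw0
  have hpr2 : IsPr d' (AX d' x) (x • v) (x • w0) := TNA.pr_smul hiso hpr
  have hw0D : d' w0 (x • w0) ≤ D := by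
    have := (h10 A' d' (AX d' x) hgm hhyp hqc v (x • v) w0 (x • w0) hpr hpr2).2.1
    omega
  rcases h2 G G' X S A' N n d u L Y d' π q (hLQ.mono (by omega)) D K R v w0 hcon.le with
    ⟨s, hs, hbt, hvs, hsw, hang⟩ | ⟨p1, q1, p2, q2, hb1, hb2, hk1, hk2, hq1, hq2, hcd, hangC, hRu,
      hlift⟩
  · rcases h3 G' A' d' (q '' apx X S) (cq (cd d u Y) (cdX d) q) (C * u) hps hiso hap hcs x D v w0
      s hs (by omega) hw0D (by omega) (by omega) (by unfold angQ at hang; omega) with hfix | hbig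
    · have e1 := htl2 x (htl1 x s hfix)
      rw [e1] at hx
      exact lt_irrefl _ hx
    · obtain ⟨hex, hsl, -, -⟩ := h4 G' A' d' (q '' apx X S) (cq (cd d u Y) (cdX d) q) (C * u)
        hps hiso hap hcs x s hs hbig
      have hmem := TNA.mem_AX_of_exact hiso hgm hex hsl
      have e2 := hpr.2 s hmem
      unfold Bt at hbt
      omega
  · obtain ⟨e1, he1, hmove⟩ := hlift x (by omega) hw0D
    rw [← he1] at hx
    obtain ⟨hpos, -⟩ := htl3 e1 hx
    have e2 : R * u = 2 * (N0 D * u) + 10 * u := by rw [hR]; ring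
    rw [e2] at hRu
    obtain ⟨z, hz, hz'⟩ := hd.exists_bt p2 q2 (N0 D * u + 1) (by omega)
    have m1 : d z (e1 • z) ≤ κ D * u := hmove z hz (by omega) (by unfold Bt at hz; omega)
    obtain ⟨y, hy, hy'⟩ := hLQ.lev.na e1 z hpos
    have e3 : (κ D + 1) * u = κ D * u + u := by ring
    have hzy : d z y ≤ (κ D + 1) * u := by omega
    have hczy := hcle (κ D + 1) z y hzy
    obtain ⟨hax, -⟩ := h6 G G' X S A' N n d u L Y d' π q (hLQ.mono (by omega)) e1 z hx m1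
    obtain ⟨p, hp, hp'⟩ := hax y hy
    obtain ⟨-, hcone⟩ := h8 X S d u η Y hd hP.hyp hP.ne hP.qc hu1 hP.dl_le hP.eta_le
    obtain ⟨σ, hσ0, hσm, hσ⟩ := hcgm.exists_geo (Sum.inl p2) (Sum.inl q2)
    obtain ⟨i, hi, hi'⟩ := (hcone (Sum.inl p2) (Sum.inl q2) p2 q2 rfl rfl).1 z hz _ σ hσ hσ0 hσm
    -- the point `t = q (σ i)`
    have j1 := hLQ.quot.le (Sum.inl p2) (σ i)
    have j2 := hLQ.quot.le (σ i) (Sum.inl q2)
    have j3 := hσ 0 i (by omega) hi
    have j4 := hσ i _ hi le_rfl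
    rw [hσ0] at j3
    rw [hσm] at j4
    rw [hq1] at j1
    rw [hq2] at j2
    have j5 := hLQ.quot.le (Sum.inl z) (σ i)
    have j6 := hLQ.quot.le (Sum.inl z) (Sum.inl y)
    have j7 := hgm.tri p1 (q (σ i)) q1
    have j8 := hgm.tri (q (σ i)) (q (Sum.inl z)) p
    have j9 := hgm.tri (q (Sum.inl z)) (q (Sum.inl y)) p
    have j10 := hgm.comm (q (σ i)) (q (Sum.inl z))
    have j11 := hgm.tri v p1 (q (σ i))
    have j12 := hgm.tri (q (σ i)) q1 w0
    have j13 := hgm.tri v (q (σ i)) w0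
    have j14 := hgm.tri v (q (σ i)) p
    have j15 := hgm.tri p1 q1 w0
    have hp2 : p ∈ AX d' x := by rw [← he1]; exact hp
    have j16 := hpr.2 p hp2
    unfold Bt at *
    omega

end Pool.Agent.Ady
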