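import Pool.Agent.Ady.Stmts

/-!
# MP_9e15c1_al: TNU1, short loxodromic elements of the quotient have short lifts
-/

set_option autoImplicit false

namespace Pool.Agent.Ady

open Pool.Agent.Olsh

theorem TNU1 (h1 : Stmt_TTYPES) (h2 : Stmt_ALC) (h3 : Stmt_TBEAX) (h4 : Stmt_QTB)
    (h5 : Stmt_TLL) : Stmt_TNU1 := by
  intro η η1 C
  obtain ⟨E, hE, h1⟩ := h1 η η1 C
  obtain ⟨C10, h3⟩ := h3 η η1 C E
  refine ⟨2 * C10 + 1, by omega, ?_⟩
  intro a0 L0 Ca
  obtain ⟨U1, h1⟩ := h1 a0 L0 Ca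
  obtain ⟨U2, h3⟩ := h3 a0 L0 Ca
  refine ⟨max (max U1 U2) (12 * dl + 4), ?_⟩
  intro G G' X S A' _ _ _ _ _ N n d u L Y d' π q hq x hx
  have hq1 := hq.mono (U' := U1) ((le_max_left _ _).trans (le_max_left _ _))
  have hq2 := hq.mono (U' := U2) ((le_max_right _ _).trans (le_max_left _ _))
  have hu : 12 * dl + 4 ≤ u := (le_max_right _ _).trans hq.hu
  have hV : (((2 * C10 + 1 : ℕ)) : ℝ) = 2 * C10 + 1 := by push_cast; ring
  have hC10 : (0 : ℝ) ≤ C10 := by positivity
  have hsl := IsomAct.slen_nonneg (d := d') x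
  obtain ⟨hgm', his', hhyp', hps, hap, hcs, -⟩ :=
    h4 G G' X S A' N n d u L Y η η1 C d' π q hq.toQT
  obtain ⟨l1, l2, l3⟩ := h5 G G' X S A' N n d u L Y η η1 C d' π q a0 L0 Ca hq.toQT hq.lev
  have : Nonempty X := hq.lev.ne
  have : Nonempty A' := ⟨q (Sum.inl (Classical.arbitrary X))⟩
  rcases h1 G G' X S A' N n d u L Y d' π q hq1 x with
    ⟨v, hv⟩ | ⟨t, ht, hang⟩ | ⟨g, o, hg, ho⟩ | hga
  · have := l2 x (l1 x v hv)
    exact absurd this hx.ne'
  · left
    obtain ⟨-, hs, h22, -⟩ := h2 G' A' d' (q '' apx X S) (cq (cd d u Y) (cdX d) q) (C * u) hps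
      his' hap hcs x t ht hang
    have h22' : (2 : ℝ) ≤ slen d' x := by rw [hs]; exact_mod_cast h22
    rw [hV]
    nlinarith
  · by_cases hd : disp d g ≤ u
    · right
      obtain ⟨v, hv⟩ := Mn_nonempty (d := d) g
      exact ⟨g, v, hg, by rw [one_mul]; exact (le_of_eq hv).trans hd⟩
    · left
      push Not at hd
      obtain ⟨hg0, hgs⟩ := l3 g (by rw [hg]; exact hx)
      have e1 : (disp d g : ℝ) ≤ slen d g + (6 * dl + 2) :=
        IsomAct.disp_le_slen hq.lev.isom hq.lev.hyp hq.lev.gm g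
      have e2 := (h3 G G' X S A' N n d u L Y d' π q hq2 g o hg0 hgs ho).2
      rw [hg] at e2
      have e3 : (u : ℝ) ≤ disp d g := by exact_mod_cast hd.le
      have e4 : (12 : ℝ) * dl + 4 ≤ u := by exact_mod_cast hu
      have hu0 : (0 : ℝ) < u := by
        have : (0 : ℝ) ≤ dl := by positivity
        linarith
      have e5 : (u : ℝ) ≤ u * (2 * C10 * slen d' x) := by nlinarith
      have e6 : (1 : ℝ) ≤ 2 * C10 * slen d' x := by
        by_contra hc
        push Not at hc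
        have := mul_lt_mul_of_pos_left hc hu0
        linarith
      rw [hV]
      nlinarith
  · left
    have e1 : (disp d' x : ℝ) ≤ slen d' x + (6 * dl + 2) :=
      IsomAct.disp_le_slen his' hhyp' hgm' x
    have e2 : ((100 * dl + 100 : ℕ) : ℝ) < disp d' x := by
      have : 100 * dl + 100 < disp d' x := hga
      exact_mod_cast this
    push_cast at e2
    have e3 : (0 : ℝ) ≤ dl := by positivity
    have e4 : (1 : ℝ) ≤ slen d' x := by linarith
    rw [hV]
    nlinarith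

end Pool.Agent.Ady
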