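import Pool.Agent.Ady.Stmts
import Pool.Agent.Olsh.OV

/-!
# TOV (C5): two elements which move two far points by a bounded amount commute
-/

set_option autoImplicit false

namespace Pool.Agent.Ady

open Pool.Agent.Olsh

open Pool.Agent.Olsh.OV in
/-- C5 (TOV) -/
theorem TOV (h1 : Stmt_OVT1) (h2 : Stmt_TMAL) : Stmt_TOV := by
  obtain ⟨A1, C1, k1⟩ := h1
  refine ⟨A1 + 56 * dl, C1 + 64 * dl + 10, ?_⟩
  intro G X _ _ n d a0 L0 Ca hL hA
  have hd := hL.gm
  have hh := hL.hyp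
  have hG := hL.isom
  constructor
  · intro g h p q al be hgp hgq hhp hhq hn
    obtain ⟨m, hm1, hm2, hm3⟩ : ∃ m : ℕ, al ≤ m ∧ be ≤ m ∧ m ≤ al + be :=
      ⟨max al be, le_max_left _ _, le_max_right _ _, by omega⟩
    have inv : ∀ (γ : G) (v : X) (a : ℕ), d v (γ • v) ≤ a → d v (γ⁻¹ • v) ≤ a := by
      intro γ v a ha
      have h1 := hG.inv γ v v
      have h2 := hd.comm (γ⁻¹ • v) v
      omega
    obtain ⟨sg, g1, g2, g3⟩ := exists_good hG hh hd hm1 hgp hgq (by omega)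
    obtain ⟨sg', g1', g2', g3'⟩ := exists_good hG hh hd hm1 (inv g p al hgp) (inv g q al hgq)
      (by omega)
    obtain ⟨sh, h1, h2', h3⟩ := exists_good hG hh hd hm2 hhp hhq (by omega)
    obtain ⟨sh', h1', h2'', h3'⟩ := exists_good hG hh hd hm2 (inv h p be hhp) (inv h q be hhq)
      (by omega)
    obtain ⟨i1, i2⟩ := good_inv hd g3 g3' (by omega) (by omega) (by omega)
    obtain ⟨i3, i4⟩ := good_inv hd h3 h3' (by omega) (by omega) (by omega)
    obtain ⟨P, Q, p1, p2, p3, p4, p5⟩ := two_points (L0 := L0) hG hh hd g3 g3' h3 h3' g3' i1 i2 i3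
      i4 i1 i2 g1 g2 h1 h2' (by omega) (by omega) hm3 (by omega)
    obtain ⟨P', Q', q1, q2, q3, q4, q5⟩ := two_points (L0 := L0) hG hh hd g3 g3' h3 h3' h3' i1 i2
      i3 i4 i3 i4 g1 g2 h1 h2' (by omega) (by omega) hm3 (by omega)
    set u : G := g * h * g⁻¹ * h⁻¹ with hu
    have hA' : 38 * dl ≤ a0 := by omega
    have w1 := hL.wa u (g * u * g⁻¹) P Q (p2.trans hA') (p3.trans hA') (p4.trans hA')
      (p5.trans hA') p1
    have w2 := hL.wa u (h * u * h⁻¹) P' Q' (q2.trans hA') (q3.trans hA') (q4.trans hA')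
      (q5.trans hA') q1
    rcases hL.wt u P Q (p2.trans hA') (p3.trans hA') p1 with hu1 | hu1
    · have e : g * h * g⁻¹ * h⁻¹ = 1 := by rw [← hu, hu1]
      have e2 : g * h = (g * h * g⁻¹ * h⁻¹) * (h * g) := by group
      rw [e2, e, one_mul]
    · have hM := (h2 G X n d a0 L0 Ca hL (by omega)).2.2.2.1
      have v1 := hM u g hu1 w1
      have v2 := hM u h hu1 w2
      exact hL.csa g u h hu1 v1.symm v2
  · intro g p q al hgp hgq hn
    exact k1 G X d hd hh hG a0 L0 (by omega) hL.wt g p q al hgp hgq (by omega)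

end Pool.Agent.Ady
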