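import Pool.Agent.Ady.Stmts

/-!
# MP_9e15c1_al, C6: axes of non-commuting loxodromic elements have small overlap
-/

set_option autoImplicit false

namespace Pool.Agent.Ady

open Pool.Agent.Olsh

namespace TOVAX

theorem move {G X : Type} [Group G] [MulAction G X] {n : ℕ} {d : X → X → ℕ} {a0 L0 Ca : ℕ}
    (hL : LevT G n d a0 L0 Ca) {a : G} (ha : 0 < slen d a) {r : ℕ} {p : X}
    (hp : p ∈ Nd d r (AX d a)) : d p (a • p) ≤ ⌊slen d a + 16 * dl⌋₊ + 2 * r := by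
  obtain ⟨y, hy, hpy⟩ := hp
  have h1 : (d y (a • y) : ℝ) ≤ slen d a + 16 * dl :=
    hL.isom.ax_dist_le hL.hyp hL.gm (by unfold DD; omega) ha (Commute.refl a) hy
  have h2 : d y (a • y) ≤ ⌊slen d a + 16 * dl⌋₊ := Nat.le_floor h1
  have h3 := hL.gm.tri p y (a • p)
  have h4 := hL.gm.tri y (a • y) (a • p)
  have h5 := hL.isom a y p
  have h6 := hL.gm.comm y p
  omega

end TOVAX

open TOVAX in
theorem TOVAX (h1 : Stmt_TOV) : Stmt_TOVAX := by
  obtain ⟨A, C0, h⟩ := h1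
  refine ⟨A, fun r => ⟨128 * dl + 16 * r + C0, ?_⟩⟩
  intro G X _ _ n d a0 L0 Ca hL hA a b p q ha hb hab hpa hqa hpb hqb
  have h2 := (h G X n d a0 L0 Ca hL hA).1 a b p q _ _ (move hL ha hpa) (move hL ha hqa)
    (move hL hb hpb) (move hL hb hqb)
  have h3 : d p q < 4 * (⌊slen d a + 16 * dl⌋₊ + 2 * r + (⌊slen d b + 16 * dl⌋₊ + 2 * r))
      + 2 * L0 + C0 := by
    by_contra hne
    exact hab (h2 (by omega))
  have h4 : (d p q : ℝ) ≤ 4 * ((⌊slen d a + 16 * dl⌋₊ : ℝ) + 2 * r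
      + ((⌊slen d b + 16 * dl⌋₊ : ℝ) + 2 * r)) + 2 * L0 + C0 := by exact_mod_cast h3.le
  have h5 : (⌊slen d a + 16 * dl⌋₊ : ℝ) ≤ slen d a + 16 * dl :=
    Nat.floor_le (by positivity)
  have h6 : (⌊slen d b + 16 * dl⌋₊ : ℝ) ≤ slen d b + 16 * dl :=
    Nat.floor_le (by positivity)
  push_cast
  linarith

end Pool.Agent.Ady
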