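import Pool.Agent.Ady.Stmts
import Pool.Agent.Olsh.CONEISO

/-!
# MP_9e15c1_al, module TRT: equivariant lifting of two translations
-/

set_option autoImplicit false

namespace Pool.Agent.Ady

open Pool.Agent.Olsh

namespace TRT

/-- Angles are preserved by the action. -/
theorem ang_smul {G A : Type} [Group G] [MulAction G A] {d : A → A → ℕ} {ap : Set A}
    {c : A → A → A → ℕ} (hI : Isom G d) (hc : ∀ (g : G), ∀ s ∈ ap, ∀ y y', d y s = 1 →
    d y' s = 1 → c (g • s) (g • y) (g • y') = c s y y') (g : G) {s : A} (hs : s ∈ ap)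
    (a b : A) : ang d c (g • s) (g • a) (g • b) = ang d c s a b := by
  have nbs : ∀ (g : G) (s a y : A), y ∈ Nb d s a → g • y ∈ Nb d (g • s) (g • a) := by
    rintro g s a y ⟨h1, h2⟩
    refine ⟨?_, ?_⟩
    · rw [hI]; exact h1
    · rw [hI, hI]; exact h2
  have hset : {n | ∃ y ∈ Nb d (g • s) (g • a), ∃ y' ∈ Nb d (g • s) (g • b), n = c (g • s) y y'} =
      {n | ∃ y ∈ Nb d s a, ∃ y' ∈ Nb d s b, n = c s y y'} := by
    ext n
    constructor
    · rintro ⟨y, hy, y', hy', rfl⟩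
      have h1 := nbs g⁻¹ _ _ _ hy
      have h2 := nbs g⁻¹ _ _ _ hy'
      rw [inv_smul_smul, inv_smul_smul] at h1 h2
      refine ⟨g⁻¹ • y, h1, g⁻¹ • y', h2, ?_⟩
      have h3 := hc g s hs (g⁻¹ • y) (g⁻¹ • y') h1.1 h2.1
      rw [smul_inv_smul, smul_inv_smul] at h3
      exact h3
    · rintro ⟨y, hy, y', hy', rfl⟩
      exact ⟨g • y, nbs g _ _ _ hy, g • y', nbs g _ _ _ hy',
        (hc g s hs y y' hy.1 hy'.1).symm⟩
  unfold ang
  rw [hset]

/-- The group preserves the pseudo-metrics on the neighbours of the apexes. -/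
theorem cdX_smul {G X S : Type} [Group G] [MulAction G X] [MulAction G S] {d : X → X → ℕ}
    (hI : IsomAct G d) (g : G) (s y y' : X ⊕ S) :
    cdX d (g • s) (g • y) (g • y') = cdX d s y y' := by
  rcases y with v | t <;> rcases y' with w | t'
  · exact hI g v w
  · rfl
  · rfl
  · rfl

theorem apx_smul {G X S : Type} [Group G] [MulAction G X] [MulAction G S] (g : G) (s : X ⊕ S) :
    g • s ∈ apx X S ↔ s ∈ apx X S := by
  rcases s with v | t
  · constructor
    · rintro ⟨t, ht⟩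
      exact absurd ht (by simp [Sum.smul_inl])
    · rintro ⟨t, ht⟩
      exact absurd ht (by simp)
  · exact ⟨fun _ => ⟨t, rfl⟩, fun _ => ⟨g • t, rfl⟩⟩

end TRT

theorem TRT (h1 : Stmt_TR) : Stmt_TRT := by
  intro G G' X S A' _ _ _ _ _ N n d u L Y η η1 C d' π q h a b a' b' ha hb ha' hb' hang g'
  obtain ⟨g0, hg0⟩ := h.quot.surjG g'
  have hI : Isom G (cd d u Y) := CONEISO G X S d u Y h.isom h.Ysmul
  have hc : ∀ (g : G), ∀ s ∈ apx X S, ∀ y y', cd d u Y y s = 1 → cd d u Y y' s = 1 →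
      cdX d (g • s) (g • y) (g • y') = cdX d s y y' := fun g s _ y y' _ _ =>
    TRT.cdX_smul h.isom g s y y'
  have key := h1 N (X ⊕ S) Unit A' (cd d u Y) (apx X S) (cdX d) (C * u) L d' (1 : N →* Unit) q
    h.qn.rotc h.qn.quot a b (g0 • a') (g0 • b') ha hb (fun hx => ha' ((TRT.apx_smul g0 a').1 hx))
    (fun hx => hb' ((TRT.apx_smul g0 b').1 hx)) ?_ ()
  · obtain ⟨k, -, hk1, hk2⟩ := key
    have e1 : ∀ x : X ⊕ S, k • x = (k : G) • x := by
      intro x
      rcases x with x | x <;> rfl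
    have e2 : ∀ x : X ⊕ S, q (g0 • x) = g' • q x := by
      intro x
      rw [h.quot.equiv, hg0]
    refine ⟨(k : G) * g0, ?_, ?_, ?_⟩
    · rw [map_mul, (h.quot.ker k).2 k.2, one_mul, hg0]
    · rw [mul_smul, ← e1, hk1, ← e2]
      rfl
    · rw [mul_smul, ← e1, hk2, ← e2]
      rfl
  · intro s hs
    refine ⟨(hang s hs).1, ?_⟩
    have hs' : g0⁻¹ • s ∈ apx X S := (TRT.apx_smul g0⁻¹ s).2 hs
    have h2 := TRT.ang_smul hI hc g0 hs' a' b'
    rw [smul_inv_smul] at h2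
    rw [h2]
    exact (hang _ hs').2

end Pool.Agent.Ady
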