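import Pool.Agent.Ady.Stmts

/-!
# MP_9e15c1_al: the transfer theorem (assembly)
-/

set_option autoImplicit false

namespace Pool.Agent.Ady

open Pool.Agent.Olsh

/-- The transfer theorem. -/
theorem TTRANSFER (h1 : Stmt_QTB) (h2 : Stmt_TLOX) (h3 : Stmt_TWT) (h4 : Stmt_TGWA)
    (h5 : Stmt_TCSA) (h6 : Stmt_TNA) : Stmt_TTRANSFER := by
  intro η η1 C
  obtain ⟨A3, h3⟩ := h3 η η1 C
  choose F3 h3 using h3
  obtain ⟨A4, F4, h4⟩ := h4 η η1 C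
  obtain ⟨A5, h5⟩ := h5 η η1 C
  obtain ⟨CA, h6⟩ := h6 η η1 C
  refine ⟨A3 + A4 + A5, fun a => F3 a + F4 a, CA, ?_⟩
  intro a0 L0 Ca hA hF hCA
  obtain ⟨U2, h2⟩ := h2 η η1 C a0 L0 Ca
  obtain ⟨U3, h3⟩ := h3 a0 a0 L0 Ca (by omega)
  obtain ⟨U4, h4⟩ := h4 a0 L0 Ca (by omega)
  obtain ⟨U5, h5⟩ := h5 a0 L0 Ca (by omega)
  obtain ⟨U6, h6⟩ := h6 a0 L0 Ca
  refine ⟨U2 + U3 + U4 + U5 + U6, ?_⟩
  intro G G' X S A' _ _ _ _ _ N n d u L Y d' π q H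
  obtain ⟨hgm, hisom, hhyp, -⟩ := h1 G G' X S A' N n d u L Y η η1 C d' π q H.toQT
  have hF' : F3 a0 + F4 a0 ≤ L0 := hF
  obtain ⟨v0⟩ := H.lev.ne
  exact
    { gm := hgm
      hyp := hhyp
      isom := hisom
      ne := ⟨q (Sum.inl v0)⟩
      odd := H.odd
      lox := h2 G G' X S A' N n d u L Y d' π q (H.mono (by omega))
      wt := fun g p q' e1 e2 e3 =>
        h3 G G' X S A' N n d u L Y d' π q (H.mono (by omega)) g p q' e1 e2 (by omega)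
      wa := fun g h p q' e1 e2 e3 e4 e5 =>
        h4 G G' X S A' N n d u L Y d' π q (H.mono (by omega)) a0 g h p q' e1 e2 e3 e4 (by omega)
      csa := h5 G G' X S A' N n d u L Y d' π q (H.mono (by omega))
      na := fun g v hg => by
        obtain ⟨y, hy, hy'⟩ := h6 G G' X S A' N n d u L Y d' π q (H.mono (by omega)) g v hg
        exact ⟨y, hy, by omega⟩ }

end Pool.Agent.Ady
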