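import Pool.Agent.Ady.Stmts

/-!
# MP_9e15c1_al, E-half: C8, the types of elements of the quotient
-/

set_option autoImplicit false

namespace Pool.Agent.Ady

open Pool.Agent.Olsh

namespace TTYPES

/-- A vertex of minimal displacement which is not an apex, for an element without fixed vertex. -/
theorem exists_min {G' A' : Type} [Group G'] [MulAction G' A'] {d' : A' → A' → ℕ} {ap : Set A'}
    {c : A' → A' → A' → ℕ} {T0 : ℕ} (hps : IsPS d' ap c T0) (hiso : IsomAct G' d')
    (hne : Nonempty A') (x : G') (hx : ∀ v : A', x • v ≠ v) :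
    ∃ o : A', o ∉ ap ∧ d' o (x • o) = disp d' x := by
  have h1 : (Set.range fun v : A' => d' v (x • v)).Nonempty := Set.range_nonempty _
  obtain ⟨o, ho⟩ := Nat.sInf_mem h1
  have ho' : d' o (x • o) = disp d' x := ho
  by_cases hap : o ∈ ap
  · have hpos : 1 ≤ d' o (x • o) := by
      rcases Nat.eq_zero_or_pos (d' o (x • o)) with h | h
      · exact absurd (hps.gm.eq_of_zero h).symm (hx o)
      · exact h
    obtain ⟨z, hz1, hz2⟩ := hps.gm.mid o (x • o) 1 hpos
    refine ⟨z, fun hz => hps.nadj o hap z hz hz1, ?_⟩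
    have h2 := hps.gm.tri z (x • o) (x • z)
    have h3 := hiso x o z
    have h4 : disp d' x ≤ d' z (x • z) := Nat.sInf_le ⟨z, rfl⟩
    omega
  · exact ⟨o, hap, ho'⟩

end TTYPES

open TTYPES in
/-- **TTYPES** (C8): the types of elements of the quotient. -/
theorem TTYPES (h1 : Stmt_PSA) (h2 : Stmt_QTB) (h4 : Stmt_DICH) (h5 : Stmt_LEN) :
    Stmt_TTYPES := by
  intro η η1 C
  obtain ⟨C', hC'⟩ := h4 η η1 C
  refine ⟨DD * (24 * C + C' + 1), ?_, ?_⟩
  · have : 0 < DD := by unfold DD; omega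
    exact Nat.mul_pos this (by omega)
  intro a0 L0 Ca
  refine ⟨C', ?_⟩
  intro G G' X S A' _ _ _ _ _ N n d u L Y d' π q hq x
  by_cases hx : ∃ v : A', x • v = v
  · exact Or.inl hx
  right
  have hx' : ∀ v : A', x • v ≠ v := fun v hv => hx ⟨v, hv⟩
  by_cases hD : DD < disp d' x
  · right; right; exact hD
  obtain ⟨hgm', hiso', -, hps, hapsm, -, -, -, -⟩ := h2 G G' X S A' N n d u L Y η η1 C d' π q
    hq.toQT
  have hne : Nonempty A' := by
    obtain ⟨v⟩ := hq.lev.ne
    exact ⟨q (Sum.inl v)⟩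
  obtain ⟨o, hoap, ho⟩ := exists_min hps hiso' hne x hx'
  by_cases hs : ∃ s ∈ q '' apx X S,
      24 * (C * u) < ang d' (cq (cd d u Y) (cdX d) q) s o (x • o)
  · left
    obtain ⟨s, hs, hang⟩ := hs
    obtain ⟨-, -, -, hsymm, htri, -, -, hbgi, -, hA3, -⟩ := h1 A' d' (q '' apx X S)
      (cq (cd d u Y) (cdX d) q) (C * u) hps s hs
    obtain ⟨hb1, hb2, hb3⟩ := hbgi o (x • o) (by omega)
    have hds : disp d' x ≤ d' s (x • s) := Nat.sInf_le ⟨s, rfl⟩
    have hi1 := hiso' x o s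
    have hi2 := hiso' x (x⁻¹ • s) s
    have hi3 := hiso' x (x⁻¹ • s) o
    rw [smul_inv_smul] at hi2 hi3
    have ht1 := hgm'.tri s (x • o) (x • s)
    have hc1 := hgm'.comm (x • s) (x • o)
    have hc2 := hgm'.comm (x • o) s
    have hc3 := hgm'.comm (x • s) s
    have hne1 : x • s ≠ s := hx' s
    have hne2 : x⁻¹ • s ≠ s := fun h => hx' s (by rw [inv_smul_eq_iff] at h; exact h.symm)
    have ha1 := hA3 (x • s) (x • o) (by unfold Bt; omega) hb3
    have ha2 := hA3 (x⁻¹ • s) o (by unfold Bt; omega) hb2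
    have hs1 := hsymm (x⁻¹ • s) o
    have htr1 := htri o (x⁻¹ • s) (x • o) hne2
    have htr2 := htri (x⁻¹ • s) (x • s) (x • o) hne1
    refine ⟨s, hs, ?_⟩
    unfold angQ
    omega
  · right; left
    push Not at hs
    have hoap' : x • o ∉ q '' apx X S := by
      intro h
      apply hoap
      have := hapsm x⁻¹ _ h
      rwa [inv_smul_smul] at this
    have hU : C' ≤ u := hq.hu
    rcases hC' N Unit X S A' d u L Y d' 1 q hq.qn hU hq.hL (24 * (C * u)) o (x • o) hoap hoap'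
      with ⟨s, hs1, hs2⟩ | ⟨v₁, w₁, hv, hw, hdist, hang⟩
    · exact absurd (hs s hs1) (by omega)
    · have hlen := h5 η η1 C X S d u Y hq.qn.conep _ v₁ w₁ hang
      obtain ⟨g0, hg0⟩ := hq.quot.surjG x
      have he : q (g0 • Sum.inl v₁) = q (Sum.inl w₁) := by
        rw [hq.quot.equiv, hg0, hv, hw]
      obtain ⟨k, hk, hkw⟩ := (hq.quot.fib _ _).1 he
      have hg : (k * g0) • (Sum.inl v₁ : X ⊕ S) = Sum.inl w₁ := by rw [mul_smul, hkw]
      have hg' : (k * g0) • v₁ = w₁ := Sum.inl.inj hg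
      refine ⟨k * g0, v₁, ?_, ?_⟩
      · rw [map_mul, (hq.quot.ker k).2 hk, hg0, one_mul]
      · rw [hg']
        rw [hdist, ho] at hlen
        calc d v₁ w₁ ≤ disp d' x * (24 * (C * u) + C' * u + u) := hlen
          _ ≤ DD * (24 * (C * u) + C' * u + u) := Nat.mul_le_mul_right _ (by omega)
          _ = DD * (24 * C + C' + 1) * u := by ring

end Pool.Agent.Ady
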