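import Pool.Agent.Ady.Stmts
import Pool.Agent.Olsh.StmtsP

/-!
# MP_9e15c1_al, E-half: an element fixing two apexes is trivial (TWO)
-/

set_option autoImplicit false

namespace Pool.Agent.Ady

open Pool.Agent.Olsh

/-- TWO: an element fixing two apexes is trivial. -/
theorem TWO (h1 : Stmt_QTB) (h2 : Stmt_PSA) (h3 : Stmt_CONEGM) : Stmt_TWO := by
  intro η η1 C a0 L0 Ca
  refine ⟨4 * C + 1, ?_⟩
  intro G G' X S A' _ _ _ _ _ N n d u L Y d' π q hLQ x s hs t ht hst hxs hxt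
  by_contra hx
  obtain ⟨hgm, hiso, -, hps, -, -, -, hatt, hfix⟩ := h1 G G' X S A' N n d u L Y η η1 C d' π q
    hLQ.toQT
  have hP := hLQ.qn.conep
  obtain ⟨-, hadj, -⟩ := h3 X S d u Y hP.gm hP.one_le hP.ne
  obtain ⟨hnb, -⟩ := h2 _ _ _ _ _ hps s hs
  obtain ⟨y', hy'⟩ := hnb t (Ne.symm hst)
  obtain ⟨ŝ0, ⟨s0, rfl⟩, hs0⟩ := hs
  obtain ⟨y0, hy0⟩ := hLQ.quot.surj y'
  obtain ⟨k, hk, hk1⟩ := hLQ.quot.ex y0 (Sum.inr s0)
  rw [hy0, hs0, hy'.1] at hk1
  have hπk : π k = 1 := (hLQ.quot.ker k).2 hk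
  have hs1 : q (Sum.inr (k • s0)) = s := by
    have := hLQ.quot.equiv k (Sum.inr s0)
    rw [hπk, one_smul, hs0] at this
    exact this
  have hk2 : cd d u Y y0 (Sum.inr (k • s0)) = 1 := hk1
  clear hk1
  set s1 := k • s0
  have hyadj := (hadj _ _).1 hk2
  rcases y0 with y | t0
  swap
  · exact hyadj
  have hyY : y ∈ Y s1 := hyadj
  have hxs1 : x • q (Sum.inr s1) = q (Sum.inr s1) := by rw [hs1]; exact hxs
  obtain ⟨g, hg, hgs⟩ := hfix x (Sum.inr s1) hxs1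
  have hgs1 : g • s1 = s1 := Sum.inr_injective hgs
  have hgN : g ∉ N := by
    intro hN
    apply hx
    rw [← hg]
    exact (hLQ.quot.ker g).2 hN
  obtain ⟨i, hi⟩ := hLQ.rot3 s1 g hgs1 hgN
  have hgi : ∀ j : ℕ, g ^ j • s1 = s1 := by
    intro j
    induction j with
    | zero => rw [pow_zero, one_smul]
    | succ j ih => rw [pow_succ, mul_smul, hgs1, ih]
  have hxi : ∀ (v : A'), x • v = v → ∀ j : ℕ, x ^ j • v = v := by
    intro v hv j
    induction j with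
    | zero => rw [pow_zero, one_smul]
    | succ j ih => rw [pow_succ, mul_smul, hv, ih]
  have hyi : q (Sum.inl (g ^ i • y)) = x ^ i • y' := by
    have := hLQ.quot.equiv (g ^ i) (Sum.inl y)
    rw [map_pow, hg, hy0] at this
    exact this
  have hNb : x ^ i • y' ∈ Nb d' s t := by
    have e1 := hiso (x ^ i) y' s
    have e2 := hiso (x ^ i) t y'
    rw [hxi s hxs i] at e1
    rw [hxi t hxt i] at e2
    exact ⟨by rw [e1]; exact hy'.1, by rw [e2]; exact hy'.2⟩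
  have hsm : s ∈ q '' apx X S := ⟨Sum.inr s1, ⟨s1, rfl⟩, hs1⟩
  have hle : cq (cd d u Y) (cdX d) q s y' (x ^ i • y') ≤ C * u := by
    by_contra hcon
    have hb := hps.bgi s hsm t t y' (x ^ i • y') hy' hNb (not_le.mp hcon)
    have e1 := hgm.self t
    have e2 := hy'.2
    omega
  have hyiY : g ^ i • y ∈ Y s1 := by
    have := hLQ.Ysmul (g ^ i) s1 y hyY
    rwa [hgi i] at this
  have hk3 : cd d u Y (Sum.inl (g ^ i • y)) (Sum.inr s1) = 1 := (hadj _ _).2 hyiY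
  obtain ⟨-, r, hr, hrs, hreq⟩ := hatt (Sum.inr s1) ⟨s1, rfl⟩ (Sum.inl y)
    (Sum.inl (g ^ i • y)) hk2 hk3
  rw [hs1, hy0, hyi] at hreq
  have hrs1 : r • s1 = s1 := Sum.inr_injective hrs
  have hL := hi r hr hrs1 y hyY
  have e3 : cdX d (Sum.inr s1) (Sum.inl y) (r • (Sum.inl (g ^ i • y) : X ⊕ S)) =
      d y ((r * g ^ i) • y) := by
    rw [mul_smul]
    rfl
  rw [e3] at hreq
  have hLu := hLQ.hL
  have hu := hP.one_le
  have e4 : (4 * C + 1) * u = 4 * (C * u) + u := by ring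
  omega

end Pool.Agent.Ady
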