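import Pool.Agent.Ady.Stmts
import Pool.Agent.Olsh.StmtsP

/-!
# MP_9e15c1_al, E-half: `wt` for the quotient (TWT)
-/

set_option autoImplicit false

namespace Pool.Agent.Ady

open Pool.Agent.Olsh

/-- TWT: an element which moves two far points by a bounded amount is trivial or loxodromic. -/
theorem TWT (h1 : Stmt_QTB) (h2 : Stmt_LIFT2) (h3 : Stmt_BIGX) (h4 : Stmt_ALC) (h5 : Stmt_FIX)
    (h6 : Stmt_TOV) (h7 : Stmt_TBEAX) (h8 : Stmt_TANGL) : Stmt_TWT := by
  intro η η1 C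
  obtain ⟨A, C6, h6⟩ := h6
  refine ⟨A, ?_⟩
  intro D
  obtain ⟨F1, h5⟩ := h5 η η1 C D
  obtain ⟨B, N0, κ, F, h2⟩ := h2 η η1 C
  obtain ⟨C', h8⟩ := h8 η η1 C
  obtain ⟨C10, h7⟩ := h7 η η1 C (κ D)
  refine ⟨F D (3 * D + F1 + 1) (2 * N0 D + B + 10 * κ D + C' + 20), ?_⟩
  intro a0 L0 Ca hA
  obtain ⟨U1, h2⟩ := h2 a0 L0 Ca
  obtain ⟨U2, h5⟩ := h5 a0 L0 Ca
  obtain ⟨U3, h7⟩ := h7 a0 L0 Ca
  refine ⟨U1 + U2 + U3 + (2 * L0 + C6 + 400 * dl + 200), ?_⟩
  intro G G' X S A' _ _ _ _ _ N n d u L Y d' π q hLQ x v w hv hw hF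
  obtain ⟨hgm, hiso, -, hps, hap, hcs, -⟩ := h1 G G' X S A' N n d u L Y η η1 C d' π q
    hLQ.toQT
  have hP := hLQ.qn.conep
  have hd := hP.gm
  have hu1 := hP.one_le
  have hU := hLQ.hu
  rcases h2 G G' X S A' N n d u L Y d' π q (hLQ.mono (by omega)) D (3 * D + F1 + 1)
    (2 * N0 D + B + 10 * κ D + C' + 20) v w hF with
    ⟨s, hs, -, hvs, hsw, hang⟩ | ⟨p1, q1, p2, q2, -, -, -, -, -, -, -, hangC, hR, hlift⟩
  · rcases h3 G' A' d' (q '' apx X S) (cq (cd d u Y) (cdX d) q) (C * u) hps hiso hap hcs x D v w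
      s hs hv hw (by omega) (by omega) (by unfold angQ at hang; omega) with hfix | hbig
    · by_cases hx : x = 1
      · exact Or.inl hx
      · have := h5 G G' X S A' N n d u L Y d' π q (hLQ.mono (by omega)) x v s hs hx hfix hv
        omega
    · right
      obtain ⟨-, hsl, h2', -⟩ := h4 G' A' d' (q '' apx X S) (cq (cd d u Y) (cdX d) q) (C * u)
        hps hiso hap hcs x s hs hbig
      rw [hsl]
      have : 0 < d' s (x • s) := by omega
      exact_mod_cast this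
  · obtain ⟨e1, he1, hmove⟩ := hlift x hv hw
    by_cases he : e1 = 1
    · left
      rw [← he1, he, map_one]
    right
    -- the two points
    have e2 : (2 * N0 D + B + 10 * κ D + C' + 20) * u =
        2 * (N0 D * u) + B * u + 10 * (κ D * u) + C' * u + 20 * u := by ring
    rw [e2] at hR
    obtain ⟨z2, hz2, hz2'⟩ := hd.exists_bt p2 q2 (d p2 q2 - (N0 D * u + 1)) (by omega)
    obtain ⟨z1, hz1, hz1'⟩ := hd.exists_bt p2 z2 (N0 D * u + 1) (by omega)
    have hz1q : Bt d p2 z1 q2 := hd.bt_trans hz2 hz1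
    have m1 : d z1 (e1 • z1) ≤ κ D * u := hmove z1 hz1q (by omega) (by unfold Bt at *; omega)
    have m2 : d z2 (e1 • z2) ≤ κ D * u := hmove z2 hz2 (by omega) (by unfold Bt at *; omega)
    have hdz : B * u + 10 * (κ D * u) + C' * u + 18 * u ≤ d z1 z2 := by
      unfold Bt at *
      omega
    obtain ⟨-, htov⟩ := h6 G X n d a0 L0 Ca hLQ.lev hA
    rcases htov e1 z1 z2 (κ D * u) m1 m2 (by omega) with h9 | hpos
    · exact absurd h9 he
    have hnofix : ∀ s : S, e1 • s ≠ s := by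
      intro s hs
      obtain ⟨y1, hy1, hy1'⟩ := hLQ.stabY s e1 z1 hs he
      obtain ⟨y2, hy2, hy2'⟩ := hLQ.stabY s e1 z2 hs he
      have h10 := h8 X S d u Y hP s p2 q2 z1 z2 y1 y2 (κ D * u + u) hz2 hz1 hy1 hy2 (by omega)
        (by omega)
      have h11 := hangC s
      omega
    have hb := (h7 G G' X S A' N n d u L Y d' π q (hLQ.mono (by omega)) e1 z1 hpos hnofix m1).2
    rw [he1] at hb
    by_contra hcon
    have h0 : slen d' x = 0 := le_antisymm (not_lt.mp hcon) (IsomAct.slen_nonneg x)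
    rw [h0, mul_zero] at hb
    exact absurd hpos (not_lt.mpr hb)

end Pool.Agent.Ady
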