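import Pool.Agent.Ady.AXIM
import Pool.Agent.Ady.BASE
import Pool.Agent.Ady.BIGX
import Pool.Agent.Ady.BUS
import Pool.Agent.Ady.CENT
import Pool.Agent.Ady.CLAIMT
import Pool.Agent.Ady.DIV
import Pool.Agent.Ady.FIX
import Pool.Agent.Ady.GROW
import Pool.Agent.Ady.IPF
import Pool.Agent.Ady.KILL
import Pool.Agent.Ady.LIFT2
import Pool.Agent.Ady.MKQ
import Pool.Agent.Ady.NAG
import Pool.Agent.Ady.NOC
import Pool.Agent.Ady.NSTAB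
import Pool.Agent.Ady.OVL
import Pool.Agent.Ady.OVT1
import Pool.Agent.Ady.PCS
import Pool.Agent.Ady.PQ
import Pool.Agent.Ady.PRODS
import Pool.Agent.Ady.QTB
import Pool.Agent.Ady.RIG
import Pool.Agent.Ady.RLN
import Pool.Agent.Ady.ROOT
import Pool.Agent.Ady.SEQ
import Pool.Agent.Ady.STEP
import Pool.Agent.Ady.SURV
import Pool.Agent.Ady.TANGL
import Pool.Agent.Ady.TBEAX
import Pool.Agent.Ady.TCSA
import Pool.Agent.Ady.TGWA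
import Pool.Agent.Ady.TLL
import Pool.Agent.Ady.TLOX
import Pool.Agent.Ady.TMAL
import Pool.Agent.Ady.TNA
import Pool.Agent.Ady.TNU1
import Pool.Agent.Ady.TOV
import Pool.Agent.Ady.TOVAX
import Pool.Agent.Ady.TRT
import Pool.Agent.Ady.TTRANSFER
import Pool.Agent.Ady.TTYPES
import Pool.Agent.Ady.TWO
import Pool.Agent.Ady.TWT
import Pool.Agent.Olsh.Closed
import Pool.Agent.Ady.Final

/-! Closed forms of the modules of MP_9e15c1_al. -/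

set_option autoImplicit false

namespace Pool.Agent.Ady.Closed37

open Pool.Agent.Olsh Pool.Agent.Ady

theorem cBIGX : Pool.Agent.Ady.Stmt_BIGX := Pool.Agent.Ady.BIGX Pool.Agent.Olsh.Closed.cPSA

theorem cBUS : Pool.Agent.Ady.Stmt_BUS := Pool.Agent.Ady.BUS 

theorem cDIV : Pool.Agent.Ady.Stmt_DIV := Pool.Agent.Ady.DIV 

theorem cIPF : Pool.Agent.Ady.Stmt_IPF := Pool.Agent.Ady.IPF Pool.Agent.Olsh.Closed.cPSA

theorem cNAG : Pool.Agent.Ady.Stmt_NAG := Pool.Agent.Ady.NAG 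

theorem cNSTAB : Pool.Agent.Ady.Stmt_NSTAB := Pool.Agent.Ady.NSTAB Pool.Agent.Olsh.Closed.cPSA cIPF

theorem cOVT1 : Pool.Agent.Ady.Stmt_OVT1 := Pool.Agent.Ady.OVT1 

theorem cPRODS : Pool.Agent.Ady.Stmt_PRODS := Pool.Agent.Ady.PRODS 

theorem cQTB : Pool.Agent.Ady.Stmt_QTB := Pool.Agent.Ady.QTB Pool.Agent.Olsh.Closed.cQPS Pool.Agent.Olsh.Closed.cQGM Pool.Agent.Olsh.Closed.cQHYP Pool.Agent.Olsh.Closed.cCONEISO

theorem cTANGL : Pool.Agent.Ady.Stmt_TANGL := Pool.Agent.Ady.TANGL Pool.Agent.Olsh.Closed.cPROJ Pool.Agent.Olsh.Closed.cPSA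

theorem cTBEAX : Pool.Agent.Ady.Stmt_TBEAX := Pool.Agent.Ady.TBEAX Pool.Agent.Olsh.Closed.cPSA Pool.Agent.Olsh.Closed.cQPS Pool.Agent.Olsh.Closed.cISO Pool.Agent.Olsh.Closed.cPOLY Pool.Agent.Olsh.Closed.cLEN cQTB

theorem cTLL : Pool.Agent.Ady.Stmt_TLL := Pool.Agent.Ady.TLL cQTB

theorem cTMAL : Pool.Agent.Ady.Stmt_TMAL := Pool.Agent.Ady.TMAL Pool.Agent.Olsh.Closed.cTADD

theorem cTOV : Pool.Agent.Ady.Stmt_TOV := Pool.Agent.Ady.TOV cOVT1 cTMAL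

theorem cTOVAX : Pool.Agent.Ady.Stmt_TOVAX := Pool.Agent.Ady.TOVAX cTOV

theorem cTRT : Pool.Agent.Ady.Stmt_TRT := Pool.Agent.Ady.TRT Pool.Agent.Olsh.Closed.cTR

theorem cTTYPES : Pool.Agent.Ady.Stmt_TTYPES := Pool.Agent.Ady.TTYPES Pool.Agent.Olsh.Closed.cPSA cQTB Pool.Agent.Olsh.Closed.cDICH Pool.Agent.Olsh.Closed.cLEN

theorem cTWO : Pool.Agent.Ady.Stmt_TWO := Pool.Agent.Ady.TWO cQTB Pool.Agent.Olsh.Closed.cPSA Pool.Agent.Olsh.Closed.cCONEGM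

theorem cAXIM : Pool.Agent.Ady.Stmt_AXIM := Pool.Agent.Ady.AXIM cQTB cTBEAX Pool.Agent.Olsh.Closed.cCONEA Pool.Agent.Olsh.Closed.cCONEGM cTLL

theorem cBASE : Pool.Agent.Ady.Stmt_BASE := Pool.Agent.Ady.BASE cNAG Pool.Agent.Olsh.Closed.cMALN

theorem cFIX : Pool.Agent.Ady.Stmt_FIX := Pool.Agent.Ady.FIX Pool.Agent.Olsh.Closed.cPSA cQTB Pool.Agent.Olsh.Closed.cDICH cTWO Pool.Agent.Olsh.Closed.cISO Pool.Agent.Olsh.Closed.cANGX Pool.Agent.Olsh.Closed.cLAM Pool.Agent.Olsh.Closed.cCONEGM Pool.Agent.Olsh.Closed.cPROJ Pool.Agent.Olsh.Closed.cCONEISO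

theorem cGROW : Pool.Agent.Ady.Stmt_GROW := Pool.Agent.Ady.GROW cTOVAX cTMAL Pool.Agent.Olsh.Closed.cPROD

theorem cLIFT2 : Pool.Agent.Ady.Stmt_LIFT2 := Pool.Agent.Ady.LIFT2 Pool.Agent.Olsh.Closed.cPSA cQTB Pool.Agent.Olsh.Closed.cDICH cTRT Pool.Agent.Olsh.Closed.cLAM Pool.Agent.Olsh.Closed.cCONEISO Pool.Agent.Olsh.Closed.cCONEGM

theorem cMKQ : Pool.Agent.Ady.Stmt_MKQ := Pool.Agent.Ady.MKQ Pool.Agent.Olsh.Closed.cCONEA Pool.Agent.Olsh.Closed.cPROJ Pool.Agent.Olsh.Closed.cCONEGM Pool.Agent.Olsh.Closed.cCONEPS Pool.Agent.Olsh.Closed.cCONEISO cNSTAB Pool.Agent.Olsh.Closed.cQEX Pool.Agent.Olsh.Closed.cQGM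

theorem cOVL : Pool.Agent.Ady.Stmt_OVL := Pool.Agent.Ady.OVL cTOV

theorem cPQ : Pool.Agent.Ady.Stmt_PQ := Pool.Agent.Ady.PQ cQTB cTLL cTBEAX cAXIM cGROW cPRODS Pool.Agent.Olsh.Closed.cDICH Pool.Agent.Olsh.Closed.cLEN Pool.Agent.Olsh.Closed.cCHAIN Pool.Agent.Olsh.Closed.cALC Pool.Agent.Olsh.Closed.cPSA

theorem cRLN : Pool.Agent.Ady.Stmt_RLN := Pool.Agent.Ady.RLN cGROW

theorem cSEQ : Pool.Agent.Ady.Stmt_SEQ := Pool.Agent.Ady.SEQ cGROW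

theorem cSURV : Pool.Agent.Ady.Stmt_SURV := Pool.Agent.Ady.SURV cTBEAX cGROW cRLN cTMAL

theorem cTLOX : Pool.Agent.Ady.Stmt_TLOX := Pool.Agent.Ady.TLOX cTTYPES Pool.Agent.Olsh.Closed.cALC cTBEAX cQTB cTLL

theorem cTNA : Pool.Agent.Ady.Stmt_TNA := Pool.Agent.Ady.TNA cQTB cLIFT2 cBIGX Pool.Agent.Olsh.Closed.cALC cTLL cAXIM cNAG Pool.Agent.Olsh.Closed.cCONEA Pool.Agent.Olsh.Closed.cCONEGM Pool.Agent.Olsh.Closed.cPROJ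

theorem cTNU1 : Pool.Agent.Ady.Stmt_TNU1 := Pool.Agent.Ady.TNU1 cTTYPES Pool.Agent.Olsh.Closed.cALC cTBEAX cQTB cTLL

theorem cTWT : Pool.Agent.Ady.Stmt_TWT := Pool.Agent.Ady.TWT cQTB cLIFT2 cBIGX Pool.Agent.Olsh.Closed.cALC cFIX cTOV cTBEAX cTANGL

theorem cCLAIMT : Pool.Agent.Ady.Stmt_CLAIMT := Pool.Agent.Ady.CLAIMT cTNU1 cPQ cGROW cTLL

theorem cKILL : Pool.Agent.Ady.Stmt_KILL := Pool.Agent.Ady.KILL cMKQ cTOVAX cTMAL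

theorem cPCS : Pool.Agent.Ady.Stmt_PCS := Pool.Agent.Ady.PCS cRLN

theorem cROOT : Pool.Agent.Ady.Stmt_ROOT := Pool.Agent.Ady.ROOT cBUS cOVL cPCS cTMAL

theorem cTGWA : Pool.Agent.Ady.Stmt_TGWA := Pool.Agent.Ady.TGWA cQTB cLIFT2 cTWT cOVT1 cTOV Pool.Agent.Olsh.Closed.cPSA

theorem cCENT : Pool.Agent.Ady.Stmt_CENT := Pool.Agent.Ady.CENT cBUS cOVL cPCS cTMAL cROOT cDIV cRLN

theorem cRIG : Pool.Agent.Ady.Stmt_RIG := Pool.Agent.Ady.RIG cBUS cOVL cPCS cCENT cRLN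

theorem cTCSA : Pool.Agent.Ady.Stmt_TCSA := Pool.Agent.Ady.TCSA cTGWA cQTB

theorem cTTRANSFER : Pool.Agent.Ady.Stmt_TTRANSFER := Pool.Agent.Ady.TTRANSFER cQTB cTLOX cTWT cTGWA cTCSA cTNA

theorem cNOC : Pool.Agent.Ady.Stmt_NOC := Pool.Agent.Ady.NOC cCENT cRIG cRLN

theorem cSTEP : Pool.Agent.Ady.Stmt_STEP := Pool.Agent.Ady.STEP cBASE cKILL cTTRANSFER cCLAIMT cSURV cSEQ cCENT cNOC

theorem cLIM : Pool.Agent.Ady.Stmt_LIM := Pool.Agent.Ady.LIM cSTEP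

end Pool.Agent.Ady.Closed37
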