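import Pool.Agent.Olsh.StmtsP

/-!
# MP_9e15c1_al, E-half: definitions

Small cancellation quotients of odd exponent on hyperbolic graphs: rotating families of subgroups,
levels with torsion of odd exponent `n`, quotients by the killed subgroups.  The paper proof is
`Pool/Agent/Ady/PAPER.md`.  Tools (hyperbolic graphs, cone-off, windmill) are in `Pool/Agent/Olsh`.
-/

set_option autoImplicit false

namespace Pool.Agent.Ady

open Pool.Agent.Olsh

/-! ### Rotating families of subgroups -/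

/-- Rotating families on projection structures: like `IsRot`, but only the elements of subgroups
`F s` of the stabilisers are required to rotate. -/
structure IsRotF (G : Type) {A : Type} [Group G] [MulAction G A] (d : A → A → ℕ) (ap : Set A)
    (c : A → A → A → ℕ) (F : A → Subgroup G) (T0 L : ℕ) : Prop extends IsPS d ap c T0 where
  isom : Isom G d
  ap_smul : ∀ (g : G), ∀ s ∈ ap, g • s ∈ ap
  c_smul : ∀ (g : G), ∀ s ∈ ap, ∀ y y', d y s = 1 → d y' s = 1 →
    c (g • s) (g • y) (g • y') = c s y y'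
  fix : ∀ s ∈ ap, ∀ r ∈ F s, r • s = s
  conj : ∀ (g : G), ∀ s ∈ ap, ∀ r ∈ F s, g * r * g⁻¹ ∈ F (g • s)
  nbr : ∀ s ∈ ap, ∃ y, d y s = 1
  rot : ∀ s ∈ ap, ∀ r ∈ F s, r ≠ 1 → ∀ y, d y s = 1 → L ≤ c s y (r • y)
  one_le : 1 ≤ T0
  big : 2000 * T0 < L

/-- The subgroup generated by all `F s`. -/
def NF (G : Type) {A : Type} [Group G] (ap : Set A) (F : A → Subgroup G) : Subgroup G :=
  Subgroup.closure {g | ∃ s ∈ ap, g ∈ F s}

/-- The trivial action of the trivial group. -/
instance trivAct (A : Type) : MulAction Unit A where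
  smul _ a := a
  one_smul _ := rfl
  mul_smul _ _ _ := rfl

/-- The subgroups of the stabilisers of the vertices of the cone-off: `F s` at apexes. -/
def FF {G X S : Type} [Group G] (F : S → Subgroup G) : X ⊕ S → Subgroup G
  | Sum.inl _ => ⊥
  | Sum.inr s => F s

/-! ### The killed family -/

/-- Data for the cone-off of a `G`-space with subgroups `F s` of the stabilisers of the sets
`Y s` which move the points of `Y s` at least by `L`; `n` is the (odd) exponent. -/
structure ConeF (G : Type) {X S : Type} [Group G] [MulAction G X] [MulAction G S] (n : ℕ)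
    (d : X → X → ℕ) (u L : ℕ) (Y : S → Set X) (F : S → Subgroup G) (η η1 : ℕ) : Prop
    extends ConeH d u Y η η1 where
  odd : Odd n
  isom : IsomAct G d
  Ysmul : ∀ (g : G) (s : S) (v : X), v ∈ Y s → g • v ∈ Y (g • s)
  fix : ∀ (s : S) (r : G), r ∈ F s → r • s = s
  conj : ∀ (g : G) (s : S) (r : G), r ∈ F s → g * r * g⁻¹ ∈ F (g • s)
  rotF : ∀ (s : S) (r : G), r ∈ F s → r ≠ 1 → ∀ y ∈ Y s, L ≤ d y (r • y)
  /-- the stabiliser has exponent `n` modulo `F s` -/
  stabn : ∀ (s : S) (g : G), g • s = s → g ^ n ∈ F s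
  /-- a stabilising element not in `F s` has a power which rotates a lot modulo `F s` -/
  rot3 : ∀ (s : S) (g : G), g • s = s → g ∉ F s →
    ∃ i : ℕ, ∀ k ∈ F s, ∀ y ∈ Y s, L ≤ 4 * d y ((k * g ^ i) • y)
  /-- the displacement of a stabilising element grows with the distance from `Y s` -/
  stabY : ∀ (s : S) (g : G) (z : X), g • s = s → g ≠ 1 →
    ∃ y ∈ Y s, 2 * d z y ≤ d z (g • z) + (200 * dl + 100)

/-- The quotient of the cone-off by the normal subgroup `N` generated by the killed subgroups. -/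
structure QT (G G' : Type) {X S A' : Type} [Group G] [MulAction G X] [MulAction G S] [Group G']
    [MulAction G' A'] (N : Subgroup G) (n : ℕ) (d : X → X → ℕ) (u L : ℕ) (Y : S → Set X)
    (η η1 C : ℕ) (d' : A' → A' → ℕ) (π : G →* G') (q : X ⊕ S → A') : Prop where
  odd : Odd n
  isom : IsomAct G d
  Ysmul : ∀ (g : G) (s : S) (v : X), v ∈ Y s → g • v ∈ Y (g • s)
  nrm : N.Normal
  /-- for `N` instead of `G`, the situation is the one of `Pool/Agent/Olsh` -/
  qn : ConeQ N Unit d u L Y η η1 C d' (1 : N →* Unit) q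
  kk : KK N (apx X S) = ⊤
  quot : IsQuot N (cd d u Y) d' π q
  stabn : ∀ (s : S) (g : G), g • s = s → g ^ n ∈ N
  rot3 : ∀ (s : S) (g : G), g • s = s → g ∉ N →
    ∃ i : ℕ, ∀ k ∈ N, k • s = s → ∀ y ∈ Y s, L ≤ 4 * d y ((k * g ^ i) • y)
  stabY : ∀ (s : S) (g : G) (z : X), g • s = s → g ≠ 1 →
    ∃ y ∈ Y s, 2 * d z y ≤ d z (g • z) + (200 * dl + 100)

/-! ### Levels -/

/-- Invariants of a level: torsion of odd exponent `n`. -/
structure LevT (G : Type) {X : Type} [Group G] [MulAction G X] (n : ℕ) (d : X → X → ℕ)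
    (a0 L0 Ca : ℕ) : Prop where
  gm : IsGM d
  hyp : Hyp d dl
  isom : IsomAct G d
  ne : Nonempty X
  odd : Odd n
  lox : ∀ g : G, g ^ n = 1 ∨ 0 < slen d g
  wt : ∀ (g : G) (p q : X), d p (g • p) ≤ a0 → d q (g • q) ≤ a0 → L0 ≤ d p q →
    g = 1 ∨ 0 < slen d g
  wa : ∀ (g h : G) (p q : X), d p (g • p) ≤ a0 → d q (g • q) ≤ a0 → d p (h • p) ≤ a0 →
    d q (h • q) ≤ a0 → L0 ≤ d p q → g * h = h * g
  csa : ∀ a b c : G, 0 < slen d b → a * b = b * a → b * c = c * b → a * c = c * a
  na : ∀ (g : G) (v : X), 0 < slen d g → ∃ y ∈ AX d g, 2 * d v y ≤ d v (g • v) + Ca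

/-- The complete situation of the transfer. -/
structure LQT (G G' : Type) {X S A' : Type} [Group G] [MulAction G X] [MulAction G S]
    [Group G'] [MulAction G' A'] (N : Subgroup G) (n : ℕ) (d : X → X → ℕ) (u L : ℕ)
    (Y : S → Set X) (η η1 C : ℕ) (d' : A' → A' → ℕ) (π : G →* G') (q : X ⊕ S → A')
    (a0 L0 Ca U : ℕ) : Prop
    extends QT G G' N n d u L Y η η1 C d' π q where
  lev : LevT G n d a0 L0 Ca
  hu : U ≤ u
  hL : U * u ≤ L
  heta : 1000 * dl + 100 * η + 1000 ≤ η1

theorem LQT.mono {G G' X S A' : Type} [Group G] [MulAction G X] [MulAction G S] [Group G']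
    [MulAction G' A'] {N : Subgroup G} {n : ℕ} {d : X → X → ℕ} {u L : ℕ} {Y : S → Set X}
    {η η1 C : ℕ} {d' : A' → A' → ℕ} {π : G →* G'} {q : X ⊕ S → A'} {a0 L0 Ca U U' : ℕ}
    (h : LQT G G' N n d u L Y η η1 C d' π q a0 L0 Ca U) (hU : U' ≤ U) :
    LQT G G' N n d u L Y η η1 C d' π q a0 L0 Ca U' :=
  { toQT := h.toQT
    lev := h.lev
    hu := hU.trans h.hu
    hL := (Nat.mul_le_mul_right _ hU).trans h.hL
    heta := h.heta }

/-! ### Growth of the chains `c_{j+1} = [c_j ^ M, Y_j]` -/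

/-- The commutator `a b a⁻¹ b⁻¹`. -/
def cm {G : Type} [Group G] (a b : G) : G := a * b * a⁻¹ * b⁻¹

theorem map_cm {G G' : Type} [Group G] [Group G'] (φ : G →* G') (a b : G) :
    φ (cm a b) = cm (φ a) (φ b) := by
  simp only [cm, map_mul, map_inv]

/-- The commutator is the product of `a` and a conjugate of `a⁻¹`. -/
theorem cm_eq {G : Type} [Group G] (a b : G) : cm a b = a * (b * a⁻¹ * b⁻¹) := by
  simp only [cm, mul_assoc]

theorem cm_eq_one_iff {G : Type} [Group G] (a b : G) : cm a b = 1 ↔ a * b = b * a := by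
  unfold cm
  rw [mul_inv_eq_one, mul_inv_eq_iff_eq_mul]

/-- Every chain `c_{j+1} = [c_j ^ M, Y_j]`, `M ≥ m0`, contains a torsion element or an element of
stable length at least `1 / V`. -/
def Clm (G : Type) {X : Type} [Group G] [MulAction G X] (n : ℕ) (d : X → X → ℕ) (V m0 : ℕ) :
    Prop :=
  ∀ M : ℕ, m0 ≤ M → ∀ c Y : ℕ → G, (∀ j, c (j + 1) = cm (c j ^ M) (Y j)) →
    ∃ k, c k ^ n = 1 ∨ 1 ≤ V * slen d (c k)

/-- A regular pair: `c` is long, `Y` does not commute with `c` and moves some point of the axis of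
`c` by at most a tenth of the length of `c`. -/
structure Rg {G X : Type} [Group G] [MulAction G X] (d : X → X → ℕ) (B : ℕ) (c Y : G) : Prop where
  nc : c * Y ≠ Y * c
  big : (B : ℝ) ≤ slen d c
  near : ∃ p ∈ Mn d c, 10 * (d p (Y • p) : ℝ) ≤ slen d c

/-- A coordinate along the axis of `R` (Busemann function), increasing in the direction of `R`. -/
structure IsBus {G X : Type} [Group G] [MulAction G X] (d : X → X → ℕ) (R : G) (β : X → ℤ) :
    Prop where
  lip : ∀ x y, β x ≤ β y + d x y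
  ax : ∀ x ∈ Mn d R, ∀ y ∈ Mn d R, (d x y : ℤ) ≤ |β x - β y| + 14 * dl
  cm : ∀ g : G, g * R = R * g → ∀ x y, β (g • x) + β y ≤ β (g • y) + β x + 2 * dl
  up : ∀ x, slen d R ≤ β (R • x) - β x + 20 * dl

/-- A piece: the segment `[a, b]` has its end points near the axis of `R`, and `e` moves the points
of its middle part by at most `m`. -/
structure IsPc {G X : Type} [Group G] [MulAction G X] (d : X → X → ℕ) (R : G) (r m : ℕ)
    (a b : X) (e : G) : Prop where
  na : a ∈ Nd d r (Mn d R)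
  nb : b ∈ Nd d r (Mn d R)
  mv : ∀ v, Bt d a v b → r ≤ d a v → r ≤ d v b → d v (e • v) ≤ m

/-- The chain of the words: `c_1 = [g^{sn}, h^{sn}]`, `c_{j+1} = [c_j^{s n^2}, h^{sn}]`;
here `chn n s g h j` is `c_{j+1}`. -/
def chn {G : Type} [Group G] (n s : ℕ) (g h : G) : ℕ → G
  | 0 => cm (g ^ (s * n)) (h ^ (s * n))
  | j + 1 => cm (chn n s g h j ^ (s * n ^ 2)) (h ^ (s * n))

theorem map_chn {G G' : Type} [Group G] [Group G'] (φ : G →* G') (n s : ℕ) (g h : G) (j : ℕ) :
    φ (chn n s g h j) = chn n s (φ g) (φ h) j := by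
  induction j with
  | zero => simp only [chn, map_cm, map_pow]
  | succ j ih => simp only [chn, map_cm, map_pow, ih]

end Pool.Agent.Ady
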