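import Mathlib

/-!
# MP_9e15c1_al (E-half): the values of Adyan's words and the limit argument

`adyv n s g h = (g^{sn} h^{sn} g^{-sn} h^{-sn})^n`, `aIt n s k g h` its iterates of Engel type.
From a class `Good` of groups which contains the free group and is closed under the step
`make an iterate at `(g, h)` trivial, keep all iterates with exponent `r` at `(x, y)` nontrivial`
one gets the group wanted.
-/

set_option autoImplicit false

namespace Pool.Agent.Ady

/-- The value of Adyan's word. -/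
def adyv {G : Type*} [Group G] (n s : ℕ) (g h : G) : G :=
  (g ^ (s * n) * h ^ (s * n) * (g ^ (s * n))⁻¹ * (h ^ (s * n))⁻¹) ^ n

/-- The iterates of Engel type. -/
def aIt {G : Type*} [Group G] (n s : ℕ) : ℕ → G → G → G
  | 0, g, _ => g
  | k + 1, g, h => adyv n s (aIt n s k g h) h

/-- No iterate at `(x, y)` is trivial. -/
def Alive {G : Type*} [Group G] (n r : ℕ) (x y : G) : Prop := ∀ k, aIt n r k x y ≠ 1

theorem map_adyv {G H : Type*} [Group G] [Group H] (f : G →* H) (n s : ℕ) (g h : G) :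
    f (adyv n s g h) = adyv n s (f g) (f h) := by
  simp [adyv]

theorem map_aIt {G H : Type*} [Group G] [Group H] (f : G →* H) (n s k : ℕ) (g h : G) :
    f (aIt n s k g h) = aIt n s k (f g) (f h) := by
  induction k with
  | zero => rfl
  | succ k ih => simp only [aIt]; rw [map_adyv, ih]

theorem adyv_one {G : Type*} [Group G] (n s : ℕ) (h : G) : adyv n s 1 h = 1 := by
  simp [adyv]

theorem aIt_succ_eq_one {G : Type*} [Group G] {n s k : ℕ} {g h : G} (h1 : aIt n s k g h = 1) :
    aIt n s (k + 1) g h = 1 := by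
  show adyv n s (aIt n s k g h) h = 1
  rw [h1, adyv_one]

/-- The step, for a class `Good` of groups. -/
def Step (Good : (G : Type) → [Group G] → Prop) (n r : ℕ) : Prop :=
  ∀ (G : Type) [Group G], Good G → ∀ x y : G, Alive n r x y → ∀ s : ℕ, s.Prime → Odd s → s ≠ r →
    ∀ g h : G, ∃ (G' : Type) (_ : Group G') (π : G →* G'), Function.Surjective π ∧ Good G' ∧
      Alive n r (π x) (π y) ∧ ∃ k, aIt n s k (π g) (π h) = 1

/-- A state of the construction. -/
structure St (Good : (G : Type) → [Group G] → Prop) (n r : ℕ) (x y : FreeGroup (Fin 2)) where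
  G : Type
  [inst : Group G]
  f : FreeGroup (Fin 2) →* G
  good : Good G
  surj : Function.Surjective f
  alive : Alive n r (f x) (f y)

attribute [instance] St.inst

/-- The kernel of the map of a state. -/
def St.K {Good : (G : Type) → [Group G] → Prop} {n r : ℕ} {x y : FreeGroup (Fin 2)}
    (S : St Good n r x y) : Subgroup (FreeGroup (Fin 2)) := S.f.ker

theorem St.K_normal {Good : (G : Type) → [Group G] → Prop} {n r : ℕ} {x y : FreeGroup (Fin 2)}
    (S : St Good n r x y) : S.K.Normal := MonoidHom.normal_ker S.f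

theorem St.notMem_K {Good : (G : Type) → [Group G] → Prop} {n r : ℕ} {x y : FreeGroup (Fin 2)}
    (S : St Good n r x y) (k : ℕ) : aIt n r k x y ∉ S.K := by
  intro h
  have h9 : S.f (aIt n r k x y) = 1 := h
  rw [map_aIt] at h9
  exact S.alive k h9

theorem exists_next {Good : (G : Type) → [Group G] → Prop} {n r : ℕ} {x y : FreeGroup (Fin 2)}
    (hs : Step Good n r) (S : St Good n r x y) (g h : FreeGroup (Fin 2)) (s : ℕ) :
    ∃ T : St Good n r x y, S.K ≤ T.K ∧
      (s.Prime → Odd s → s ≠ r → ∃ k, aIt n s k g h ∈ T.K) := by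
  by_cases h1 : s.Prime ∧ Odd s ∧ s ≠ r
  · obtain ⟨G', i', π, h2, h3, h4, k, h5⟩ :=
      hs S.G S.good (S.f x) (S.f y) S.alive s h1.1 h1.2.1 h1.2.2 (S.f g) (S.f h)
    refine ⟨⟨G', π.comp S.f, h3, h2.comp S.surj, h4⟩, ?_, fun _ _ _ => ⟨k, ?_⟩⟩
    · intro a ha
      have ha' : S.f a = 1 := ha
      show π (S.f a) = 1
      rw [ha', map_one]
    · show π (S.f _) = 1
      rw [map_aIt, map_aIt]
      exact h5
  · exact ⟨S, le_rfl, fun a b c => absurd ⟨a, b, c⟩ h1⟩

/-- **The limit.** -/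
theorem limit {Good : (G : Type) → [Group G] → Prop} {n r : ℕ} {x y : FreeGroup (Fin 2)}
    (hs : Step Good n r) (h0 : Good (FreeGroup (Fin 2))) (hxy : Alive n r x y) :
    ∃ (G : Type) (_ : Group G), (∀ s : ℕ, s.Prime → Odd s → s ≠ r →
      ∀ g h : G, ∃ k, aIt n s k g h = 1) ∧ ∃ x y : G, Alive n r x y := by
  classical
  obtain ⟨e, he⟩ := exists_surjective_nat (FreeGroup (Fin 2) × FreeGroup (Fin 2) × ℕ)
  choose nx hn1 hn2 using @exists_next Good n r x y hs
  let S0 : St Good n r x y := ⟨FreeGroup (Fin 2), MonoidHom.id _, h0, fun a => ⟨a, rfl⟩, hxy⟩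
  let S : ℕ → St Good n r x y := fun i =>
    Nat.rec S0 (fun i T => nx T (e i).1 (e i).2.1 (e i).2.2) i
  have hS : ∀ i, S (i + 1) = nx (S i) (e i).1 (e i).2.1 (e i).2.2 := fun i => rfl
  let K : ℕ → Subgroup (FreeGroup (Fin 2)) := fun i => (S i).K
  have hmono : Monotone K := by
    refine monotone_nat_of_le_succ fun i => ?_
    show (S i).K ≤ (S (i + 1)).K
    rw [hS]
    exact hn1 _ _ _ _
  let N : Subgroup (FreeGroup (Fin 2)) := ⨆ i, K i
  have hmem : ∀ a, a ∈ N ↔ ∃ i, a ∈ (S i).K := by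
    intro a
    exact Subgroup.mem_iSup_of_directed hmono.directed_le
  have hN : N.Normal := by
    refine ⟨fun a ha g => ?_⟩
    rw [hmem] at ha ⊢
    obtain ⟨i, hi⟩ := ha
    exact ⟨i, (S i).K_normal.conj_mem a hi g⟩
  refine ⟨FreeGroup (Fin 2) ⧸ N, inferInstance, ?_, QuotientGroup.mk' N x, QuotientGroup.mk' N y,
    ?_⟩
  · intro s h1 h2 h3 g' h'
    obtain ⟨g, rfl⟩ := QuotientGroup.mk'_surjective N g'
    obtain ⟨h, rfl⟩ := QuotientGroup.mk'_surjective N h'
    obtain ⟨i, hi⟩ := he (g, h, s)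
    obtain ⟨k, hk⟩ := hn2 (S i) (e i).1 (e i).2.1 (e i).2.2 (by rw [hi]; exact h1)
      (by rw [hi]; exact h2) (by rw [hi]; exact h3)
    rw [← hS, hi] at hk
    refine ⟨k, ?_⟩
    rw [← map_aIt]
    exact (QuotientGroup.eq_one_iff _).2 ((hmem _).2 ⟨i + 1, hk⟩)
  · intro k hk
    rw [← map_aIt] at hk
    obtain ⟨i, hi⟩ := (hmem _).1 ((QuotientGroup.eq_one_iff _).1 hk)
    exact (S i).notMem_K k hi

end Pool.Agent.Ady
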