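import Pool.Agent.Ady.Stmts

/-!
# MP_9e15c1_al, E-half, module B2 (NSTAB): the subgroup generated by the family
-/

set_option autoImplicit false

namespace Pool.Agent.Ady

open Pool.Agent.Olsh

namespace NSTAB

variable {G A : Type} [Group G] [MulAction G A] {d : A → A → ℕ} {ap : Set A}
  {c : A → A → A → ℕ} {F : A → Subgroup G} {T0 L : ℕ}

/-- The subgroup generated by the family is normal. -/
theorem normal (hr : IsRotF G d ap c F T0 L) : (NF G ap F).Normal := by
  constructor
  intro n hn g
  unfold NF at hn ⊢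
  induction hn using Subgroup.closure_induction with
  | mem x hx =>
    obtain ⟨s, hs, hxs⟩ := hx
    exact Subgroup.subset_closure ⟨g • s, hr.ap_smul g s hs, hr.conj g s hs x hxs⟩
  | one =>
    rw [mul_one, mul_inv_cancel]
    exact Subgroup.one_mem _
  | mul x y _ _ ihx ihy =>
    have h : g * (x * y) * g⁻¹ = (g * x * g⁻¹) * (g * y * g⁻¹) := by group
    rw [h]
    exact Subgroup.mul_mem _ ihx ihy
  | inv x _ ih =>
    have h : g * x⁻¹ * g⁻¹ = (g * x * g⁻¹)⁻¹ := by group
    rw [h]
    exact Subgroup.inv_mem _ ih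

/-- The subgroup generated by the family acts freely off the apexes. -/
theorem free (h1 : Stmt_PSA) (h2 : Stmt_IPF) (hr : IsRotF G d ap c F T0 L) (w : A) (hw : w ∉ ap)
    (g : G) (hg : g ∈ NF G ap F) (hgw : g • w = w) : g = 1 := by
  by_contra hne
  obtain ⟨s, hs, hL⟩ := h2 G A d ap c F T0 L hr w hw
    (fun g => g ≠ 1 → ∃ s ∈ ap, L ≤ ang d c s w (g • w) + 12 * T0)
    (fun h => absurd rfl h) (fun s hs r _ g _ hL _ _ => ⟨s, hs, hL⟩) g hg hne
  rw [hgw] at hL
  obtain ⟨_, _, _, _, _, hself, _⟩ := h1 A d ap c T0 hr.toIsPS s hs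
  have := hself w
  have := hr.big
  omega

/-- The stabilisers of the apexes. -/
theorem stab (h1 : Stmt_PSA) (h2 : Stmt_IPF) (hr : IsRotF G d ap c F T0 L) (s : A) (hs : s ∈ ap)
    (g : G) (hg : g ∈ NF G ap F) (hgs : g • s = s) : g ∈ F s := by
  have hgm := hr.gm
  obtain ⟨y, hy⟩ := hr.nbr s hs
  have hyap : y ∉ ap := fun h => hr.nadj y h s hs hy
  have hys : y ≠ s := by
    intro h
    exact hyap (h ▸ hs)
  refine h2 G A d ap c F T0 L hr y hyap (fun k => d (k • y) s = 1 → k ∈ F s) ?_ ?_ g hg ?_
  · exact fun _ => Subgroup.one_mem _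
  · intro t ht r hrt g _ hL hP hgy
    by_cases hts : t = s
    · subst hts
      have h3 : d ((r * g) • y) t = 1 := by
        have h4 := hr.isom r (g • y) t
        rw [hr.fix t ht r hrt] at h4
        rw [mul_smul, h4]
        exact hgy
      have h5 := Subgroup.mul_mem _ (Subgroup.inv_mem _ hrt) (hP h3)
      rwa [inv_mul_cancel_left] at h5
    · exfalso
      obtain ⟨_, _, _, _, htri, _, _, hbig, _, _, _⟩ := h1 A d ap c T0 hr.toIsPS t ht
      have hst : s ≠ t := fun h => hts h.symm
      have hpos : ∀ a b : A, a ≠ b → 1 ≤ d a b := by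
        intro a b hab
        by_contra hlt
        have h0 : d a b = 0 := by omega
        exact hab (hgm.eq_of_zero h0)
      have e1 : ang d c t y s ≤ T0 := by
        by_contra hlt
        obtain ⟨h7, h8, h9⟩ := hbig y s (by omega)
        have := hpos y t h8
        have := hpos t s hts
        omega
      have e2 : ang d c t s (g • y) ≤ T0 := by
        by_contra hlt
        obtain ⟨h7, h8, h9⟩ := hbig s (g • y) (by omega)
        have := hpos t (g • y) (fun h => h9 h.symm)
        have := hpos s t hst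
        have h10 : d s (g • y) = 1 := by
          rw [hgm.comm]
          exact hgy
        omega
      have e3 := htri y s (g • y) hst
      have := hr.big
      omega
  · have h4 := hr.isom g y s
    rw [hgs] at h4
    rw [h4]
    exact hy

end NSTAB

theorem NSTAB (h1 : Stmt_PSA) (h2 : Stmt_IPF) : Stmt_NSTAB := by
  intro G A _ _ d ap c F T0 L hr
  refine ⟨NSTAB.normal hr, NSTAB.free h1 h2 hr, NSTAB.stab h1 h2 hr, ?_, ?_⟩
  · exact
      { toIsPS := hr.toIsPS
        isom := fun g a b => hr.isom g.1 a b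
        ap_smul := fun g s hs => hr.ap_smul g.1 s hs
        c_smul := fun g s hs y y' hy hy' => hr.c_smul g.1 s hs y y' hy hy'
        free := fun g v hv hgv => Subtype.ext (NSTAB.free h1 h2 hr v hv g.1 g.2 hgv)
        nbr := hr.nbr
        rot := fun s hs r hrs hr1 y hy => hr.rot s hs r.1 (NSTAB.stab h1 h2 hr s hs r.1 r.2 hrs)
          (fun h => hr1 (Subtype.ext h)) y hy
        one_le := hr.one_le
        big := hr.big }
  · rw [eq_top_iff]
    rintro ⟨x, hx⟩ -
    unfold NF at hx
    induction hx using Subgroup.closure_induction with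
    | mem x hx =>
      obtain ⟨s, hs, hxs⟩ := hx
      exact Subgroup.subset_closure ⟨s, hs, hr.fix s hs x hxs⟩
    | one => exact Subgroup.one_mem _
    | mul x y _ _ ihx ihy => exact Subgroup.mul_mem _ ihx ihy
    | inv x _ ih => exact Subgroup.inv_mem _ ih

end Pool.Agent.Ady
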