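import Pool.Agent.Ady.Stmts
import Pool.Agent.Olsh.GWA

/-!
# MP_9e15c1_al, E-half: the case of a big apex in PQ (PQB)
-/

set_option autoImplicit false

namespace Pool.Agent.Ady

open Pool.Agent.Olsh

namespace PQB

variable {G A : Type} [Group G] [MulAction G A] {d : A → A → ℕ} {ap : Set A}
  {c : A → A → A → ℕ} {T0 : ℕ}

/-- The direction from `s` to its translate `e s` is the direction to the invariant set `Z`. -/
theorem dir (hA : Stmt_PSA) (hps : IsPS d ap c T0) (hI : Isom G d) {Z : Set A} {K : ℕ} {e : G}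
    (he : ∀ z ∈ Z, e • z ∈ Z) {s : A} (hs : s ∈ ap) (hna : ∀ z ∈ Z, z ∉ ap)
    (hK : ∀ z ∈ Z, ∀ z' ∈ Z, ang d c s z z' ≤ K) (hes : e • s ≠ s) {z : A} (hz : z ∈ Z) :
    ang d c s (e • s) z ≤ K + T0 := by
  have hd := hps.gm
  obtain ⟨-, -, -, -, Atri, -, -, B, -, -, -⟩ := hA A d ap c T0 hps s hs
  -- a nearest point
  have hne : {k : ℕ | ∃ z ∈ Z, k = d s z}.Nonempty := ⟨d s z, z, hz, rfl⟩
  obtain ⟨z0, hz0, hz0'⟩ := Nat.sInf_mem hne
  have hmin : ∀ z ∈ Z, d s z0 ≤ d s z := by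
    intro z hz
    rw [← hz0']
    exact Nat.sInf_le ⟨z, hz, rfl⟩
  have h1 := hmin _ (he z0 hz0)
  have h2 : d (e • s) (e • z0) = d s z0 := hI _ _ _
  have h3 : ang d c s (e • s) (e • z0) ≤ T0 := by
    by_contra hcon
    have h4 := (B (e • s) (e • z0) (by omega)).1
    have h5 : d (e • s) s ≠ 0 := fun h0 => hes (hd.eq_of_zero h0)
    omega
  have h4 : e • z0 ≠ s := fun h => hna _ (he z0 hz0) (h ▸ hs)
  have h5 := Atri (e • s) (e • z0) z h4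
  have h6 := hK _ (he z0 hz0) z hz
  omega

/-- Two invariant sets with a big apex between them: the product is long. -/
theorem big (hA : Stmt_PSA) (hC : Stmt_CHAIN) (hALC : Stmt_ALC) (hps : IsPS d ap c T0)
    (hI : Isom G d) (hap : ∀ (g : G), ∀ s ∈ ap, g • s ∈ ap)
    (hc : ∀ (g : G), ∀ s ∈ ap, ∀ y y', d y s = 1 → d y' s = 1 →
      c (g • s) (g • y) (g • y') = c s y y') {K : ℕ} {P Q : G} {Z1 Z2 : Set A}
    (hP : ∀ z ∈ Z1, P • z ∈ Z1) (hP' : ∀ z ∈ Z1, P⁻¹ • z ∈ Z1)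
    (hQ : ∀ z ∈ Z2, Q • z ∈ Z2) (hQ' : ∀ z ∈ Z2, Q⁻¹ • z ∈ Z2)
    (hn1 : ∀ z ∈ Z1, z ∉ ap) (hn2 : ∀ z ∈ Z2, z ∉ ap)
    {s : A} (hs : s ∈ ap)
    (hK1 : ∀ z ∈ Z1, ∀ z' ∈ Z1, ang d c s z z' ≤ K)
    (hK2 : ∀ z ∈ Z2, ∀ z' ∈ Z2, ang d c s z z' ≤ K)
    (hPs : P • s ≠ s) (hQs : Q • s ≠ s) {z z' : A} (hz : z ∈ Z1) (hz' : z' ∈ Z2)
    (hang : 2 * K + 30 * T0 < ang d c s z z') : 2 ≤ slen d (P * Q) := by
  obtain ⟨-, -, -, Asym, Atri, -, -, B, -, -, -⟩ := hA A d ap c T0 hps s hs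
  have inv_ne : ∀ e : G, e • s ≠ s → e⁻¹ • s ≠ s := by
    intro e he h
    apply he
    conv_lhs => rw [← h]
    rw [smul_inv_smul]
  -- the four angles
  have key : ∀ e f : G, (∀ z ∈ Z1, e • z ∈ Z1) → (∀ z ∈ Z2, f • z ∈ Z2) → e • s ≠ s →
      f • s ≠ s → 20 * T0 < ang d c s (e • s) (f • s) := by
    intro e f he hf hes hfs
    have h1 := dir hA hps hI he hs hn1 hK1 hes hz
    have h2 := dir hA hps hI hf hs hn2 hK2 hfs hz'
    have h3 := Asym z (e • s)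
    have h4 := Atri z (e • s) z' hes
    have h5 := Atri (e • s) (f • s) z' hfs
    omega
  have a1 := key P Q hP hQ hPs hQs
  have a2 := key P⁻¹ Q hP' hQ (inv_ne P hPs) hQs
  have a3 := key P Q⁻¹ hP hQ' hPs (inv_ne Q hQs)
  -- the chain
  have hch := hC A d ap c T0 hps 3 (fun i => if i = 0 then (Q⁻¹ * P⁻¹) • s else if i = 1 then Q⁻¹ • s
    else if i = 2 then s else if i = 3 then P • s else (P * Q) • s) (by
      intro i hi
      have hi' : i = 0 ∨ i = 1 ∨ i = 2 := by omega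
      rcases hi' with rfl | rfl | rfl
      · refine ⟨hap _ s hs, ?_⟩
        show 2 * T0 < ang d c (Q⁻¹ • s) ((Q⁻¹ * P⁻¹) • s) s
        have h1 := GWA.ang_smul hI hc Q⁻¹ hs (P⁻¹ • s) (Q • s)
        rw [inv_smul_smul, ← mul_smul] at h1
        omega
      · refine ⟨hs, ?_⟩
        show 2 * T0 < ang d c s (Q⁻¹ • s) (P • s)
        have h1 := Asym (Q⁻¹ • s) (P • s)
        omega
      · refine ⟨hap _ s hs, ?_⟩
        show 2 * T0 < ang d c (P • s) s ((P * Q) • s)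
        have h1 := GWA.ang_smul hI hc P hs (P⁻¹ • s) (Q • s)
        rw [smul_inv_smul, ← mul_smul] at h1
        omega)
  have h1 := (hch.1 1 (by omega)).2.2.1
  have h2 : ang d c s ((Q⁻¹ * P⁻¹) • s) ((P * Q) • s) = ang d c s (Q⁻¹ • s) (P • s) := h1
  have h3 := Asym (Q⁻¹ • s) (P • s)
  have h4 : (P * Q)⁻¹ • s = (Q⁻¹ * P⁻¹) • s := by rw [mul_inv_rev]
  obtain ⟨-, h5, h6, -⟩ := hALC G A d ap c T0 hps hI hap hc (P * Q) s hs (by
    rw [h4]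
    omega)
  rw [h5]
  exact_mod_cast h6

end PQB

end Pool.Agent.Ady
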