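import Pool.Agent.Ady.Defs
import Pool.Agent.Olsh.Tree2

/-!
# MP_9e15c1_al, E-half: statements of the modules

Every module proves one `Stmt_*`, as `theorem X (h1 : Stmt_A) (h2 : Stmt_B) : Stmt_X`, taking as
hypotheses whatever earlier statements (of this file or of `Pool/Agent/Olsh`) it needs.
Proofs: `Pool/Agent/Ady/PAPER.md`.
-/

set_option autoImplicit false

namespace Pool.Agent.Ady

open Pool.Agent.Olsh

/-! ### Part B: rotating families of subgroups, the quotient -/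

/-- B1: the windmill induction principle. -/
def Stmt_IPF : Prop := ∀ (G A : Type) [Group G] [MulAction G A] (d : A → A → ℕ) (ap : Set A)
  (c : A → A → A → ℕ) (F : A → Subgroup G) (T0 L : ℕ), IsRotF G d ap c F T0 L → ∀ w, w ∉ ap →
  ∀ P : G → Prop, P 1 →
  (∀ s ∈ ap, ∀ r ∈ F s, ∀ g ∈ NF G ap F, L ≤ ang d c s w (g • w) + 12 * T0 →
    P (r * g) → P g) →
  ∀ g ∈ NF G ap F, P g

/-- B2: the subgroup generated by the family acts freely off the apexes, its stabilisers of the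
apexes are the given subgroups, and it is a rotating family in the sense of `Olsh`. -/
def Stmt_NSTAB : Prop := ∀ (G A : Type) [Group G] [MulAction G A] (d : A → A → ℕ) (ap : Set A)
  (c : A → A → A → ℕ) (F : A → Subgroup G) (T0 L : ℕ), IsRotF G d ap c F T0 L →
  (NF G ap F).Normal ∧
  (∀ w, w ∉ ap → ∀ g ∈ NF G ap F, g • w = w → g = 1) ∧
  (∀ s ∈ ap, ∀ g ∈ NF G ap F, g • s = s → g ∈ F s) ∧
  IsRot (NF G ap F) d ap c T0 L ∧ KK (NF G ap F) ap = ⊤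

/-- B3: existence of the quotient. -/
def Stmt_MKQ : Prop := ∀ η : ℕ, ∃ η1 C : ℕ, 1 ≤ C ∧ 1000 * dl + 100 * η + 1000 ≤ η1 ∧
  ∀ (G X S : Type) [Group G] [MulAction G X] [MulAction G S] (n : ℕ) (d : X → X → ℕ) (u L : ℕ)
  (Y : S → Set X) (F : S → Subgroup G), ConeF G n d u L Y F η η1 → C ≤ u → 2000 * C * u < L →
  ∃ (N : Subgroup G) (G' A' : Type) (_ : Group G') (_ : MulAction G' A') (d' : A' → A' → ℕ)
    (π : G →* G') (q : X ⊕ S → A'), QT G G' N n d u L Y η η1 C d' π q ∧ ∀ s, F s ≤ N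

/-! ### Part C: transfer of the invariants -/

/-- C1: basic facts about the quotient. -/
def Stmt_QTB : Prop := ∀ (G G' X S A' : Type) [Group G] [MulAction G X] [MulAction G S]
  [Group G'] [MulAction G' A'] (N : Subgroup G) (n : ℕ) (d : X → X → ℕ) (u L : ℕ) (Y : S → Set X)
  (η η1 C : ℕ) (d' : A' → A' → ℕ) (π : G →* G') (q : X ⊕ S → A'),
  QT G G' N n d u L Y η η1 C d' π q →
  IsGM d' ∧ IsomAct G' d' ∧ Hyp d' dl ∧
  IsPS d' (q '' apx X S) (cq (cd d u Y) (cdX d) q) (C * u) ∧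
  (∀ (g : G'), ∀ s ∈ q '' apx X S, g • s ∈ q '' apx X S) ∧
  (∀ (g : G'), ∀ s ∈ q '' apx X S, ∀ y y', d' y s = 1 → d' y' s = 1 →
    cq (cd d u Y) (cdX d) q (g • s) (g • y) (g • y') = cq (cd d u Y) (cdX d) q s y y') ∧
  (∀ a, q a ∈ q '' apx X S → a ∈ apx X S) ∧
  (∀ s ∈ apx X S, ∀ y y', cd d u Y y s = 1 → cd d u Y y' s = 1 →
    cq (cd d u Y) (cdX d) q (q s) (q y) (q y') ≤ cdX d s y y' ∧
    ∃ r ∈ N, r • s = s ∧ cq (cd d u Y) (cdX d) q (q s) (q y) (q y') = cdX d s y (r • y')) ∧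
  (∀ (x : G') (a : X ⊕ S), x • q a = q a → ∃ g : G, π g = x ∧ g • a = a)

/-- C2: equivariant lifting of two translations. -/
def Stmt_TRT : Prop := ∀ (G G' X S A' : Type) [Group G] [MulAction G X] [MulAction G S]
  [Group G'] [MulAction G' A'] (N : Subgroup G) (n : ℕ) (d : X → X → ℕ) (u L : ℕ) (Y : S → Set X)
  (η η1 C : ℕ) (d' : A' → A' → ℕ) (π : G →* G') (q : X ⊕ S → A'),
  QT G G' N n d u L Y η η1 C d' π q → ∀ a b a' b' : X ⊕ S, a ∉ apx X S → b ∉ apx X S →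
  a' ∉ apx X S → b' ∉ apx X S →
  (∀ s ∈ apx X S, 10 * ang (cd d u Y) (cdX d) s a b ≤ L ∧
    10 * ang (cd d u Y) (cdX d) s a' b' ≤ L) → ∀ g' : G',
  ∃ g : G, π g = g' ∧ cd d u Y a (g • a') = d' (q a) (g' • q a') ∧
    cd d u Y b (g • b') = d' (q b) (g' • q b')

/-- C3: torsion, malnormality of centralisers, no inversions. -/
def Stmt_TMAL : Prop := ∀ (G X : Type) [Group G] [MulAction G X] (n : ℕ) (d : X → X → ℕ)
  (a0 L0 Ca : ℕ), LevT G n d a0 L0 Ca → 16 * dl ≤ a0 →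
  (∀ g : G, g ^ n = 1 → slen d g = 0) ∧ (∀ g : G, slen d g = 0 → g ^ n = 1) ∧
  (∀ a t : G, 0 < slen d a → a * t = t * a → slen d t = 0 → t = 1) ∧
  (∀ a b : G, 0 < slen d a → a * (b * a * b⁻¹) = (b * a * b⁻¹) * a → a * b = b * a) ∧
  (∀ a b : G, 0 < slen d a → b * a * b⁻¹ ≠ a⁻¹)

/-- C4: an element which moves two far points by a bounded amount is trivial or loxodromic
(pure hyperbolic geometry, from the same statement for small displacement). -/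
def Stmt_OVT1 : Prop := ∃ A C : ℕ, ∀ (G X : Type) [Group G] [MulAction G X] (d : X → X → ℕ),
  IsGM d → Hyp d dl → IsomAct G d → ∀ a0 L0 : ℕ, A ≤ a0 →
  (∀ (g : G) (p q : X), d p (g • p) ≤ a0 → d q (g • q) ≤ a0 → L0 ≤ d p q →
    g = 1 ∨ 0 < slen d g) →
  ∀ (g : G) (p q : X) (al : ℕ), d p (g • p) ≤ al → d q (g • q) ≤ al →
    4 * al + 2 * L0 + C ≤ d p q → g = 1 ∨ 0 < slen d g

/-- C5: two elements which move two far points by a bounded amount commute; one is trivial or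
loxodromic. -/
def Stmt_TOV : Prop := ∃ A C : ℕ, ∀ (G X : Type) [Group G] [MulAction G X] (n : ℕ)
  (d : X → X → ℕ) (a0 L0 Ca : ℕ), LevT G n d a0 L0 Ca → A ≤ a0 →
  (∀ (g h : G) (p q : X) (al be : ℕ), d p (g • p) ≤ al → d q (g • q) ≤ al →
    d p (h • p) ≤ be → d q (h • q) ≤ be → 4 * (al + be) + 2 * L0 + C ≤ d p q → g * h = h * g) ∧
  ∀ (g : G) (p q : X) (al : ℕ), d p (g • p) ≤ al → d q (g • q) ≤ al →
    4 * al + 2 * L0 + C ≤ d p q → g = 1 ∨ 0 < slen d g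

/-- C6: axes of non-commuting loxodromic elements have small overlap. -/
def Stmt_TOVAX : Prop := ∃ A : ℕ, ∀ r : ℕ, ∃ C : ℕ, ∀ (G X : Type) [Group G] [MulAction G X]
  (n : ℕ) (d : X → X → ℕ) (a0 L0 Ca : ℕ), LevT G n d a0 L0 Ca → A ≤ a0 →
  ∀ (a b : G) (p q : X), 0 < slen d a → 0 < slen d b → a * b ≠ b * a → p ∈ Nd d r (AX d a) →
    q ∈ Nd d r (AX d a) → p ∈ Nd d r (AX d b) → q ∈ Nd d r (AX d b) →
    (d p q : ℝ) ≤ 4 * (slen d a + slen d b) + 2 * L0 + C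

/-- C7: elements fixing a vertex, lifts of loxodromic elements. -/
def Stmt_TLL : Prop := ∀ (G G' X S A' : Type) [Group G] [MulAction G X] [MulAction G S]
  [Group G'] [MulAction G' A'] (N : Subgroup G) (n : ℕ) (d : X → X → ℕ) (u L : ℕ) (Y : S → Set X)
  (η η1 C : ℕ) (d' : A' → A' → ℕ) (π : G →* G') (q : X ⊕ S → A') (a0 L0 Ca : ℕ),
  QT G G' N n d u L Y η η1 C d' π q → LevT G n d a0 L0 Ca →
  (∀ (x : G') (v : A'), x • v = v → x ^ n = 1) ∧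
  (∀ x : G', x ^ n = 1 → slen d' x = 0) ∧
  (∀ g : G, 0 < slen d' (π g) → 0 < slen d g ∧ ∀ s : S, g • s ≠ s)

/-- C8: the types of elements of the quotient. -/
def Stmt_TTYPES : Prop := ∀ η η1 C : ℕ, ∃ E : ℕ, 1 ≤ E ∧ ∀ a0 L0 Ca : ℕ, ∃ U : ℕ,
  ∀ (G G' X S A' : Type) [Group G] [MulAction G X] [MulAction G S] [Group G'] [MulAction G' A']
  (N : Subgroup G) (n : ℕ) (d : X → X → ℕ) (u L : ℕ) (Y : S → Set X) (d' : A' → A' → ℕ)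
  (π : G →* G') (q : X ⊕ S → A'),
  LQT G G' N n d u L Y η η1 C d' π q a0 L0 Ca U → ∀ x : G',
  (∃ v : A', x • v = v) ∨
  (∃ t ∈ q '' apx X S, 20 * (C * u) < angQ d u Y d' q t (x⁻¹ • t) (x • t)) ∨
  TyBe d u π E x ∨ DD < disp d' x

/-- C9: loxodromic elements of `G` fixing no apex with small displacement: the axis embeds. -/
def Stmt_TBEAX : Prop := ∀ η η1 C E : ℕ, ∃ C10 : ℕ, ∀ a0 L0 Ca : ℕ, ∃ U : ℕ,
  ∀ (G G' X S A' : Type) [Group G] [MulAction G X] [MulAction G S] [Group G'] [MulAction G' A']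
  (N : Subgroup G) (n : ℕ) (d : X → X → ℕ) (u L : ℕ) (Y : S → Set X) (d' : A' → A' → ℕ)
  (π : G →* G') (q : X ⊕ S → A'),
  LQT G G' N n d u L Y η η1 C d' π q a0 L0 Ca U → ∀ (g : G) (o : X), 0 < slen d g →
  (∀ s : S, g • s ≠ s) → d o (g • o) ≤ E * u →
  (∀ v w, v ∈ AX d g → w ∈ AX d g → (∀ s : S, angC d u Y s v w ≤ C10 * u) ∧
    d' (q (Sum.inl v)) (q (Sum.inl w)) = cd d u Y (Sum.inl v) (Sum.inl w) ∧
    ∀ s ∈ q '' apx X S, angQ d u Y d' q s (q (Sum.inl v)) (q (Sum.inl w)) ≤ C10 * u) ∧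
  slen d g ≤ C10 * u * slen d' (π g)

/-- C10: every element of the quotient has exponent `n` or is loxodromic. -/
def Stmt_TLOX : Prop := ∀ η η1 C a0 L0 Ca : ℕ, ∃ U : ℕ,
  ∀ (G G' X S A' : Type) [Group G] [MulAction G X] [MulAction G S] [Group G'] [MulAction G' A']
  (N : Subgroup G) (n : ℕ) (d : X → X → ℕ) (u L : ℕ) (Y : S → Set X) (d' : A' → A' → ℕ)
  (π : G →* G') (q : X ⊕ S → A'),
  LQT G G' N n d u L Y η η1 C d' π q a0 L0 Ca U → ∀ x : G', x ^ n = 1 ∨ 0 < slen d' x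

/-- C11: short loxodromic elements have short lifts. -/
def Stmt_TNU1 : Prop := ∀ η η1 C : ℕ, ∃ V1 : ℕ, 1 ≤ V1 ∧ ∀ a0 L0 Ca : ℕ, ∃ U : ℕ,
  ∀ (G G' X S A' : Type) [Group G] [MulAction G X] [MulAction G S] [Group G'] [MulAction G' A']
  (N : Subgroup G) (n : ℕ) (d : X → X → ℕ) (u L : ℕ) (Y : S → Set X) (d' : A' → A' → ℕ)
  (π : G →* G') (q : X ⊕ S → A'),
  LQT G G' N n d u L Y η η1 C d' π q a0 L0 Ca U → ∀ x : G', 0 < slen d' x →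
  1 ≤ V1 * slen d' x ∨ TyBe d u π 1 x

/-- C12: an element fixing two apexes is trivial. -/
def Stmt_TWO : Prop := ∀ η η1 C a0 L0 Ca : ℕ, ∃ U : ℕ,
  ∀ (G G' X S A' : Type) [Group G] [MulAction G X] [MulAction G S] [Group G'] [MulAction G' A']
  (N : Subgroup G) (n : ℕ) (d : X → X → ℕ) (u L : ℕ) (Y : S → Set X) (d' : A' → A' → ℕ)
  (π : G →* G') (q : X ⊕ S → A'),
  LQT G G' N n d u L Y η η1 C d' π q a0 L0 Ca U → ∀ (x : G'), ∀ s ∈ q '' apx X S,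
  ∀ t ∈ q '' apx X S, s ≠ t → x • s = s → x • t = t → x = 1

/-- C13: an element moving `v` and `w` little, and an apex with a big angle between them: the apex
is fixed, or its orbit is a chain with big angles. -/
def Stmt_BIGX : Prop := ∀ (G A : Type) [Group G] [MulAction G A] (d : A → A → ℕ) (ap : Set A)
  (c : A → A → A → ℕ) (T0 : ℕ), IsPS d ap c T0 → IsomAct G d → (∀ (g : G), ∀ s ∈ ap, g • s ∈ ap) →
  (∀ (g : G), ∀ s ∈ ap, ∀ y y', d y s = 1 → d y' s = 1 →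
    c (g • s) (g • y) (g • y') = c s y y') →
  ∀ (x : G) (D : ℕ) (v w : A), ∀ s ∈ ap, d v (x • v) ≤ D → d w (x • w) ≤ D → 3 * D < d v s →
  3 * D < d s w → 30 * T0 < ang d c s v w →
  x • s = s ∨ 20 * T0 < ang d c s (x⁻¹ • s) (x • s)

/-- C14: lower bound for angles from an overlap with `Y s`. -/
def Stmt_TANGL : Prop := ∀ η η1 C : ℕ, ∃ C' : ℕ, ∀ (X S : Type) (d : X → X → ℕ) (u : ℕ)
  (Y : S → Set X), ConeP d u Y η η1 C → ∀ (s : S) (p q z1 z2 y1 y2 : X) (r : ℕ), Bt d p z2 q →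
  Bt d p z1 z2 → y1 ∈ Y s → y2 ∈ Y s → d z1 y1 ≤ r → d z2 y2 ≤ r →
  d z1 z2 ≤ angC d u Y s p q + 2 * r + C' * u

/-- C15: two far points: a big apex between them, or lifts with small angles, and elements which
move the points little lift to elements moving the middle of the geodesic of `X` little. -/
def Stmt_LIFT2 : Prop := ∀ η η1 C : ℕ, ∃ (B : ℕ) (N0 κ : ℕ → ℕ) (F : ℕ → ℕ → ℕ → ℕ),
  ∀ a0 L0 Ca : ℕ, ∃ U : ℕ,
  ∀ (G G' X S A' : Type) [Group G] [MulAction G X] [MulAction G S] [Group G'] [MulAction G' A']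
  (N : Subgroup G) (n : ℕ) (d : X → X → ℕ) (u L : ℕ) (Y : S → Set X) (d' : A' → A' → ℕ)
  (π : G →* G') (q : X ⊕ S → A'),
  LQT G G' N n d u L Y η η1 C d' π q a0 L0 Ca U → ∀ (D K R : ℕ) (v w : A'), F D K R ≤ d' v w →
  (∃ s ∈ q '' apx X S, Bt d' v s w ∧ K ≤ d' v s ∧ K ≤ d' s w ∧
    36 * (C * u) < angQ d u Y d' q s v w) ∨
  ∃ (p1 q1 : A') (p2 q2 : X), Bt d' v p1 w ∧ Bt d' p1 q1 w ∧ K ≤ d' v p1 ∧ K ≤ d' q1 w ∧
    q (Sum.inl p2) = p1 ∧ q (Sum.inl q2) = q1 ∧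
    cd d u Y (Sum.inl p2) (Sum.inl q2) = d' p1 q1 ∧
    (∀ s : S, angC d u Y s p2 q2 ≤ B * u) ∧ R * u ≤ d p2 q2 ∧
    ∀ e : G', d' v (e • v) ≤ D → d' w (e • w) ≤ D → ∃ e1 : G, π e1 = e ∧
      ∀ z : X, Bt d p2 z q2 → N0 D * u < d p2 z → N0 D * u < d z q2 →
        d z (e1 • z) ≤ κ D * u

/-- C16: a nontrivial element fixing an apex moves far points far. -/
def Stmt_FIX : Prop := ∀ η η1 C D : ℕ, ∃ F1 : ℕ, ∀ a0 L0 Ca : ℕ, ∃ U : ℕ,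
  ∀ (G G' X S A' : Type) [Group G] [MulAction G X] [MulAction G S] [Group G'] [MulAction G' A']
  (N : Subgroup G) (n : ℕ) (d : X → X → ℕ) (u L : ℕ) (Y : S → Set X) (d' : A' → A' → ℕ)
  (π : G →* G') (q : X ⊕ S → A'),
  LQT G G' N n d u L Y η η1 C d' π q a0 L0 Ca U → ∀ (x : G') (v : A'), ∀ s ∈ q '' apx X S,
  x ≠ 1 → x • s = s → d' v (x • v) ≤ D → d' v s ≤ F1

/-- C17: `wt` for the quotient. -/
def Stmt_TWT : Prop := ∀ η η1 C : ℕ, ∃ A : ℕ, ∀ D : ℕ, ∃ F : ℕ, ∀ a0 L0 Ca : ℕ, A ≤ a0 →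
  ∃ U : ℕ,
  ∀ (G G' X S A' : Type) [Group G] [MulAction G X] [MulAction G S] [Group G'] [MulAction G' A']
  (N : Subgroup G) (n : ℕ) (d : X → X → ℕ) (u L : ℕ) (Y : S → Set X) (d' : A' → A' → ℕ)
  (π : G →* G') (q : X ⊕ S → A'),
  LQT G G' N n d u L Y η η1 C d' π q a0 L0 Ca U → ∀ (x : G') (v w : A'), d' v (x • v) ≤ D →
  d' w (x • w) ≤ D → F ≤ d' v w → x = 1 ∨ 0 < slen d' x

/-- C18: `wa` for the quotient, for all displacements. -/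
def Stmt_TGWA : Prop := ∀ η η1 C : ℕ, ∃ (A : ℕ) (F : ℕ → ℕ), ∀ a0 L0 Ca : ℕ, A ≤ a0 →
  ∃ U : ℕ,
  ∀ (G G' X S A' : Type) [Group G] [MulAction G X] [MulAction G S] [Group G'] [MulAction G' A']
  (N : Subgroup G) (n : ℕ) (d : X → X → ℕ) (u L : ℕ) (Y : S → Set X) (d' : A' → A' → ℕ)
  (π : G →* G') (q : X ⊕ S → A'),
  LQT G G' N n d u L Y η η1 C d' π q a0 L0 Ca U → ∀ (D : ℕ) (g h : G') (v w : A'),
  d' v (g • v) ≤ D → d' w (g • w) ≤ D → d' v (h • v) ≤ D → d' w (h • w) ≤ D → F D ≤ d' v w →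
  g * h = h * g

/-- C19: `csa` for the quotient. -/
def Stmt_TCSA : Prop := ∀ η η1 C : ℕ, ∃ A : ℕ, ∀ a0 L0 Ca : ℕ, A ≤ a0 → ∃ U : ℕ,
  ∀ (G G' X S A' : Type) [Group G] [MulAction G X] [MulAction G S] [Group G'] [MulAction G' A']
  (N : Subgroup G) (n : ℕ) (d : X → X → ℕ) (u L : ℕ) (Y : S → Set X) (d' : A' → A' → ℕ)
  (π : G →* G') (q : X ⊕ S → A'),
  LQT G G' N n d u L Y η η1 C d' π q a0 L0 Ca U → ∀ a b c : G', 0 < slen d' b →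
  a * b = b * a → b * c = c * b → a * c = c * a

/-- C20: the axis of a lift and the axis of its image are close. -/
def Stmt_AXIM : Prop := ∀ η η1 C : ℕ, ∃ K : ℕ, ∀ E a0 L0 Ca : ℕ, ∃ U : ℕ,
  ∀ (G G' X S A' : Type) [Group G] [MulAction G X] [MulAction G S] [Group G'] [MulAction G' A']
  (N : Subgroup G) (n : ℕ) (d : X → X → ℕ) (u L : ℕ) (Y : S → Set X) (d' : A' → A' → ℕ)
  (π : G →* G') (q : X ⊕ S → A'),
  LQT G G' N n d u L Y η η1 C d' π q a0 L0 Ca U → ∀ (g : G) (o : X), 0 < slen d' (π g) →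
  d o (g • o) ≤ E * u →
  (∀ y ∈ AX d g, ∃ p ∈ AX d' (π g), d' (q (Sum.inl y)) p ≤ K) ∧
  ∀ p ∈ AX d' (π g), ∃ y ∈ AX d g, d' p (q (Sum.inl y)) ≤ K

/-- C21: displacement grows with the distance from the axis, if this holds for small displacement
(pure hyperbolic geometry). -/
def Stmt_NAG : Prop := ∃ D0 : ℕ, ∀ F3 : ℕ, ∃ Ca : ℕ, ∀ (G X : Type) [Group G] [MulAction G X]
  (d : X → X → ℕ), IsGM d → Hyp d dl → IsomAct G d → Nonempty X → ∀ g : G, 0 < slen d g →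
  (∀ v : X, d v (g • v) ≤ D0 → ∃ y ∈ AX d g, d v y ≤ F3) →
  ∀ v : X, ∃ y ∈ AX d g, 2 * d v y ≤ d v (g • v) + Ca

/-- C22: `na` for the quotient. -/
def Stmt_TNA : Prop := ∀ η η1 C : ℕ, ∃ CA : ℕ, ∀ a0 L0 Ca : ℕ, ∃ U : ℕ,
  ∀ (G G' X S A' : Type) [Group G] [MulAction G X] [MulAction G S] [Group G'] [MulAction G' A']
  (N : Subgroup G) (n : ℕ) (d : X → X → ℕ) (u L : ℕ) (Y : S → Set X) (d' : A' → A' → ℕ)
  (π : G →* G') (q : X ⊕ S → A'),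
  LQT G G' N n d u L Y η η1 C d' π q a0 L0 Ca U → ∀ (x : G') (v : A'), 0 < slen d' x →
  ∃ y ∈ AX d' x, 2 * d' v y ≤ d' v (x • v) + CA

/-- C23: the transfer theorem. -/
def Stmt_TTRANSFER : Prop := ∀ η η1 C : ℕ, ∃ (A : ℕ) (F : ℕ → ℕ) (CA : ℕ), ∀ a0 L0 Ca : ℕ,
  A ≤ a0 → F a0 ≤ L0 → CA ≤ Ca → ∃ U : ℕ,
  ∀ (G G' X S A' : Type) [Group G] [MulAction G X] [MulAction G S] [Group G'] [MulAction G' A']
  (N : Subgroup G) (n : ℕ) (d : X → X → ℕ) (u L : ℕ) (Y : S → Set X) (d' : A' → A' → ℕ)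
  (π : G →* G') (q : X ⊕ S → A'),
  LQT G G' N n d u L Y η η1 C d' π q a0 L0 Ca U → LevT G' n d' a0 L0 Ca

/-! ### Part D: growth of chains -/

/-- D1: product of two isometries of small displacement with far axes. -/
def Stmt_PRODS : Prop := ∀ E Ca : ℕ, ∃ ρ0 : ℕ, ∀ (G X : Type) [Group G] [MulAction G X]
  (d : X → X → ℕ), IsGM d → Hyp d dl → IsomAct G d → ∀ (P Q : G) (p r : X), d p (P • p) ≤ E →
  d r (Q • r) ≤ E → 2 * d p r ≤ d r (P • r) + Ca → 2 * d p r ≤ d p (Q • p) + Ca → ρ0 ≤ d p r →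
  1 ≤ slen d (P * Q)

/-- D2: length of the commutator of a long power with an element which does not commute. -/
def Stmt_GROW : Prop := ∃ A C1 : ℕ, ∀ (G X : Type) [Group G] [MulAction G X] (n : ℕ)
  (d : X → X → ℕ) (a0 L0 Ca : ℕ), LevT G n d a0 L0 Ca → A ≤ a0 → ∀ (c Y : G) (M : ℕ),
  0 < slen d c → c * Y ≠ Y * c → 16 * slen d c + 4 * L0 + C1 ≤ M * slen d c →
  2 * (M * slen d c) ≤ slen d (cm (c ^ M) Y) + 16 * slen d c + 4 * L0 + C1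

/-- D3: lifting one step of a chain of short elements. -/
def Stmt_PQ : Prop := ∀ η η1 C : ℕ, ∃ A : ℕ, ∀ a0 L0 Ca : ℕ, A ≤ a0 → ∃ V m0 U : ℕ, 1 ≤ V ∧
  ∀ (G G' X S A' : Type) [Group G] [MulAction G X] [MulAction G S] [Group G'] [MulAction G' A']
  (N : Subgroup G) (n : ℕ) (d : X → X → ℕ) (u L : ℕ) (Y : S → Set X) (d' : A' → A' → ℕ)
  (π : G →* G') (q : X ⊕ S → A'),
  LQT G G' N n d u L Y η η1 C d' π q a0 L0 Ca U → LevT G' n d' a0 L0 Ca →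
  ∀ (M : ℕ) (g : G) (o : X) (y : G'), m0 ≤ M → d o (g • o) ≤ u → 0 < slen d' (π g) →
  0 < slen d' (cm (π g ^ M) y) → V * slen d' (cm (π g ^ M) y) < 1 →
  ∃ (y1 : G) (o1 : X), π y1 = y ∧ d o1 (cm (g ^ M) y1 • o1) ≤ u

/-- D4: the growth of chains passes to the quotient. -/
def Stmt_CLAIMT : Prop := ∀ η η1 C : ℕ, ∃ A : ℕ, ∀ a0 L0 Ca : ℕ, A ≤ a0 → ∃ V m0 U : ℕ,
  1 ≤ V ∧
  ∀ (G G' X S A' : Type) [Group G] [MulAction G X] [MulAction G S] [Group G'] [MulAction G' A']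
  (N : Subgroup G) (n : ℕ) (d : X → X → ℕ) (u L : ℕ) (Y : S → Set X) (d' : A' → A' → ℕ)
  (π : G →* G') (q : X ⊕ S → A'),
  LQT G G' N n d u L Y η η1 C d' π q a0 L0 Ca U → LevT G' n d' a0 L0 Ca →
  Clm G n d V m0 → Clm G' n d' V m0

/-- D5: lengths for a regular pair. -/
def Stmt_RLN : Prop := ∃ A : ℕ, ∀ a0 L0 : ℕ, A ≤ a0 → ∃ B0 m0 : ℕ, ∀ (G X : Type) [Group G]
  [MulAction G X] (n : ℕ) (d : X → X → ℕ) (Ca : ℕ), LevT G n d a0 L0 Ca → ∀ (c Y : G) (M : ℕ),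
  Rg d B0 c Y → m0 ≤ M →
  2 * (M * slen d c) ≤ slen d (cm (c ^ M) Y) + 17 * slen d c ∧
  slen d (cm (c ^ M) Y) ≤ 2 * (M * slen d c) + 17 * slen d c

/-- D6: the chain becomes regular. -/
def Stmt_SEQ : Prop := ∃ A : ℕ, ∀ a0 L0 V : ℕ, A ≤ a0 → ∃ m0 : ℕ, ∀ (G X : Type) [Group G]
  [MulAction G X] (n : ℕ) (d : X → X → ℕ) (Ca : ℕ), LevT G n d a0 L0 Ca →
  ∀ (M : ℕ) (c : ℕ → G) (Y : G), m0 ≤ M → (∀ j, c (j + 1) = cm (c j ^ M) Y) →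
  (∀ j, 0 < slen d (c j)) → (∃ k, 1 ≤ V * slen d (c k)) → ∀ B : ℕ, ∃ k0, ∀ j, k0 ≤ j →
  Rg d B (c j) Y

/-- D7: the coordinate along the axis of `R`. -/
def Stmt_BUS : Prop := ∀ (G X : Type) [Group G] [MulAction G X] (d : X → X → ℕ), IsGM d →
  Hyp d dl → IsomAct G d → Nonempty X → ∀ R : G, (DD : ℝ) ≤ slen d R → ∃ β : X → ℤ, IsBus d R β

/-- D8: two pieces with a long overlap have commuting elements. -/
def Stmt_OVL : Prop := ∃ A C : ℕ, ∀ (G X : Type) [Group G] [MulAction G X] (n : ℕ)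
  (d : X → X → ℕ) (a0 L0 Ca : ℕ), LevT G n d a0 L0 Ca → A ≤ a0 → ∀ (R : G) (β : X → ℤ),
  (DD : ℝ) ≤ slen d R → IsBus d R β → ∀ (r m m' : ℕ) (a b a' b' : X) (e e' : G) (t t' : ℤ),
  IsPc d R r m a b e → IsPc d R r m' a' b' e' → t + 4 * (m + m') + 2 * L0 + C ≤ t' →
  β a + 2 * r + C ≤ t → β a' + 2 * r + C ≤ t → t' + 2 * r + C ≤ β b → t' + 2 * r + C ≤ β b' →
  e * e' = e' * e

/-- D9: the pieces of `R = [c^M, Y]`: `[x0, x1]` with the element `c`, `[x1, R x0]` with the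
element `(c^M Y) c (c^M Y)⁻¹`. -/
def Stmt_PCS : Prop := ∃ A : ℕ, ∀ a0 L0 : ℕ, A ≤ a0 → ∃ B0 m0 : ℕ, ∀ (G X : Type) [Group G]
  [MulAction G X] (n : ℕ) (d : X → X → ℕ) (Ca : ℕ), LevT G n d a0 L0 Ca → ∀ (c Y : G) (M : ℕ),
  Rg d B0 c Y → m0 ≤ M → (DD : ℝ) ≤ slen d (cm (c ^ M) Y) ∧ ∀ β : X → ℤ,
  IsBus d (cm (c ^ M) Y) β → ∃ (r m : ℕ) (x0 x1 : X), (r : ℝ) ≤ 10 * slen d c ∧
    (m : ℝ) ≤ 2 * slen d c ∧ IsPc d (cm (c ^ M) Y) r m x0 x1 c ∧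
    IsPc d (cm (c ^ M) Y) r m x1 (cm (c ^ M) Y • x0) (c ^ M * Y * c * (c ^ M * Y)⁻¹) ∧
    M * slen d c ≤ β x1 - β x0 + 50 * slen d c ∧ β x1 - β x0 ≤ M * slen d c + 50 * slen d c ∧
    M * slen d c ≤ β (cm (c ^ M) Y • x0) - β x1 + 50 * slen d c ∧
    β (cm (c ^ M) Y • x0) - β x1 ≤ M * slen d c + 50 * slen d c

/-- D10: nontrivial elements commuting with `R = [c^M, Y]` are long. -/
def Stmt_ROOT : Prop := ∃ A : ℕ, ∀ a0 L0 : ℕ, A ≤ a0 → ∃ B0 m0 : ℕ, ∀ (G X : Type) [Group G]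
  [MulAction G X] (n : ℕ) (d : X → X → ℕ) (Ca : ℕ), LevT G n d a0 L0 Ca → ∀ (c Y : G) (M : ℕ),
  Rg d B0 c Y → m0 ≤ M → ∀ z : G, z * cm (c ^ M) Y = cm (c ^ M) Y * z → z ≠ 1 →
  M * slen d c ≤ 2 * slen d z + 200 * slen d c

/-- D11: division with remainder in the centraliser of a loxodromic element. -/
def Stmt_DIV : Prop := ∀ (G X : Type) [Group G] [MulAction G X] (d : X → X → ℕ), IsGM d →
  Hyp d dl → IsomAct G d → Nonempty X → ∀ R z : G, 0 < slen d R → z * R = R * z →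
  ∃ i : ℤ, 2 * slen d (z * R ^ i) ≤ slen d R

/-- D12: `R = [c^M, Y]` generates its centraliser. -/
def Stmt_CENT : Prop := ∃ A : ℕ, ∀ a0 L0 : ℕ, A ≤ a0 → ∃ B0 m0 : ℕ, ∀ (G X : Type) [Group G]
  [MulAction G X] (n : ℕ) (d : X → X → ℕ) (Ca : ℕ), LevT G n d a0 L0 Ca → ∀ (c Y : G) (M : ℕ),
  Rg d B0 c Y → m0 ≤ M → 0 < slen d (cm (c ^ M) Y) ∧
  ∀ z : G, z * cm (c ^ M) Y = cm (c ^ M) Y * z → ∃ i : ℤ, z = cm (c ^ M) Y ^ i

/-- D13: if `R = [c^M, Y]` and `T = [b^M', Z]` commute, then conjugates of `c` and `b` commute. -/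
def Stmt_RIG : Prop := ∃ A : ℕ, ∀ a0 L0 : ℕ, A ≤ a0 → ∃ B0 m0 : ℕ, ∀ (G X : Type) [Group G]
  [MulAction G X] (n : ℕ) (d : X → X → ℕ) (Ca : ℕ), LevT G n d a0 L0 Ca →
  ∀ (c Y b Z : G) (M M' : ℕ), Rg d B0 c Y → Rg d B0 b Z → m0 ≤ M → m0 ≤ M' →
  cm (c ^ M) Y * cm (b ^ M') Z = cm (b ^ M') Z * cm (c ^ M) Y →
  ∃ w : G, (w * c * w⁻¹) * b = b * (w * c * w⁻¹)

/-- D14: chains for different odd primes do not meet. -/
def Stmt_NOC : Prop := ∃ A : ℕ, ∀ a0 L0 : ℕ, A ≤ a0 → ∃ B0 m0 : ℕ, ∀ (G X : Type) [Group G]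
  [MulAction G X] (n : ℕ) (d : X → X → ℕ) (Ca : ℕ), LevT G n d a0 L0 Ca → m0 ≤ n →
  ∀ s r : ℕ, 1 ≤ s → 1 ≤ r → s ≠ r → ∀ c' c Y b' b Z : G,
  c = cm (c' ^ (s * n ^ 2)) Y → b = cm (b' ^ (r * n ^ 2)) Z →
  Rg d B0 c' Y → Rg d B0 c Y → Rg d B0 b' Z → Rg d B0 b Z → ∀ z : G,
  (z * cm (c ^ (s * n ^ 2)) Y * z⁻¹) * cm (b ^ (r * n ^ 2)) Z ≠
    cm (b ^ (r * n ^ 2)) Z * (z * cm (c ^ (s * n ^ 2)) Y * z⁻¹)

/-! ### Part E: the step -/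

/-- E1: killing the `n`-th power of a long element which generates its centraliser. -/
def Stmt_KILL : Prop := ∃ η1 C : ℕ, ∃ A : ℕ, ∀ a0 L0 U : ℕ, A ≤ a0 → ∃ B n0 : ℕ, ∀ (G X : Type)
  [Group G] [MulAction G X] (n : ℕ) (d : X → X → ℕ) (Ca : ℕ), LevT G n d a0 L0 Ca → n0 ≤ n →
  ∀ z0 : G, (B : ℝ) ≤ slen d z0 → (∀ z : G, z * z0 = z0 * z → ∃ i : ℤ, z = z0 ^ i) →
  ∃ (S : Type) (_ : MulAction G S) (N : Subgroup G) (G' A' : Type) (_ : Group G')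
    (_ : MulAction G' A') (u L : ℕ) (Y : S → Set X) (d' : A' → A' → ℕ) (π : G →* G')
    (q : X ⊕ S → A'), LQT G G' N n d u L Y (59 * dl + 5) η1 C d' π q a0 L0 Ca U ∧
    π (z0 ^ n) = 1 ∧ (∀ (s : S) (g : G), g • s = s → ∃ (w : G) (i : ℤ), g = w * z0 ^ i * w⁻¹) ∧
    slen d z0 ≤ u

/-- E2: survival of a chain. -/
def Stmt_SURV : Prop := ∀ η η1 C : ℕ, ∃ A : ℕ, ∀ a0 L0 Ca : ℕ, A ≤ a0 → ∃ m0 B0 U : ℕ,
  ∀ (G G' X S A' : Type) [Group G] [MulAction G X] [MulAction G S] [Group G'] [MulAction G' A']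
  (N : Subgroup G) (n : ℕ) (d : X → X → ℕ) (u L : ℕ) (Y : S → Set X) (d' : A' → A' → ℕ)
  (π : G →* G') (q : X ⊕ S → A'),
  LQT G G' N n d u L Y η η1 C d' π q a0 L0 Ca U → LevT G' n d' a0 L0 Ca →
  ∀ (T : ℕ → G) (a Z : G) (M : ℕ), m0 ≤ M → T 0 = cm a Z → (∀ j, T (j + 1) = cm (T j ^ M) Z) →
  (∀ j, 0 < slen d (T j)) → (∀ j (s : S), T j • s ≠ s) → (π Z = 1 ∨ 0 < slen d' (π Z)) →
  (∃ k0, (∀ j, j ≤ k0 → 2 * slen d (T j) ≤ u) ∧ ∀ j, k0 ≤ j → Rg d B0 (T j) Z) →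
  ∀ j, 0 < slen d' (π (T j))

/-- A stage: a level with growth of chains on which the chain of `r` at the pair `x, y`
survives. -/
structure Stg (G : Type) {X : Type} [Group G] [MulAction G X] (n : ℕ) (d : X → X → ℕ)
    (a0 L0 Ca V m0 r : ℕ) (x y : G) : Prop where
  lev : LevT G n d a0 L0 Ca
  clm : Clm G n d V m0
  surv : ∀ j, 0 < slen d (chn n r x y j)

/-- E3: the free group is a stage. -/
def Stmt_BASE : Prop := ∃ CB : ℕ, ∀ a0 L0 Ca V m0 n r : ℕ, 4 * a0 + 2 ≤ L0 → CB ≤ Ca → 1 ≤ V →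
  Odd n → 1 ≤ r →
  Stg F2 n td a0 L0 Ca V m0 r (FreeGroup.of false) (FreeGroup.of true)

/-- E4: the step. -/
def Stmt_STEP : Prop := ∃ a0 L0 Ca V m0 n0 : ℕ,
  (∀ n r : ℕ, Odd n → n0 ≤ n → 1 ≤ r → Stg F2 n td a0 L0 Ca V m0 r (FreeGroup.of false)
    (FreeGroup.of true)) ∧
  ∀ n r : ℕ, Odd n → n0 ≤ n → 1 ≤ r → ∀ (G X : Type) [Group G] [MulAction G X]
  (d : X → X → ℕ) (x y : G), Stg G n d a0 L0 Ca V m0 r x y → ∀ (g h : G) (s : ℕ), 1 ≤ s →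
  s ≠ r → ∃ (G' X' : Type) (_ : Group G') (_ : MulAction G' X') (d' : X' → X' → ℕ)
    (φ : G →* G'), Function.Surjective φ ∧ Stg G' n d' a0 L0 Ca V m0 r (φ x) (φ y) ∧
    ∃ j, φ (chn n s g h j) ^ n = 1

/-- E5: the limit. -/
def Stmt_LIM : Prop := ∃ n0 : ℕ, ∀ n r : ℕ, Odd n → n0 ≤ n → 1 ≤ r →
  ∃ (G : Type) (_ : Group G) (x y : G), (∀ (g h : G) (s : ℕ), 1 ≤ s → s ≠ r →
    ∃ j, chn n s g h j ^ n = 1) ∧ ∀ j, chn n r x y j ^ n ≠ 1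

end Pool.Agent.Ady
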