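import Pool.Agent.Ady.Stmts
import Pool.Agent.Olsh.GWA

/-!
# MP_9e15c1_al, E-half: elements moving two far points little commute in the quotient (TGWA)
-/

set_option autoImplicit false

namespace Pool.Agent.Ady

open Pool.Agent.Olsh

namespace TGWA

variable {G A : Type} [Group G] [MulAction G A] {d : A → A → ℕ} {ap : Set A}
  {c : A → A → A → ℕ} {T0 : ℕ}

/-- The case of a big apex: the translates of the apex by `g h` and `h g` agree. -/
theorem big (hA : Stmt_PSA) (hps : IsPS d ap c T0) (hI : Isom G d)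
    (hap : ∀ (g : G), ∀ s ∈ ap, g • s ∈ ap)
    (hc : ∀ (g : G), ∀ s ∈ ap, ∀ y y', d y s = 1 → d y' s = 1 →
      c (g • s) (g • y) (g • y') = c s y y') {D : ℕ} {g h : G} {v w s : A}
    (hgv : d v (g • v) ≤ D) (hgw : d w (g • w) ≤ D) (hhv : d v (h • v) ≤ D)
    (hhw : d w (h • w) ≤ D) (hs : s ∈ ap) (hang : 6 * T0 < ang d c s v w)
    (h1 : 2 * D < d v s) (h2 : 2 * D < d s w) : (g * h) • s = (h * g) • s := by
  have hd := hps.gm
  have dgh : ∀ (a b : G) (x : A), d x (a • x) ≤ D → d x (b • x) ≤ D →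
      d x ((a * b) • x) ≤ 2 * D := by
    intro a b x ha hb
    have e1 := hd.tri x (a • x) ((a * b) • x)
    have e2 : d (a • x) ((a * b) • x) = d x (b • x) := by
      rw [mul_smul]
      exact hI _ _ _
    omega
  have m1 := GWA.ang_move (v := v) (w := w) hA hps hI hap hc hs (K := 4 * T0) g (by omega)
    (by omega) (by omega)
  have m2 := GWA.ang_move (v := v) (w := w) hA hps hI hap hc hs (K := 4 * T0) h (by omega)
    (by omega) (by omega)
  have q1 := dgh g h v hgv hhv
  have q2 := dgh g h w hgw hhw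
  have q3 := dgh h g v hhv hgv
  have q4 := dgh h g w hhw hgw
  have m3 := GWA.ang_move (v := v) (w := w) hA hps hI hap hc hs (K := 4 * T0) (g * h) (by omega)
    (by omega) (by omega)
  have m4 := GWA.ang_move (v := v) (w := w) hA hps hI hap hc hs (K := 4 * T0) (h * g) (by omega)
    (by omega) (by omega)
  have far : ∀ e : G, d w (e • w) ≤ D → D < d (e • s) w := by
    intro e he
    have e1 := hd.tri (e • s) w (e • w)
    have e2 : d (e • s) (e • w) = d s w := hI _ _ _
    omega
  have f1 := far g hgw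
  have f2 := far h hhw
  have o1 := GWA.order (v := v) (w := w) hA hps hI hap hc hs (hap h s hs) (by omega) m2 g m1
    (by rw [← mul_smul]; exact m3) (by omega) (by omega)
  have o2 := GWA.order (v := v) (w := w) hA hps hI hap hc hs (hap g s hs) (by omega) m1 h m2
    (by rw [← mul_smul]; exact m4) (by omega) (by omega)
  rw [← mul_smul] at o1 o2
  by_contra hne
  have hpos : d ((g * h) • s) ((h * g) • s) ≠ 0 := fun h0 => hne (hd.eq_of_zero h0)
  rcases GWA.lin (v := v) (w := w) hA hps (hap _ _ hs) (hap _ _ hs) hne (by omega) (by omega)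
    with h | h <;> omega

end TGWA

/-- TGWA: elements of the quotient moving two far points little commute. -/
theorem TGWA (h1 : Stmt_QTB) (h2 : Stmt_LIFT2) (h3 : Stmt_TWT) (h4 : Stmt_OVT1) (h5 : Stmt_TOV)
    (h7 : Stmt_PSA) : Stmt_TGWA := by
  intro η η1 C
  obtain ⟨B, N0, κ, F, h2⟩ := h2 η η1 C
  obtain ⟨A3, h3⟩ := h3 η η1 C
  obtain ⟨A4, C4, h4⟩ := h4
  obtain ⟨A5, C5, h5⟩ := h5
  obtain ⟨F3, h3⟩ := h3 A4
  refine ⟨A3 + A5, fun D => F D (2 * D + 1) (2 * N0 D + 8 * κ D + 10) + 16 * D + 2 * F3 + C4, ?_⟩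
  intro a0 L0 Ca hA
  obtain ⟨U2, h2⟩ := h2 a0 L0 Ca
  obtain ⟨U3, h3⟩ := h3 a0 L0 Ca (by omega)
  refine ⟨U2 + U3 + 2 * L0 + C5 + 1, ?_⟩
  intro G G' X S A' _ _ _ _ _ N n d u L Y d' π q H D g h v w hgv hgw hhv hhw hF
  obtain ⟨hd', hI', hh', hps, hap, hc, -, -, -⟩ := h1 G G' X S A' N n d u L Y η η1 C d' π q H.toQT
  have hF' : F D (2 * D + 1) (2 * N0 D + 8 * κ D + 10) + 16 * D + 2 * F3 + C4 ≤ d' v w := hF
  rcases h2 G G' X S A' N n d u L Y d' π q (H.mono (by omega)) D (2 * D + 1)
    (2 * N0 D + 8 * κ D + 10) v w (by omega) with h6 | h6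
  · obtain ⟨s, hs, -, hs1, hs2, hang⟩ := h6
    unfold angQ at hang
    have heq := TGWA.big h7 hps hI' hap hc hgv hgw hhv hhw hs (by omega) (by omega) (by omega)
    obtain ⟨t, ht⟩ : ∃ t, t = (h * g)⁻¹ * (g * h) := ⟨_, rfl⟩
    have h8 : t • s = s := by
      rw [ht, mul_smul, heq, inv_smul_smul]
    have h9 : ¬ 0 < slen d' t := by
      have e1 := IsomAct.slen_mul_le (d := d') t s 1
      rw [pow_one, h8, hd'.self, Nat.cast_one, one_mul, Nat.cast_zero] at e1
      exact not_lt.2 e1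
    -- the displacement of `t`
    have dt : ∀ x : A', d' x (g • x) ≤ D → d' x (h • x) ≤ D → d' x (t • x) ≤ 4 * D := by
      intro x hx1 hx2
      have e0 : d' x (t • x) = d' (h • g • x) (g • h • x) := by
        rw [ht, ← hI' (h * g) x, smul_smul, mul_inv_cancel_left, mul_smul, mul_smul]
      have e1 := hd'.tri (h • g • x) (h • x) (g • h • x)
      have e2 := hd'.tri (h • x) x (g • h • x)
      have e3 := hd'.tri x (g • x) (g • h • x)
      have e4 : d' (h • g • x) (h • x) = d' (g • x) x := hI' _ _ _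
      have e5 : d' (g • x) (g • h • x) = d' x (h • x) := hI' _ _ _
      have e6 := hd'.comm (g • x) x
      have e7 := hd'.comm (h • x) x
      omega
    have key := h4 G' A' d' hd' hh' hI' A4 F3 le_rfl
      (fun x p r hp hr hpr => h3 G G' X S A' N n d u L Y d' π q (H.mono (by omega)) x p r hp hr hpr)
      t v w (4 * D) (dt v hgv hhv) (dt w hgw hhw) (by omega)
    rcases key with key | key
    · rw [ht] at key
      exact (inv_mul_eq_one.mp key).symm
    · exact absurd key h9
  · obtain ⟨p1, q1, p2, q2, -, -, -, -, -, -, -, -, hR, hl⟩ := h6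
    obtain ⟨g1, hg1, hg1'⟩ := hl g hgv hgw
    obtain ⟨g2, hg2, hg2'⟩ := hl h hhv hhw
    have hd := H.lev.gm
    have hu1 : 1 ≤ u := le_trans (by omega) H.hu
    have hu2 : 2 * L0 + C5 ≤ u := le_trans (by omega) H.hu
    have eR : (2 * N0 D + 8 * κ D + 10) * u = 2 * (N0 D * u) + 8 * (κ D * u) + 10 * u := by ring
    rw [eR] at hR
    obtain ⟨z1, hz1, hz1'⟩ := hd.exists_bt p2 q2 (N0 D * u + 1) (by omega)
    have b1 : d z1 q2 = d p2 q2 - (N0 D * u + 1) := by
      unfold Bt at hz1
      omega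
    obtain ⟨z2, hz2, hz2'⟩ := hd.exists_bt z1 q2 (d z1 q2 - (N0 D * u + 1)) (by omega)
    have b2 : d z2 q2 = N0 D * u + 1 := by
      unfold Bt at hz2
      omega
    have b3 : Bt d p2 z2 q2 := by
      have e1 := hd.tri p2 z1 z2
      have e2 := hd.tri p2 z2 q2
      unfold Bt at *
      omega
    have b4 : d p2 z2 = d p2 q2 - (N0 D * u + 1) := by
      unfold Bt at b3
      omega
    have k1 := hg1' z1 hz1 (by omega) (by omega)
    have k2 := hg1' z2 b3 (by omega) (by omega)
    have k3 := hg2' z1 hz1 (by omega) (by omega)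
    have k4 := hg2' z2 b3 (by omega) (by omega)
    have key := (h5 G X n d a0 L0 Ca H.lev (by omega)).1 g1 g2 z1 z2 (κ D * u) (κ D * u)
      k1 k2 k3 k4 (by omega)
    have key' := congrArg π key
    rw [map_mul, map_mul, hg1, hg2] at key'
    exact key'

end Pool.Agent.Ady
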